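import Pool.Agent.H91.LD.SDefs

/-!
# PowerRate (MP_8f2e1c_an): definitions

Everything of `H85/LD` and `H91/LD` (LargeDegree) is used. `pK`: the sum over the cells of the cut off and projected perturbations `K j`.
-/

set_option autoImplicit false

open Polynomial MeasureTheory ComplexConjugate

namespace Pool.Agent.H91.PR

open Pool.Agent.H85.LD Pool.Agent.H91.LD

/-- sum over the cells of the cut off perturbations `K j` -/
noncomputable def pK (d : ℕ) (L : ℝ) {N : ℕ} (c : ℂ → Fin N) (Z : Set ℂ) (K : Fin N → ℂ[X]) : ℂ[X] :=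
  ∑ j, Pj d (chi d L c Z j) (K j)

end Pool.Agent.H91.PR
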