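import Pool.Agent.H91.LD.NearB
import Pool.Agent.H91.PR.PDefs

/-!
# [H91 PR CAP2A] `near_zero`, `base_pt` with explicit constants (used by `Cap2`)

Copies of `loc_zero`, `loc_base` (`H91/LD/EZero`), `near_zero` (`H91/LD/Near`) and `base_pt` (`H91/LD/NearB`) for a fixed `d`.
-/

set_option autoImplicit false

open Polynomial MeasureTheory ComplexConjugate

namespace Pool.Agent.H91.PR

open Pool.Agent.H85.LD Pool.Agent.H91.LD

private theorem loc_zero2 (M r : ℝ) (hM : 1 ≤ M) (hr : 0 < r) (hr1 : r ≤ 1) :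
    ∀ g : ℂ → ℂ, EB g M → (∀ u, ‖u‖ ≤ 1 → ‖g u‖ < r ^ 8 → r ^ 4 ≤ ‖deriv g u‖) →
    ∀ ξ : ℝ, ξ ≤ r ^ 8 / (8 * M) → ∀ u, ‖u‖ ≤ 1 / 2 → ‖g u‖ ≤ ξ →
    ∃ v, ‖v‖ ≤ 1 ∧ g v = 0 ∧ ‖v - u‖ ≤ 2 / r ^ 4 * ξ := by
  have hM0 : 0 < M := by linarith
  have hr4 : 0 < r ^ 4 := by positivity
  have hr8 : 0 < r ^ 8 := by positivity
  have hr41 : r ^ 4 ≤ 1 := pow_le_one₀ hr.le hr1
  intro g hg hgd ξ hξ u hu hgu
  have hξ0 : 0 ≤ ξ := (norm_nonneg _).trans hgu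
  have h8 : 8 * M * ξ ≤ (r ^ 4) ^ 2 := by
    rw [le_div_iff₀ (by positivity)] at hξ
    calc 8 * M * ξ = ξ * (8 * M) := by ring
      _ ≤ r ^ 8 := hξ
      _ = (r ^ 4) ^ 2 := by ring
  have hξr : ξ ≤ r ^ 8 / 8 := by
    refine hξ.trans ?_
    rw [div_le_div_iff₀ (by positivity) (by norm_num)]
    nlinarith
  have hlt : ‖g u‖ < r ^ 8 := by linarith
  have hl := hgd u (by linarith) hlt
  have h2 : 2 * ξ / r ^ 4 ≤ 1 / 2 := by
    rw [div_le_iff₀ hr4]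
    have h3 : r ^ 8 ≤ r ^ 4 := by
      calc r ^ 8 = r ^ 4 * r ^ 4 := by ring
        _ ≤ r ^ 4 * 1 := mul_le_mul_of_nonneg_left hr41 hr4.le
        _ = r ^ 4 := mul_one _
    linarith
  obtain ⟨v, hv, hv0⟩ := newton g hg.1 u M (r ^ 4) ξ hM0.le hr4 hξ0 (fun v hv => by
    refine hg.lip1 u v (by linarith) ?_
    have := norm_add_le (v - u) u
    rw [sub_add_cancel] at this
    linarith) hl hgu h8 h2
  refine ⟨v, ?_, hv0, ?_⟩
  · have := norm_add_le (v - u) u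
    rw [sub_add_cancel] at this
    linarith
  · calc ‖v - u‖ ≤ 2 * ξ / r ^ 4 := hv
      _ = 2 / r ^ 4 * ξ := by ring

private theorem loc_base2 (M r : ℝ) (hM : 1 ≤ M) (hr : 0 < r) (hr1 : r ≤ 1) :
    r ^ 8 / (16 * M ^ 2) ≤ 1 / 4 ∧
    ∀ g : ℂ → ℂ, EB g M → (∀ u, ‖u‖ ≤ 1 → ‖g u‖ < r ^ 8 → r ^ 4 ≤ ‖deriv g u‖) →
    ∀ u, ‖u‖ ≤ 1 / 2 → ∃ u', ‖u' - u‖ ≤ 1 / 4 ∧
      ∀ v, ‖v - u'‖ ≤ r ^ 8 / (16 * M ^ 2) → r ^ 8 / (16 * M) ≤ ‖g v‖ := by
  have hM0 : 0 < M := by linarith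
  have hr4 : 0 < r ^ 4 := by positivity
  have hr8 : 0 < r ^ 8 := by positivity
  have hr41 : r ^ 4 ≤ 1 := pow_le_one₀ hr.le hr1
  have hr81 : r ^ 8 ≤ 1 := pow_le_one₀ hr.le hr1
  have hMM : M ≤ M ^ 2 := by nlinarith
  have hM2 : 1 ≤ M ^ 2 := by nlinarith
  have hc : M * (r ^ 8 / (16 * M ^ 2)) = r ^ 8 / (16 * M) := by
    field_simp
  have hc16 : r ^ 8 / (16 * M ^ 2) ≤ 1 / 16 := by
    rw [div_le_div_iff₀ (by positivity) (by norm_num)]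
    nlinarith
  have hcM : r ^ 8 / (16 * M) ≤ r ^ 8 / 16 := by
    rw [div_le_div_iff₀ (by positivity) (by norm_num)]
    nlinarith
  refine ⟨by linarith, fun g hg hgd u hu => ?_⟩
  by_cases hlt : ‖g u‖ < r ^ 8
  · have hl := hgd u (by linarith) hlt
    set h0 : ℝ := r ^ 4 / (4 * M) with hh0
    have hh0p : 0 < h0 := by positivity
    have hh04 : h0 ≤ 1 / 4 := by
      rw [hh0, div_le_div_iff₀ (by positivity) (by norm_num)]
      nlinarith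
    obtain ⟨w, hw, hgw⟩ : ∃ w : ℂ, ‖w‖ = h0 ∧ ‖deriv g u‖ * h0 ≤ ‖g u + deriv g u * w‖ := by
      have h1 : ‖deriv g u‖ * h0 + ‖deriv g u‖ * h0 ≤
          ‖g u + deriv g u * (h0 : ℂ)‖ + ‖g u + deriv g u * (-(h0 : ℂ))‖ := by
        have h2 := norm_sub_le (g u + deriv g u * (h0 : ℂ)) (g u + deriv g u * (-(h0 : ℂ)))
        have h3 : g u + deriv g u * (h0 : ℂ) - (g u + deriv g u * (-(h0 : ℂ))) =
            2 * (deriv g u * (h0 : ℂ)) := by ring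
        rw [h3, norm_mul, norm_mul, Complex.norm_real, Real.norm_of_nonneg hh0p.le] at h2
        have h4 : ‖(2 : ℂ)‖ = 2 := by norm_num
        rw [h4] at h2
        linarith
      by_cases h5 : ‖deriv g u‖ * h0 ≤ ‖g u + deriv g u * (h0 : ℂ)‖
      · exact ⟨(h0 : ℂ), by rw [Complex.norm_real, Real.norm_of_nonneg hh0p.le], h5⟩
      · refine ⟨-(h0 : ℂ), by rw [norm_neg, Complex.norm_real, Real.norm_of_nonneg hh0p.le], ?_⟩
        linarith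
    have hw4 : ‖w‖ ≤ 1 / 4 := by rw [hw]; exact hh04
    have huw : ‖u + w‖ ≤ 3 / 4 := (norm_add_le _ _).trans (by linarith)
    have h1 := hg.tay u (u + w) (by linarith) (by linarith)
    rw [add_sub_cancel_left, hw] at h1
    have h2 : ‖g u + deriv g u * w‖ ≤ ‖g (u + w)‖ + M * h0 ^ 2 := by
      have h3 := norm_sub_le (g (u + w)) (g (u + w) - g u - deriv g u * w)
      have h4 : g (u + w) - (g (u + w) - g u - deriv g u * w) = g u + deriv g u * w := by ring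
      rw [h4] at h3
      linarith
    have h3 : r ^ 4 * h0 ≤ ‖deriv g u‖ * h0 := mul_le_mul_of_nonneg_right hl hh0p.le
    have h4 : r ^ 4 * h0 = r ^ 8 / (4 * M) := by
      rw [hh0]
      ring
    have h5 : M * h0 ^ 2 = r ^ 8 / (16 * M) := by
      rw [hh0]
      field_simp
      ring
    have h6 : r ^ 8 / (4 * M) = 4 * (r ^ 8 / (16 * M)) := by ring
    refine ⟨u + w, by rw [add_sub_cancel_left]; exact hw4, fun v hv => ?_⟩
    have hv3 : ‖v‖ ≤ 3 := by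
      have := norm_add_le (v - (u + w)) (u + w)
      rw [sub_add_cancel] at this
      linarith
    have h7 := hg.lip (u + w) v (by linarith) hv3
    have h8 : M * ‖v - (u + w)‖ ≤ M * (r ^ 8 / (16 * M ^ 2)) := mul_le_mul_of_nonneg_left hv hM0.le
    have h9 : ‖g (u + w)‖ ≤ ‖g v‖ + ‖g v - g (u + w)‖ := by
      have := norm_sub_le (g v) (g v - g (u + w))
      rwa [sub_sub_cancel] at this
    have h10 : 0 < r ^ 8 / (16 * M) := by positivity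
    linarith
  · rw [not_lt] at hlt
    refine ⟨u, by rw [sub_self, norm_zero]; norm_num, fun v hv => ?_⟩
    have hv3 : ‖v‖ ≤ 3 := by
      have := norm_add_le (v - u) u
      rw [sub_add_cancel] at this
      linarith
    have h7 := hg.lip u v (by linarith) hv3
    have h8 : M * ‖v - u‖ ≤ M * (r ^ 8 / (16 * M ^ 2)) := mul_le_mul_of_nonneg_left hv hM0.le
    have h9 : ‖g u‖ ≤ ‖g v‖ + ‖g v - g u‖ := by
      have := norm_sub_le (g v) (g v - g u)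
      rwa [sub_sub_cancel] at this
    linarith

private theorem nr_exp2 : Real.exp (1 / 4) * Real.exp (1 / 8) ≤ 2 := by
  rw [← Real.exp_add]
  have h1 : Real.exp (1 / 4 + 1 / 8) ^ 2 ≤ 2 ^ 2 := by
    rw [← Real.exp_nat_mul]
    have h2 : Real.exp (((2 : ℕ) : ℝ) * (1 / 4 + 1 / 8)) ≤ Real.exp 1 :=
      Real.exp_le_exp.2 (by norm_num)
    have h3 := Real.exp_one_lt_d9
    linarith
  exact le_of_sq_le_sq h1 (by norm_num)

private theorem nr_pow2 (d : ℕ) (hd : 1 ≤ d) (t : ℝ) (ht0 : 0 ≤ t) (ht : t ≤ 1 / 2) :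
    √((1 + t ^ 2 / d) ^ d) ≤ Real.exp (1 / 8) := by
  have hd0 : (0 : ℝ) < d := by exact_mod_cast hd
  apply Real.sqrt_le_iff.2 ⟨(Real.exp_pos _).le, ?_⟩
  have h1 : 1 + t ^ 2 / d ≤ Real.exp (t ^ 2 / d) := by
    have := Real.add_one_le_exp (t ^ 2 / d)
    linarith
  have h2 : (1 + t ^ 2 / d) ^ d ≤ Real.exp (t ^ 2 / d) ^ d :=
    pow_le_pow_left₀ (by positivity) h1 d
  rw [← Real.exp_nat_mul] at h2 ⊢
  refine h2.trans (Real.exp_le_exp.2 ?_)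
  rw [mul_div_cancel₀ _ hd0.ne']
  push_cast
  nlinarith

theorem near_zero2 (r T : ℝ) (hr : 0 < r) (hr1 : r ≤ 1) (hT : 1 ≤ T) (d : ℕ)
    (hK : 8 * (1 + T) ^ 2 ≤ √(d : ℝ)) (hd : 1 ≤ d) :
    ∀ (s : Finset ℂ) (w : ℂ → ℝ) (B : ℂ[X]), Cov d s → Wgt d w →
      B.natDegree ≤ d → (∀ z, wm d B z ≤ 2 * w z) → N2 r d s w B →
      ∀ ξ : ℝ, ξ ≤ r ^ 8 / (8 * (2 * 10 ^ 5 * 2)) / 2 → ∀ z : ℂ, ‖z‖ ≤ T → wm d B z ≤ ξ * w z →
        ∃ ζ : ℂ, B.eval ζ = 0 ∧ ‖z - ζ‖ ≤ 8 * (1 + T) ^ 2 / r ^ 4 * ξ / √d := by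
  have hloc := loc_zero2 (2 * 10 ^ 5 * 2) r (by norm_num) hr hr1
  intro s w B hcov hw hB hwm hN ξ hξ z hz hsm
  have hsd : 0 < √(d : ℝ) := lt_of_lt_of_le (by positivity) hK
  obtain ⟨b, hb, hbz⟩ := hcov z
  obtain ⟨u, hu, hmu, hphu⟩ := chart_pt d hd b z hbz
  have hwb := hw.pos b
  have hwz := hw.pos z
  have hwm0 : 0 ≤ wm d B z := by unfold wm; positivity
  have hξ0 : 0 ≤ ξ := by
    by_contra hcon
    push Not at hcon
    have : ξ * w z < 0 := mul_neg_of_neg_of_pos hcon hwz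
    linarith
  have hsgb : √(d : ℝ) * sg b z ≤ 1 / 4 := by
    rw [sg_comm]
    have h1 : √(d : ℝ) * sg z b ≤ √(d : ℝ) * (1 / (4 * √(d : ℝ))) :=
      mul_le_mul_of_nonneg_left hbz.le hsd.le
    have h2 : √(d : ℝ) * (1 / (4 * √(d : ℝ))) = 1 / 4 := by field_simp
    linarith
  have hEB := sn_EB d hd w hw b B hB 2 (by norm_num) (fun x _ => hwm x)
  have hgu : ‖sn d b (w b) B u‖ ≤ 2 * ξ := by
    rw [sn_norm d b (w b) hwb B hB u hmu, hphu, div_le_iff₀ hwb]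
    have h1 := nr_pow2 d hd ‖u‖ (norm_nonneg u) hu
    have h2 : w z ≤ w b * Real.exp (1 / 4) :=
      (hw.lip b z).trans (mul_le_mul_of_nonneg_left (Real.exp_le_exp.2 hsgb) hwb.le)
    have h3 : wm d B z * √((1 + ‖u‖ ^ 2 / d) ^ d) ≤ (ξ * w z) * Real.exp (1 / 8) :=
      mul_le_mul hsm h1 (Real.sqrt_nonneg _) (by positivity)
    calc _ ≤ (ξ * w z) * Real.exp (1 / 8) := h3
      _ ≤ (ξ * (w b * Real.exp (1 / 4))) * Real.exp (1 / 8) := by gcongr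
      _ = ξ * w b * (Real.exp (1 / 4) * Real.exp (1 / 8)) := by ring
      _ ≤ ξ * w b * 2 := mul_le_mul_of_nonneg_left nr_exp2 (by positivity)
      _ = 2 * ξ * w b := by ring
  obtain ⟨v, hv, hgv, hvu⟩ := hloc _ hEB (hN b hb) (2 * ξ) (by linarith) u hu hgu
  have hbn : ‖b‖ < √(d : ℝ) := by
    have h1 : sg b z * (1 + T) ≤ 1 / 2 := by
      have h2 : sg b z ≤ 1 / (4 * √(d : ℝ)) := by
        rw [sg_comm]; exact hbz.le
      have h3 : sg b z * (1 + T) ≤ 1 / (4 * √(d : ℝ)) * (1 + T) :=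
        mul_le_mul_of_nonneg_right h2 (by linarith)
      refine h3.trans ?_
      rw [div_mul_eq_mul_div, one_mul, div_le_iff₀ (by positivity)]
      nlinarith
    have h4 := dist_le_sg hz h1
    have h5 : 2 * (1 + T) ^ 2 * sg b z ≤ 1 := by
      have h2 : sg b z ≤ 1 / (4 * √(d : ℝ)) := by
        rw [sg_comm]; exact hbz.le
      have h3 : 2 * (1 + T) ^ 2 * sg b z ≤ 2 * (1 + T) ^ 2 * (1 / (4 * √(d : ℝ))) :=
        mul_le_mul_of_nonneg_left h2 (by positivity)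
      refine h3.trans ?_
      rw [mul_one_div, div_le_iff₀ (by positivity)]
      nlinarith
    have h6 : ‖b‖ ≤ ‖b - z‖ + ‖z‖ := by
      have := norm_add_le (b - z) z
      rwa [sub_add_cancel] at this
    have h7 : T + 1 < 8 * (1 + T) ^ 2 := by nlinarith
    linarith
  have hmv : 1 - conj b * (v / ((√(d : ℝ) : ℝ) : ℂ)) ≠ 0 := by
    intro h
    have h1 : conj b * (v / ((√(d : ℝ) : ℝ) : ℂ)) = 1 := (sub_eq_zero.1 h).symm
    have h2 : ‖conj b * (v / ((√(d : ℝ) : ℝ) : ℂ))‖ = 1 := by rw [h1, norm_one]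
    rw [norm_mul, RCLike.norm_conj, norm_div, Complex.norm_real,
      Real.norm_of_nonneg hsd.le] at h2
    have h3 : ‖b‖ * (‖v‖ / √(d : ℝ)) ≤ ‖b‖ * (1 / √(d : ℝ)) := by gcongr
    have h4 : ‖b‖ * (1 / √(d : ℝ)) < 1 := by
      rw [mul_one_div, div_lt_one hsd]
      exact hbn
    linarith
  have hζ := (sn_eq_zero d b (w b) hwb B hB v hmv).1 hgv
  refine ⟨_, hζ, ?_⟩
  have hsg : sg (ph b (v / ((√(d : ℝ) : ℝ) : ℂ))) z ≤ ‖v - u‖ / √(d : ℝ) := by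
    conv_lhs => rw [← hphu]
    rw [sg_ph b _ _ hmv hmu]
    refine (sg_le_dist _ _).trans (le_of_eq ?_)
    rw [← sub_div, norm_div, Complex.norm_real, Real.norm_of_nonneg hsd.le]
  have hvu2 : ‖v - u‖ ≤ 3 / 2 := by
    have := norm_sub_le v u
    linarith
  have hd1 : sg (ph b (v / ((√(d : ℝ) : ℝ) : ℂ))) z * (1 + T) ≤ 1 / 2 := by
    have h1 : sg (ph b (v / ((√(d : ℝ) : ℝ) : ℂ))) z * (1 + T) ≤
        (3 / 2) / √(d : ℝ) * (1 + T) := by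
      apply mul_le_mul_of_nonneg_right _ (by linarith)
      exact hsg.trans (by gcongr)
    refine h1.trans ?_
    rw [div_mul_eq_mul_div, div_le_iff₀ hsd]
    nlinarith
  have hd2 := dist_le_sg hz hd1
  rw [norm_sub_rev]
  refine hd2.trans ?_
  have h1 : 2 * (1 + T) ^ 2 * sg (ph b (v / ((√(d : ℝ) : ℝ) : ℂ))) z ≤
      2 * (1 + T) ^ 2 * ((2 / r ^ 4 * (2 * ξ)) / √(d : ℝ)) := by
    apply mul_le_mul_of_nonneg_left _ (by positivity)
    exact hsg.trans (by gcongr)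
  refine h1.trans (le_of_eq ?_)
  ring

/-- the factor in `sn_norm` -/
private theorem nb_fac2 (d : ℕ) (hd : 1 ≤ d) (x : ℝ) (hx0 : 0 ≤ x) (hx : x ≤ 1) :
    √((1 + x ^ 2 / d) ^ d) ≤ Real.exp (1 / 2) := by
  have hd0 : (0 : ℝ) < d := by exact_mod_cast hd
  have h1 : (1 + x ^ 2 / d) ^ d ≤ Real.exp 1 := by
    have h2 : 1 + x ^ 2 / d ≤ Real.exp (x ^ 2 / d) := by
      have := Real.add_one_le_exp (x ^ 2 / d)
      linarith
    calc (1 + x ^ 2 / d) ^ d ≤ Real.exp (x ^ 2 / d) ^ d := pow_le_pow_left₀ (by positivity) h2 d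
      _ = Real.exp (x ^ 2) := by
          rw [← Real.exp_nat_mul]
          congr 1
          field_simp
      _ ≤ Real.exp 1 := by
          apply Real.exp_le_exp.mpr
          nlinarith
  calc √((1 + x ^ 2 / d) ^ d) ≤ √(Real.exp 1) := Real.sqrt_le_sqrt h1
    _ = Real.exp (1 / 2) := by
        rw [show (1 : ℝ) = 1 / 2 + 1 / 2 by norm_num, Real.exp_add, Real.sqrt_mul_self (Real.exp_pos _).le]
        norm_num

private theorem nb_exp2 : Real.exp (1 / 2) * Real.exp 1 ≤ 6 := by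
  rw [← Real.exp_add]
  have h1 : Real.exp (1 / 2 + 1) ≤ Real.exp 1 * Real.exp 1 := by
    rw [← Real.exp_add]
    exact Real.exp_le_exp.mpr (by norm_num)
  have h2 : Real.exp (1 / 2 + 1) ^ 2 = Real.exp 1 ^ 3 := by
    rw [← Real.exp_nat_mul, ← Real.exp_nat_mul]
    congr 1
    norm_num
  have h3 := Real.exp_one_lt_d9
  have h5 : Real.exp 1 ^ 3 ≤ 36 := by
    have : Real.exp 1 ≤ 3 := by linarith
    have h0 := Real.exp_pos 1
    calc Real.exp 1 ^ 3 ≤ (3 : ℝ) ^ 3 := pow_le_pow_left₀ h0.le this 3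
      _ ≤ 36 := by norm_num
  have h6 := Real.exp_pos (1 / 2 + 1)
  nlinarith

/-- the local statement in one chart -/
private theorem nb_local2 (d : ℕ) (hd : 1 ≤ d) (hq : 10 ≤ √(d : ℝ)) (w : ℂ → ℝ) (hw : Wgt d w) (B : ℂ[X])
    (hB : B.natDegree ≤ d) (κ c5 : ℝ) (hc5 : 0 < c5) (hc51 : c5 ≤ 1 / 4) (hκ : 0 < κ)
    (b u u' : ℂ) (hb : ‖b‖ ≤ 2) (hu : ‖u‖ ≤ 1 / 2)
    (hmu : 1 - conj b * (u / ((√d : ℝ) : ℂ)) ≠ 0) (hu' : ‖u' - u‖ ≤ 1 / 4)
    (ha : ‖ph b (u / ((√d : ℝ) : ℂ))‖ ≤ 1) (hab : sg (ph b (u / ((√d : ℝ) : ℂ))) b ≤ 1 / (4 * √d))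
    (h : ∀ v, ‖v - u'‖ ≤ c5 → κ ≤ ‖sn d b (w b) B v‖) :
    ∃ a' : ℂ, ‖a' - ph b (u / ((√d : ℝ) : ℂ))‖ ≤ 2 / √d ∧
      ∀ z : ℂ, ‖z - a'‖ ≤ c5 / 8 / √d → κ / 6 * w z ≤ wm d B z := by
  have hq0 : 0 < √(d : ℝ) := by linarith
  have hqne : ((√d : ℝ) : ℂ) ≠ 0 := by exact_mod_cast hq0.ne'
  have hqn : ‖((√d : ℝ) : ℂ)‖ = √d := by
    rw [Complex.norm_real, Real.norm_of_nonneg hq0.le]
  have hu'n : ‖u'‖ ≤ 3 / 4 := by
    calc ‖u'‖ = ‖(u' - u) + u‖ := by rw [sub_add_cancel]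
      _ ≤ ‖u' - u‖ + ‖u‖ := norm_add_le _ _
      _ ≤ 3 / 4 := by linarith
  have hdiv : ∀ x : ℂ, ‖x / ((√d : ℝ) : ℂ)‖ = ‖x‖ / √d := by
    intro x
    rw [norm_div, hqn]
  have hmu' : 1 - conj b * (u' / ((√d : ℝ) : ℂ)) ≠ 0 := by
    intro h0
    have h1 : conj b * (u' / ((√d : ℝ) : ℂ)) = 1 := (sub_eq_zero.mp h0).symm
    have h2 : ‖conj b * (u' / ((√d : ℝ) : ℂ))‖ = 1 := by rw [h1, norm_one]
    rw [norm_mul, Complex.norm_conj, hdiv] at h2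
    have h3 : ‖u'‖ / √d ≤ 3 / 40 := by
      rw [div_le_iff₀ hq0]
      linarith
    have h4 : 0 ≤ ‖u'‖ / √d := by positivity
    nlinarith [norm_nonneg b]
  obtain ⟨a, hadef⟩ : ∃ a, a = ph b (u / ((√d : ℝ) : ℂ)) := ⟨_, rfl⟩
  obtain ⟨a', ha'def⟩ : ∃ a', a' = ph b (u' / ((√d : ℝ) : ℂ)) := ⟨_, rfl⟩
  rw [← hadef] at ha hab
  have hi : 1 / (4 * √(d : ℝ)) ≤ 1 / 40 := by
    apply div_le_div_of_nonneg_left (by norm_num) (by norm_num) (by linarith)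
  have hsg1 : sg a' a ≤ 1 / (4 * √d) := by
    rw [ha'def, hadef, sg_ph b _ _ hmu' hmu]
    calc sg (u' / ((√d : ℝ) : ℂ)) (u / ((√d : ℝ) : ℂ)) ≤
        ‖u' / ((√d : ℝ) : ℂ) - u / ((√d : ℝ) : ℂ)‖ := sg_le_dist _ _
      _ = ‖u' - u‖ / √d := by rw [← sub_div, hdiv]
      _ ≤ (1 / 4) / √d := by gcongr
      _ = 1 / (4 * √d) := by field_simp
  refine ⟨a', ?_, ?_⟩
  · rw [← hadef]
    have h1 : ‖a' - a‖ ≤ 2 * (1 + 1) ^ 2 * sg a' a := dist_le_sg ha (by linarith)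
    calc ‖a' - a‖ ≤ 2 * (1 + 1) ^ 2 * sg a' a := h1
      _ ≤ 2 * (1 + 1) ^ 2 * (1 / (4 * √d)) := by gcongr
      _ = 2 / √d := by field_simp; norm_num
  · intro z hz
    have hz1 : sg z a' ≤ c5 / 8 / √d := (sg_le_dist z a').trans hz
    have hc : c5 / 8 / √(d : ℝ) ≤ 1 / 2 / √d :=
      div_le_div_of_nonneg_right (by linarith) hq0.le
    have hsum : sg b z ≤ 1 / √d := by
      have t1 := sg_tri b a z
      have t2 := sg_tri a a' z
      have t3 : sg b a ≤ 1 / (4 * √d) := by rw [sg_comm]; exact hab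
      have t4 : sg a a' ≤ 1 / (4 * √d) := by rw [sg_comm]; exact hsg1
      have t5 : sg a' z ≤ 1 / 2 / √d := by rw [sg_comm]; exact hz1.trans hc
      have t6 : 1 / √(d : ℝ) = 1 / (4 * √d) + (1 / (4 * √d) + 1 / 2 / √d) := by
        field_simp
        norm_num
      rw [t6]
      linarith
    have hsum1 : sg b z ≤ 1 / 10 := by
      refine hsum.trans ?_
      exact div_le_div_of_nonneg_left (by norm_num) (by norm_num) hq
    have hne : 1 + conj b * z ≠ 0 := by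
      intro h0
      have h1 := one_sub_sg_sq z b
      rw [show 1 + z * conj b = 1 + conj b * z by ring, h0, norm_zero] at h1
      rw [sg_comm] at h1
      have h2 := sg_nonneg b z
      norm_num at h1
      nlinarith
    obtain ⟨hp1, hp2⟩ := ph_ph b z hne
    obtain ⟨v, hv⟩ : ∃ v : ℂ, v = ((√d : ℝ) : ℂ) * ph (-b) z := ⟨_, rfl⟩
    have hvd : v / ((√d : ℝ) : ℂ) = ph (-b) z := by
      rw [hv, mul_div_cancel_left₀ _ hqne]
    have hmv : 1 - conj b * (v / ((√d : ℝ) : ℂ)) ≠ 0 := by rw [hvd]; exact hp1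
    have hpv : ph b (v / ((√d : ℝ) : ℂ)) = z := by rw [hvd]; exact hp2
    have hsv : sg (v / ((√d : ℝ) : ℂ)) (u' / ((√d : ℝ) : ℂ)) ≤ c5 / 8 / √d := by
      rw [← sg_ph b _ _ hmv hmu', hpv, ← ha'def]
      exact hz1
    have hu'1 : ‖u' / ((√d : ℝ) : ℂ)‖ ≤ 1 := by
      rw [hdiv, div_le_one hq0]
      linarith
    have hc' : c5 / 8 / √(d : ℝ) ≤ 1 / 4 := by
      rw [div_le_iff₀ hq0]
      nlinarith
    have hdist : ‖v / ((√d : ℝ) : ℂ) - u' / ((√d : ℝ) : ℂ)‖ ≤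
        2 * (1 + 1) ^ 2 * sg (v / ((√d : ℝ) : ℂ)) (u' / ((√d : ℝ) : ℂ)) :=
      dist_le_sg hu'1 (by linarith)
    have hvu : ‖v - u'‖ ≤ c5 := by
      rw [← sub_div, hdiv] at hdist
      have h1 : ‖v - u'‖ / √d ≤ c5 / √d := by
        calc ‖v - u'‖ / √d ≤ 2 * (1 + 1) ^ 2 * sg (v / ((√d : ℝ) : ℂ)) (u' / ((√d : ℝ) : ℂ)) := hdist
          _ ≤ 2 * (1 + 1) ^ 2 * (c5 / 8 / √d) := by gcongr
          _ = c5 / √d := by field_simp; norm_num
      exact (div_le_div_iff_of_pos_right hq0).mp h1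
    have hvn : ‖v‖ ≤ 1 := by
      calc ‖v‖ = ‖(v - u') + u'‖ := by rw [sub_add_cancel]
        _ ≤ ‖v - u'‖ + ‖u'‖ := norm_add_le _ _
        _ ≤ 1 := by linarith
    have hwb := hw.pos b
    have hk := h v hvu
    rw [sn_norm d b (w b) hwb B hB v hmv, hpv] at hk
    have hfac := nb_fac2 d hd ‖v‖ (norm_nonneg _) hvn
    have hwm := wm_nonneg d B z
    have hk2 : κ * w b ≤ wm d B z * Real.exp (1 / 2) := by
      rw [le_div_iff₀ hwb] at hk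
      exact hk.trans (mul_le_mul_of_nonneg_left hfac hwm)
    have hwz : w z ≤ w b * Real.exp 1 := by
      refine (hw.lip b z).trans ?_
      apply mul_le_mul_of_nonneg_left _ hwb.le
      apply Real.exp_le_exp.mpr
      calc √(d : ℝ) * sg b z ≤ √(d : ℝ) * (1 / √d) := mul_le_mul_of_nonneg_left hsum hq0.le
        _ = 1 := by field_simp
    calc κ / 6 * w z ≤ κ / 6 * (w b * Real.exp 1) :=
          mul_le_mul_of_nonneg_left hwz (by positivity)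
      _ = κ * w b * Real.exp 1 / 6 := by ring
      _ ≤ wm d B z * Real.exp (1 / 2) * Real.exp 1 / 6 := by
          have := Real.exp_pos 1
          gcongr
      _ = wm d B z * (Real.exp (1 / 2) * Real.exp 1) / 6 := by ring
      _ ≤ wm d B z * 6 / 6 := by
          have := nb_exp2
          gcongr
      _ = wm d B z := by ring

theorem base_pt2 (r : ℝ) (hr : 0 < r) (hr1 : r ≤ 1) (d : ℕ) (hd : 100 ≤ d) :
    ∀ (s : Finset ℂ) (w : ℂ → ℝ) (B : ℂ[X]), Cov d s → Wgt d w →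
      B.natDegree ≤ d → (∀ z, wm d B z ≤ 2 * w z) → N2 r d s w B →
      ∀ a : ℂ, ‖a‖ ≤ 1 → ∃ a' : ℂ, ‖a' - a‖ ≤ 2 / √d ∧
        ∀ z : ℂ, ‖z - a'‖ ≤ r ^ 8 / (16 * (2 * 10 ^ 5 * 2) ^ 2) / 8 / √d →
          r ^ 8 / (16 * (2 * 10 ^ 5 * 2)) / 6 * w z ≤ wm d B z := by
  obtain ⟨hc51, hloc⟩ := loc_base2 (2 * 10 ^ 5 * 2) r (by norm_num) hr hr1
  have hκ : 0 < r ^ 8 / (16 * (2 * 10 ^ 5 * 2)) := by positivity
  have hc5 : 0 < r ^ 8 / (16 * (2 * 10 ^ 5 * 2) ^ 2) := by positivity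
  intro s w B hcov hw hB hBw hN a ha
  have hd1 : 1 ≤ d := by omega
  have hq : 10 ≤ √(d : ℝ) := by
    apply Real.le_sqrt_of_sq_le
    have : (100 : ℝ) ≤ d := by exact_mod_cast hd
    linarith
  have hq0 : 0 < √(d : ℝ) := by linarith
  obtain ⟨b, hbs, hab⟩ := hcov a
  obtain ⟨u, hu, hmu, hua⟩ := chart_pt d hd1 b a hab
  have hi : 1 / (4 * √(d : ℝ)) ≤ 1 / 40 :=
    div_le_div_of_nonneg_left (by norm_num) (by norm_num) (by linarith)
  have hb : ‖b‖ ≤ 2 := by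
    have h0 : sg b a ≤ 1 / 40 := by rw [sg_comm]; linarith
    have h1 : ‖b - a‖ ≤ 2 * (1 + 1) ^ 2 * sg b a := dist_le_sg ha (by linarith)
    calc ‖b‖ = ‖(b - a) + a‖ := by rw [sub_add_cancel]
      _ ≤ ‖b - a‖ + ‖a‖ := norm_add_le _ _
      _ ≤ 2 := by linarith
  have hEB : EB (sn d b (w b) B) (2 * 10 ^ 5 * 2) :=
    sn_EB d hd1 w hw b B hB 2 (by norm_num) (fun z _ => hBw z)
  obtain ⟨u', hu', hv⟩ := hloc _ hEB (hN b hbs) u hu
  have := nb_local2 d hd1 hq w hw B hB _ _ hc5 hc51 hκ b u u' hb hu hmu hu' (by rw [hua]; exact ha)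
    (by rw [hua]; exact hab.le) hv
  rwa [hua] at this

end Pool.Agent.H91.PR
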