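import Pool.Agent.H91.LD.Capture
import Pool.Agent.H91.PR.PDefs
import Pool.Agent.H91.PR.Cap2A

/-!
# [H91 PR CAP2] `near_zero`, `base_pt`, `capture` with explicit constants

Copy the proofs of `loc_zero`, `loc_base` (`H91/LD/EZero`), `near_zero` (`H91/LD/Near`), `base_pt` (`H91/LD/NearB`) and `capture`
(`H91/LD/Capture`) with explicit constants instead of existential constants and `∀ᶠ d`:
* `loc_zero`: `ξ0 = r^8/(8 M)`, `M = 4 * 10^5`; `near_zero` (with `T + 1` for `T`): `ξ0 = r^8/(16 M)`, `CT = 8 (2 + T)^2/r^4`, needs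
  `8 (2 + T)^2 ≤ √d` only.
* `loc_base`: `κ = r^8/(16 M)`, `c5 = r^8/(16 M^2)`; `base_pt`: `κ4 = κ/6`, `c6 = c5/8`, needs `100 ≤ d` only.
* `capture`: needs `2 ≤ d`, `48 CT/c6 < d`, `8/c6 < d`, `8/(c6 κ4) < d`, `1/ξ0 < d`. All of them follow from
  `hbig : 10^25 (T+2)^2 ≤ r^16 √d` (`√d ≤ d`, `r ≤ 1`): `48 CT/c6 = 48 * 8 (T+2)^2 * 128 * 16 * 10^10/r^12 ≤ 10^16 (T+2)^2/r^12`,
  `8/(c6 κ4) ≤ 10^23/r^16`.
It is simplest to restate `near_zero` and `base_pt` as theorems for a fixed `d` and then to copy the proof of `capture`.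
-/

set_option autoImplicit false

open Polynomial MeasureTheory ComplexConjugate

namespace Pool.Agent.H91.PR

open Pool.Agent.H85.LD Pool.Agent.H91.LD Pool.Agent.H44.Fatou

private theorem cap_num (r T : ℝ) (hr : 0 < r) (hr1 : r ≤ 1) (hT : 1 ≤ T) (d : ℕ)
    (hbig : 10 ^ 25 * (T + 2) ^ 2 ≤ r ^ 16 * √(d : ℝ)) (ξ0 CT c6 κ4 : ℝ)
    (hξ0d : ξ0 = r ^ 8 / (8 * (2 * 10 ^ 5 * 2)) / 2) (hCTd : CT = 8 * (1 + (T + 1)) ^ 2 / r ^ 4)
    (hc6d : c6 = r ^ 8 / (16 * (2 * 10 ^ 5 * 2) ^ 2) / 8)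
    (hκ4d : κ4 = r ^ 8 / (16 * (2 * 10 ^ 5 * 2)) / 6) :
    (100 ≤ d ∧ 8 * (1 + (T + 1)) ^ 2 ≤ √(d : ℝ)) ∧ (0 < ξ0 ∧ 0 < CT ∧ 0 < κ4 ∧ 0 < c6 ∧ c6 ≤ 1) ∧
      48 * CT / c6 < (d : ℝ) ∧ 8 / c6 < (d : ℝ) ∧ 8 / (c6 * κ4) < (d : ℝ) ∧ 1 / ξ0 < (d : ℝ) := by
  have hr80 : 0 < r ^ 8 := by positivity
  have hr81 : r ^ 8 ≤ 1 := pow_le_one₀ hr.le hr1
  have hr41 : r ^ 4 ≤ 1 := pow_le_one₀ hr.le hr1
  have hr40 : 0 < r ^ 4 := by positivity
  have hT9 : 9 ≤ (T + 2) ^ 2 := by nlinarith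
  obtain ⟨S, hS⟩ : ∃ S : ℝ, S = √(d : ℝ) := ⟨_, rfl⟩
  rw [← hS] at hbig
  have hS0 : 0 ≤ S := by rw [hS]; exact Real.sqrt_nonneg _
  have hr161 : r ^ 16 ≤ 1 := pow_le_one₀ hr.le hr1
  have hS25 : 10 ^ 25 * (T + 2) ^ 2 ≤ S := by
    refine hbig.trans ?_
    have := mul_le_mul_of_nonneg_right hr161 hS0
    linarith
  have hS1 : 10 ^ 25 ≤ S := by linarith
  have hSd : S ^ 2 = (d : ℝ) := by rw [hS]; exact Real.sq_sqrt (Nat.cast_nonneg d)
  have hSd2 : S ≤ (d : ℝ) := by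
    rw [← hSd]
    nlinarith
  have hd100 : 100 ≤ d := by
    have h1 : (100 : ℝ) ≤ (d : ℝ) := by linarith
    exact_mod_cast h1
  have hbd : 10 ^ 25 * (T + 2) ^ 2 ≤ r ^ 16 * (d : ℝ) :=
    hbig.trans (mul_le_mul_of_nonneg_left hSd2 (by positivity))
  have hd0R : (0 : ℝ) ≤ d := Nat.cast_nonneg d
  have hr8d : 10 ^ 25 * (T + 2) ^ 2 ≤ r ^ 8 * (d : ℝ) := by
    refine hbd.trans ?_
    have h1 : r ^ 16 * (d : ℝ) = r ^ 8 * (r ^ 8 * d) := by ring
    rw [h1]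
    have h2 : 0 ≤ r ^ 8 * (d : ℝ) := by positivity
    nlinarith
  have hr12d : 10 ^ 25 * (T + 2) ^ 2 ≤ r ^ 12 * (d : ℝ) := by
    refine hbd.trans ?_
    have h1 : r ^ 16 * (d : ℝ) = r ^ 4 * (r ^ 12 * d) := by ring
    rw [h1]
    have h2 : 0 ≤ r ^ 12 * (d : ℝ) := by positivity
    nlinarith
  have hTd : 8 * (1 + (T + 1)) ^ 2 ≤ √(d : ℝ) := by
    rw [← hS]
    have h1 : (1 + (T + 1)) = T + 2 := by ring
    rw [h1]
    linarith
  have hξ0 : 0 < ξ0 := by rw [hξ0d]; positivity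
  have hCT : 0 < CT := by rw [hCTd]; positivity
  have hc6 : 0 < c6 := by rw [hc6d]; positivity
  have hκ4 : 0 < κ4 := by rw [hκ4d]; positivity
  have hc6r : c6 * (2048 * 10 ^ 10) = r ^ 8 := by rw [hc6d]; ring
  have hκ4r : κ4 * (384 * 10 ^ 5) = r ^ 8 := by rw [hκ4d]; ring
  have hξ0r : ξ0 * (64 * 10 ^ 5) = r ^ 8 := by rw [hξ0d]; ring
  have hCTr : CT * r ^ 4 = 8 * (T + 2) ^ 2 := by
    rw [hCTd, div_mul_cancel₀ _ hr40.ne']
    ring
  have hc61 : c6 ≤ 1 := by nlinarith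
  have a1 : 48 * CT / c6 < (d : ℝ) := by
    rw [div_lt_iff₀ hc6]
    have h1 : 48 * CT * (r ^ 4 * (2048 * 10 ^ 10)) < (d : ℝ) * c6 * (r ^ 4 * (2048 * 10 ^ 10)) := by
      have h2 : 48 * CT * (r ^ 4 * (2048 * 10 ^ 10)) = (8 * (T + 2) ^ 2) * (48 * (2048 * 10 ^ 10)) := by
        rw [← hCTr]; ring
      have h3 : (d : ℝ) * c6 * (r ^ 4 * (2048 * 10 ^ 10)) = r ^ 12 * d := by
        calc (d : ℝ) * c6 * (r ^ 4 * (2048 * 10 ^ 10)) = (c6 * (2048 * 10 ^ 10)) * r ^ 4 * d := by ring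
          _ = r ^ 12 * d := by rw [hc6r]; ring
      rw [h2, h3]
      linarith
    exact lt_of_mul_lt_mul_right h1 (by positivity)
  have a2 : 8 / c6 < (d : ℝ) := by
    rw [div_lt_iff₀ hc6]
    have h1 : (d : ℝ) * c6 * (2048 * 10 ^ 10) = r ^ 8 * d := by
      calc (d : ℝ) * c6 * (2048 * 10 ^ 10) = (c6 * (2048 * 10 ^ 10)) * d := by ring
        _ = r ^ 8 * d := by rw [hc6r]
    linarith
  have a3 : 8 / (c6 * κ4) < (d : ℝ) := by
    rw [div_lt_iff₀ (by positivity)]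
    have h1 : (d : ℝ) * (c6 * κ4) * ((2048 * 10 ^ 10) * (384 * 10 ^ 5)) = r ^ 16 * d := by
      calc (d : ℝ) * (c6 * κ4) * ((2048 * 10 ^ 10) * (384 * 10 ^ 5)) =
          (c6 * (2048 * 10 ^ 10)) * (κ4 * (384 * 10 ^ 5)) * d := by ring
        _ = r ^ 16 * d := by rw [hc6r, hκ4r]; ring
    linarith
  have a4 : 1 / ξ0 < (d : ℝ) := by
    rw [div_lt_iff₀ hξ0]
    have h1 : (d : ℝ) * ξ0 * (64 * 10 ^ 5) = r ^ 8 * d := by
      calc (d : ℝ) * ξ0 * (64 * 10 ^ 5) = (ξ0 * (64 * 10 ^ 5)) * d := by ring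
        _ = r ^ 8 * d := by rw [hξ0r]
    linarith
  exact ⟨⟨hd100, hTd⟩, ⟨hξ0, hCT, hκ4, hc6, hc61⟩, a1, a2, a3, a4⟩

theorem capture2 (r ρ T : ℝ) (hr : 0 < r) (hr1 : r ≤ 1) (hρ : 0 < ρ) (hρ1 : ρ ≤ 1 / 4) (hT : 1 ≤ T)
    (d : ℕ) (hbig : 10 ^ 25 * (T + 2) ^ 2 ≤ r ^ 16 * √(d : ℝ)) (s : Finset ℂ) (w : ℂ → ℝ)
    (B : ℂ[X]) (hcov : Cov d s) (hw : Wgt d w) (hB : B.natDegree ≤ d) (hBd : B.coeff d ≠ 0)
    (hB2 : ∀ z, wm d B z ≤ 2 * w z) (hN2 : N2 r d s w B) (p : ℂ[X]) (hp : p.natDegree ≤ d)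
    (hcop : IsCoprime p B)
    (hinf : p.coeff d * B.coeff (d - 1) ≠ p.coeff (d - 1) * B.coeff d) (a : ℂ) (ha : ‖a‖ ≤ 1)
    (Z : Set ℂ) (μ0 : ℝ) (hμ1 : 4 / √(d : ℝ) ≤ μ0) (hμ2 : μ0 ≤ ρ / 4)
    (hZ : Metric.closedBall a ρ ⊆ Z)
    (hsm : ∀ v, ‖v‖ ≤ T + 1 → Metric.ball v μ0 ⊆ Z → wm d p v ≤ w v / d ^ 10)
    (hcrit : ∀ z, (Wr p B).eval z = 0 → B.eval z ≠ 0 ∧ ‖a + p.eval z / B.eval z‖ ≤ T ∧
      Metric.ball (a + p.eval z / B.eval z) (2 * μ0) ⊆ Z) :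
    ∃ s0 : ℂ, ‖s0‖ ≤ 4 / √d ∧ IsCoprime (C (a + s0) * B + p) B ∧ Hyp1 (C (a + s0) * B + p) B := by
  classical
  obtain ⟨ξ0, hξ0d⟩ : ∃ ξ0 : ℝ, ξ0 = r ^ 8 / (8 * (2 * 10 ^ 5 * 2)) / 2 := ⟨_, rfl⟩
  obtain ⟨CT, hCTd⟩ : ∃ CT : ℝ, CT = 8 * (1 + (T + 1)) ^ 2 / r ^ 4 := ⟨_, rfl⟩
  obtain ⟨c6, hc6d⟩ : ∃ c6 : ℝ, c6 = r ^ 8 / (16 * (2 * 10 ^ 5 * 2) ^ 2) / 8 := ⟨_, rfl⟩
  obtain ⟨κ4, hκ4d⟩ : ∃ κ4 : ℝ, κ4 = r ^ 8 / (16 * (2 * 10 ^ 5 * 2)) / 6 := ⟨_, rfl⟩
  obtain ⟨⟨hd100, hTd⟩, ⟨hξ0, hCT, hκ4, hc6, hc61⟩, a1, a2, a3, a4⟩ :=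
    cap_num r T hr hr1 hT d hbig ξ0 CT c6 κ4 hξ0d hCTd hc6d hκ4d
  have hd2 : 2 ≤ d := by omega
  have ev1 := near_zero2 r (T + 1) hr hr1 (by linarith) d hTd (by omega)
  have ev2 := base_pt2 r hr hr1 d hd100
  rw [← hξ0d, ← hCTd] at ev1
  rw [← hc6d, ← hκ4d] at ev2
  clear hbig hξ0d hCTd hc6d hκ4d hTd
  -- arithmetic
  obtain ⟨D, hD⟩ : ∃ D : ℝ, D = (d : ℝ) := ⟨_, rfl⟩
  obtain ⟨q, hq⟩ : ∃ q : ℝ, q = √(d : ℝ) := ⟨_, rfl⟩
  rw [← hq] at hμ1
  have hD2 : 2 ≤ D := by rw [hD]; exact_mod_cast hd2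
  have hq0 : 0 < q := by rw [hq]; exact Real.sqrt_pos.2 (by rw [← hD]; linarith)
  have hqD : q ^ 2 = D := by rw [hq, hD]; exact Real.sq_sqrt (Nat.cast_nonneg d)
  have hq1 : 1 ≤ q := by nlinarith
  have hqleD : q ≤ D := by nlinarith
  have hD0 : 0 < D := by linarith
  have hD1 : 1 ≤ D := by linarith
  rw [← hD] at a1 a2 a3 a4
  rw [div_lt_iff₀ hc6] at a1 a2
  rw [div_lt_iff₀ (by positivity)] at a3 a4
  obtain ⟨r1, hr1d⟩ : ∃ r1 : ℝ, r1 = c6 / (8 * q) := ⟨_, rfl⟩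
  have hr10 : 0 < r1 := by rw [hr1d]; positivity
  obtain ⟨M, hM⟩ : ∃ M : ℕ, M = 2 * d ^ 2 + 1 := ⟨_, rfl⟩
  have hMR : (M : ℝ) = 2 * D ^ 2 + 1 := by rw [hM, hD]; push_cast; ring
  obtain ⟨h, hh⟩ : ∃ h : ℝ, h = r1 / (2 * D ^ 2 + 1) := ⟨_, rfl⟩
  have hh0 : 0 < h := by rw [hh]; positivity
  have f1 : 1 / D ^ 3 ≤ ξ0 := by
    rw [div_le_iff₀ (by positivity)]
    have h1 : D ≤ D ^ 3 := le_self_pow₀ hD1 (by norm_num)
    have h2 : ξ0 * D ≤ ξ0 * D ^ 3 := mul_le_mul_of_nonneg_left h1 hξ0.le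
    linarith
  have f2 : CT * (1 / D ^ 3) / q < h / 2 := by
    have h1 : CT * (1 / D ^ 3) / q = CT / (D ^ 3 * q) := by
      field_simp
    have h2 : h / 2 = c6 / (16 * q * (2 * D ^ 2 + 1)) := by
      rw [hh, hr1d]
      field_simp
      ring
    rw [h1, h2, div_lt_div_iff₀ (by positivity) (by positivity)]
    have h3 : 16 * (2 * D ^ 2 + 1) ≤ 48 * D ^ 2 := by nlinarith
    have h4 : CT * (16 * q * (2 * D ^ 2 + 1)) ≤ (48 * CT) * (D ^ 2 * q) := by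
      have h5 := mul_le_mul_of_nonneg_left h3 (by positivity : 0 ≤ CT * q)
      linarith
    have h5 : (48 * CT) * (D ^ 2 * q) < (D * c6) * (D ^ 2 * q) :=
      mul_lt_mul_of_pos_right a1 (by positivity)
    calc CT * (16 * q * (2 * D ^ 2 + 1)) ≤ (48 * CT) * (D ^ 2 * q) := h4
      _ < (D * c6) * (D ^ 2 * q) := h5
      _ = _ := by ring
  have f3 : 1 / D ^ 7 ≤ r1 := by
    rw [hr1d, div_le_div_iff₀ (by positivity) (by positivity)]
    have h1 : 1 ≤ D ^ 5 := one_le_pow₀ hD1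
    have h2 : 8 * q ≤ (D * c6) * D := mul_le_mul a2.le hqleD hq0.le (by positivity)
    have h3 : (D * c6) * D ≤ (D * c6) * D * D ^ 5 := le_mul_of_one_le_right (by positivity) h1
    calc 1 * (8 * q) = 8 * q := one_mul _
      _ ≤ (D * c6) * D * D ^ 5 := h2.trans h3
      _ = _ := by ring
  have f4' : 8 * q < c6 * κ4 * D ^ 10 := by
    have h1 : 1 ≤ D ^ 8 := one_le_pow₀ hD1
    have h2 : 8 * q < (D * (c6 * κ4)) * D := mul_lt_mul'' a3 (lt_of_le_of_ne hqleD (by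
      intro h
      rw [h] at hqD
      nlinarith)) (by norm_num) hq0.le
    have h3 : (D * (c6 * κ4)) * D ≤ (D * (c6 * κ4)) * D * D ^ 8 :=
      le_mul_of_one_le_right (by positivity) h1
    calc 8 * q < (D * (c6 * κ4)) * D * D ^ 8 := lt_of_lt_of_le h2 h3
      _ = _ := by ring
  have f4 : 1 / D ^ 10 / κ4 < r1 := by
    rw [hr1d, div_div, div_lt_div_iff₀ (by positivity) (by positivity)]
    linarith
  have f5 : 2 * (1 / D ^ 10) / (κ4 * (c6 / q)) ≤ 1 / 2 := by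
    have h1 : 2 * (1 / D ^ 10) / (κ4 * (c6 / q)) = 2 * q / (c6 * κ4 * D ^ 10) := by
      field_simp
    rw [h1, div_le_iff₀ (by positivity)]
    linarith
  have f6 : c6 / q ≤ 1 / q := div_le_div_of_nonneg_right hc61 hq0.le
  have f7 : 4 / q ≤ 1 / 16 := by linarith
  have f8 : 0 < 1 / q := by positivity
  have f9 : 4 / q = 4 * (1 / q) := by ring
  have f10 : 2 / q = 2 * (1 / q) := by ring
  have f11 : r1 ≤ 1 / 8 * (1 / q) := by
    rw [hr1d]
    have h1 : c6 / (8 * q) = 1 / 8 * (c6 / q) := by ring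
    rw [h1]
    exact mul_le_mul_of_nonneg_left f6 (by norm_num)
  -- the base point
  obtain ⟨a', ha', hbase⟩ := ev2 s w B hcov hw hB hB2 hN2 a ha
  rw [← hq] at ha' hbase
  -- the Wronskian
  have hWr0 : Wr p B ≠ 0 := by
    intro h0
    have h1 : B.degree ≠ 0 := by
      intro h2
      have h3 : B.natDegree = 0 := natDegree_eq_of_degree_eq_some h2
      have h4 := le_natDegree_of_ne_zero hBd
      omega
    obtain ⟨z, hz⟩ := IsAlgClosed.exists_root B h1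
    exact (hcrit z (by rw [h0, eval_zero])).1 hz
  have hB0 : B ≠ 0 := by
    intro h0
    rw [h0, coeff_zero] at hBd
    exact hBd rfl
  have hWrd : (Wr p B).natDegree ≤ 2 * d := by
    have h1 : (derivative p * B).natDegree ≤ (derivative p).natDegree + B.natDegree :=
      natDegree_mul_le
    have h2 : (p * derivative B).natDegree ≤ p.natDegree + (derivative B).natDegree :=
      natDegree_mul_le
    have h3 : (derivative p).natDegree ≤ p.natDegree - 1 := natDegree_derivative_le p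
    have h4 : (derivative B).natDegree ≤ B.natDegree - 1 := natDegree_derivative_le B
    have h5 : (Wr p B).natDegree ≤ max (derivative p * B).natDegree (p * derivative B).natDegree :=
      natDegree_sub_le _ _
    refine h5.trans (max_le ?_ ?_)
    · omega
    · omega
  obtain ⟨V, hV⟩ : ∃ V : Finset ℂ, V = (Wr p B).roots.toFinset.image
    (fun z => a + p.eval z / B.eval z) := ⟨_, rfl⟩
  have hVc : V.card ≤ 2 * d := by
    rw [hV]
    refine Finset.card_image_le.trans ((Multiset.toFinset_card_le _).trans ?_)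
    exact (card_roots' _).trans hWrd
  have hZc : B.roots.toFinset.card ≤ d :=
    (Multiset.toFinset_card_le _).trans ((card_roots' _).trans hB)
  have hMlt : V.card * B.roots.toFinset.card < M := by
    have h1 := Nat.mul_le_mul hVc hZc
    rw [hM]
    have h2 : 2 * d * d = 2 * d ^ 2 := by ring
    omega
  obtain ⟨j, hjM, hav⟩ := avoid V B.roots.toFinset M hMlt h hh0 (a' - a)
  have hjh : (j : ℝ) * h ≤ r1 := by
    have h1 : (j : ℝ) ≤ 2 * D ^ 2 + 1 := by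
      rw [← hMR]
      exact_mod_cast hjM.le
    calc (j : ℝ) * h ≤ (2 * D ^ 2 + 1) * h := mul_le_mul_of_nonneg_right h1 hh0.le
      _ = r1 := by
          rw [hh]
          field_simp
  have hjh0 : 0 ≤ (j : ℝ) * h := by positivity
  obtain ⟨s0, hs0⟩ : ∃ s0 : ℂ, s0 = a' - a + ((j * h : ℝ) : ℂ) := ⟨_, rfl⟩
  obtain ⟨c, hc⟩ : ∃ c : ℂ, c = a + s0 := ⟨_, rfl⟩
  have hjn : ‖((j * h : ℝ) : ℂ)‖ ≤ r1 := by
    rw [Complex.norm_real, Real.norm_of_nonneg hjh0]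
    exact hjh
  have hs0n : ‖s0‖ ≤ 4 / q := by
    rw [hs0]
    refine (norm_add_le _ _).trans ?_
    linarith
  have hca : ‖c - a'‖ ≤ r1 := by
    have h1 : c - a' = ((j * h : ℝ) : ℂ) := by
      rw [hc, hs0]
      ring
    rw [h1]
    exact hjn
  have hcop' : IsCoprime (C c * B + p) B := by
    obtain ⟨u, v, huv⟩ := hcop
    refine ⟨u, v - u * C c, ?_⟩
    rw [← huv]
    ring
  -- the trap
  have hballZ : ∀ z, ‖z - a'‖ ≤ c6 / q → wm d p z ≤ (1 / D ^ 10) * w z := by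
    intro z hz
    have h1 : ‖z - a‖ ≤ 3 * (1 / q) := by
      have h2 : z - a = (z - a') + (a' - a) := by ring
      rw [h2]
      refine (norm_add_le _ _).trans ?_
      linarith
    have h2 : ‖z‖ ≤ T + 1 := by
      have h3 : z = (z - a) + a := by ring
      rw [h3]
      refine (norm_add_le _ _).trans ?_
      linarith
    have h3 : Metric.ball z μ0 ⊆ Z := by
      intro y hy
      apply hZ
      rw [mem_ball_iff_norm] at hy
      rw [mem_closedBall_iff_norm]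
      have h4 : y - a = (y - z) + (z - a) := by ring
      rw [h4]
      refine (norm_add_le _ _).trans ?_
      linarith
    have h4 := hsm z h2 h3
    rw [← hD] at h4
    refine h4.trans (le_of_eq ?_)
    ring
  obtain ⟨t1, t2⟩ := trap_disc d w hw.pos p B κ4 (1 / D ^ 10) (c6 / q) hκ4 (by positivity)
    (by positivity) c a' hbase hballZ
  have hR4 : 2 * r1 ≤ c6 / q / 2 := by
    rw [hr1d]
    have h1 : 2 * (c6 / (8 * q)) = c6 / q / 4 := by
      field_simp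
      ring
    rw [h1]
    have h2 : 0 < c6 / q := by positivity
    linarith
  have hin : ∀ z ∈ Metric.closedBall c r1, ‖z - a'‖ ≤ c6 / q / 2 := by
    intro z hz
    rw [mem_closedBall_iff_norm] at hz
    have h1 : z - a' = (z - c) + (c - a') := by ring
    rw [h1]
    refine (norm_add_le _ _).trans ?_
    linarith
  have hin' : ∀ z ∈ Metric.closedBall c r1, ‖z - a'‖ ≤ c6 / q := by
    intro z hz
    have h1 := hin z hz
    have h2 : 0 < c6 / q := by positivity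
    linarith
  have hrat : ∀ z, B.eval z ≠ 0 → rat (C c * B + p) B (z : OnePoint ℂ) =
      ((c + p.eval z / B.eval z : ℂ) : OnePoint ℂ) := by
    intro z hz
    have h1 := rat_coe_of_ne (P := C c * B + p) hz
    have h2 : (C c * B + p).eval z / B.eval z = c + p.eval z / B.eval z := by
      rw [eval_add, eval_mul, eval_C, add_div, mul_div_cancel_right₀ _ hz]
    rw [h2] at h1
    exact h1
  refine ⟨s0, by rw [← hq]; exact hs0n, ?_, ?_⟩
  · rw [← hc]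
    exact hcop'
  rw [← hc]
  refine hyp1_of_trap hcop' (F := fun z => c + p.eval z / B.eval z) (a := c) (r := r1) (q := 1 / 2)
    hr10 (by norm_num) (by norm_num) ?_ ?_ ?_ ?_
  · intro z hz
    exact hrat z (t1 z (hin' z hz)).1
  · intro z hz
    rw [mem_ball_iff_norm]
    show ‖c + p.eval z / B.eval z - c‖ < r1
    rw [add_sub_cancel_left]
    exact lt_of_le_of_lt (t1 z (hin' z hz)).2 f4
  · intro z hz w' hw'
    refine (t2 z w' (hin z hz) (hin w' hw')).trans ?_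
    exact mul_le_mul_of_nonneg_right f5 (norm_nonneg _)
  · intro x hx
    induction x using OnePoint.rec with
    | infty => exact absurd (crit_inf d hd2 c p B hp hB hBd hinf) hx
    | coe z =>
      have h1 := crit_coe hx
      rw [wr_shift'] at h1
      obtain ⟨g1, g2, g3⟩ := hcrit z h1
      obtain ⟨v, hv⟩ : ∃ v : ℂ, v = a + p.eval z / B.eval z := ⟨_, rfl⟩
      obtain ⟨v', hv'⟩ : ∃ v' : ℂ, v' = v + s0 := ⟨_, rfl⟩
      have hvV : v ∈ V := by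
        rw [hV, Finset.mem_image]
        exact ⟨z, by rw [Multiset.mem_toFinset, mem_roots hWr0]; exact h1, hv.symm⟩
      rw [← hv] at g2 g3
      have hz' : c + p.eval z / B.eval z = v' := by
        rw [hv', hv, hc]
        ring
      have hv'n : ‖v'‖ ≤ T + 1 := by
        rw [hv']
        refine (norm_add_le _ _).trans ?_
        linarith
      have hv'Z : Metric.ball v' μ0 ⊆ Z := by
        intro y hy
        apply g3
        rw [mem_ball_iff_norm] at hy ⊢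
        have h4 : y - v = (y - v') + s0 := by rw [hv']; ring
        rw [h4]
        refine lt_of_le_of_lt (norm_add_le _ _) ?_
        linarith
      have hpv := hsm v' hv'n hv'Z
      rw [← hD] at hpv
      have hwv := hw.pos v'
      have hBv : (1 / D ^ 3) * w v' ≤ wm d B v' := by
        by_contra hcon
        push Not at hcon
        obtain ⟨ζ, hζ, hζn⟩ := ev1 s w B hcov hw hB hB2 hN2 (1 / D ^ 3) f1 v' hv'n hcon.le
        rw [← hq] at hζn
        have h4 := hav v hvV ζ (by rw [Multiset.mem_toFinset, mem_roots hB0]; exact hζ)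
        have h5 : v + (a' - a) + ((j * h : ℝ) : ℂ) - ζ = v' - ζ := by
          rw [hv', hs0]
          ring
        rw [h5] at h4
        linarith
      have hBv0 : 0 < wm d B v' := lt_of_lt_of_le (by positivity) hBv
      have hBne : B.eval v' ≠ 0 := by
        intro h0
        unfold wm at hBv0
        rw [h0, norm_zero, zero_div] at hBv0
        exact lt_irrefl _ hBv0
      have hquot : ‖p.eval v' / B.eval v'‖ ≤ r1 := by
        have hS : 0 < √((1 + ‖v'‖ ^ 2) ^ d) := Real.sqrt_pos.2 (by positivity)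
        have h3 : ‖p.eval v' / B.eval v'‖ = wm d p v' / wm d B v' := by
          unfold wm
          rw [norm_div, div_div_div_cancel_right₀ hS.ne']
        rw [h3]
        refine le_trans ?_ f3
        have h4 : wm d p v' / wm d B v' ≤ (w v' / D ^ 10) / ((1 / D ^ 3) * w v') :=
          div_le_div₀ (by positivity) hpv (by positivity) hBv
        refine h4.trans (le_of_eq ?_)
        field_simp
      refine ⟨2, c + p.eval v' / B.eval v', ?_, ?_⟩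
      · rw [mem_closedBall_iff_norm, add_sub_cancel_left]
        exact hquot
      · show rat (C c * B + p) B (rat (C c * B + p) B (z : OnePoint ℂ)) = _
        rw [hrat z g1, hz', hrat v' hBne]

end Pool.Agent.H91.PR
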