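import Pool.Agent.H85.LD.StripD
import Pool.Agent.H91.LD.Mass
import Pool.Agent.H91.PR.PDefs

/-!
# [H91 PR GEO2] strips of one level and the neighbourhood of a disc, for a fixed `d`

* `strips2`: the proof of `exists_strips` (`H85/LD/StripD`) with `m = 1`, `Λ = 1` and the two conditions `h1`, `h2` as hypotheses
  (`sm d ≤ 1`: `stripd_sm_le` there is private, copy it).
* `near_disc2`: the proof of `near_disc` (`H91/LD/Mass`).
-/

set_option autoImplicit false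

open Polynomial MeasureTheory ComplexConjugate

namespace Pool.Agent.H91.PR

open Pool.Agent.H85.LD Pool.Agent.H91.LD

section

open Real Finset

private theorem geo2_sm_le (d : ℕ) (hd : 1 ≤ d) : sm d ≤ 1 := by
  have hd1 : (1 : ℝ) ≤ d := by exact_mod_cast hd
  unfold sm
  exact inv_le_one_of_one_le₀ (Real.one_le_sqrt.2 (Real.one_le_sqrt.2 hd1))

private theorem geo2_strips (m : ℕ) (Λ θ T L : ℝ) (hΛ : 1 ≤ Λ) (hθ : 0 < θ)
    (hθ1 : θ ≤ 1 / 8) (hT : 1 ≤ T) (hL : 1 ≤ L) (d : ℕ) (hd : 1 ≤ d)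
    (h1 : L * (1 + T) / √(d : ℝ) ≤ 1 / 2 * sm d)
    (h2 : 2 * (T + 1) ^ 2 * L / √(d : ℝ) ≤ θ / 4 * sm d) (g : ℂ → ℝ) (hg0 : ∀ z, 0 ≤ g z)
    (hg : Integrable g mu) : ∃ o : ℝ, ∃ V : Set ℂ, MeasurableSet V ∧
      (∀ z x, x ∈ strips d m Λ θ T o → √d * sg z x < L → z ∈ V) ∧
      ∫ z in V, g z ∂mu ≤ 20 * m * θ * ∫ z, g z ∂mu := by
  classical
  obtain ⟨hsm, -⟩ := sm_facts
  have hs0 := hsm d hd
  have hs1 := geo2_sm_le d hd
  have hd0 : (0 : ℝ) < d := by exact_mod_cast hd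
  have hsd : 0 < √(d : ℝ) := Real.sqrt_pos.2 hd0
  have hI : 0 ≤ ∫ z, g z ∂mu := integral_nonneg hg0
  obtain ⟨S, hS⟩ : ∃ S : ℕ → ℝ, S = fun l => sm d * Λ ^ (m - 1 - l) := ⟨_, rfl⟩
  have hSl : ∀ l, sm d ≤ S l := by
    intro l
    rw [hS]
    have : 1 ≤ Λ ^ (m - 1 - l) := one_le_pow₀ hΛ
    nlinarith
  have hS0 : ∀ l, 0 < S l := fun l => lt_of_lt_of_le hs0 (hSl l)
  have hSmax : ∀ l, S l ≤ S 0 := by
    intro l
    rw [hS]
    refine mul_le_mul_of_nonneg_left ?_ hs0.le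
    exact pow_le_pow_right₀ hΛ (by omega)
  obtain ⟨h, hh⟩ : ∃ h : ℝ, h = θ * sm d / 10 := ⟨_, rfl⟩
  have hh0 : 0 < h := by rw [hh]; positivity
  obtain ⟨M, hM⟩ : ∃ M : ℕ, M = ⌈S 0 / h⌉₊ := ⟨_, rfl⟩
  have hM1 : S 0 ≤ M * h := by
    rw [← div_le_iff₀ hh0, hM]
    exact Nat.le_ceil _
  have hM0 : 1 ≤ M := by
    rw [hM, Nat.one_le_ceil_iff]
    exact div_pos (hS0 0) hh0
  have hMr : (0 : ℝ) < M := by exact_mod_cast hM0
  have hVm : ∀ j : ℕ, MeasurableSet {z : ℂ | ∃ l < m, ∃ k : ℤ,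
      (k : ℝ) * S l ≤ z.re + θ * S l / 4 + j * h ∧
      z.re + θ * S l / 4 + j * h ≤ k * S l + 3 * θ / 2 * S l} := by
    intro j
    have e : {z : ℂ | ∃ l < m, ∃ k : ℤ, (k : ℝ) * S l ≤ z.re + θ * S l / 4 + j * h ∧
      z.re + θ * S l / 4 + j * h ≤ k * S l + 3 * θ / 2 * S l} =
        ⋃ l ∈ Finset.range m, {z : ℂ | ∃ k : ℤ, (k : ℝ) * S l ≤ z.re + θ * S l / 4 + j * h ∧
      z.re + θ * S l / 4 + j * h ≤ k * S l + 3 * θ / 2 * S l} := by
      ext z
      simp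
    rw [e]
    refine Finset.measurableSet_biUnion _ fun l _ => ?_
    exact strip_meas (S l) (3 * θ / 2) (fun z => z.re + θ * S l / 4 + j * h)
      ((Complex.measurable_re.add_const _).add_const _)
  obtain ⟨j, hj, hint⟩ := pigeon M hM0
    (fun j => {z : ℂ | ∃ l < m, ∃ k : ℤ, (k : ℝ) * S l ≤ z.re + θ * S l / 4 + j * h ∧
      z.re + θ * S l / 4 + j * h ≤ k * S l + 3 * θ / 2 * S l}) (fun j _ => hVm j)
    (5 * m * θ * M) (by
      intro z
      have hsub : (range M).filter (fun j : ℕ => z ∈ {z : ℂ | ∃ l < m, ∃ k : ℤ,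
          (k : ℝ) * S l ≤ z.re + θ * S l / 4 + j * h ∧
          z.re + θ * S l / 4 + j * h ≤ k * S l + 3 * θ / 2 * S l}) ⊆
          (range m).biUnion fun l => (range M).filter (fun j : ℕ => ∃ k : ℤ,
            (k : ℝ) * S l ≤ z.re + θ * S l / 4 + j * h ∧
            z.re + θ * S l / 4 + j * h ≤ k * S l + 3 * θ / 2 * S l) := by
        intro j hj
        rw [mem_filter] at hj
        obtain ⟨hj1, l, hl, hk⟩ := hj
        rw [mem_biUnion]
        exact ⟨l, mem_range.2 hl, mem_filter.2 ⟨hj1, hk⟩⟩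
      have hcard := (card_le_card hsub).trans card_biUnion_le
      have hcard' : (((range M).filter (fun j : ℕ => z ∈ {z : ℂ | ∃ l < m, ∃ k : ℤ,
          (k : ℝ) * S l ≤ z.re + θ * S l / 4 + j * h ∧
          z.re + θ * S l / 4 + j * h ≤ k * S l + 3 * θ / 2 * S l})).card : ℝ) ≤
          ∑ l ∈ range m, (((range M).filter (fun j : ℕ => ∃ k : ℤ,
            (k : ℝ) * S l ≤ z.re + θ * S l / 4 + j * h ∧
            z.re + θ * S l / 4 + j * h ≤ k * S l + 3 * θ / 2 * S l)).card : ℝ) := by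
        exact_mod_cast hcard
      refine le_trans (le_of_eq ?_) (hcard'.trans ?_)
      · congr 2
        ext j
        simp only [mem_filter]
      have hl : ∀ l ∈ range m, (((range M).filter (fun j : ℕ => ∃ k : ℤ,
            (k : ℝ) * S l ≤ z.re + θ * S l / 4 + j * h ∧
            z.re + θ * S l / 4 + j * h ≤ k * S l + 3 * θ / 2 * S l)).card : ℝ) ≤
          5 * θ * M := by
        intro l _
        have h3 := cnt_strip (z.re + θ * S l / 4) (S l) h (3 * θ / 2) M (hS0 l) hh0 (by positivity)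
          (by linarith) ((hSmax l).trans hM1)
        refine le_trans (le_of_eq ?_) (h3.trans ?_)
        · congr 2
        · have h4 : h / S l ≤ θ / 10 := by
            rw [div_le_iff₀ (hS0 l), hh]
            have := hSl l
            nlinarith
          have h5 : 3 * (M : ℝ) * (3 * θ / 2 + h / S l) ≤ 3 * M * (3 * θ / 2 + θ / 10) :=
            mul_le_mul_of_nonneg_left (by linarith) (by positivity)
          refine h5.trans ?_
          have h6 : 0 ≤ (M : ℝ) * θ := by positivity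
          nlinarith
      refine (Finset.sum_le_sum hl).trans (le_of_eq ?_)
      rw [sum_const, card_range, nsmul_eq_mul]
      ring) g hg0 hg
  refine ⟨j * h, _, hVm j, ?_, ?_⟩
  · rintro z x ⟨hxT, l, hl, k, hk1, hk2⟩ hzx
    have hη : sg z x ≤ L / √d := by
      rw [le_div_iff₀ hsd]
      linarith
    have h3 := near_flat T (L / √d) hT (by positivity) (by
      calc L / √d * (1 + T) = L * (1 + T) / √d := by ring
        _ ≤ 1 / 2 * sm d := h1
        _ ≤ 1 / 2 := by linarith) z x hxT hη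
    have h4 : 2 * (T + 1) ^ 2 * (L / √d) ≤ θ * S l / 4 := by
      calc 2 * (T + 1) ^ 2 * (L / √d) = 2 * (T + 1) ^ 2 * L / √d := by ring
        _ ≤ θ / 4 * sm d := h2
        _ ≤ θ / 4 * S l := mul_le_mul_of_nonneg_left (hSl l) (by positivity)
        _ = θ * S l / 4 := by ring
    have h5 : |z.re - x.re| ≤ θ * S l / 4 := by
      rw [← Complex.sub_re]
      exact (Complex.abs_re_le_norm _).trans (h3.trans h4)
    have h6 := abs_le.1 h5
    have eS : sm d * Λ ^ (m - 1 - l) = S l := by rw [hS]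
    rw [eS] at hk1 hk2
    refine ⟨l, hl, k, ?_, ?_⟩
    · linarith
    · linarith
  · refine hint.trans ?_
    apply mul_le_mul_of_nonneg_right _ hI
    rw [mul_div_assoc, div_self hMr.ne', mul_one]
    have : 0 ≤ (m : ℝ) * θ := by positivity
    nlinarith

end

theorem strips2 (θ T L : ℝ) (hθ : 0 < θ) (hθ1 : θ ≤ 1 / 8) (hT : 1 ≤ T) (hL : 1 ≤ L) (d : ℕ)
    (hd : 1 ≤ d) (h1 : L * (1 + T) / √(d : ℝ) ≤ 1 / 2 * sm d)
    (h2 : 2 * (T + 1) ^ 2 * L / √(d : ℝ) ≤ θ / 4 * sm d) (g : ℂ → ℝ) (hg : ∀ z, 0 ≤ g z)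
    (hgi : Integrable g mu) : ∃ o : ℝ, ∃ V : Set ℂ, MeasurableSet V ∧
      (∀ z x, x ∈ strips d 1 1 θ T o → √d * sg z x < L → z ∈ V) ∧
      ∫ z in V, g z ∂mu ≤ 20 * θ * ∫ z, g z ∂mu := by
  obtain ⟨o, V, hV, h3, h4⟩ := geo2_strips 1 1 θ T L le_rfl hθ hθ1 hT hL d hd h1 h2 g hg hgi
  refine ⟨o, V, hV, h3, ?_⟩
  rwa [Nat.cast_one, mul_one] at h4

theorem near_disc2 (L ρ : ℝ) (hρ : 0 < ρ) (hρ1 : ρ ≤ 1 / 4) (d : ℕ)
    (h : 18 * L ≤ ρ * √(d : ℝ)) (hL : 0 < L) (a z x : ℂ) (ha : ‖a‖ ≤ 1)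
    (hx : x ∈ Metric.closedBall a ρ) (hs : √d * sg z x < L) : z ∈ Metric.closedBall a (2 * ρ) := by
  have h1 : 18 * L ≤ ρ * √(d : ℝ) := h
  have hd0 : 0 < √(d : ℝ) := by
    by_contra h
    have h2 : √(d : ℝ) ≤ 0 := not_lt.1 h
    nlinarith
  have h2 : 18 * sg z x < ρ := by
    have h3 : √(d : ℝ) * (18 * sg z x) < √(d : ℝ) * ρ := by nlinarith
    exact lt_of_mul_lt_mul_left h3 hd0.le
  rw [Metric.mem_closedBall, dist_eq_norm] at hx ⊢
  have hx2 : ‖x‖ ≤ 2 := by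
    calc ‖x‖ = ‖(x - a) + a‖ := by rw [sub_add_cancel]
      _ ≤ ‖x - a‖ + ‖a‖ := norm_add_le _ _
      _ ≤ 2 := by linarith
  have h4 := dist_le_sg (T := 2) (z := z) hx2 (by linarith)
  calc ‖z - a‖ = ‖(z - x) + (x - a)‖ := by ring_nf
    _ ≤ ‖z - x‖ + ‖x - a‖ := norm_add_le _ _
    _ ≤ 2 * ρ := by
      have : (2 : ℝ) * (1 + 2) ^ 2 * sg z x = 18 * sg z x := by ring
      linarith

end Pool.Agent.H91.PR
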