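import Pool.Agent.H91.LD.Localize
import Pool.Agent.H91.PR.PDefs
import Pool.Agent.H85.LD.Schur

/-!
# [H91 PR PK] the cut off perturbations of the cells

* `schur_fam`: exactly the proof of `schur_tail_sum` in `H85/LD/Schur` (copy it, with its private lemmas), with `K j` in place of `G`.
* `pK_wm`, `pK_tail`: weight `S w` (a weight if `0 < S`; if `S = 0` then all `wm d (K j) z = 0`, or use the weight `(S + ε) w` and let `ε → 0`, or prove
  `schur_fam` with `wm d (K j) z ≤ S * w z`, `0 ≤ S` directly), `∑ chi j ≤ 1` (`sum_chi`), `chi_ne`.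
* `pK_near`: `L' = L χ0/8`, `E = {x | c x = c b ∧ x ∉ Z}`, `chiT d L c Z b = cut d L E b ≥ χ0/2`. By `cut_le` every `y ∉ E` has
  `√d sg b y ≥ χ0 L/2`. Let `√d sg b z ≤ 4`. If `j ≠ c b` and `chi d L' c Z j x ≠ 0` then `x ∉ E` (`chi_ne`), so `√d sg z x ≥ χ0 L/2 - 4`. If
  `chi d L' c Z (c b) x ≠ 1` then (`cut_one`) there is `y ∉ E` with `√d sg x y < L'`, so `√d sg b x ≥ χ0 L/2 - L' = 3 χ0 L/8`,
  `√d sg z x ≥ 3 χ0 L/8 - 4`. Both are `≥ χ0 L/4` because `χ0 L ≥ 32`. `Pj d χ G - G = - Pj d (1 - χ) G` (`Pj_sum`, `Pj_one`).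
  `schur_fam` with `δ = χ0 L/(4 √d)` for `univ.erase (c b)` and for the single function `1 - chi d L' c Z (c b)`: total
  `wm ≤ 100 S exp(-((χ0 L/4)^2/8)) w z`; then `sn_EB`.
-/

set_option autoImplicit false

open Polynomial MeasureTheory ComplexConjugate

namespace Pool.Agent.H91.PR

open Pool.Agent.H85.LD Pool.Agent.H91.LD

variable {N : ℕ}

private theorem pkx_root (d : ℕ) (z x : ℂ) :
    √((1 - sg z x ^ 2) ^ d) ≤ Real.exp (-((√d * sg z x) ^ 2 / 2)) := by
  have h0 : 0 ≤ 1 - sg z x ^ 2 := by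
    have h1 := sg_nonneg z x
    have h2 := sg_le_one z x
    nlinarith
  have h1 : 1 - sg z x ^ 2 ≤ Real.exp (-(sg z x ^ 2)) := Real.one_sub_le_exp_neg _
  rw [Real.sqrt_le_iff]
  refine ⟨(Real.exp_pos _).le, ?_⟩
  calc (1 - sg z x ^ 2) ^ d ≤ Real.exp (-(sg z x ^ 2)) ^ d := pow_le_pow_left₀ h0 h1 d
    _ = Real.exp (-((√d * sg z x) ^ 2 / 2)) ^ 2 := by
        rw [← Real.exp_nat_mul, ← Real.exp_nat_mul]
        congr 1
        rw [mul_pow, Real.sq_sqrt (Nat.cast_nonneg d)]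
        push_cast
        ring

/-- the main pointwise bound -/
private theorem pkx_pt (d : ℕ) (w : ℂ → ℝ) (hw : Wgt d w) (G : ℂ[X]) (S : ℝ) (hS : 0 ≤ S)
    (hGw : ∀ z, wm d G z ≤ S * w z) (z x : ℂ) : wm d G x * √((1 - sg z x ^ 2) ^ d) ≤
      (S * w z) * (Real.exp 1 * (Real.exp (-((√d * sg z x) ^ 2 / 8)) *
        Real.exp (-((√d * sg z x) ^ 2 / 8)))) := by
  have h1 : wm d G x ≤ S * w z * Real.exp (√d * sg z x) := by
    refine (hGw x).trans ?_
    rw [mul_assoc]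
    exact mul_le_mul_of_nonneg_left (hw.lip z x) hS
  have h2 := pkx_root d z x
  have h3 : 0 ≤ S * w z := mul_nonneg hS (hw.pos z).le
  calc wm d G x * √((1 - sg z x ^ 2) ^ d)
      ≤ (S * w z * Real.exp (√d * sg z x)) * Real.exp (-((√d * sg z x) ^ 2 / 2)) :=
        mul_le_mul h1 h2 (Real.sqrt_nonneg _) (mul_nonneg h3 (Real.exp_pos _).le)
    _ = S * w z * Real.exp (√d * sg z x - (√d * sg z x) ^ 2 / 2) := by
        rw [mul_assoc (S * w z), ← Real.exp_add]
        ring_nf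
    _ ≤ S * w z * Real.exp (1 - (√d * sg z x) ^ 2 / 4) := by
        refine mul_le_mul_of_nonneg_left (Real.exp_le_exp.2 ?_) h3
        nlinarith [sq_nonneg (√d * sg z x / 2 - 1)]
    _ = _ := by
        rw [← Real.exp_add, ← Real.exp_add]
        ring_nf

private theorem pkx_gi (d : ℕ) (z : ℂ) :
    Integrable (fun x => Real.exp (-((√d * sg z x) ^ 2 / 8))) mu := by
  have hc : Continuous (fun x : ℂ => Real.exp (-((√d * sg z x) ^ 2 / 8))) := by
    have h1 : Continuous (fun x : ℂ => sg z x) :=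
      sg_continuous.comp (by fun_prop : Continuous (fun x : ℂ => (z, x)))
    fun_prop
  refine Integrable.of_bound hc.aestronglyMeasurable 1 (Filter.Eventually.of_forall fun x => ?_)
  rw [Real.norm_of_nonneg (Real.exp_pos _).le, Real.exp_le_one_iff]
  have := sq_nonneg (√d * sg z x)
  linarith

private theorem pkx_gv (d : ℕ) (hd : 1 ≤ d) (z : ℂ) :
    (d + 1) * ∫ x, Real.exp (-((√d * sg z x) ^ 2 / 8)) ∂mu ≤ 16 := by
  have hd' : (1 : ℝ) ≤ d := by exact_mod_cast hd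
  have h1 := gauss z (d / 8) (by positivity)
  have h2 : ∀ x, Real.exp (-((√d * sg z x) ^ 2 / 8)) = Real.exp (-(d / 8 * sg z x ^ 2)) := by
    intro x
    rw [mul_pow, Real.sq_sqrt (Nat.cast_nonneg d)]
    ring_nf
  simp_rw [h2]
  calc ((d : ℝ) + 1) * ∫ x, Real.exp (-(d / 8 * sg z x ^ 2)) ∂mu
      ≤ (d + 1) * (1 / (d / 8)) := mul_le_mul_of_nonneg_left h1 (by positivity)
    _ = 8 * (d + 1) / d := by field_simp
    _ ≤ 16 := by
        rw [div_le_iff₀ (by linarith)]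
        linarith

private theorem pkx_e : Real.exp 1 ≤ 2.72 := by
  have := Real.exp_one_lt_d9
  linarith

theorem schur_fam (d : ℕ) (hd : 1 ≤ d) {ι : Type} (s : Finset ι) (χ : ι → ℂ → ℝ)
    (hχ : ∀ j ∈ s, Measurable (χ j)) (h0 : ∀ j ∈ s, ∀ x, 0 ≤ χ j x)
    (h1 : ∀ x, ∑ j ∈ s, χ j x ≤ 1) (z : ℂ) (δ : ℝ) (hδ : 0 ≤ δ)
    (hsupp : ∀ j ∈ s, ∀ x, χ j x ≠ 0 → δ ≤ sg z x) (w : ℂ → ℝ) (hw : Wgt d w)
    (K : ι → ℂ[X]) (hK : ∀ j ∈ s, (K j).natDegree ≤ d) (S : ℝ) (hS : 0 ≤ S)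
    (hKw : ∀ j ∈ s, ∀ z, wm d (K j) z ≤ S * w z) :
    ∑ j ∈ s, wm d (Pj d (χ j) (K j)) z ≤ 50 * Real.exp (-(d * δ ^ 2 / 8)) * (S * w z) := by
  have hle : ∀ j ∈ s, ∀ x, χ j x ≤ 1 := fun j hj x =>
    (Finset.single_le_sum (f := fun j => χ j x) (fun i hi => h0 i hi x) hj).trans (h1 x)
  have hb : ∀ j ∈ s, ∀ x, |χ j x| ≤ 1 := fun j hj x =>
    abs_le.2 ⟨by linarith [h0 j hj x], hle j hj x⟩
  have hwz : 0 ≤ S * w z := mul_nonneg hS (hw.pos z).le
  have hcw : ∀ j, Measurable (wm d (K j)) := fun j => (wm_continuous d (K j)).measurable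
  have hcs : Continuous (fun x : ℂ => √((1 - sg z x ^ 2) ^ d)) := by
    have h1 : Continuous (fun x : ℂ => sg z x) :=
      sg_continuous.comp (by fun_prop : Continuous (fun x : ℂ => (z, x)))
    fun_prop
  have hpos : ∀ j x, 0 ≤ wm d (K j) x * √((1 - sg z x ^ 2) ^ d) := fun j x =>
    mul_nonneg (wm_nonneg _ _ _) (Real.sqrt_nonneg _)
  have hpt0 : ∀ j ∈ s, ∀ x, wm d (K j) x * √((1 - sg z x ^ 2) ^ d) ≤
      (Real.exp 1 * (S * w z)) * Real.exp (-((√d * sg z x) ^ 2 / 8)) := by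
    intro j hj x
    refine (pkx_pt d w hw (K j) S hS (hKw j hj) z x).trans ?_
    have h2 : Real.exp (-((√d * sg z x) ^ 2 / 8)) ≤ 1 := by
      rw [Real.exp_le_one_iff]
      have := sq_nonneg (√d * sg z x)
      linarith
    calc (S * w z) * (Real.exp 1 * (Real.exp (-((√d * sg z x) ^ 2 / 8)) *
        Real.exp (-((√d * sg z x) ^ 2 / 8))))
        ≤ (S * w z) * (Real.exp 1 * (Real.exp (-((√d * sg z x) ^ 2 / 8)) * 1)) := by gcongr
      _ = _ := by ring
  have hint : ∀ j ∈ s, Integrable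
      (fun x => |χ j x| * wm d (K j) x * √((1 - sg z x ^ 2) ^ d)) mu := by
    intro j hj
    refine Integrable.mono' ((pkx_gi d z).const_mul (Real.exp 1 * (S * w z))) ?_
      (Filter.Eventually.of_forall fun x => ?_)
    · have hm : Measurable (fun x => |χ j x|) := (hχ j hj).norm
      exact ((hm.mul (hcw j)).mul hcs.measurable).aestronglyMeasurable
    · rw [mul_assoc, Real.norm_of_nonneg (mul_nonneg (abs_nonneg _) (hpos j x))]
      calc |χ j x| * (wm d (K j) x * √((1 - sg z x ^ 2) ^ d))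
          ≤ 1 * (wm d (K j) x * √((1 - sg z x ^ 2) ^ d)) :=
            mul_le_mul_of_nonneg_right (hb j hj x) (hpos j x)
        _ ≤ _ := by rw [one_mul]; exact hpt0 j hj x
  have hpt : ∀ x, ∑ j ∈ s, |χ j x| * wm d (K j) x * √((1 - sg z x ^ 2) ^ d) ≤
      (Real.exp 1 * Real.exp (-(d * δ ^ 2 / 8)) * (S * w z)) *
        Real.exp (-((√d * sg z x) ^ 2 / 8)) := by
    intro x
    have e1 : ∀ j ∈ s, |χ j x| * wm d (K j) x * √((1 - sg z x ^ 2) ^ d) ≤
        χ j x * ((Real.exp 1 * Real.exp (-(d * δ ^ 2 / 8)) * (S * w z)) *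
        Real.exp (-((√d * sg z x) ^ 2 / 8))) := by
      intro j hj
      rw [abs_of_nonneg (h0 j hj x), mul_assoc]
      by_cases hne : χ j x = 0
      · rw [hne, zero_mul, zero_mul]
      · have hd1 := hsupp j hj x hne
        have h2 : Real.exp (-((√d * sg z x) ^ 2 / 8)) ≤ Real.exp (-(d * δ ^ 2 / 8)) := by
          rw [Real.exp_le_exp, mul_pow, Real.sq_sqrt (Nat.cast_nonneg d)]
          have : δ ^ 2 ≤ sg z x ^ 2 := pow_le_pow_left₀ hδ hd1 2
          have h3 : (0 : ℝ) ≤ d := Nat.cast_nonneg d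
          nlinarith [mul_le_mul_of_nonneg_left this h3]
        refine mul_le_mul_of_nonneg_left ?_ (h0 j hj x)
        calc wm d (K j) x * √((1 - sg z x ^ 2) ^ d)
            ≤ (S * w z) * (Real.exp 1 * (Real.exp (-((√d * sg z x) ^ 2 / 8)) *
                Real.exp (-((√d * sg z x) ^ 2 / 8)))) := pkx_pt d w hw (K j) S hS (hKw j hj) z x
          _ ≤ (S * w z) * (Real.exp 1 * (Real.exp (-(d * δ ^ 2 / 8)) *
                Real.exp (-((√d * sg z x) ^ 2 / 8)))) := by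
              gcongr
          _ = _ := by ring
    refine (Finset.sum_le_sum e1).trans ?_
    rw [← Finset.sum_mul]
    have h5 : 0 ≤ (Real.exp 1 * Real.exp (-(d * δ ^ 2 / 8)) * (S * w z)) *
        Real.exp (-((√d * sg z x) ^ 2 / 8)) := by positivity
    calc _ ≤ 1 * _ := mul_le_mul_of_nonneg_right (h1 x) h5
      _ = _ := one_mul _
  calc ∑ j ∈ s, wm d (Pj d (χ j) (K j)) z
      ≤ ∑ j ∈ s, (d + 1) * ∫ x, |χ j x| * wm d (K j) x * √((1 - sg z x ^ 2) ^ d) ∂mu :=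
        Finset.sum_le_sum fun j hj => ker_bound0 d (χ j) (hχ j hj) 1 (hb j hj) (K j) (hK j hj) z
    _ = (d + 1) * ∫ x, ∑ j ∈ s, |χ j x| * wm d (K j) x * √((1 - sg z x ^ 2) ^ d) ∂mu := by
        rw [← Finset.mul_sum, integral_finsetSum s hint]
    _ ≤ (d + 1) * ∫ x, (Real.exp 1 * Real.exp (-(d * δ ^ 2 / 8)) * (S * w z)) *
          Real.exp (-((√d * sg z x) ^ 2 / 8)) ∂mu := by
        refine mul_le_mul_of_nonneg_left ?_ (by positivity)
        refine integral_mono_of_nonneg (Filter.Eventually.of_forall fun x => ?_)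
          ((pkx_gi d z).const_mul _) (Filter.Eventually.of_forall hpt)
        exact Finset.sum_nonneg fun j hj => by
          rw [mul_assoc]
          exact mul_nonneg (abs_nonneg _) (hpos j x)
    _ = (Real.exp 1 * Real.exp (-(d * δ ^ 2 / 8)) * (S * w z)) *
          ((d + 1) * ∫ x, Real.exp (-((√d * sg z x) ^ 2 / 8)) ∂mu) := by
        rw [integral_const_mul]
        ring
    _ ≤ (2.72 * Real.exp (-(d * δ ^ 2 / 8)) * (S * w z)) * 16 := by
        have := pkx_gv d hd z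
        have h5 := pkx_e
        have h6 : 0 ≤ ((d : ℝ) + 1) * ∫ x, Real.exp (-((√d * sg z x) ^ 2 / 8)) ∂mu :=
          mul_nonneg (by positivity) (integral_nonneg fun x => (Real.exp_pos _).le)
        gcongr
    _ ≤ 50 * Real.exp (-(d * δ ^ 2 / 8)) * (S * w z) := by
        have : 0 ≤ Real.exp (-(d * δ ^ 2 / 8)) * (S * w z) := by positivity
        nlinarith

theorem pK_deg (d : ℕ) (L : ℝ) (c : ℂ → Fin N) (Z : Set ℂ) (K : Fin N → ℂ[X]) :
    (pK d L c Z K).natDegree ≤ d := by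
  unfold pK
  exact Polynomial.natDegree_sum_le_of_forall_le _ _ (fun j _ => Pj_deg _ _ _)

private theorem pkx_wm_sum (d : ℕ) {ι : Type} (s : Finset ι) (F : ι → ℂ[X]) (z : ℂ) :
    wm d (∑ i ∈ s, F i) z ≤ ∑ i ∈ s, wm d (F i) z := by
  classical
  induction s using Finset.induction_on with
  | empty => simp [wm]
  | insert a s ha ih =>
    rw [Finset.sum_insert ha, Finset.sum_insert ha]
    exact (wm_add_le d _ _ z).trans (by linarith)

private theorem pkx_tail (d : ℕ) (hd : 1 ≤ d) (L : ℝ) (hL : 0 < L) (c : ℂ → Fin N)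
    (Z : Set ℂ) (w : ℂ → ℝ) (hw : Wgt d w) (K : Fin N → ℂ[X]) (hK : ∀ j, (K j).natDegree ≤ d)
    (S : ℝ) (hS : 0 ≤ S) (hKw : ∀ j z, wm d (K j) z ≤ S * w z) (s : Finset (Fin N)) (z : ℂ)
    (δ : ℝ) (hδ : 0 ≤ δ) (hs : ∀ j ∈ s, ∀ x, chi d L c Z j x ≠ 0 → δ ≤ sg z x) :
    wm d (∑ j ∈ s, Pj d (chi d L c Z j) (K j)) z ≤
      50 * Real.exp (-(d * δ ^ 2 / 8)) * (S * w z) := by
  refine (pkx_wm_sum d _ _ z).trans ?_
  refine schur_fam d hd s (fun j => chi d L c Z j)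
    (fun j _ => (cut_continuous d L hL _).measurable) (fun j _ => cut_nonneg d L hL _) ?_ z δ hδ
    hs w hw K (fun j _ => hK j) S hS (fun j _ => hKw j)
  intro x
  calc ∑ j ∈ s, chi d L c Z j x ≤ ∑ j, chi d L c Z j x :=
        Finset.sum_le_sum_of_subset_of_nonneg (Finset.subset_univ s)
          (fun j _ _ => cut_nonneg d L hL _ x)
    _ ≤ 1 := by
        rw [sum_chi d L hL c Z x]
        exact chiT_le_one d L hL c Z x

theorem pK_wm (d : ℕ) (hd : 1 ≤ d) (L : ℝ) (hL : 0 < L) (c : ℂ → Fin N) (Z : Set ℂ) (w : ℂ → ℝ)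
    (hw : Wgt d w) (K : Fin N → ℂ[X]) (hK : ∀ j, (K j).natDegree ≤ d) (S : ℝ) (hS : 0 ≤ S)
    (hKw : ∀ j z, wm d (K j) z ≤ S * w z) (z : ℂ) : wm d (pK d L c Z K) z ≤ 50 * S * w z := by
  have h := pkx_tail d hd L hL c Z w hw K hK S hS hKw Finset.univ z 0 le_rfl
    (fun j _ x _ => sg_nonneg z x)
  have e : Real.exp (-(d * (0 : ℝ) ^ 2 / 8)) = 1 := by simp
  rw [e, mul_one] at h
  unfold pK
  linarith

theorem pK_tail (d : ℕ) (hd : 1 ≤ d) (L : ℝ) (hL : 0 < L) (c : ℂ → Fin N) (Z : Set ℂ) (w : ℂ → ℝ)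
    (hw : Wgt d w) (K : Fin N → ℂ[X]) (hK : ∀ j, (K j).natDegree ≤ d) (S : ℝ) (hS : 0 ≤ S)
    (hKw : ∀ j z, wm d (K j) z ≤ S * w z) (v : ℂ) (δ : ℝ) (hδ : 0 ≤ δ)
    (hv : ∀ x, x ∉ Z → δ ≤ sg v x) :
    wm d (pK d L c Z K) v ≤ 50 * Real.exp (-(d * δ ^ 2 / 8)) * (S * w v) := by
  exact pkx_tail d hd L hL c Z w hw K hK S hS hKw Finset.univ v δ hδ
    (fun j _ x hx => hv x (chi_ne d L hL c Z j x hx).2)

/-- one cut off function: `Pj χ G - G` is minus the projection of `(1 - χ) G` -/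
private theorem pkx_one_sub (d : ℕ) (χ : ℂ → ℝ) (hχ : Measurable χ) (h0 : ∀ x, 0 ≤ χ x)
    (h1 : ∀ x, χ x ≤ 1) (G : ℂ[X]) (hG : G.natDegree ≤ d) :
    Pj d χ G - G = - Pj d (fun x => 1 - χ x) G := by
  have h := Pj_sum d (Finset.univ : Finset (Fin 2)) ![1, - 1] ![fun _ => 1, χ]
    (by
      intro j _
      fin_cases j
      · exact measurable_const
      · exact hχ) 1
    (by
      intro j _ x
      fin_cases j
      · simp
      · exact abs_le.2 ⟨by
          have := h0 x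
          show -1 ≤ χ x
          linarith, h1 x⟩) G hG
  simp only [Fin.sum_univ_two, Matrix.cons_val_zero, Matrix.cons_val_one, one_mul, mul_one] at h
  have h' : (fun x => 1 + -1 * χ x) = fun x => 1 - χ x := by
    funext x; ring
  rw [h', Pj_one d G hG] at h
  rw [h, Complex.ofReal_neg, C_neg, Complex.ofReal_one, C_1]
  ring

theorem pK_near (d : ℕ) (hd : 1 ≤ d) (L χ0 : ℝ) (hL : 0 < L) (hχ0 : 0 < χ0) (hχ1 : χ0 ≤ 1)
    (h32 : 32 ≤ χ0 * L) (c : ℂ → Fin N) (Z : Set ℂ) (w : ℂ → ℝ)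
    (hw : Wgt d w) (K : Fin N → ℂ[X]) (hK : ∀ j, (K j).natDegree ≤ d) (S : ℝ) (hS : 0 ≤ S)
    (hKw : ∀ j z, wm d (K j) z ≤ S * w z) (b : ℂ) (hb : χ0 / 2 ≤ chiT d L c Z b) :
    EB (fun u => sn d b (w b) (pK d (L * χ0 / 8) c Z K) u - sn d b (w b) (K (c b)) u)
      (2 * 10 ^ 7 * S * Real.exp (-((χ0 * L / 4) ^ 2 / 8))) := by
  classical
  have hd' : (1 : ℝ) ≤ d := by exact_mod_cast hd
  have hsd : 0 < √(d : ℝ) := Real.sqrt_pos.2 (by linarith)
  have hL' : 0 < L * χ0 / 8 := by positivity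
  have hfun : (fun u => sn d b (w b) (pK d (L * χ0 / 8) c Z K) u - sn d b (w b) (K (c b)) u) =
      sn d b (w b) (pK d (L * χ0 / 8) c Z K - K (c b)) := by
    funext u
    rw [sn_sub]
  rw [hfun]
  have hdeg : (pK d (L * χ0 / 8) c Z K - K (c b)).natDegree ≤ d :=
    (Polynomial.natDegree_sub_le_of_le (pK_deg _ _ _ _ _) (hK (c b))).trans (le_of_eq (max_self d))
  -- far away from b
  have hfar : ∀ y, y ∉ {x | c x = c b ∧ x ∉ Z} → χ0 * L / 2 ≤ √d * sg b y := by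
    intro y hy
    have h7 : chi d L c Z (c b) b ≤ √d * sg b y / L := cut_le d L hL _ b y hy
    have h8 : χ0 / 2 ≤ √d * sg b y / L := hb.trans h7
    rw [le_div_iff₀ hL] at h8
    linarith
  have hEB := sn_EB d hd w hw b (pK d (L * χ0 / 8) c Z K - K (c b)) hdeg
    (100 * S * Real.exp (-((χ0 * L / 4) ^ 2 / 8))) (by positivity) ?_
  · refine hEB.mono (le_of_eq ?_)
    ring
  · intro z hz
    set δ : ℝ := χ0 * L / 4 / √d with hδd
    have hδ : 0 ≤ δ := by positivity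
    have eδ : (d : ℝ) * δ ^ 2 = (χ0 * L / 4) ^ 2 := by
      rw [hδd, div_pow (χ0 * L / 4), Real.sq_sqrt (by linarith)]
      field_simp
    have htri : ∀ x, √d * sg b x ≤ √d * sg b z + √d * sg z x := by
      intro x
      rw [← mul_add]
      exact mul_le_mul_of_nonneg_left (sg_tri b z x) hsd.le
    -- splitting
    have e0 : pK d (L * χ0 / 8) c Z K - K (c b) =
        (∑ j ∈ Finset.univ.erase (c b), Pj d (chi d (L * χ0 / 8) c Z j) (K j)) +
        (-Pj d (fun x => 1 - chi d (L * χ0 / 8) c Z (c b) x) (K (c b))) := by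
      rw [← pkx_one_sub d (chi d (L * χ0 / 8) c Z (c b)) (cut_continuous d _ hL' _).measurable
        (cut_nonneg d _ hL' _) (cut_le_one d _ hL' _) (K (c b)) (hK (c b))]
      unfold pK
      rw [← Finset.sum_erase_add _ _ (Finset.mem_univ (c b))]
      ring
    rw [e0]
    refine (wm_add_le d _ _ z).trans ?_
    rw [wm_neg]
    have h1 := pkx_tail d hd (L * χ0 / 8) hL' c Z w hw K hK S hS hKw (Finset.univ.erase (c b)) z
      δ hδ (by
        intro j hj x hx
        have hj' : j ≠ c b := (Finset.mem_erase.1 hj).1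
        have h5 := (chi_ne d _ hL' c Z j x hx).1
        have h6 : x ∉ {x | c x = c b ∧ x ∉ Z} := by
          intro h7
          exact hj' (h5.symm.trans h7.1)
        have h7 := hfar x h6
        have h8 := htri x
        rw [hδd, div_le_iff₀ hsd]
        linarith)
    have h2 := schur_fam d hd ({()} : Finset Unit)
      (fun _ x => 1 - chi d (L * χ0 / 8) c Z (c b) x)
      (fun _ _ => measurable_const.sub (cut_continuous d _ hL' _).measurable)
      (fun _ _ x => sub_nonneg.2 (cut_le_one d _ hL' _ x))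
      (fun x => by
        rw [Finset.sum_singleton]
        have := cut_nonneg d _ hL' {x | c x = c b ∧ x ∉ Z} x
        show 1 - cut d (L * χ0 / 8) {x | c x = c b ∧ x ∉ Z} x ≤ 1
        linarith) z δ hδ (by
        intro _ _ x hx
        have h5 : ∃ y, √d * sg x y < L * χ0 / 8 ∧ y ∉ {x | c x = c b ∧ x ∉ Z} := by
          by_contra hcon
          push Not at hcon
          apply hx
          have h6 : chi d (L * χ0 / 8) c Z (c b) x = 1 := cut_one d _ hL' _ x hcon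
          rw [h6, sub_self]
        obtain ⟨y, hy1, hy2⟩ := h5
        have h7 := hfar y hy2
        have h8 := htri x
        have h9 : √d * sg b y ≤ √d * sg b x + √d * sg x y := by
          rw [← mul_add]
          exact mul_le_mul_of_nonneg_left (sg_tri b x y) hsd.le
        rw [hδd, div_le_iff₀ hsd]
        linarith) w hw (fun _ => K (c b)) (fun _ _ => hK (c b)) S hS (fun _ _ => hKw (c b))
    rw [Finset.sum_singleton] at h2
    rw [eδ] at h1 h2
    calc _ ≤ _ := add_le_add h1 h2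
      _ = 100 * S * Real.exp (-((χ0 * L / 4) ^ 2 / 8)) * w z := by ring

end Pool.Agent.H91.PR
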