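import Pool.Agent.H91.PR.Items
import Pool.Agent.H91.PR.PK

/-!
# [H91 PR MOVES] all critical values of the cells are moved into the strips

Compare `crit_strips` in `H91/LD/Crit` (read it first). For each `z` let `τ z ∈ [0, sm d)` be such that
`(P.eval z/B.eval z).re + x0 + τ z = k sm d + θ sm d/2` for an integer `k` (ceiling, as in `strips_comb`, `H91/LD/Comb`).
`exists_moves` with `sh = sm d` gives `K1`, `K2`. Let `b ∈ s`, `2 χ0 ≤ chiT b`, `‖u‖ ≤ 1/2`, `t`, `tB` be given;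
`D1 = sn (pK K1 + t)`, `D2 = sn (pK K2 + tB)`: `EB` with `η2 = 10^7 S + 2*10^5 δ` (`pK_wm`, `sn_EB`). `loc_move` (with `χ = chiT b`, `EB (sn P - χ sn A)` by
`lc_zero`, `k1`) gives `u1`; `exists_moves` at `u1`: with `z1 = ph b (u1/√d)`,
`sn (K1 (c b)) u1 * B^ - P^ * sn (K2 (c b)) u1 = τ z1 (B^)^2`. By `pK_near` (`χ0/2 ≤ 2 χ0 ≤ chiT b`) `‖D1 u1 - sn (K1 (c b)) u1‖ ≤ e1 := 2*10^7 S exp(..) + 2*10^5 δ`, the
same for `D2`. So `(D1 B^ - P^ D2)(u1)/(B^ u1)^2 = τ z1 + O(2 * 10^6 e1/κ^2)`, `κ = χ0 r^8/10^9`, and `P^ u1/B^ u1 = P.eval z1/B.eval z1` (`sn_ratio`).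
Real parts: total error `≤ θ sm d/16` by `k6`. `sn (P + (pK K1 + t)) = P^ + D1` (`sn_add`). Norm: `(10^6 + η2)/κ`.
-/

set_option autoImplicit false

open Polynomial MeasureTheory ComplexConjugate

namespace Pool.Agent.H91.PR

open Pool.Agent.H85.LD Pool.Agent.H91.LD Pool.Agent.H44.Fatou

variable {N : ℕ}

private theorem mv_shift (a θ y : ℝ) (ha : 0 < a) :
    ∃ τ : ℝ, 0 ≤ τ ∧ τ ≤ a ∧ ∃ k : ℤ, y + τ = k * a + θ * a / 2 := by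
  refine ⟨⌈(y - θ * a / 2) / a⌉ * a + θ * a / 2 - y, ?_, ?_, ⌈(y - θ * a / 2) / a⌉, by ring⟩
  · have h1 := Int.le_ceil ((y - θ * a / 2) / a)
    rw [div_le_iff₀ ha] at h1
    linarith
  · have h1 := (Int.ceil_lt_add_one ((y - θ * a / 2) / a)).le
    have h2 := mul_le_mul_of_nonneg_right h1 ha.le
    rw [add_mul, div_mul_cancel₀ _ ha.ne'] at h2
    linarith

private theorem mv_quot {M κ e1 τ : ℝ} (hκ : 0 < κ) (he : 0 ≤ e1) {P B D1 D2 k1 k2 : ℂ}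
    (hP : ‖P‖ ≤ M) (hB : ‖B‖ ≤ M) (hBκ : κ ≤ ‖B‖) (h1 : ‖D1 - k1‖ ≤ e1) (h2 : ‖D2 - k2‖ ≤ e1)
    (hk : k1 * B - P * k2 = (τ : ℂ) * B ^ 2) :
    ‖(D1 * B - P * D2) / B ^ 2 - (τ : ℂ)‖ ≤ 2 * M * e1 / κ ^ 2 := by
  have hB0 : B ≠ 0 := by
    intro h
    rw [h, norm_zero] at hBκ
    linarith
  have h3 : (D1 * B - P * D2) / B ^ 2 - (τ : ℂ) = ((D1 - k1) * B - P * (D2 - k2)) / B ^ 2 := by
    rw [eq_div_iff (pow_ne_zero 2 hB0), sub_mul, div_mul_cancel₀ _ (pow_ne_zero 2 hB0), ← hk]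
    ring
  have hM : 0 ≤ M := (norm_nonneg _).trans hP
  rw [h3, norm_div, norm_pow]
  have h4 : ‖(D1 - k1) * B - P * (D2 - k2)‖ ≤ 2 * M * e1 := by
    refine (norm_sub_le _ _).trans ?_
    rw [norm_mul, norm_mul]
    have h5 := mul_le_mul h1 hB (norm_nonneg _) he
    have h6 := mul_le_mul hP h2 (norm_nonneg _) hM
    linarith
  exact div_le_div₀ (by positivity) h4 (by positivity) (pow_le_pow_left₀ hκ.le hBκ 2)

theorem crit_moves (d : ℕ) (hd : 1 ≤ d) (r χ0 L R δ θ S : ℝ) (hr : 0 < r) (hr1 : r ≤ 1)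
    (hχ0 : 0 < χ0) (hχ1 : χ0 ≤ 1) (hL : 1 ≤ L) (hR : 0 ≤ R) (hRd : R + 4 ≤ √(d : ℝ)) (hδ : 0 ≤ δ)
    (hδ1 : δ ≤ 1) (hθ : 0 < θ) (hθ1 : θ ≤ 1 / 8)
    (hS : S = 10 ^ 69 * (R + 1) ^ 2 / (χ0 ^ 4 * r ^ 20) * sm d)
    (k1 : 5 * 10 ^ 7 / L + 2 * 10 ^ 5 * δ ≤ χ0 ^ 2 * r ^ 12 / 10 ^ 30) (k2 : 32 ≤ χ0 * L)
    (k5 : 10 ^ 7 * S + 2 * 10 ^ 5 * δ ≤ χ0 ^ 2 * r ^ 12 / 10 ^ 30)
    (k6 : 10 ^ 60 / (χ0 ^ 5 * r ^ 32) * (10 ^ 7 * S + 2 * 10 ^ 5 * δ) ^ 2 +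
      2 * 10 ^ 24 / (χ0 ^ 2 * r ^ 16) *
        (2 * 10 ^ 7 * S * Real.exp (-((χ0 * L / 4) ^ 2 / 8)) + 2 * 10 ^ 5 * δ) ≤ θ * sm d / 16)
    (s : Finset ℂ) (hs : Sep d s) (hcov : Cov d s) (w : ℂ → ℝ) (hw : Wgt d w) (A B t0 : ℂ[X])
    (hA : A.natDegree ≤ d) (hA2 : ∀ z, wm d A z ≤ 2 * w z) (hB : B.natDegree ≤ d)
    (hB2 : ∀ z, wm d B z ≤ 2 * w z) (ht0 : t0.natDegree ≤ d) (ht0w : ∀ z, wm d t0 z ≤ δ * w z)
    (hn : ∀ b ∈ s, NDf r (sn d b (w b) A) (sn d b (w b) B)) (c : ℂ → Fin N) (Z : Set ℂ)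
    (hcR : ∀ z x, c z = c x → √d * sg z x ≤ R) (P : ℂ[X]) (hP : P = Pj d (chiT d L c Z) A + t0)
    (hinf : P.coeff d * B.coeff (d - 1) ≠ P.coeff (d - 1) * B.coeff d) (x0 : ℝ) :
    ∃ K1 K2 : Fin N → ℂ[X], (∀ j, (K1 j).natDegree ≤ d) ∧ (∀ j, (K2 j).natDegree ≤ d) ∧
      (∀ j z, wm d (K1 j) z ≤ S * w z) ∧ (∀ j z, wm d (K2 j) z ≤ S * w z) ∧
      ∀ t tB : ℂ[X], t.natDegree ≤ d → tB.natDegree ≤ d → (∀ z, wm d t z ≤ δ * w z) →
        (∀ z, wm d tB z ≤ δ * w z) → ∀ b ∈ s, 2 * χ0 ≤ chiT d L c Z b → ∀ u : ℂ, ‖u‖ ≤ 1 / 2 →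
        wr (sn d b (w b) (P + (pK d (L * χ0 / 8) c Z K1 + t)))
          (sn d b (w b) (B + (pK d (L * χ0 / 8) c Z K2 + tB))) u = 0 →
        χ0 * r ^ 8 / 10 ^ 9 ≤ ‖sn d b (w b) (B + (pK d (L * χ0 / 8) c Z K2 + tB)) u‖ ∧
        ‖sn d b (w b) (P + (pK d (L * χ0 / 8) c Z K1 + t)) u /
          sn d b (w b) (B + (pK d (L * χ0 / 8) c Z K2 + tB)) u‖ ≤ 3 * 10 ^ 15 / (χ0 * r ^ 8) ∧
        ∃ k : ℤ, (k : ℝ) * sm d + θ * sm d / 16 ≤
            (sn d b (w b) (P + (pK d (L * χ0 / 8) c Z K1 + t)) u /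
              sn d b (w b) (B + (pK d (L * χ0 / 8) c Z K2 + tB)) u).re + x0 ∧
          (sn d b (w b) (P + (pK d (L * χ0 / 8) c Z K1 + t)) u /
              sn d b (w b) (B + (pK d (L * χ0 / 8) c Z K2 + tB)) u).re + x0 ≤
            k * sm d + θ * sm d - θ * sm d / 16 := by
  classical
  have hL0 : 0 < L := by linarith
  have hsm : 0 < sm d := by
    unfold sm
    have h1 : (0 : ℝ) < d := by exact_mod_cast (by omega : 0 < d)
    have h2 : 0 < √(√d) := Real.sqrt_pos.2 (Real.sqrt_pos.2 h1)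
    positivity
  choose T hT0 hT1 hTk using fun y : ℝ => mv_shift (sm d) θ y hsm
  obtain ⟨K1, K2, hK1, hK2, hK1w, hK2w, hmv⟩ := exists_moves d hd r χ0 L R δ hr hr1 hχ0 hχ1 hL hR
    hRd hδ hδ1 k1 s hs hcov w hw A B t0 hA hA2 hB hB2 ht0 ht0w hn c Z hcR P hP hinf (sm d) hsm.le
    (fun z => T ((P.eval z / B.eval z).re + x0)) (fun z => by
      rw [abs_of_nonneg (hT0 _)]
      exact hT1 _)
  rw [← hS] at hK1w hK2w
  have hS0 : 0 ≤ S := by rw [hS]; positivity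
  refine ⟨K1, K2, hK1, hK2, hK1w, hK2w, ?_⟩
  intro t tB ht htB htw htBw b hbs hbχ u hu hwr
  have hPd : P.natDegree ≤ d := by
    rw [hP]
    exact Polynomial.natDegree_add_le_of_degree_le (Pj_deg d _ A) ht0
  have hη1 : χ0 ^ 2 * r ^ 12 / 10 ^ 30 ≤ 1 := by
    have h1 : χ0 ^ 2 ≤ 1 := pow_le_one₀ hχ0.le hχ1
    have h2 : r ^ 12 ≤ 1 := pow_le_one₀ hr.le hr1
    have h3 : χ0 ^ 2 * r ^ 12 ≤ 1 * 1 := mul_le_mul h1 h2 (by positivity) zero_le_one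
    rw [div_le_one (by positivity)]
    linarith
  -- bounds in the charts
  have hAb : EB (sn d b (w b) A) (2 * 10 ^ 5 * 2) :=
    sn_EB d hd w hw b A hA 2 (by norm_num) (fun z _ => hA2 z)
  have hBb : EB (sn d b (w b) B) (2 * 10 ^ 5 * 2) :=
    sn_EB d hd w hw b B hB 2 (by norm_num) (fun z _ => hB2 z)
  have hχb1 : chiT d L c Z b ≤ 1 := chiT_le_one d L hL0 c Z b
  have hPA : EB (fun u => sn d b (w b) P u - ((chiT d L c Z b : ℝ) : ℂ) * sn d b (w b) A u)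
      (χ0 ^ 2 * r ^ 12 / 10 ^ 30) := by
    have h1 := (lc_zero d hd L hL c Z w hw A hA hA2 b).add
      (sn_EB d hd w hw b t0 ht0 δ hδ (fun z _ => ht0w z))
    have h2 : (fun u => sn d b (w b) (Pj d (chiT d L c Z) A) u -
        ((chiT d L c Z b : ℝ) : ℂ) * sn d b (w b) A u + sn d b (w b) t0 u) =
        fun u => sn d b (w b) P u - ((chiT d L c Z b : ℝ) : ℂ) * sn d b (w b) A u := by
      funext v
      rw [hP, sn_add]
      ring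
    rw [h2] at h1
    exact h1.mono k1
  have h6A : EB (sn d b (w b) A) (10 ^ 6) := hAb.mono (by norm_num)
  have h6B : EB (sn d b (w b) B) (10 ^ 6) := hBb.mono (by norm_num)
  have h6P : EB (sn d b (w b) P) (10 ^ 6) := by
    have hn1 : ‖((chiT d L c Z b : ℝ) : ℂ)‖ ≤ 1 := by
      rw [Complex.norm_real, Real.norm_of_nonneg (chiT_nonneg d L hL0 c Z b)]
      exact hχb1
    have h1 := hPA.add (hAb.const_mul ((chiT d L c Z b : ℝ) : ℂ))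
    have h2 : (fun u => sn d b (w b) P u - ((chiT d L c Z b : ℝ) : ℂ) * sn d b (w b) A u +
        ((chiT d L c Z b : ℝ) : ℂ) * sn d b (w b) A u) = sn d b (w b) P := by
      funext v
      ring
    rw [h2] at h1
    refine h1.mono ?_
    have h3 := mul_le_mul_of_nonneg_right hn1 (by norm_num : (0 : ℝ) ≤ 2 * 10 ^ 5 * 2)
    linarith
  have hLc : 0 < L * χ0 / 8 := by positivity
  obtain ⟨e1, he1⟩ : ∃ e1 : ℝ, e1 = 2 * 10 ^ 7 * S * Real.exp (-((χ0 * L / 4) ^ 2 / 8)) +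
    2 * 10 ^ 5 * δ := ⟨_, rfl⟩
  obtain ⟨η2, hη2⟩ : ∃ η2 : ℝ, η2 = 10 ^ 7 * S + 2 * 10 ^ 5 * δ := ⟨_, rfl⟩
  rw [← hη2] at k5
  rw [← hη2, ← he1] at k6
  have he10 : 0 ≤ e1 := by rw [he1]; positivity
  have hD : ∀ (K : Fin N → ℂ[X]) (t : ℂ[X]), (∀ j, (K j).natDegree ≤ d) →
      (∀ j z, wm d (K j) z ≤ S * w z) → t.natDegree ≤ d → (∀ z, wm d t z ≤ δ * w z) →
      EB (sn d b (w b) (pK d (L * χ0 / 8) c Z K + t)) η2 ∧
      ∀ v, ‖v‖ ≤ 4 → ‖sn d b (w b) (pK d (L * χ0 / 8) c Z K + t) v - sn d b (w b) (K (c b)) v‖ ≤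
        e1 := by
    intro K t hK hKw ht htw
    have hpw : ∀ z, wm d (pK d (L * χ0 / 8) c Z K) z ≤ 50 * S * w z := fun z =>
      pK_wm d hd (L * χ0 / 8) hLc c Z w hw K hK S hS0 hKw z
    have ht2 := sn_EB d hd w hw b t ht δ hδ (fun z _ => htw z)
    constructor
    · have h1 := (sn_EB d hd w hw b (pK d (L * χ0 / 8) c Z K) (pK_deg d _ c Z K) (50 * S)
        (by positivity) (fun z _ => hpw z)).add ht2
      have h2 : (fun u => sn d b (w b) (pK d (L * χ0 / 8) c Z K) u + sn d b (w b) t u) =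
          sn d b (w b) (pK d (L * χ0 / 8) c Z K + t) := by
        funext v
        rw [sn_add]
      rw [h2] at h1
      refine h1.mono ?_
      rw [hη2]
      linarith
    · intro v hv
      have h1 := (pK_near d hd L χ0 hL0 hχ0 hχ1 k2 c Z w hw K hK S hS0 hKw b (by linarith)).2 v hv
      have h2 := ht2.2 v hv
      have h3 : sn d b (w b) (pK d (L * χ0 / 8) c Z K + t) v - sn d b (w b) (K (c b)) v =
          (sn d b (w b) (pK d (L * χ0 / 8) c Z K) v - sn d b (w b) (K (c b)) v) +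
            sn d b (w b) t v := by
        rw [sn_add]
        ring
      rw [h3, he1]
      exact (norm_add_le _ _).trans (add_le_add h1 h2)
  obtain ⟨hD1, hD1n⟩ := hD K1 t hK1 hK1w ht htw
  obtain ⟨hD2, hD2n⟩ := hD K2 tB hK2 hK2w htB htBw
  have hF : sn d b (w b) (P + (pK d (L * χ0 / 8) c Z K1 + t)) =
      fun u => sn d b (w b) P u + sn d b (w b) (pK d (L * χ0 / 8) c Z K1 + t) u := by
    funext v
    rw [sn_add]
  have hG : sn d b (w b) (B + (pK d (L * χ0 / 8) c Z K2 + tB)) =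
      fun u => sn d b (w b) B u + sn d b (w b) (pK d (L * χ0 / 8) c Z K2 + tB) u := by
    funext v
    rw [sn_add]
  rw [hF, hG] at hwr
  rw [hF, hG]
  obtain ⟨u1, v1, v2, v3, v4, v5⟩ := loc_move hr hr1 hχ0 (by linarith) hχb1 h6A h6B h6P hPA
    (hn b hbs) k5 hD1 hD2 u hu hwr
  obtain ⟨hm, hmv1⟩ := hmv b hbs hbχ u1 v1 v2
  have hκ : 0 < χ0 * r ^ 8 / 10 ^ 9 := by positivity
  have hu4 : ‖u‖ ≤ 4 := by linarith
  have hu14 : ‖u1‖ ≤ 4 := by linarith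
  refine ⟨v4, ?_, ?_⟩
  · show ‖(sn d b (w b) P u + sn d b (w b) (pK d (L * χ0 / 8) c Z K1 + t) u) /
      (sn d b (w b) B u + sn d b (w b) (pK d (L * χ0 / 8) c Z K2 + tB) u)‖ ≤ _
    rw [norm_div]
    have h1 : ‖sn d b (w b) P u + sn d b (w b) (pK d (L * χ0 / 8) c Z K1 + t) u‖ ≤ 3 * 10 ^ 6 := by
      have h2 := h6P.2 u hu4
      have h3 := hD1.2 u hu4
      refine (norm_add_le _ _).trans ?_
      linarith
    refine (div_le_div₀ (by positivity) h1 hκ v4).trans (le_of_eq ?_)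
    field_simp
  · obtain ⟨z1, hz1⟩ : ∃ z1, z1 = ph b (u1 / ((√d : ℝ) : ℂ)) := ⟨_, rfl⟩
    rw [← hz1] at hmv1
    have hratio := sn_ratio d b (w b) (hw.pos b) P B hPd hB u1 hm
    rw [← hz1] at hratio
    obtain ⟨y, hy⟩ : ∃ y : ℝ, y = (P.eval z1 / B.eval z1).re + x0 := ⟨_, rfl⟩
    rw [← hy] at hmv1
    obtain ⟨k, hk⟩ := hTk y
    refine ⟨k, ?_⟩
    have hq := mv_quot hκ he10 (h6P.2 u1 hu14) (h6B.2 u1 hu14) v3 (hD1n u1 hu14) (hD2n u1 hu14) hmv1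
    have hq2 : 2 * 10 ^ 6 * e1 / (χ0 * r ^ 8 / 10 ^ 9) ^ 2 =
        2 * 10 ^ 24 / (χ0 ^ 2 * r ^ 16) * e1 := by
      field_simp
    rw [hq2] at hq
    have h1 := (Complex.abs_re_le_norm _).trans v5
    have h2 := (Complex.abs_re_le_norm _).trans hq
    rw [Complex.sub_re, Complex.sub_re] at h1
    rw [Complex.sub_re, Complex.ofReal_re] at h2
    rw [hratio] at h1
    obtain ⟨h3, h4⟩ := abs_le.1 h1
    obtain ⟨h5, h6⟩ := abs_le.1 h2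
    show _ ≤ ((sn d b (w b) P u + sn d b (w b) (pK d (L * χ0 / 8) c Z K1 + t) u) /
      (sn d b (w b) B u + sn d b (w b) (pK d (L * χ0 / 8) c Z K2 + tB) u)).re + x0 ∧
      ((sn d b (w b) P u + sn d b (w b) (pK d (L * χ0 / 8) c Z K1 + t) u) /
      (sn d b (w b) B u + sn d b (w b) (pK d (L * χ0 / 8) c Z K2 + tB) u)).re + x0 ≤ _
    constructor <;> linarith

end Pool.Agent.H91.PR
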