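import Pool.Agent.H91.LD.Noise2
import Pool.Agent.H91.PR.PDefs

/-!
# [H91 PR NOISE3] the noise theorem with an explicit constant

Explicit form of `H91/LD/Noise2` (`noise2`): the constant of nondegeneracy is the fourth power of the size of the noise.
Proof. (1) Copy the proof of `H85/LD/Noise` (`noise`, with its private lemmas `noise_card`, `noise_lll`), but with the hypothesis
`hsm : 4 * (10 ^ 58 * r ^ 2 / e ^ 4) * (65 * (2 * (8 * Real.log (1 / r) + 60) + 1) ^ 2) ≤ 1` (`e = min ε 1 / 10 ^ 10`, `r ≤ 1`) in place of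
`r ≤ r₀`; the proof of `small_r` gives this hypothesis as soon as `r ≤ 1` and `r ≤ e ^ 4 / (4 * 10 ^ 58 * 65 * 23409)`.
(2) Take `ε' = (10^28 x)/2`, so `e = min ε' 1 / 10^10 = 5 * 10^17 x` (`ε' ≤ 1`), `e^4/(4 * 10^58 * 65 * 23409) = 6.25 * 10^70 x^4/(6.08634 * 10^64) ≥ 10^6 x^4`
and take `r1 = 2 x^4`.
(3) Copy the proof of `noise2` (the tiny coefficient of `X^d`, `nz_pert`) with this `r1`: result with `r1/2 = x^4`.
-/

set_option autoImplicit false

open Polynomial MeasureTheory ComplexConjugate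

namespace Pool.Agent.H91.PR

open Pool.Agent.H85.LD Pool.Agent.H91.LD

section explicit

open Real Finset

private theorem small3_r (e : ℝ) (he : 0 < e) (r : ℝ) (hr : 0 < r) (hr1 : r ≤ 1)
    (hr2 : r ≤ e ^ 4 / (4 * 10 ^ 58 * 65 * 23409)) :
    4 * (10 ^ 58 * r ^ 2 / e ^ 4) * (65 * (2 * (8 * Real.log (1 / r) + 60) + 1) ^ 2) ≤ 1 := by
  have h1 : 1 ≤ 1 / r := by rw [le_div_iff₀ hr]; linarith
  set y : ℝ := √(1 / r) with hy
  have hy2 : y ^ 2 = 1 / r := Real.sq_sqrt (by positivity)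
  have hy1 : 1 ≤ y := by
    rw [hy]
    exact Real.one_le_sqrt.2 h1
  have hlog : Real.log (1 / r) ≤ 2 * y := by
    have h2 : Real.log (1 / r) = 2 * Real.log y := by
      rw [← hy2, Real.log_pow]
      norm_num
    rw [h2]
    have h3 := Real.log_le_sub_one_of_pos (by linarith : 0 < y)
    linarith
  have hlog0 : 0 ≤ Real.log (1 / r) := Real.log_nonneg h1
  have h2 : (2 * (8 * Real.log (1 / r) + 60) + 1) ^ 2 ≤ 23409 * (1 / r) := by
    have h3 : 2 * (8 * Real.log (1 / r) + 60) + 1 ≤ 153 * y := by linarith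
    have h4 := pow_le_pow_left₀ (by linarith) h3 2
    calc _ ≤ (153 * y) ^ 2 := h4
      _ = 23409 * y ^ 2 := by ring
      _ = _ := by rw [hy2]
  calc 4 * (10 ^ 58 * r ^ 2 / e ^ 4) * (65 * (2 * (8 * Real.log (1 / r) + 60) + 1) ^ 2)
      ≤ 4 * (10 ^ 58 * r ^ 2 / e ^ 4) * (65 * (23409 * (1 / r))) := by gcongr
    _ = r * ((4 * 10 ^ 58 * 65 * 23409) / e ^ 4) := by
        field_simp
    _ ≤ (e ^ 4 / (4 * 10 ^ 58 * 65 * 23409)) * ((4 * 10 ^ 58 * 65 * 23409) / e ^ 4) := by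
        apply mul_le_mul_of_nonneg_right hr2 (by positivity)
    _ = 1 := by field_simp

private theorem noise3_card {α : Type*} [DecidableEq α] (X : Finset α) (R : α → Prop)
    [DecidablePred R] :
    ((univ : Finset ↥X).filter (fun a => R a.1)).card = (X.filter R).card := by
  rw [← Finset.card_map (Function.Embedding.subtype _)]
  congr 1
  ext x
  simp only [mem_map, mem_filter, mem_univ, true_and, Function.Embedding.coe_subtype,
    Subtype.exists, exists_and_right, exists_eq_right]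
  constructor
  · rintro ⟨a, b⟩
    exact ⟨a, b⟩
  · rintro ⟨a, b⟩
    exact ⟨a, b⟩

open Classical in
private theorem noise3_lll (d : ℕ) (hd : 1 ≤ d) (s : Finset ℂ) (hs : Sep d s)
    (X : Finset (Tri × Tri)) (hX : X.Nonempty) (B : ℂ → (ℂ → Tri × Tri) → Prop) (T : ℝ)
    (hT : 0 ≤ T) (p : ℝ) (hp0 : 0 ≤ p)
    (hdep : ∀ b F G, (∀ c ∈ s, √d * sg b c ≤ T → F c = G c) → B b F → B b G)
    (hp : ∀ b ∈ s, ∀ F, ((X.filter (fun x => B b (Function.update F b x))).card : ℝ) ≤ p * X.card)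
    (h4 : 4 * p * (65 * (2 * T + 1) ^ 2) ≤ 1) :
    ∃ F : ℂ → Tri × Tri, (∀ c ∈ s, F c ∈ X) ∧ ∀ b ∈ s, ¬ B b F := by
  let ex : (↥s → ↥X) → ℂ → Tri × Tri := fun f c => if h : c ∈ s then (f ⟨c, h⟩).1 else 0
  have hexm : ∀ f : ↥s → ↥X, ∀ c ∈ s, ex f c ∈ X := by
    intro f c hc
    simp only [ex, dif_pos hc]
    exact (f ⟨c, hc⟩).2
  have hupd : ∀ (f : ↥s → ↥X) (b : ↥s) (a : ↥X),
      ex (Function.update f b a) = Function.update (ex f) b.1 a.1 := by
    intro f b a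
    funext c
    by_cases hc : c = b.1
    · subst hc
      simp only [ex, dif_pos b.2, Function.update_self]
    · rw [Function.update_of_ne hc]
      simp only [ex]
      by_cases hcs : c ∈ s
      · rw [dif_pos hcs, dif_pos hcs, Function.update_of_ne]
        intro h
        exact hc (congrArg Subtype.val h)
      · rw [dif_neg hcs, dif_neg hcs]
  have : Nonempty ↥X := hX.to_subtype
  have hsqrt : 0 ≤ √(d : ℝ) := Real.sqrt_nonneg _
  have hLLL : ∃ f : ↥s → ↥X, ∀ b : ↥s, ¬ B b.1 (ex f) := by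
    refine lll_sym (E := ↥s) (A := ↥X) (fun b => univ.filter (fun c => √d * sg b.1 c.1 ≤ T))
      (fun b f => B b.1 (ex f)) ?_ p ⌈64 * (2 * T + 1) ^ 2⌉₊ ?_ ?_ ?_ ?_
    · intro b f g hfg hf
      refine hdep b.1 (ex f) (ex g) ?_ hf
      intro c hc hcT
      simp only [ex, dif_pos hc]
      rw [hfg ⟨c, hc⟩ (by simpa using hcT)]
    · rw [Nat.one_le_ceil_iff]
      have : (0 : ℝ) < 2 * T + 1 := by linarith
      positivity
    · intro b f
      have h1 := hp b.1 b.2 (ex f)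
      have h2 := noise3_card X (fun x => B b.1 (Function.update (ex f) b.1 x))
      have h3 : (univ : Finset ↥X).filter (fun a => B b.1 (ex (Function.update f b a))) =
          (univ : Finset ↥X).filter (fun a => B b.1 (Function.update (ex f) b.1 a.1)) := by
        apply Finset.filter_congr
        intro a _
        rw [hupd]
      rw [Fintype.card_coe, h3, h2]
      exact h1
    · intro b
      have h1 : ((univ : Finset ↥s).filter (fun c => ¬ Disjoint
          (univ.filter (fun a : ↥s => √d * sg b.1 a.1 ≤ T))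
          (univ.filter (fun a : ↥s => √d * sg c.1 a.1 ≤ T)))).card ≤
          ((univ : Finset ↥s).filter (fun c => √d * sg b.1 c.1 ≤ 2 * T)).card := by
        apply Finset.card_le_card
        intro c hc
        simp only [mem_filter, mem_univ, true_and] at hc ⊢
        rw [Finset.not_disjoint_iff] at hc
        obtain ⟨a, ha1, ha2⟩ := hc
        simp only [mem_filter, mem_univ, true_and] at ha1 ha2
        have h2 := sg_tri b.1 a.1 c.1
        rw [sg_comm a.1 c.1] at h2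
        have h3 := mul_le_mul_of_nonneg_left h2 hsqrt
        rw [mul_add] at h3
        linarith
      have h2 : ((univ : Finset ↥s).filter (fun c => √d * sg b.1 c.1 ≤ 2 * T)).card =
          (s.filter (fun c => √d * sg b.1 c ≤ 2 * T)).card :=
        noise3_card s (fun c => √d * sg b.1 c ≤ 2 * T)
      have h3 := net_card d hd s hs b.1 (2 * T) (by linarith)
      have h4 : ((s.filter (fun c => √d * sg b.1 c ≤ 2 * T)).card : ℝ) ≤
          (⌈64 * (2 * T + 1) ^ 2⌉₊ : ℝ) := by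
        refine le_trans ?_ (h3.trans (Nat.le_ceil _))
        apply le_of_eq
        congr 2
      have h5 : (s.filter (fun c => √d * sg b.1 c ≤ 2 * T)).card ≤ ⌈64 * (2 * T + 1) ^ 2⌉₊ := by
        exact_mod_cast h4
      exact h1.trans (h2.le.trans h5)
    · have h1 : (⌈64 * (2 * T + 1) ^ 2⌉₊ : ℝ) ≤ 65 * (2 * T + 1) ^ 2 := by
        have h2 := Nat.ceil_lt_add_one (R := ℝ) (a := 64 * (2 * T + 1) ^ 2) (by positivity)
        have h3 : (1 : ℝ) ≤ (2 * T + 1) ^ 2 := one_le_pow₀ (by linarith)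
        linarith
      refine le_trans ?_ h4
      exact mul_le_mul_of_nonneg_left h1 (by positivity)
  obtain ⟨f, hf⟩ := hLLL
  exact ⟨ex f, hexm f, fun b hb => hf ⟨b, hb⟩⟩

theorem noise3_expl (ε : ℝ) (hε : 0 < ε) (r : ℝ) (hr : 0 < r) (hr1 : r ≤ 1)
    (hsm : 4 * (10 ^ 58 * r ^ 2 / (min ε 1 / 10 ^ 10) ^ 4) *
      (65 * (2 * (8 * Real.log (1 / r) + 60) + 1) ^ 2) ≤ 1) : ∀ d : ℕ, 4 ≤ d →
    ∀ s : Finset ℂ, Sep d s → ∀ w : ℂ → ℝ, Wgt d w → ∀ P Q : ℂ[X], P.natDegree ≤ d →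
    Q.natDegree ≤ d → (∀ z, wm d P z ≤ w z) → (∀ z, wm d Q z ≤ w z) →
    ∃ P' Q' : ℂ[X], P'.natDegree ≤ d ∧ Q'.natDegree ≤ d ∧
      (∀ z, wm d (P' - P) z ≤ ε * w z) ∧ (∀ z, wm d (Q' - Q) z ≤ ε * w z) ∧
      ∀ b ∈ s, ∀ u : ℂ, ‖u‖ ≤ 1 →
        r * w b ≤ ‖sc d b P' u‖ + ‖sc d b Q' u‖ ∧
        (‖sc d b Q' u‖ < r ^ 8 * w b → r ^ 4 * w b ≤ ‖deriv (sc d b Q') u‖) ∧
        (‖Wc d b P' Q' u‖ < r ^ 8 * w b ^ 2 → r ^ 4 * w b ^ 2 ≤ ‖Wc1 d b P' Q' u‖) := by
  classical
  set e : ℝ := min ε 1 / 10 ^ 10 with he_def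
  have hm0 : 0 < min ε 1 := lt_min hε one_pos
  have he : 0 < e := by positivity
  have hee : 10 ^ 10 * e = min ε 1 := by rw [he_def]; field_simp
  have heε : 8 * 10 ^ 9 * e ≤ ε := by
    have := min_le_left ε 1
    linarith
  have he11 : 8 * 10 ^ 9 * e ≤ 1 := by
    have := min_le_right ε 1
    linarith
  have he1 : e ≤ 1 := by linarith
  have he10 : 10 ^ 10 * e ≤ 1 := by
    have := min_le_right ε 1
    linarith
  intro d hd s hs w hw P Q hP hQ hPw hQw
  set T : ℝ := 8 * Real.log (1 / r) + 60 with hTdef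
  have h1r : 1 ≤ 1 / r := by rw [le_div_iff₀ hr]; linarith
  have hlog0 : 0 ≤ Real.log (1 / r) := Real.log_nonneg h1r
  have hT : 0 ≤ T := by linarith
  obtain ⟨K, hKdef⟩ : ∃ K : ℕ, K = ⌈1 / r ^ 4⌉₊ := ⟨_, rfl⟩
  obtain ⟨K1, hK1def⟩ : ∃ K1 : ℕ, K1 = ⌈1 / r⌉₊ := ⟨_, rfl⟩
  obtain ⟨N, hNdef⟩ : ∃ N : ℕ, N = ⌈1 / r ^ 8⌉₊ := ⟨_, rfl⟩
  have hN : 1 / r ^ 8 ≤ N := by rw [hNdef]; exact Nat.le_ceil _
  have hK : 1 / r ^ 4 ≤ K := by rw [hKdef]; exact Nat.le_ceil _
  have hK1 : 1 / r ≤ K1 := by rw [hK1def]; exact Nat.le_ceil _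
  have hN1 : 1 ≤ N := by
    have h1 : (1 : ℝ) ≤ 1 / r ^ 8 := by
      rw [le_div_iff₀ (by positivity), one_mul]
      exact pow_le_one₀ hr.le hr1
    exact_mod_cast h1.trans hN
  have hKone : 1 ≤ K := by
    have h1 : (1 : ℝ) ≤ 1 / r ^ 4 := by
      rw [le_div_iff₀ (by positivity), one_mul]
      exact pow_le_one₀ hr.le hr1
    exact_mod_cast h1.trans hK
  -- letters
  obtain ⟨X, hX⟩ : ∃ X : Finset (Tri × Tri), X = tri N K ×ˢ tri N K := ⟨_, rfl⟩
  have hXne : X.Nonempty := by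
    rw [hX]
    unfold tri
    exact ((box_nonempty _).product ((box_nonempty _).product (box_nonempty _))).product
      ((box_nonempty _).product ((box_nonempty _).product (box_nonempty _)))
  obtain ⟨F, hFm', hnotbad⟩ := noise3_lll d (by omega) s hs X hXne
    (fun b F => bad d e N K K1 w s T r P Q b F) T hT (10 ^ 58 * r ^ 2 / e ^ 4) (by positivity)
    (fun b F G h hF => bad_dep d e N K K1 w s T r P Q b F G h hF)
    (fun b hb F => by
      have h1 := bad_prob d (by omega) e r he he1 hr hr1 N hN w hw s T hT P Q b hb F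
      rw [← hKdef, ← hK1def, ← hX] at h1
      exact h1) hsm
  have hFm : ∀ c ∈ s, F c ∈ tri N K ×ˢ tri N K := by
    intro c hc
    rw [← hX]
    exact hFm' c hc
  have hF1 : ∀ c ∈ s, (F c).1 ∈ tri N K := fun c hc => (mem_product.1 (hFm c hc)).1
  have hF2 : ∀ c ∈ s, (F c).2 ∈ tri N K := fun c hc => (mem_product.1 (hFm c hc)).2
  have hsumdeg : ∀ (t : Finset ℂ) (H : ℂ → Tri),
      (∑ c ∈ t, ns d e N K w c (H c)).natDegree ≤ d := by
    intro t H
    exact natDegree_sum_le_of_forall_le _ _ fun c _ => ns_deg d (by omega) e N K w c (H c)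
  -- numerical estimate of the tail
  have hexpT : 2 * 10 ^ 5 * (8 * 10 ^ 9 * e * Real.exp (4 - T)) ≤ r ^ 8 / 10 ^ 7 := by
    have h1 : Real.exp (4 - T) = Real.exp (-56) * r ^ 8 := by
      have h2 : (4 : ℝ) - T = -56 + 8 * Real.log r := by
        rw [hTdef, one_div, Real.log_inv]
        ring
      rw [h2, Real.exp_add]
      congr 1
      have h3 : (8 : ℝ) * Real.log r = Real.log (r ^ 8) := by
        rw [Real.log_pow]
        norm_num
      rw [h3, Real.exp_log (by positivity)]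
    have h4 : Real.exp (-56) * 2 ^ 56 ≤ 1 := by
      have h5 : (2 : ℝ) ^ 56 ≤ Real.exp 56 := by
        have h6 : (2 : ℝ) ≤ Real.exp 1 := by
          have := Real.add_one_le_exp 1
          linarith
        calc (2 : ℝ) ^ 56 ≤ Real.exp 1 ^ 56 := pow_le_pow_left₀ (by norm_num) h6 56
          _ = Real.exp 56 := by rw [← Real.exp_nat_mul]; norm_num
      have h7 : Real.exp (-56) * Real.exp 56 = 1 := by rw [← Real.exp_add]; norm_num
      rw [← h7]
      exact mul_le_mul_of_nonneg_left h5 (Real.exp_pos _).le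
    rw [h1]
    have h8 : 0 < Real.exp (-56) := Real.exp_pos _
    have h9 : 0 < r ^ 8 := by positivity
    have h10 : 2 * 10 ^ 5 * (8 * 10 ^ 9 * e) ≤ 16 * 10 ^ 4 := by linarith
    have h11 : 2 * 10 ^ 5 * (8 * 10 ^ 9 * e * (Real.exp (-56) * r ^ 8)) =
        (2 * 10 ^ 5 * (8 * 10 ^ 9 * e)) * (Real.exp (-56) * r ^ 8) := by ring
    rw [h11]
    calc (2 * 10 ^ 5 * (8 * 10 ^ 9 * e)) * (Real.exp (-56) * r ^ 8)
        ≤ 16 * 10 ^ 4 * (Real.exp (-56) * r ^ 8) :=
          mul_le_mul_of_nonneg_right h10 (by positivity)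
      _ = (16 * 10 ^ 4 * Real.exp (-56)) * r ^ 8 := by ring
      _ ≤ (1 / 10 ^ 7) * r ^ 8 := by
          apply mul_le_mul_of_nonneg_right _ h9.le
          norm_num at h4 ⊢
          linarith
      _ = _ := by ring
  -- one side
  have side : ∀ (R : ℂ[X]) (H : ℂ → Tri), R.natDegree ≤ d → (∀ z, wm d R z ≤ w z) →
      (∀ c ∈ s, H c ∈ tri N K) →
      (R + ∑ c ∈ s, ns d e N K w c (H c)).natDegree ≤ d ∧
      (∀ z, wm d (R + ∑ c ∈ s, ns d e N K w c (H c) - R) z ≤ ε * w z) ∧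
      ∀ b, (∀ u, ‖u‖ ≤ 4 →
        ‖sc d b (R + ∑ c ∈ s, ns d e N K w c (H c)) u‖ ≤ 4 * 10 ^ 5 * w b) ∧
      (∀ u, ‖u‖ ≤ 4 → ‖sc d b (R + ∑ c ∈ s, ns d e N K w c (H c)) u -
        sc d b (R + trn d e N K w s T b H) u‖ ≤ r ^ 8 / 10 ^ 7 * w b) := by
    intro R H hR hRw hH
    have hdeg : (R + ∑ c ∈ s, ns d e N K w c (H c)).natDegree ≤ d :=
      (natDegree_add_le _ _).trans (max_le hR (hsumdeg s H))
    have hns := ns_sum d hd e he N K hN1 hKone w hw s hs H hH
    refine ⟨hdeg, ?_, ?_⟩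
    · intro z
      rw [add_sub_cancel_left]
      refine (hns z).trans ?_
      exact mul_le_mul_of_nonneg_right heε (hw.pos z).le
    · intro b
      constructor
      · intro u hu
        have h1 := sc_le d (by omega) w hw b _ hdeg 2 (by norm_num) (fun z _ => by
          have h2 := wm_add_le d R (∑ c ∈ s, ns d e N K w c (H c)) z
          have h3 := hns z
          have h4 := hRw z
          have h5 : 8 * 10 ^ 9 * e * w z ≤ 1 * w z :=
            mul_le_mul_of_nonneg_right he11 (hw.pos z).le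
          linarith) u hu
        refine h1.trans (le_of_eq ?_)
        ring
      · intro u hu
        have h1 : R + ∑ c ∈ s, ns d e N K w c (H c) = (R + trn d e N K w s T b H) +
            ∑ c ∈ s.filter (fun c => ¬ √d * sg b c ≤ T), ns d e N K w c (H c) := by
          unfold trn
          rw [add_assoc, Finset.sum_filter_add_sum_filter_not]
        rw [h1, sc_add, add_sub_cancel_left]
        have h2 := sc_le d (by omega) w hw b _ (hsumdeg (s.filter (fun c => ¬ √d * sg b c ≤ T)) H)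
          (8 * 10 ^ 9 * e * Real.exp (4 - T)) (by positivity) (fun z hz =>
            ns_tail d hd e he N K hN1 hKone w hw s hs H hH T b z hz) u hu
        refine h2.trans ?_
        exact mul_le_mul_of_nonneg_right hexpT (hw.pos b).le
  obtain ⟨hP1, hP2, hP3⟩ := side P (fun c => (F c).1) hP hPw hF1
  obtain ⟨hQ1, hQ2, hQ3⟩ := side Q (fun c => (F c).2) hQ hQw hF2
  refine ⟨P + ∑ c ∈ s, ns d e N K w c (F c).1, Q + ∑ c ∈ s, ns d e N K w c (F c).2,
    hP1, hQ1, hP2, hQ2, ?_⟩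
  intro b hb u hu
  have hnb := hnotbad b hb
  unfold bad at hnb
  push Not at hnb
  obtain ⟨hn1, hn2, hn3⟩ := hnb
  have hmain := local_all (w b) r (hw.pos b) hr hr1 K K1 hK hK1
    (sc d b (P + ∑ c ∈ s, ns d e N K w c (F c).1)) (sc d b (Q + ∑ c ∈ s, ns d e N K w c (F c).2))
    (sc d b (P + trn d e N K w s T b (fun c => (F c).1)))
    (sc d b (Q + trn d e N K w s T b (fun c => (F c).2)))
    (sc_diff _ _ _) (sc_diff _ _ _) (sc_diff _ _ _) (sc_diff _ _ _)
    (hP3 b).1 (hQ3 b).1 (hP3 b).2 (hQ3 b).2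
    (fun z hz hz1 h => absurd h.2 (not_le.2 (hn1 z hz hz1 h.1)))
    (fun z hz hz1 h => absurd h.2 (not_le.2 (hn2 z hz hz1 h.1)))
    (fun z hz hz1 h => absurd h.2.2 (not_le.2 (hn3 z hz hz1 h.1 h.2.1)))
    u hu
  exact hmain

end explicit

/-- nondegeneracy is stable under small perturbations of the second function -/
private theorem nz3_pert {r1 e : ℝ} (hr1 : 0 < r1) (hr11 : r1 ≤ 1) (he : 0 < e)
    (he1 : e ≤ r1 ^ 8 / 10 ^ 12) {f g1 g h : ℂ → ℂ} (hf : EB f (2 * 10 ^ 5 * 2))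
    (hg1 : EB g1 (2 * 10 ^ 5 * 2)) (hh : EB h (2 * 10 ^ 5 * e)) (hg : ∀ u, g u = g1 u + h u)
    (hn : NDf r1 f g1) : NDf (r1 / 2) f g := by
  have hgf : g = fun u => g1 u + h u := funext hg
  have hd1 : ∀ u, deriv g u = deriv g1 u + deriv h u := by
    intro u
    rw [hgf]
    exact deriv_fun_add (hg1.1 u) (hh.1 u)
  have hdg1 : Differentiable ℂ (deriv g1) := fun u =>
    (hg1.1.contDiff (n := 2)).differentiable_deriv_two u
  have hdh : Differentiable ℂ (deriv h) := fun u =>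
    (hh.1.contDiff (n := 2)).differentiable_deriv_two u
  have hd2 : ∀ u, deriv (deriv g) u = deriv (deriv g1) u + deriv (deriv h) u := by
    intro u
    rw [show deriv g = fun u => deriv g1 u + deriv h u from funext hd1]
    exact deriv_fun_add (hdg1 u) (hdh u)
  have hw : ∀ u, wr f g u = wr f g1 u + wr f h u := by
    intro u
    simp only [wr, hg, hd1]
    ring
  have hw1 : ∀ u, wr1 f g u = wr1 f g1 u + wr1 f h u := by
    intro u
    simp only [wr1, hg, hd2]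
    ring
  have h4 : r1 ^ 8 ≤ r1 ^ 4 := pow_le_pow_of_le_one hr1.le hr11 (by norm_num)
  have h1 : r1 ^ 4 ≤ r1 := by
    calc r1 ^ 4 ≤ r1 ^ 1 := pow_le_pow_of_le_one hr1.le hr11 (by norm_num)
      _ = r1 := pow_one _
  have h8 : 0 < r1 ^ 8 := by positivity
  have hE : 16 * 10 ^ 10 * e ≤ r1 ^ 8 / 4 := by
    have : e ≤ r1 ^ 8 / 10 ^ 12 := he1
    rw [le_div_iff₀ (by norm_num)] at this ⊢
    linarith
  have e8 : (r1 / 2) ^ 8 = r1 ^ 8 / 256 := by ring
  have e4 : (r1 / 2) ^ 4 = r1 ^ 4 / 16 := by ring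
  refine ⟨fun u hu => ?_, fun u hu hlt => ?_, fun u hu hlt => ?_⟩
  · have a1 := hn.n1 u hu
    have a2 := hh.2 u (hu.trans (by norm_num))
    have a3 : ‖g1 u‖ ≤ ‖g u‖ + ‖h u‖ := by
      have : g1 u = g u - h u := by rw [hg]; ring
      rw [this]
      exact norm_sub_le _ _
    linarith
  · have a2 := hh.2 u (hu.trans (by norm_num))
    have a3 : ‖g1 u‖ ≤ ‖g u‖ + ‖h u‖ := by
      have : g1 u = g u - h u := by rw [hg]; ring
      rw [this]
      exact norm_sub_le _ _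
    have a4 : ‖g1 u‖ < r1 ^ 8 := by
      rw [e8] at hlt
      linarith
    have a5 := hn.n2 u hu a4
    have a6 := hh.d1 u (hu.trans (by norm_num))
    have a7 : ‖deriv g1 u‖ ≤ ‖deriv g u‖ + ‖deriv h u‖ := by
      have : deriv g1 u = deriv g u - deriv h u := by rw [hd1]; ring
      rw [this]
      exact norm_sub_le _ _
    rw [e4]
    linarith
  · have a2 := wr_bound hf hh u (hu.trans (by norm_num))
    have a20 := a2.1
    have a21 := a2.2
    have a3 : ‖wr f g1 u‖ ≤ ‖wr f g u‖ + ‖wr f h u‖ := by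
      have : wr f g1 u = wr f g u - wr f h u := by rw [hw]; ring
      rw [this]
      exact norm_sub_le _ _
    have a4 : ‖wr f g1 u‖ < r1 ^ 8 := by
      rw [e8] at hlt
      linarith
    have a5 := hn.n3 u hu a4
    have a7 : ‖wr1 f g1 u‖ ≤ ‖wr1 f g u‖ + ‖wr1 f h u‖ := by
      have : wr1 f g1 u = wr1 f g u - wr1 f h u := by rw [hw1]; ring
      rw [this]
      exact norm_sub_le _ _
    rw [e4]
    linarith

theorem noise3 (x : ℝ) (hx : 0 < x) (hx1 : 10 ^ 28 * x ≤ 1) : ∀ d : ℕ, 4 ≤ d →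
    ∀ s : Finset ℂ, Sep d s → ∀ w : ℂ → ℝ, Wgt d w → ∀ P Q : ℂ[X], P.natDegree ≤ d →
    Q.natDegree ≤ d → (∀ z, wm d P z ≤ w z) → (∀ z, wm d Q z ≤ w z) →
    ∃ A B : ℂ[X], A.natDegree ≤ d ∧ B.natDegree ≤ d ∧ B.coeff d ≠ 0 ∧
      (∀ z, wm d (A - P) z ≤ 10 ^ 28 * x * w z) ∧ (∀ z, wm d (B - Q) z ≤ 10 ^ 28 * x * w z) ∧
      ∀ b ∈ s, NDf (x ^ 4) (sn d b (w b) A) (sn d b (w b) B) := by
  have hx10 : 0 < 10 ^ 28 * x := by positivity
  have hxs : x ≤ 1 := by linarith
  have hx4s : x ^ 4 ≤ 1 / 2 := by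
    have h1 : x ≤ 1 / 2 := by linarith
    calc x ^ 4 ≤ (1 / 2) ^ 4 := pow_le_pow_left₀ hx.le h1 4
      _ ≤ 1 / 2 := by norm_num
  obtain ⟨r1, hr1def⟩ : ∃ r1 : ℝ, r1 = 2 * x ^ 4 := ⟨_, rfl⟩
  have hx4 : x ^ 4 = r1 / 2 := by rw [hr1def]; ring
  have hx4p : 0 < x ^ 4 := by positivity
  have hr1 : 0 < r1 := by rw [hr1def]; positivity
  have hr11 : r1 ≤ 1 := by rw [hr1def]; linarith
  have hmin : min (10 ^ 28 * x / 2) 1 / 10 ^ 10 = 5 * 10 ^ 17 * x := by
    rw [min_eq_left (by linarith)]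
    ring
  have hno := noise3_expl (10 ^ 28 * x / 2) (by linarith) r1 hr1 hr11 (by
    rw [hmin]
    apply small3_r _ (by positivity) r1 hr1 hr11
    rw [hr1def, le_div_iff₀ (by norm_num)]
    have h1 : (5 * 10 ^ 17 * x) ^ 4 = (5 * 10 ^ 17) ^ 4 * x ^ 4 := by ring
    rw [h1]
    have h2 : 2 * x ^ 4 * (4 * 10 ^ 58 * 65 * 23409) = (2 * (4 * 10 ^ 58 * 65 * 23409)) * x ^ 4 := by
      ring
    rw [h2]
    apply mul_le_mul_of_nonneg_right _ hx4p.le
    norm_num)
  obtain ⟨e, hedef⟩ : ∃ e : ℝ, e = min (10 ^ 28 * x / 2) (r1 ^ 8 / 10 ^ 12) := ⟨_, rfl⟩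
  have he : 0 < e := by rw [hedef]; exact lt_min (by linarith) (by positivity)
  have he2 : e ≤ 10 ^ 28 * x / 2 := by rw [hedef]; exact min_le_left _ _
  have he12 : e ≤ r1 ^ 8 / 10 ^ 12 := by rw [hedef]; exact min_le_right _ _
  intro d hd s hs w hw P Q hP hQ hPw hQw
  obtain ⟨A, B1, hA, hB1, hAP, hBQ, hnd⟩ := hno d hd s hs w hw P Q hP hQ hPw hQw
  -- the small coefficient
  have hη0 : 0 < e * w 0 * Real.exp (-√d) := by
    have := hw.pos 0
    positivity
  obtain ⟨η, hηn, hηne⟩ : ∃ η : ℂ, ‖η‖ ≤ e * w 0 * Real.exp (-√d) ∧ B1.coeff d + η ≠ 0 := by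
    by_cases h0 : B1.coeff d = 0
    · refine ⟨((e * w 0 * Real.exp (-√d) : ℝ) : ℂ), ?_, ?_⟩
      · rw [Complex.norm_real, Real.norm_eq_abs, abs_of_pos hη0]
      · rw [h0, zero_add]
        exact_mod_cast hη0.ne'
    · refine ⟨0, ?_, ?_⟩
      · rw [norm_zero]
        exact hη0.le
      · rwa [add_zero]
  obtain ⟨D, hD⟩ : ∃ D : ℂ[X], D = C η * X ^ d := ⟨_, rfl⟩
  have hDdeg : D.natDegree ≤ d := by rw [hD]; exact natDegree_C_mul_X_pow_le _ _
  have hDw : ∀ z, wm d D z ≤ e * w z := by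
    intro z
    have h1 : wm d D z ≤ ‖η‖ := by
      rw [hD, wm_C_mul]
      have h2 : wm d (X ^ d) z ≤ 1 := by
        unfold wm
        rw [eval_pow, eval_X, norm_pow]
        exact div_le_one_of_le₀ (pow_le_wt d d le_rfl z) (Real.sqrt_nonneg _)
      calc ‖η‖ * wm d (X ^ d) z ≤ ‖η‖ * 1 := mul_le_mul_of_nonneg_left h2 (norm_nonneg _)
        _ = ‖η‖ := mul_one _
    have h3 : w 0 * Real.exp (-√d) ≤ w z := by
      have h4 := hw.lip z 0
      have h5 : Real.exp (√d * sg z 0) ≤ Real.exp (√d) := by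
        apply Real.exp_le_exp.mpr
        have := sg_le_one z 0
        nlinarith [Real.sqrt_nonneg (d : ℝ)]
      have h6 : w 0 ≤ w z * Real.exp (√d) :=
        h4.trans (mul_le_mul_of_nonneg_left h5 (hw.pos z).le)
      calc w 0 * Real.exp (-√d) ≤ (w z * Real.exp (√d)) * Real.exp (-√d) :=
            mul_le_mul_of_nonneg_right h6 (Real.exp_pos _).le
        _ = w z := by rw [mul_assoc, ← Real.exp_add]; simp
    calc wm d D z ≤ ‖η‖ := h1
      _ ≤ e * w 0 * Real.exp (-√d) := hηn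
      _ = e * (w 0 * Real.exp (-√d)) := by ring
      _ ≤ e * w z := mul_le_mul_of_nonneg_left h3 he.le
  have hAw : ∀ z, wm d A z ≤ 2 * w z := by
    intro z
    have h1 : wm d A z ≤ wm d (A - P) z + wm d P z := by
      have := wm_add_le d (A - P) P z
      rwa [sub_add_cancel] at this
    have h2 := hAP z
    have h3 := hPw z
    have h4 := hw.pos z
    nlinarith
  have hB1w : ∀ z, wm d B1 z ≤ 2 * w z := by
    intro z
    have h1 : wm d B1 z ≤ wm d (B1 - Q) z + wm d Q z := by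
      have := wm_add_le d (B1 - Q) Q z
      rwa [sub_add_cancel] at this
    have h2 := hBQ z
    have h3 := hQw z
    have h4 := hw.pos z
    nlinarith
  refine ⟨A, B1 + D, hA, ?_, ?_, ?_, ?_, ?_⟩
  · exact natDegree_add_le_of_degree_le hB1 hDdeg
  · rw [coeff_add, hD, coeff_C_mul_X_pow, if_pos rfl]
    exact hηne
  · intro z
    have := hAP z
    have h4 := hw.pos z
    nlinarith
  · intro z
    have h1 : wm d (B1 + D - Q) z ≤ wm d (B1 - Q) z + wm d D z := by
      have := wm_add_le d (B1 - Q) D z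
      rwa [show B1 - Q + D = B1 + D - Q by ring] at this
    have h2 := hBQ z
    have h3 := hDw z
    have h4 := hw.pos z
    nlinarith
  · intro b hb
    rw [hx4]
    have hd1 : 1 ≤ d := by omega
    have hND := NDf_of d b (w b) r1 (hw.pos b) A B1 (hnd b hb)
    exact nz3_pert hr1 hr11 he he12
      (sn_EB d hd1 w hw b A hA 2 (by norm_num) (fun z _ => hAw z))
      (sn_EB d hd1 w hw b B1 hB1 2 (by norm_num) (fun z _ => hB1w z))
      (sn_EB d hd1 w hw b D hDdeg e he.le (fun z _ => hDw z))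
      (fun u => sn_add d b (w b) B1 D u) hND

end Pool.Agent.H91.PR
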