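import Pool.Agent.H91.LD.Lims
import Pool.Agent.H91.PR.PDefs

/-!
# [H91 PR PAR] choice of the parameters as powers of a small number

`d = x^(-5000)`, so `sm d = x^1250`, `√d = x^(-2500)`. Take `χ0 = x^34`, `L = x^(-118)`, `R = x^(-119)`, `δ = 1/(8 d^10) = x^50000/8`, `S` and `T` as in
`hS`, `hT`: `S ≤ 4 * 10^69 x^(1250 - 238 - 216) = 4 * 10^69 x^796`, `T ≤ 4 * 10^15 x^(-66)`. All the inequalities hold for small `x` because the power of `x` on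
the smaller side is larger:
`k1`: `x^118` against `x^116`; `k2`: `x^(-84)`; `k5`: `x^796` against `x^116`; `k6`: `x^(-298) x^(2*796)` against `x^1251` (`1294 > 1251`), and
`exp(-(x^(-84)/4)^2/8)` is smaller than every power of `x`; `k9`: `x^34/x^32` against `x`; `k10`: `x^796` against `x^32`; `kbig`: `x^(-132)` against
`x^(64-2500)`; `ks1`: `x^(-118-66+2500)` against `x^1250`; `ks2`: `x^(-132-118+2500)` against `x^1251`; `kexp`: the exponent is at least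
`x^(-5000+2*133+2500)/10^70` (`T + 3 ≤ 10^16 x^(-66)`), a negative power of `x`.
Suggestion: put `y = 1/x` and prove each inequality for all large `y` with `Filter.eventually_atTop` and tendsto arguments
(`Real.tendsto_pow_mul_exp_neg_atTop_nhds_zero` for the exponentials, or `exp t ≥ t^n/n!`), or for
`x ≤ 10^(-100)` with explicit powers (for instance `C * x^k ≤ 1` if `C ≤ 10^(100 k)`). A general lemma `C * x^n ≤ c * x^m` for `m < n` and small `x` helps.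
-/

set_option autoImplicit false

open Filter

namespace Pool.Agent.H91.PR

open Pool.Agent.H85.LD Pool.Agent.H91.LD

/-- all the numerical conditions of the proof (`r = x^4`, `ρ = θ = x`) -/
structure Par (d : ℕ) (x χ0 L R δ S T : ℝ) : Prop where
  hd : 4 ≤ d
  hx : 0 < x
  hx1 : 10 ^ 28 * x ≤ 1 / 4
  hχ0 : 0 < χ0
  hχ1 : χ0 ≤ 1
  hL : 200 ≤ L
  hLR : L ≤ R
  hLR2 : L / R ≤ x
  hRd : R + 4 ≤ √(d : ℝ)
  hδ : δ = 1 / (8 * (d : ℝ) ^ 10)
  hS : S = 10 ^ 69 * (R + 1) ^ 2 / (χ0 ^ 4 * (x ^ 4) ^ 20) * sm d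
  hS1 : 1000 * S ≤ x
  k1 : 5 * 10 ^ 7 / L + 2 * 10 ^ 5 * δ ≤ χ0 ^ 2 * (x ^ 4) ^ 12 / 10 ^ 30
  k2 : 32 ≤ χ0 * L
  k5 : 10 ^ 7 * S + 2 * 10 ^ 5 * δ ≤ χ0 ^ 2 * (x ^ 4) ^ 12 / 10 ^ 30
  k6 : 10 ^ 60 / (χ0 ^ 5 * (x ^ 4) ^ 32) * (10 ^ 7 * S + 2 * 10 ^ 5 * δ) ^ 2 +
      2 * 10 ^ 24 / (χ0 ^ 2 * (x ^ 4) ^ 16) *
        (2 * 10 ^ 7 * S * Real.exp (-((χ0 * L / 4) ^ 2 / 8)) + 2 * 10 ^ 5 * δ) ≤ x * sm d / 16
  k9 : (5 * 10 ^ 7 / L + 4 * 10 ^ 5 * (2 * χ0) + 10 ^ 7 * S + 4 * 10 ^ 5 * δ) / (x ^ 4 / 2) ^ 8 ≤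
      x / 4
  k10 : 10 ^ 7 * S + 2 * 10 ^ 5 * δ ≤ (x ^ 4) ^ 8 / 10 ^ 3
  hT : T = 2 + 3 * 10 ^ 15 / (χ0 * (x ^ 4) ^ 8)
  kbig : 10 ^ 25 * (T + 2) ^ 2 ≤ (x ^ 4 / 2) ^ 16 * √(d : ℝ)
  ks1 : L * (1 + (T + 1)) / √(d : ℝ) ≤ 1 / 2 * sm d
  ks2 : 2 * (T + 1 + 1) ^ 2 * L / √(d : ℝ) ≤ x / 4 * sm d
  kn : 18 * L ≤ x * √(d : ℝ)
  kμ : 4 / √(d : ℝ) ≤ x * sm d / 32
  kμ2 : sm d ≤ x
  kexp : 150 * Real.exp (-(d * (x / (32 * (T + 3) ^ 2) * sm d) ^ 2 / 8)) ≤ 1 / (2 * (d : ℝ) ^ 10)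
  kd : 64 / (d : ℝ) ≤ x

private theorem pw {x : ℝ} (h0 : 0 < x) (h : 10 ^ 250 * x ≤ 1) {C : ℝ} (n m : ℕ)
    (_hC0 : 0 ≤ C) (hC : C ≤ 10 ^ 250) (hmn : m < n) : C * x ^ n ≤ x ^ m := by
  have hx1 : x ≤ 1 := by
    have : x ≤ 10 ^ 250 * x := le_mul_of_one_le_left h0.le (one_le_pow₀ (by norm_num))
    linarith
  obtain ⟨k, rfl⟩ := Nat.exists_eq_add_of_lt hmn
  have h1 : x ^ (m + k + 1) = x ^ m * (x ^ k * x) := by rw [pow_succ, pow_add]; ring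
  rw [h1]
  have h2 : x ^ k ≤ 1 := pow_le_one₀ h0.le hx1
  have h3 : C * (x ^ k * x) ≤ 1 := by
    calc C * (x ^ k * x) ≤ 10 ^ 250 * (1 * x) := by gcongr
      _ ≤ 1 := by rw [one_mul]; exact h
  calc C * (x ^ m * (x ^ k * x)) = x ^ m * (C * (x ^ k * x)) := by ring
    _ ≤ x ^ m * 1 := by gcongr
    _ = x ^ m := mul_one _

private theorem ex {x t : ℝ} (N : ℕ) (h0 : 0 < x) (h : (N : ℝ) * x⁻¹ ≤ t) :
    Real.exp (-t) ≤ x ^ N := by
  have h1 : x⁻¹ ≤ Real.exp x⁻¹ := by linarith [Real.add_one_le_exp x⁻¹]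
  have h2 : Real.exp (-x⁻¹) ≤ x := by
    rw [Real.exp_neg]
    exact inv_le_of_inv_le₀ h0 h1
  calc Real.exp (-t) ≤ Real.exp (-(N * x⁻¹)) := Real.exp_le_exp.2 (neg_le_neg h)
    _ = Real.exp (-x⁻¹) ^ N := by rw [← Real.exp_nat_mul, mul_neg]
    _ ≤ x ^ N := by gcongr

private theorem par_sq {x : ℝ} (h0 : 0 < x) (n : ℕ) : √((x ^ (2 * n))⁻¹) = (x ^ n)⁻¹ := by
  have h1 : (x ^ (2 * n))⁻¹ = ((x ^ n)⁻¹) ^ 2 := by
    rw [inv_pow, ← pow_mul, mul_comm n 2]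
  rw [h1, Real.sqrt_sq (by positivity)]

theorem exists_par : ∃ x0 : ℝ, 0 < x0 ∧ ∀ x, 0 < x → x ≤ x0 → ∀ d : ℕ, (d : ℝ) * x ^ 5000 = 1 →
    ∃ χ0 L R δ S T : ℝ, Par d x χ0 L R δ S T := by
  refine ⟨1 / 10 ^ 250, by positivity, fun x h0 hx d hd => ?_⟩
  have h : 10 ^ 250 * x ≤ 1 := by
    rw [le_div_iff₀ (by positivity)] at hx
    linarith
  have h1 : x ≤ 1 := by
    have : x ≤ 10 ^ 250 * x := le_mul_of_one_le_left h0.le (one_le_pow₀ (by norm_num))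
    linarith
  have hP : ∀ n : ℕ, 0 < x ^ n := fun n => pow_pos h0 n
  have hd1 : (d : ℝ) = (x ^ 5000)⁻¹ := eq_inv_of_mul_eq_one_left hd
  have hsq : √(d : ℝ) = (x ^ 2500)⁻¹ := by
    rw [hd1]
    exact par_sq h0 2500
  have hsm : sm d = x ^ 1250 := by
    have h2 : √((x ^ 2500)⁻¹) = (x ^ 1250)⁻¹ := par_sq h0 1250
    unfold sm
    rw [hsq, h2, inv_inv]
  obtain ⟨δ, hδ⟩ : ∃ δ : ℝ, δ = 1 / (8 * (d : ℝ) ^ 10) := ⟨_, rfl⟩
  obtain ⟨S, hS⟩ : ∃ S : ℝ, S = 10 ^ 69 * ((x ^ 119)⁻¹ + 1) ^ 2 /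
    ((x ^ 34) ^ 4 * (x ^ 4) ^ 20) * sm d := ⟨_, rfl⟩
  obtain ⟨T, hT⟩ : ∃ T : ℝ, T = 2 + 3 * 10 ^ 15 / ((x ^ 34) * (x ^ 4) ^ 8) := ⟨_, rfl⟩
  have hδ0 : 0 ≤ δ := by rw [hδ]; positivity
  have hδ1 : δ ≤ x ^ 2000 := by
    have e1 : δ = x ^ 50000 / 8 := by
      rw [hδ, hd1, inv_pow, ← pow_mul, one_div, mul_inv, inv_inv]
      ring
    rw [e1]
    have e2 := pw h0 h 50000 2000 (C := 1) (by norm_num) (by norm_num) (by norm_num)
    have e3 := hP 50000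
    linarith
  have hS0 : 0 ≤ S := by
    rw [hS, hsm]
    positivity
  have hS1 : S ≤ 4 * 10 ^ 69 * x ^ 796 := by
    have e1 : (x ^ 34) ^ 4 * (x ^ 4) ^ 20 = x ^ 216 := by
      rw [← pow_mul, ← pow_mul, ← pow_add]
    have e2 : (x ^ 119)⁻¹ + 1 ≤ 2 * (x ^ 119)⁻¹ := by
      have : 1 ≤ (x ^ 119)⁻¹ := one_le_inv₀ (hP 119) |>.2 (pow_le_one₀ h0.le h1)
      linarith
    have e3 : ((x ^ 119)⁻¹ + 1) ^ 2 ≤ (2 * (x ^ 119)⁻¹) ^ 2 := by
      have := hP 119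
      gcongr
    have e4 : x ^ 1250 = x ^ 796 * x ^ 216 * (x ^ 119) ^ 2 := by
      rw [← pow_mul, ← pow_add, ← pow_add]
    have e5 : 10 ^ 69 * (2 * (x ^ 119)⁻¹) ^ 2 / x ^ 216 * x ^ 1250 = 4 * 10 ^ 69 * x ^ 796 := by
      rw [e4]
      have g1 := (hP 119).ne'
      have g2 := (hP 216).ne'
      generalize x ^ 119 = a at *
      generalize x ^ 216 = b at *
      generalize x ^ 796 = c at *
      field_simp
      ring
    rw [hS, hsm, e1, ← e5]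
    have := hP 216
    have := hP 1250
    gcongr
  have hT0 : 2 ≤ T := by
    rw [hT]
    have : 0 ≤ 3 * 10 ^ 15 / ((x ^ 34) * (x ^ 4) ^ 8) := by positivity
    linarith
  have hT1 : T + 3 ≤ 10 ^ 16 * (x ^ 66)⁻¹ := by
    have e1 : (x ^ 34) * (x ^ 4) ^ 8 = x ^ 66 := by
      rw [← pow_mul, ← pow_add]
    have e2 : 1 ≤ (x ^ 66)⁻¹ := one_le_inv₀ (hP 66) |>.2 (pow_le_one₀ h0.le h1)
    rw [hT, e1, div_eq_mul_inv]
    nlinarith
  have hE : 10 ^ 7 * S + 2 * 10 ^ 5 * δ ≤ 10 ^ 77 * x ^ 796 := by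
    have e1 := pw h0 h 2000 796 (C := 1) (by norm_num) (by norm_num) (by norm_num)
    have e2 := hP 796
    nlinarith
  have hE0 : 0 ≤ 10 ^ 7 * S + 2 * 10 ^ 5 * δ := by positivity
  have hχ : (x ^ 34) ^ 2 * (x ^ 4) ^ 12 = x ^ 116 := by
    rw [← pow_mul, ← pow_mul, ← pow_add]
  refine ⟨x ^ 34, (x ^ 118)⁻¹, (x ^ 119)⁻¹, δ, S, T, ?_⟩
  have x28 : 10 ^ 28 * x ≤ 1 / 4 := by
    have e1 := pw h0 h 1 0 (C := 4 * 10 ^ 28) (by norm_num) (by norm_num) (by norm_num)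
    rw [pow_one, pow_zero] at e1
    linarith
  constructor
  case hd =>
    have e1 := pw h0 h 5000 0 (C := 4) (by norm_num) (by norm_num) (by norm_num)
    rw [pow_zero] at e1
    have e2 : (4 : ℝ) ≤ (d : ℝ) := by
      rw [hd1, ← one_div, le_div_iff₀ (hP _)]
      exact e1
    exact_mod_cast e2
  case hx => exact h0
  case hx1 => exact x28
  case hχ0 => exact hP 34
  case hχ1 => exact pow_le_one₀ h0.le h1
  case hL =>
    rw [← one_div, le_div_iff₀ (hP _)]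
    have e1 := pw h0 h 118 0 (C := 200) (by norm_num) (by norm_num) (by norm_num)
    rw [pow_zero] at e1
    exact e1
  case hLR =>
    have e1 := pw h0 h 119 118 (C := 1) (by norm_num) (by norm_num) (by norm_num)
    rw [one_mul] at e1
    exact inv_anti₀ (hP _) e1
  case hLR2 =>
    have e1 : (x ^ 118)⁻¹ / (x ^ 119)⁻¹ = x := by
      rw [div_inv_eq_mul, pow_succ x 118, ← mul_assoc, inv_mul_cancel₀ (hP 118).ne', one_mul]
    exact e1.le
  case hRd =>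
    rw [hsq]
    have e1 : (x ^ 2500)⁻¹ = (x ^ 119)⁻¹ * (x ^ 2381)⁻¹ := by
      rw [← mul_inv, ← pow_add]
    have e2 : 5 ≤ (x ^ 2381)⁻¹ := by
      rw [← one_div, le_div_iff₀ (hP _)]
      have e1 := pw h0 h 2381 0 (C := 5) (by norm_num) (by norm_num) (by norm_num)
      rw [pow_zero] at e1
      exact e1
    have e3 : 1 ≤ (x ^ 119)⁻¹ := one_le_inv₀ (hP 119) |>.2 (pow_le_one₀ h0.le h1)
    rw [e1]
    nlinarith
  case hδ => exact hδ
  case hS => exact hS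
  case hS1 =>
    have e1 := pw h0 h 796 1 (C := 4 * 10 ^ 72) (by norm_num) (by norm_num) (by norm_num)
    rw [pow_one] at e1
    linarith
  case k1 =>
    rw [hχ, div_inv_eq_mul, le_div_iff₀ (by positivity)]
    have e1 := pw h0 h 118 116 (C := 10 ^ 38) (by norm_num) (by norm_num) (by norm_num)
    have e2 := pw h0 h 2000 116 (C := 4 * 10 ^ 35) (by norm_num) (by norm_num) (by norm_num)
    nlinarith
  case k2 =>
    have e1 : x ^ 34 * (x ^ 118)⁻¹ = (x ^ 84)⁻¹ := by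
      have : x ^ 118 = x ^ 34 * x ^ 84 := by rw [← pow_add]
      rw [this, mul_inv, ← mul_assoc, mul_inv_cancel₀ (hP 34).ne', one_mul]
    rw [e1, ← one_div, le_div_iff₀ (hP _)]
    have e1 := pw h0 h 84 0 (C := 32) (by norm_num) (by norm_num) (by norm_num)
    rw [pow_zero] at e1
    exact e1
  case k5 =>
    rw [hχ, le_div_iff₀ (by positivity)]
    have e1 := pw h0 h 796 116 (C := 10 ^ 107) (by norm_num) (by norm_num) (by norm_num)
    nlinarith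
  case k6 =>
    have c1 : (x ^ 34) ^ 5 * (x ^ 4) ^ 32 = x ^ 298 := by
      rw [← pow_mul, ← pow_mul, ← pow_add]
    have c2 : (x ^ 34) ^ 2 * (x ^ 4) ^ 16 = x ^ 132 := by
      rw [← pow_mul, ← pow_mul, ← pow_add]
    have c3 : x * x ^ 1250 = x ^ 1251 := by rw [pow_succ x 1250, mul_comm]
    have hexp : Real.exp (-((x ^ 34 * (x ^ 118)⁻¹ / 4) ^ 2 / 8)) ≤ x ^ 1000 := by
      apply ex 1000 h0
      have e1 : x ^ 34 * (x ^ 118)⁻¹ = (x ^ 84)⁻¹ := by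
        have : x ^ 118 = x ^ 34 * x ^ 84 := by rw [← pow_add]
        rw [this, mul_inv, ← mul_assoc, mul_inv_cancel₀ (hP 34).ne', one_mul]
      have e2 : ((x ^ 84)⁻¹ / 4) ^ 2 / 8 = (128 * x ^ 168)⁻¹ := by
        rw [div_pow, inv_pow, ← pow_mul, mul_inv]
        norm_num
        ring
      rw [e1, e2, ← div_eq_mul_inv, ← one_div, div_le_div_iff₀ h0 (by positivity)]
      have e3 := pw h0 h 168 1 (C := 128000) (by norm_num) (by norm_num) (by norm_num)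
      rw [pow_one] at e3
      push_cast
      linarith
    have t1 : 10 ^ 60 / x ^ 298 * (10 ^ 7 * S + 2 * 10 ^ 5 * δ) ^ 2 ≤ x ^ 1251 / 32 := by
      rw [div_mul_eq_mul_div, div_le_div_iff₀ (hP _) (by norm_num)]
      have e1 : (10 ^ 7 * S + 2 * 10 ^ 5 * δ) ^ 2 ≤ (10 ^ 77 * x ^ 796) ^ 2 := by gcongr
      have e2 : (10 ^ 77 * x ^ 796) ^ 2 = 10 ^ 154 * x ^ 1592 := by
        rw [mul_pow, ← pow_mul, ← pow_mul]
      have e3 : x ^ 1251 * x ^ 298 = x ^ 1549 := by rw [← pow_add]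
      have e4 := pw h0 h 1592 1549 (C := 10 ^ 60 * 10 ^ 154 * 32) (by norm_num) (by norm_num)
        (by norm_num)
      rw [e3]
      rw [e2] at e1
      generalize (10 ^ 7 * S + 2 * 10 ^ 5 * δ) ^ 2 = a at *
      linarith
    have t2 : 2 * 10 ^ 24 / x ^ 132 * (2 * 10 ^ 7 * S *
        Real.exp (-((x ^ 34 * (x ^ 118)⁻¹ / 4) ^ 2 / 8)) + 2 * 10 ^ 5 * δ) ≤ x ^ 1251 / 32 := by
      generalize Real.exp (-((x ^ 34 * (x ^ 118)⁻¹ / 4) ^ 2 / 8)) = E at *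
      rw [div_mul_eq_mul_div, div_le_div_iff₀ (hP _) (by norm_num)]
      have e1 : S * E ≤ 4 * 10 ^ 69 * x ^ 796 * x ^ 1000 := by
        calc S * E ≤ S * x ^ 1000 := by gcongr
          _ ≤ _ := by gcongr
      have e2 : 4 * 10 ^ 69 * x ^ 796 * x ^ 1000 = 4 * 10 ^ 69 * x ^ 1796 := by
        rw [mul_assoc (4 * 10 ^ 69), ← pow_add]
      have e3 : x ^ 1251 * x ^ 132 = x ^ 1383 := by rw [← pow_add]
      have e4 := pw h0 h 1796 1383 (C := 10 ^ 120) (by norm_num) (by norm_num) (by norm_num)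
      have e5 := pw h0 h 2000 1383 (C := 10 ^ 120) (by norm_num) (by norm_num) (by norm_num)
      rw [e3]
      rw [e2] at e1
      have e6 : 2 * 10 ^ 24 * (2 * 10 ^ 7 * S * E + 2 * 10 ^ 5 * δ) * 32 =
        128 * 10 ^ 31 * (S * E) + 128 * 10 ^ 29 * δ := by ring
      rw [e6]
      nlinarith [hP 1796, hP 2000]
    rw [c1, c2, hsm, c3]
    linarith
  case k9 =>
    have c1 : (x ^ 4 / 2) ^ 8 = x ^ 32 / 256 := by
      rw [div_pow, ← pow_mul]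
      norm_num
    rw [c1, div_inv_eq_mul, div_le_iff₀ (by positivity)]
    have e1 := pw h0 h 118 34 (C := 5 * 10 ^ 7) (by norm_num) (by norm_num) (by norm_num)
    have e2 := pw h0 h 796 34 (C := 4 * 10 ^ 76) (by norm_num) (by norm_num) (by norm_num)
    have e3 := pw h0 h 2000 34 (C := 4 * 10 ^ 5) (by norm_num) (by norm_num) (by norm_num)
    have e4 := pw h0 h 34 33 (C := 10 ^ 12) (by norm_num) (by norm_num) (by norm_num)
    have e5 : x / 4 * (x ^ 32 / 256) = x ^ 33 / 1024 := by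
      rw [pow_succ x 32]
      ring
    rw [e5]
    nlinarith [hP 34]
  case k10 =>
    have c1 : (x ^ 4) ^ 8 = x ^ 32 := by rw [← pow_mul]
    rw [c1, le_div_iff₀ (by positivity)]
    have e1 := pw h0 h 796 32 (C := 10 ^ 80) (by norm_num) (by norm_num) (by norm_num)
    nlinarith
  case hT => exact hT
  case kbig =>
    have c1 : (x ^ 4 / 2) ^ 16 = x ^ 64 / 65536 := by
      rw [div_pow, ← pow_mul]
      norm_num
    have e1 : (T + 2) ^ 2 ≤ (10 ^ 16 * (x ^ 66)⁻¹) ^ 2 := by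
      have : T + 2 ≤ 10 ^ 16 * (x ^ 66)⁻¹ := by linarith
      gcongr
    have e2 : (10 ^ 16 * (x ^ 66)⁻¹) ^ 2 = 10 ^ 32 * (x ^ 132)⁻¹ := by
      rw [mul_pow, inv_pow, ← pow_mul, ← pow_mul]
    rw [c1, hsq]
    rw [e2] at e1
    have e3 : 10 ^ 25 * (10 ^ 32 * (x ^ 132)⁻¹) ≤ x ^ 64 / 65536 * (x ^ 2500)⁻¹ := by
      rw [← div_eq_mul_inv, ← div_eq_mul_inv, ← mul_div_assoc, div_div,
        div_le_div_iff₀ (hP _) (by positivity)]
      have e4 : x ^ 64 * x ^ 132 = x ^ 196 := by rw [← pow_add]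
      have e5 := pw h0 h 2500 196 (C := 10 ^ 25 * 10 ^ 32 * 65536) (by norm_num) (by norm_num)
        (by norm_num)
      rw [e4, ← mul_assoc]
      exact e5
    linarith
  case ks1 =>
    rw [hsq, hsm, div_inv_eq_mul]
    have e1 : (1 + (T + 1)) ≤ 10 ^ 16 * (x ^ 66)⁻¹ := by linarith
    have e2 : (x ^ 118)⁻¹ * (1 + (T + 1)) * x ^ 2500 ≤
        (x ^ 118)⁻¹ * (10 ^ 16 * (x ^ 66)⁻¹) * x ^ 2500 := by
      have := hP 118
      have := hP 2500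
      gcongr
    have e3 : (x ^ 118)⁻¹ * (10 ^ 16 * (x ^ 66)⁻¹) * x ^ 2500 = 10 ^ 16 * x ^ 2316 := by
      have e4 : x ^ 2500 = x ^ 118 * (x ^ 66 * x ^ 2316) := by rw [← pow_add, ← pow_add]
      rw [e4]
      have g1 := (hP 118).ne'
      have g2 := (hP 66).ne'
      field_simp
    have e4 := pw h0 h 2316 1250 (C := 2 * 10 ^ 16) (by norm_num) (by norm_num) (by norm_num)
    rw [e3] at e2
    linarith
  case ks2 =>
    rw [hsq, hsm, div_inv_eq_mul]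
    have e1 : (T + 1 + 1) ^ 2 ≤ (10 ^ 16 * (x ^ 66)⁻¹) ^ 2 := by
      have : T + 1 + 1 ≤ 10 ^ 16 * (x ^ 66)⁻¹ := by linarith
      gcongr
    have e2 : 2 * (T + 1 + 1) ^ 2 * (x ^ 118)⁻¹ * x ^ 2500 ≤
        2 * (10 ^ 16 * (x ^ 66)⁻¹) ^ 2 * (x ^ 118)⁻¹ * x ^ 2500 := by
      have := hP 118
      have := hP 2500
      gcongr
    have e3 : 2 * (10 ^ 16 * (x ^ 66)⁻¹) ^ 2 * (x ^ 118)⁻¹ * x ^ 2500 =
        2 * 10 ^ 32 * x ^ 2250 := by
      have e4 : x ^ 2500 = x ^ 118 * ((x ^ 66) ^ 2 * x ^ 2250) := by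
        rw [← pow_mul, ← pow_add, ← pow_add]
      rw [e4]
      have g1 := (hP 118).ne'
      have g2 := (hP 66).ne'
      generalize x ^ 118 = a at *
      generalize x ^ 66 = b at *
      generalize x ^ 2250 = c at *
      field_simp
    have e4 := pw h0 h 2250 1251 (C := 8 * 10 ^ 32) (by norm_num) (by norm_num) (by norm_num)
    have e5 : x / 4 * x ^ 1250 = x ^ 1251 / 4 := by
      rw [pow_succ x 1250]
      ring
    rw [e3] at e2
    rw [e5]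
    linarith
  case kn =>
    rw [hsq, ← div_eq_mul_inv, ← div_eq_mul_inv, div_le_div_iff₀ (hP _) (hP _)]
    have e1 := pw h0 h 2500 119 (C := 18) (by norm_num) (by norm_num) (by norm_num)
    rw [pow_succ x 118] at e1
    linarith
  case kμ =>
    rw [hsq, hsm, div_inv_eq_mul]
    have e1 := pw h0 h 2500 1251 (C := 128) (by norm_num) (by norm_num) (by norm_num)
    rw [pow_succ x 1250] at e1
    linarith
  case kμ2 =>
    rw [hsm]
    have e1 := pw h0 h 1250 1 (C := 1) (by norm_num) (by norm_num) (by norm_num)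
    rw [pow_one, one_mul] at e1
    exact e1
  case kexp =>
    have hexp : Real.exp (-(d * (x / (32 * (T + 3) ^ 2) * sm d) ^ 2 / 8)) ≤ x ^ 50001 := by
      apply ex 50001 h0
      have e1 : (T + 3) ^ 2 ≤ 10 ^ 32 * (x ^ 132)⁻¹ := by
        have e2 : (10 ^ 16 * (x ^ 66)⁻¹) ^ 2 = 10 ^ 32 * (x ^ 132)⁻¹ := by
          rw [mul_pow, inv_pow, ← pow_mul, ← pow_mul]
        rw [← e2]
        gcongr
      have e2 : x / (32 * (10 ^ 32 * (x ^ 132)⁻¹)) ≤ x / (32 * (T + 3) ^ 2) := by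
        gcongr
      have e3 : x / (32 * (10 ^ 32 * (x ^ 132)⁻¹)) = x ^ 133 / (32 * 10 ^ 32) := by
        rw [← mul_assoc, ← div_div, div_inv_eq_mul, pow_succ x 132]
        ring
      rw [e3] at e2
      have e4 : d * (x ^ 133 / (32 * 10 ^ 32) * x ^ 1250) ^ 2 / 8 ≤
          d * (x / (32 * (T + 3) ^ 2) * sm d) ^ 2 / 8 := by
        rw [hsm]
        gcongr
      refine le_trans ?_ e4
      have e5 : d * (x ^ 133 / (32 * 10 ^ 32) * x ^ 1250) ^ 2 / 8 =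
          (8 * (32 * 10 ^ 32) ^ 2 * x ^ 2234)⁻¹ := by
        have e6 : (x ^ 133 / (32 * 10 ^ 32) * x ^ 1250) ^ 2 =
            x ^ 2766 / (32 * 10 ^ 32) ^ 2 := by
          rw [div_mul_eq_mul_div, ← pow_add, div_pow, ← pow_mul]
        have e7 : x ^ 5000 = x ^ 2766 * x ^ 2234 := by rw [← pow_add]
        rw [e6, hd1, e7]
        have g1 := (hP 2766).ne'
        have g2 := (hP 2234).ne'
        generalize x ^ 2766 = a at *
        generalize x ^ 2234 = b at *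
        field_simp
      rw [e5, ← div_eq_mul_inv, ← one_div, div_le_div_iff₀ h0 (by positivity)]
      have e8 := pw h0 h 2234 1 (C := 50001 * (8 * (32 * 10 ^ 32) ^ 2)) (by norm_num)
        (by norm_num) (by norm_num)
      rw [pow_one, mul_assoc] at e8
      push_cast
      linarith
    have e1 : 1 / (2 * (d : ℝ) ^ 10) = x ^ 50000 / 2 := by
      rw [hd1, inv_pow, ← pow_mul, one_div, mul_inv, inv_inv]
      ring
    rw [e1]
    have e2 := pw h0 h 50001 50000 (C := 300) (by norm_num) (by norm_num) (by norm_num)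
    linarith
  case kd =>
    rw [hd1, div_inv_eq_mul]
    have e1 := pw h0 h 5000 1 (C := 64) (by norm_num) (by norm_num) (by norm_num)
    rw [pow_one] at e1
    exact e1

end Pool.Agent.H91.PR
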