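import Pool.Agent.H91.LD.Hyp1
import Pool.Agent.H85.LD.Ker
import Pool.Agent.H91.PR.PDefs

/-!
# [H91 PR SMALLD] the trivial bound, for every degree

`P' = C (ε/8)`, `Q' = C ε * (X^d + 1)` with `ε > 0` small: `P'/Q' = (1/8)/(z^d+1)`. Coprime (`P'` is a nonzero constant), `max` of the degrees is `d`.
`Hyp1` by `hyp1_of_trap` (`H91/LD/Hyp1`) with `F z = (1/8)/(z^d+1)`, `a = 0`, `r = 1/2`, `q = 1/2`: for `‖z‖ ≤ 1/2`: `‖z^d + 1‖ ≥ 1/2`, so `‖F z‖ ≤ 1/4 < 1/2`;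
`‖F z - F w‖ = (1/8) ‖z^d - w^d‖/(‖z^d+1‖ ‖w^d+1‖) ≤ (1/2) ‖z^d - w^d‖ ≤ (1/2) d (1/2)^(d-1) ‖z - w‖ ≤ (1/2) ‖z - w‖` (`d (1/2)^(d-1) ≤ 1`). Critical points: a finite critical
point `z` satisfies `(Wr P' Q').eval z = 0` (`H44.Fatou.crit_coe`), `Wr P' Q' = - (ε/8) ε d X^(d-1)`, so `d ≥ 2` and `z = 0`, `F 0 = 1/8` is in the disc
(`m = 1`); infinity: `rat P' Q' ∞` is `0` (the degree of the denominator is larger; see how `rat` is defined in `H44/Fatou`), in the disc (`m = 1`).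
(No need to know whether infinity is critical.)
Distance: `Nd` is a squared norm: `Nd (P - P') ≤ 2 Nd P + 2 Nd P'` (coefficientwise `‖a - b‖^2 ≤ 2‖a‖^2 + 2‖b‖^2`), `Nd P' + Nd Q' = ε^2 κ` with
`κ = Nd (C (1/8)) + Nd (X^d + 1)`; `Nd P + Nd Q > 0` because a nonzero polynomial of degree at most `d` has a nonzero coefficient; choose
`ε` with `ε^2 κ ≤ Nd P + Nd Q`.
-/

set_option autoImplicit false

open Polynomial MeasureTheory ComplexConjugate

namespace Pool.Agent.H91.PR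

open Pool.Agent.H85.LD Pool.Agent.H91.LD Pool.Agent.H44.Fatou

private theorem sd_nonneg (d : ℕ) (G : ℂ[X]) : 0 ≤ Nd d G := by
  unfold Nd
  positivity

private theorem sd_sub (d : ℕ) (G H : ℂ[X]) : Nd d (G - H) ≤ 2 * Nd d G + 2 * Nd d H := by
  unfold Nd
  rw [Finset.mul_sum, Finset.mul_sum, ← Finset.sum_add_distrib]
  refine Finset.sum_le_sum fun k _ => ?_
  have h1 : ‖(G - H).coeff k‖ ^ 2 ≤ 2 * ‖G.coeff k‖ ^ 2 + 2 * ‖H.coeff k‖ ^ 2 := by
    rw [coeff_sub]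
    have h2 := norm_sub_le (G.coeff k) (H.coeff k)
    have h3 := norm_nonneg (G.coeff k - H.coeff k)
    have h4 : ‖G.coeff k - H.coeff k‖ ^ 2 ≤ (‖G.coeff k‖ + ‖H.coeff k‖) ^ 2 :=
      pow_le_pow_left₀ h3 h2 2
    nlinarith [sq_nonneg (‖G.coeff k‖ - ‖H.coeff k‖)]
  calc ‖(G - H).coeff k‖ ^ 2 / (d.choose k : ℝ) ≤
      (2 * ‖G.coeff k‖ ^ 2 + 2 * ‖H.coeff k‖ ^ 2) / (d.choose k : ℝ) :=
        div_le_div_of_nonneg_right h1 (Nat.cast_nonneg _)
    _ = _ := by ring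

private theorem sd_smul (d : ℕ) (e : ℝ) (G : ℂ[X]) : Nd d (C (e : ℂ) * G) = e ^ 2 * Nd d G := by
  unfold Nd
  rw [Finset.mul_sum]
  refine Finset.sum_congr rfl fun k _ => ?_
  rw [coeff_C_mul, norm_mul, mul_pow, Complex.norm_real, Real.norm_eq_abs, sq_abs]
  ring

private theorem sd_pos (d : ℕ) (G : ℂ[X]) (hG : G.natDegree ≤ d) (h0 : G ≠ 0) : 0 < Nd d G := by
  unfold Nd
  have h1 : ‖G.coeff G.natDegree‖ ^ 2 / (d.choose G.natDegree : ℝ) ≤
      ∑ k ∈ Finset.range (d + 1), ‖G.coeff k‖ ^ 2 / (d.choose k : ℝ) :=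
    Finset.single_le_sum (f := fun k => ‖G.coeff k‖ ^ 2 / (d.choose k : ℝ))
      (fun k _ => by positivity) (Finset.mem_range.2 (by omega))
  refine lt_of_lt_of_le ?_ h1
  have h2 : 0 < ‖G.coeff G.natDegree‖ := by
    rw [norm_pos_iff]
    exact leadingCoeff_ne_zero.2 h0
  have h3 : (0 : ℝ) < d.choose G.natDegree := by exact_mod_cast Nat.choose_pos hG
  positivity

private theorem sd_pow (z w : ℂ) (hz : ‖z‖ ≤ 1 / 2) (hw : ‖w‖ ≤ 1 / 2) (n : ℕ) :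
    ‖z ^ (n + 1) - w ^ (n + 1)‖ ≤ ‖z - w‖ := by
  induction n with
  | zero => rw [zero_add, pow_one, pow_one]
  | succ n ih =>
    have h1 : z ^ (n + 1 + 1) - w ^ (n + 1 + 1) =
        z * (z ^ (n + 1) - w ^ (n + 1)) + w ^ (n + 1) * (z - w) := by ring
    rw [h1]
    refine (norm_add_le _ _).trans ?_
    rw [norm_mul, norm_mul]
    have h2 : ‖w ^ (n + 1)‖ ≤ 1 / 2 := by
      rw [norm_pow]
      calc ‖w‖ ^ (n + 1) ≤ ‖w‖ ^ 1 :=
            pow_le_pow_of_le_one (norm_nonneg w) (by linarith) (by omega)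
        _ ≤ 1 / 2 := by rw [pow_one]; exact hw
    have h3 : ‖z‖ * ‖z ^ (n + 1) - w ^ (n + 1)‖ ≤ 1 / 2 * ‖z - w‖ :=
      mul_le_mul hz ih (norm_nonneg _) (by norm_num)
    have h4 : ‖w ^ (n + 1)‖ * ‖z - w‖ ≤ 1 / 2 * ‖z - w‖ :=
      mul_le_mul_of_nonneg_right h2 (norm_nonneg _)
    linarith

private theorem sd_low (d : ℕ) (hd : 1 ≤ d) (z : ℂ) (hz : ‖z‖ ≤ 1 / 2) : 1 / 2 ≤ ‖z ^ d + 1‖ := by
  have h1 : ‖z ^ d‖ ≤ 1 / 2 := by
    rw [norm_pow]
    calc ‖z‖ ^ d ≤ ‖z‖ ^ 1 := pow_le_pow_of_le_one (norm_nonneg z) (by linarith) hd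
      _ ≤ 1 / 2 := by rw [pow_one]; exact hz
  have h2 := norm_sub_le (z ^ d + 1) (z ^ d)
  rw [add_sub_cancel_left, norm_one] at h2
  linarith

private theorem sd_hyp (d : ℕ) (hd : 1 ≤ d) (e : ℂ) (he : e ≠ 0) :
    IsCoprime (C e * C (1 / 8)) (C e * (X ^ d + 1)) ∧
      max (C e * C (1 / 8) : ℂ[X]).natDegree (C e * (X ^ d + 1) : ℂ[X]).natDegree = d ∧
      Hyp1 (C e * C (1 / 8)) (C e * (X ^ d + 1)) := by
  have hcop : IsCoprime (C e * C (1 / 8) : ℂ[X]) (C e * (X ^ d + 1)) := by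
    refine ⟨C (8 / e), 0, ?_⟩
    rw [zero_mul, add_zero, ← C_mul, ← C_mul, ← C_1]
    congr 1
    field_simp
  have hP : (C e * C (1 / 8) : ℂ[X]).natDegree = 0 := by
    rw [← C_mul, natDegree_C]
  have hQ : (C e * (X ^ d + 1) : ℂ[X]).natDegree = d := by
    rw [natDegree_C_mul he, ← C_1, natDegree_X_pow_add_C]
  have hmax : max (C e * C (1 / 8) : ℂ[X]).natDegree (C e * (X ^ d + 1) : ℂ[X]).natDegree = d := by
    rw [hP, hQ]
    omega
  refine ⟨hcop, hmax, ?_⟩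
  have hQe : ∀ z : ℂ, (C e * (X ^ d + 1) : ℂ[X]).eval z = e * (z ^ d + 1) := by
    intro z
    rw [eval_mul, eval_C, eval_add, eval_pow, eval_X, eval_one]
  have hPe : ∀ z : ℂ, (C e * C (1 / 8) : ℂ[X]).eval z = e * (1 / 8) := by
    intro z
    rw [eval_mul, eval_C, eval_C]
  have hne : ∀ z : ℂ, ‖z‖ ≤ 1 / 2 → z ^ d + 1 ≠ 0 := by
    intro z hz h0
    have h1 := sd_low d hd z hz
    rw [h0, norm_zero] at h1
    norm_num at h1
  refine hyp1_of_trap hcop (F := fun z => (1 / 8) / (z ^ d + 1)) (a := 0) (r := 1 / 2) (q := 1 / 2)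
    (by norm_num) (by norm_num) (by norm_num) ?_ ?_ ?_ ?_
  · intro z hz
    rw [mem_closedBall_zero_iff] at hz
    have h1 : (C e * (X ^ d + 1) : ℂ[X]).eval z ≠ 0 := by
      rw [hQe]
      exact mul_ne_zero he (hne z hz)
    have h2 := rat_coe_of_ne (P := C e * C (1 / 8)) h1
    rw [hQe, hPe, mul_div_mul_left _ _ he] at h2
    exact h2
  · intro z hz
    rw [mem_closedBall_zero_iff] at hz
    rw [mem_ball_zero_iff, norm_div]
    have h1 := sd_low d hd z hz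
    rw [div_lt_iff₀ (by linarith)]
    have h2 : ‖(1 / 8 : ℂ)‖ = 1 / 8 := by norm_num
    rw [h2]
    linarith
  · intro z hz w hw
    rw [mem_closedBall_zero_iff] at hz hw
    have hz1 := sd_low d hd z hz
    have hw1 := sd_low d hd w hw
    have h3 : (1 / 8 : ℂ) / (z ^ d + 1) - (1 / 8) / (w ^ d + 1) =
        (1 / 8) * (w ^ d - z ^ d) / ((z ^ d + 1) * (w ^ d + 1)) := by
      have := hne z hz
      have := hne w hw
      field_simp
      ring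
    show ‖(1 / 8 : ℂ) / (z ^ d + 1) - (1 / 8) / (w ^ d + 1)‖ ≤ 1 / 2 * ‖z - w‖
    rw [h3, norm_div, norm_mul, norm_mul]
    have h2 : ‖(1 / 8 : ℂ)‖ = 1 / 8 := by norm_num
    have h4 : 1 / 4 ≤ ‖z ^ d + 1‖ * ‖w ^ d + 1‖ := by nlinarith
    have h5 : ‖w ^ d - z ^ d‖ ≤ ‖z - w‖ := by
      obtain ⟨n, rfl⟩ : ∃ n, d = n + 1 := ⟨d - 1, by omega⟩
      rw [norm_sub_rev]
      exact sd_pow z w hz hw n
    rw [h2, div_le_iff₀ (by linarith)]
    have h6 : 1 / 2 * ‖z - w‖ * (1 / 4) ≤ 1 / 2 * ‖z - w‖ * (‖z ^ d + 1‖ * ‖w ^ d + 1‖) :=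
      mul_le_mul_of_nonneg_left h4 (by positivity)
    linarith
  · intro c hc
    induction c using OnePoint.rec with
    | infty =>
      refine ⟨1, 0, by rw [mem_closedBall_zero_iff, norm_zero]; norm_num, ?_⟩
      show rat _ _ OnePoint.infty = _
      rw [rat_infty]
      have h1 : dg (C e * C (1 / 8)) (C e * (X ^ d + 1)) = d := hmax
      have h2 : (C e * C (1 / 8) : ℂ[X]).coeff d = 0 := by
        rw [← C_mul, coeff_C_of_ne_zero (by omega)]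
      have h3 : (C e * (X ^ d + 1) : ℂ[X]).coeff d = e := by
        rw [coeff_C_mul, coeff_add, coeff_X_pow_self, coeff_one, if_neg (by omega), add_zero,
          mul_one]
      rw [h1, h2, h3]
      unfold pt
      rw [if_neg he, zero_div]
    | coe z =>
      have h1 := crit_coe hc
      have h2 : (Wr (C e * C (1 / 8)) (C e * (X ^ d + 1))).eval z =
          - (e * (1 / 8) * (e * (d * z ^ (d - 1)))) := by
        have h3 : derivative (C e * C (1 / 8) : ℂ[X]) = 0 := by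
          rw [← C_mul, derivative_C]
        have h4 : derivative (C e * (X ^ d + 1) : ℂ[X]) = C e * (C (d : ℂ) * X ^ (d - 1)) := by
          rw [derivative_C_mul, derivative_add, derivative_one, derivative_X_pow, add_zero]
        unfold Wr
        rw [h3, h4, zero_mul, zero_sub, eval_neg, eval_mul, hPe, eval_mul, eval_C, eval_mul,
          eval_C, eval_pow, eval_X]
      rw [h2, neg_eq_zero] at h1
      have hd0 : (d : ℂ) ≠ 0 := Nat.cast_ne_zero.2 (by omega)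
      have hz0 : z = 0 := by
        by_contra hz
        exact absurd h1 (mul_ne_zero (mul_ne_zero he (by norm_num))
          (mul_ne_zero he (mul_ne_zero hd0 (pow_ne_zero _ hz))))
      exact ⟨0, 0, by rw [mem_closedBall_zero_iff, norm_zero]; norm_num, by rw [hz0]; rfl⟩

theorem small_deg (d : ℕ) (hd : 1 ≤ d) (P Q : ℂ[X]) (hP : P.natDegree ≤ d) (hQ : Q.natDegree ≤ d)
    (h0 : P ≠ 0 ∨ Q ≠ 0) : ∃ P' Q' : ℂ[X], IsCoprime P' Q' ∧ max P'.natDegree Q'.natDegree = d ∧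
      Hyp1 P' Q' ∧ Nd d (P - P') + Nd d (Q - Q') ≤ 4 * (Nd d P + Nd d Q) := by
  have hP0 := sd_nonneg d P
  have hQ0 := sd_nonneg d Q
  have hS : 0 < Nd d P + Nd d Q := by
    rcases h0 with h | h
    · have := sd_pos d P hP h
      linarith
    · have := sd_pos d Q hQ h
      linarith
  obtain ⟨κ, hκ⟩ : ∃ κ : ℝ, κ = Nd d (C (1 / 8)) + Nd d (X ^ d + 1) := ⟨_, rfl⟩
  have hκ0 : 0 ≤ κ := by
    rw [hκ]
    exact add_nonneg (sd_nonneg d _) (sd_nonneg d _)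
  obtain ⟨e, he⟩ : ∃ e : ℝ, e = √((Nd d P + Nd d Q) / (κ + 1)) := ⟨_, rfl⟩
  have he0 : 0 < e := by
    rw [he]
    exact Real.sqrt_pos.2 (by positivity)
  have he2 : e ^ 2 * κ ≤ Nd d P + Nd d Q := by
    rw [he, Real.sq_sqrt (by positivity), div_mul_eq_mul_div, div_le_iff₀ (by positivity)]
    nlinarith
  have hec : (e : ℂ) ≠ 0 := by exact_mod_cast he0.ne'
  obtain ⟨h1, h2, h3⟩ := sd_hyp d hd (e : ℂ) hec
  refine ⟨_, _, h1, h2, h3, ?_⟩
  have h4 := sd_sub d P (C (e : ℂ) * C (1 / 8))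
  have h5 := sd_sub d Q (C (e : ℂ) * (X ^ d + 1))
  rw [sd_smul] at h4 h5
  rw [hκ] at he2
  linarith

end Pool.Agent.H91.PR
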