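import Pool.Agent.H91.LD.Tiny
import Pool.Agent.H91.PR.PDefs

/-!
# [H91 PR TINYB] tiny perturbation of the denominator to full degree

`t = C η * X^d` with `η = 0` or `η = δ w(0) exp(-√d)`, see `H91/LD/Noise2` (the part `hDw` of the proof of `noise2`).
-/

set_option autoImplicit false

open Polynomial MeasureTheory ComplexConjugate

namespace Pool.Agent.H91.PR

open Pool.Agent.H85.LD Pool.Agent.H91.LD

theorem tinyB (d : ℕ) (w : ℂ → ℝ) (hw : Wgt d w) (B : ℂ[X]) (δ : ℝ) (hδ : 0 < δ) :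
    ∃ t : ℂ[X], t.natDegree ≤ d ∧ (∀ z, wm d t z ≤ δ * w z) ∧ (B + t).coeff d ≠ 0 := by
  have hη0 : 0 < δ * w 0 * Real.exp (-√(d : ℝ)) := by
    have := hw.pos 0
    positivity
  obtain ⟨η, hηn, hηne⟩ : ∃ η : ℂ, ‖η‖ ≤ δ * w 0 * Real.exp (-√(d : ℝ)) ∧ B.coeff d + η ≠ 0 := by
    by_cases h0 : B.coeff d = 0
    · refine ⟨((δ * w 0 * Real.exp (-√(d : ℝ)) : ℝ) : ℂ), ?_, ?_⟩
      · rw [Complex.norm_real, Real.norm_eq_abs, abs_of_pos hη0]
      · rw [h0, zero_add]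
        exact_mod_cast hη0.ne'
    · refine ⟨0, ?_, ?_⟩
      · rw [norm_zero]
        exact hη0.le
      · rwa [add_zero]
  refine ⟨C η * X ^ d, natDegree_C_mul_X_pow_le _ _, ?_, ?_⟩
  · intro z
    have h1 : wm d (C η * X ^ d) z ≤ ‖η‖ := by
      unfold wm
      have hs := Real.sqrt_pos.mpr (wt_pos d z)
      rw [div_le_iff₀ hs, eval_mul, eval_C, eval_pow, eval_X, norm_mul, norm_pow]
      exact mul_le_mul_of_nonneg_left (pow_le_wt d d le_rfl z) (norm_nonneg _)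
    have h3 : w 0 * Real.exp (-√(d : ℝ)) ≤ w z := by
      have h4 := hw.lip z 0
      have h5 : Real.exp (√(d : ℝ) * sg z 0) ≤ Real.exp (√(d : ℝ)) := by
        apply Real.exp_le_exp.mpr
        have := sg_le_one z 0
        nlinarith [Real.sqrt_nonneg (d : ℝ)]
      have h6 : w 0 ≤ w z * Real.exp (√(d : ℝ)) :=
        h4.trans (mul_le_mul_of_nonneg_left h5 (hw.pos z).le)
      calc w 0 * Real.exp (-√(d : ℝ)) ≤ (w z * Real.exp (√(d : ℝ))) * Real.exp (-√(d : ℝ)) :=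
            mul_le_mul_of_nonneg_right h6 (Real.exp_pos _).le
        _ = w z := by rw [mul_assoc, ← Real.exp_add]; simp
    calc wm d (C η * X ^ d) z ≤ ‖η‖ := h1
      _ ≤ δ * w 0 * Real.exp (-√(d : ℝ)) := hηn
      _ = δ * (w 0 * Real.exp (-√(d : ℝ))) := by ring
      _ ≤ δ * w z := mul_le_mul_of_nonneg_left h3 hδ.le
  · rw [coeff_add, coeff_C_mul_X_pow, if_pos rfl]
    exact hηne

end Pool.Agent.H91.PR
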