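import Pool.Agent.H91.LD.Crit0
import Pool.Agent.H91.PR.PK

/-!
# [H91 PR TYPEONE] critical points where the numerator is cut off; nondegeneracy of the denominator

* `n2_pert`: `EB (sn (pK K2 + tB)) (10^7 S + 2*10^5 δ)` (`pK_wm`, `sn_EB`, `sn_add`), `≤ r^8/10^3`. If `‖sn (B + ..) u‖ < (r/2)^8` then
  `‖sn B u‖ < r^8/256 + r^8/1000 < r^8`, so `r^4 ≤ ‖deriv (sn B) u‖` and `‖deriv (sn (B + ..)) u‖ ≥ r^4 - r^8/1000 ≥ (r/2)^4` (`EB.d1`, `deriv_add`).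
* `type_one2`: proof of `type_one` in `H91/LD/Crit0`: `EB (sn (Pj chiT A + t0 + (pK K1 + t)))` with
  `5*10^7/L + 4*10^5 χ2 + 10^7 S + 4*10^5 δ` (`lc_zero`, `sn_EB`, `pK_wm`), then `loc_one` with `r/2` and `n2_pert`.
-/

set_option autoImplicit false

open Polynomial MeasureTheory ComplexConjugate

namespace Pool.Agent.H91.PR

open Pool.Agent.H85.LD Pool.Agent.H91.LD

variable {N : ℕ}

private theorem pt_EB (d : ℕ) (hd : 1 ≤ d) (L' : ℝ) (hL' : 0 < L') (c : ℂ → Fin N) (Z : Set ℂ)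
    (w : ℂ → ℝ) (hw : Wgt d w) (tB : ℂ[X]) (htB : tB.natDegree ≤ d) (δ : ℝ)
    (hδ : 0 ≤ δ) (htBw : ∀ z, wm d tB z ≤ δ * w z) (K2 : Fin N → ℂ[X])
    (hK2 : ∀ j, (K2 j).natDegree ≤ d) (S : ℝ) (hS : 0 ≤ S) (hK2w : ∀ j z, wm d (K2 j) z ≤ S * w z)
    (b : ℂ) : EB (sn d b (w b) (pK d L' c Z K2 + tB)) (10 ^ 7 * S + 2 * 10 ^ 5 * δ) := by
  have h1 := sn_EB d hd w hw b (pK d L' c Z K2 + tB)
    ((natDegree_add_le _ _).trans (max_le (pK_deg d L' c Z K2) htB)) (50 * S + δ) (by positivity)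
    (fun z _ => by
      have h2 := wm_add_le d (pK d L' c Z K2) tB z
      have h3 := pK_wm d hd L' hL' c Z w hw K2 hK2 S hS hK2w z
      have h4 := htBw z
      nlinarith)
  refine h1.mono (le_of_eq ?_)
  ring

theorem n2_pert (d : ℕ) (hd : 1 ≤ d) (L' : ℝ) (hL' : 0 < L') (c : ℂ → Fin N) (Z : Set ℂ) (w : ℂ → ℝ)
    (hw : Wgt d w) (B tB : ℂ[X]) (hB : B.natDegree ≤ d) (htB : tB.natDegree ≤ d) (δ : ℝ)
    (hδ : 0 ≤ δ) (htBw : ∀ z, wm d tB z ≤ δ * w z) (K2 : Fin N → ℂ[X])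
    (hK2 : ∀ j, (K2 j).natDegree ≤ d) (S : ℝ) (hS : 0 ≤ S) (hK2w : ∀ j z, wm d (K2 j) z ≤ S * w z)
    (r : ℝ) (hr : 0 < r) (hr1 : r ≤ 1) (hsmall : 10 ^ 7 * S + 2 * 10 ^ 5 * δ ≤ r ^ 8 / 10 ^ 3)
    (b : ℂ) (hn : ∀ u, ‖u‖ ≤ 1 → ‖sn d b (w b) B u‖ < r ^ 8 → r ^ 4 ≤ ‖deriv (sn d b (w b) B) u‖)
    (u : ℂ) (hu : ‖u‖ ≤ 1)
    (h : ‖sn d b (w b) (B + (pK d L' c Z K2 + tB)) u‖ < (r / 2) ^ 8) :
    (r / 2) ^ 4 ≤ ‖deriv (sn d b (w b) (B + (pK d L' c Z K2 + tB))) u‖ := by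
  have e1 := (pt_EB d hd L' hL' c Z w hw tB htB δ hδ htBw K2 hK2 S hS hK2w b).mono hsmall
  have hr8 : 0 < r ^ 8 := pow_pos hr 8
  have hr84 : r ^ 8 ≤ r ^ 4 := pow_le_pow_of_le_one hr.le hr1 (by norm_num)
  have e2 : (r / 2) ^ 8 = r ^ 8 / 256 := by ring
  have e3 : (r / 2) ^ 4 = r ^ 4 / 16 := by ring
  have e4 : sn d b (w b) (B + (pK d L' c Z K2 + tB)) =
      fun u => sn d b (w b) B u + sn d b (w b) (pK d L' c Z K2 + tB) u := by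
    funext v
    rw [sn_add]
  have hBd : Differentiable ℂ (sn d b (w b) B) := (sc_diff d b B).div_const _
  have e5 := e1.2 u (by linarith)
  have e6 := e1.d1 u (by linarith)
  rw [e4] at h ⊢
  rw [e2] at h
  rw [e3]
  have e7 : ‖sn d b (w b) B u‖ ≤ ‖sn d b (w b) B u + sn d b (w b) (pK d L' c Z K2 + tB) u‖ +
      ‖sn d b (w b) (pK d L' c Z K2 + tB) u‖ := by
    have := norm_sub_le (sn d b (w b) B u + sn d b (w b) (pK d L' c Z K2 + tB) u)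
      (sn d b (w b) (pK d L' c Z K2 + tB) u)
    rwa [add_sub_cancel_right] at this
  have e8 := hn u hu (by
    have h' : ‖sn d b (w b) B u + sn d b (w b) (pK d L' c Z K2 + tB) u‖ < r ^ 8 / 256 := h
    linarith)
  have e9 : deriv (fun u => sn d b (w b) B u + sn d b (w b) (pK d L' c Z K2 + tB) u) u =
      deriv (sn d b (w b) B) u + deriv (sn d b (w b) (pK d L' c Z K2 + tB)) u :=
    deriv_add (hBd u) (e1.1 u)
  rw [e9]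
  have e10 : ‖deriv (sn d b (w b) B) u‖ ≤
      ‖deriv (sn d b (w b) B) u + deriv (sn d b (w b) (pK d L' c Z K2 + tB)) u‖ +
      ‖deriv (sn d b (w b) (pK d L' c Z K2 + tB)) u‖ := by
    have := norm_sub_le (deriv (sn d b (w b) B) u + deriv (sn d b (w b) (pK d L' c Z K2 + tB)) u)
      (deriv (sn d b (w b) (pK d L' c Z K2 + tB)) u)
    rwa [add_sub_cancel_right] at this
  linarith

theorem type_one2 (d : ℕ) (hd : 1 ≤ d) (L : ℝ) (hL : 1 ≤ L) (L' : ℝ) (hL' : 0 < L')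
    (c : ℂ → Fin N) (Z : Set ℂ) (w : ℂ → ℝ) (hw : Wgt d w) (A B t0 t tB : ℂ[X])
    (hA : A.natDegree ≤ d) (hA2 : ∀ z, wm d A z ≤ 2 * w z) (hB : B.natDegree ≤ d)
    (ht0 : t0.natDegree ≤ d) (ht : t.natDegree ≤ d) (htB : tB.natDegree ≤ d) (δ : ℝ)
    (hδ : 0 ≤ δ) (ht0w : ∀ z, wm d t0 z ≤ δ * w z) (htw : ∀ z, wm d t z ≤ δ * w z)
    (htBw : ∀ z, wm d tB z ≤ δ * w z) (K1 K2 : Fin N → ℂ[X]) (hK1 : ∀ j, (K1 j).natDegree ≤ d)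
    (hK2 : ∀ j, (K2 j).natDegree ≤ d) (S : ℝ) (hS : 0 ≤ S)
    (hK1w : ∀ j z, wm d (K1 j) z ≤ S * w z) (hK2w : ∀ j z, wm d (K2 j) z ≤ S * w z)
    (r χ2 : ℝ) (hr : 0 < r) (hr1 : r ≤ 1) (hχ2 : 0 ≤ χ2)
    (hsmall : 10 ^ 7 * S + 2 * 10 ^ 5 * δ ≤ r ^ 8 / 10 ^ 3) (b : ℂ)
    (hb : chiT d L c Z b ≤ χ2) (hn : NDf r (sn d b (w b) A) (sn d b (w b) B)) (u : ℂ)
    (hu : ‖u‖ ≤ 1)
    (hwr : wr (sn d b (w b) (Pj d (chiT d L c Z) A + t0 + (pK d L' c Z K1 + t)))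
      (sn d b (w b) (B + (pK d L' c Z K2 + tB))) u = 0)
    (h0 : sn d b (w b) (Pj d (chiT d L c Z) A + t0 + (pK d L' c Z K1 + t)) u ≠ 0 ∨
      sn d b (w b) (B + (pK d L' c Z K2 + tB)) u ≠ 0) :
    sn d b (w b) (B + (pK d L' c Z K2 + tB)) u ≠ 0 ∧
      ‖sn d b (w b) (Pj d (chiT d L c Z) A + t0 + (pK d L' c Z K1 + t)) u /
        sn d b (w b) (B + (pK d L' c Z K2 + tB)) u‖ ≤
      (5 * 10 ^ 7 / L + 4 * 10 ^ 5 * χ2 + 10 ^ 7 * S + 4 * 10 ^ 5 * δ) / (r / 2) ^ 8 := by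
  have hL0 : 0 < L := by linarith
  have e1 := lc_zero d hd L hL c Z w hw A hA hA2 b
  have e2 : EB (sn d b (w b) A) (2 * 10 ^ 5 * 2) :=
    sn_EB d hd w hw b A hA 2 (by norm_num) fun z _ => hA2 z
  have hχ := chiT_nonneg d L hL0 c Z b
  have e3 := e2.const_mul ((chiT d L c Z b : ℝ) : ℂ)
  have e4 := pt_EB d hd L' hL' c Z w hw t ht δ hδ htw K1 hK1 S hS hK1w b
  have e5 : EB (sn d b (w b) t0) (2 * 10 ^ 5 * δ) :=
    sn_EB d hd w hw b t0 ht0 δ hδ fun z _ => ht0w z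
  have e6 := ((e1.add e3).add e5).add e4
  have e7 : (fun u => sn d b (w b) (Pj d (chiT d L c Z) A) u -
      ((chiT d L c Z b : ℝ) : ℂ) * sn d b (w b) A u +
      ((chiT d L c Z b : ℝ) : ℂ) * sn d b (w b) A u +
      sn d b (w b) t0 u + sn d b (w b) (pK d L' c Z K1 + t) u) =
      sn d b (w b) (Pj d (chiT d L c Z) A + t0 + (pK d L' c Z K1 + t)) := by
    funext v
    rw [sn_add d b (w b) (Pj d (chiT d L c Z) A + t0), sn_add d b (w b) (Pj d (chiT d L c Z) A)]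
    ring
  rw [e7] at e6
  have e8 : EB (sn d b (w b) (Pj d (chiT d L c Z) A + t0 + (pK d L' c Z K1 + t)))
      (5 * 10 ^ 7 / L + 4 * 10 ^ 5 * χ2 + 10 ^ 7 * S + 4 * 10 ^ 5 * δ) := by
    refine e6.mono ?_
    rw [Complex.norm_real, Real.norm_of_nonneg hχ]
    nlinarith
  have e9 : Differentiable ℂ (sn d b (w b) (B + (pK d L' c Z K2 + tB))) :=
    (sc_diff d b _).div_const _
  exact loc_one (half_pos hr) (by linarith) e8 e9 u hu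
    (n2_pert d hd L' hL' c Z w hw B tB hB htB δ hδ htBw K2 hK2 S hS hK2w r hr hr1 hsmall b hn.n2
      u hu) hwr h0

end Pool.Agent.H91.PR
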