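import Pool.Agent.H91.LD.Main
import Pool.Agent.H91.PR.Moves
import Pool.Agent.H91.PR.TypeOne2
import Pool.Agent.H91.PR.Cap2
import Pool.Agent.H91.PR.Geo2
import Pool.Agent.H91.PR.SmallD
import Pool.Agent.H91.PR.TinyB
import Pool.Agent.H91.PR.Noise3
import Pool.Agent.H91.PR.Par

/-!
# PowerRate: assembly
-/

set_option autoImplicit false

open Polynomial MeasureTheory ComplexConjugate Filter

namespace Pool.Agent.H91.PR

open Pool.Agent.H85.LD Pool.Agent.H91.LD Pool.Agent.H44.Fatou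

variable {N : ℕ}

/-- the numerator is tiny where the critical values are -/
theorem van_vals2 (d : ℕ) (hd : 1 ≤ d) (L : ℝ) (hL : 0 < L) (L' : ℝ) (hL' : 0 < L')
    (c : ℂ → Fin N) (Z : Set ℂ) (w : ℂ → ℝ) (hw : Wgt d w) (A t0 t : ℂ[X]) (hA : A.natDegree ≤ d)
    (hA2 : ∀ z, wm d A z ≤ 2 * w z) (δ : ℝ) (ht0w : ∀ z, wm d t0 z ≤ δ * w z)
    (htw : ∀ z, wm d t z ≤ δ * w z) (K1 : Fin N → ℂ[X]) (hK1 : ∀ j, (K1 j).natDegree ≤ d) (S : ℝ)
    (hS : 0 ≤ S) (hS1 : S ≤ 1) (hK1w : ∀ j z, wm d (K1 j) z ≤ S * w z) (T μ c' : ℝ) (hμ : 0 ≤ μ)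
    (hμ1 : μ ≤ 1) (hc' : μ / (T + 3) ^ 2 = c' * sm d)
    (he : 150 * Real.exp (-(d * (c' * sm d) ^ 2 / 8)) ≤ 1 / (2 * (d : ℝ) ^ 10))
    (hδ : δ = 1 / (8 * (d : ℝ) ^ 10)) (v : ℂ) (hv : ‖v‖ ≤ T + 1) (hb : Metric.ball v μ ⊆ Z) :
    wm d (Pj d (chiT d L c Z) A + t0 + (pK d L' c Z K1 + t)) v ≤ w v / d ^ 10 := by
  have h1 : ∀ x, x ∉ Z → c' * sm d ≤ sg v x := by
    intro x hx
    have h2 : μ ≤ ‖x - v‖ := by
      by_contra h
      push Not at h
      exact hx (hb (by rw [Metric.mem_ball, dist_eq_norm]; exact h))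
    have h3 := le_sg hv hμ hμ1 h2
    rw [← hc']
    have : T + 1 + 2 = T + 3 := by ring
    rwa [this] at h3
  have hT : 0 ≤ T + 1 := (norm_nonneg _).trans hv
  have hcs : 0 ≤ c' * sm d := by rw [← hc']; positivity
  have hwv := hw.pos v
  have h4 := schur_tail d hd (chiT d L c Z) (chiT_continuous d L hL c Z).measurable
    (chiT_nonneg d L hL c Z) (chiT_le_one d L hL c Z) v (c' * sm d) hcs (by
      intro x hx
      apply h1
      intro hZ
      exact hx (chiT_zero d L hL c Z x hZ)) (fun z => 2 * w z)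
      (fun z => by have := hw.pos z; linarith) (fun z x => by have := hw.lip z x; linarith) A hA hA2
  have h5 := pK_tail d hd L' hL' c Z w hw K1 hK1 S hS hK1w v (c' * sm d) hcs h1
  have h6 := wm_add_le d (Pj d (chiT d L c Z) A + t0) (pK d L' c Z K1 + t) v
  have h7 := wm_add_le d (Pj d (chiT d L c Z) A) t0 v
  have h8 := wm_add_le d (pK d L' c Z K1) t v
  have h9 := ht0w v
  have h10 := htw v
  have hd0 : (0 : ℝ) < d ^ 10 := by
    have : (0 : ℝ) < d := by exact_mod_cast hd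
    positivity
  obtain ⟨E, hE⟩ : ∃ E : ℝ, E = Real.exp (-(d * (c' * sm d) ^ 2 / 8)) := ⟨_, rfl⟩
  rw [← hE] at h4 h5 he
  have hE0 : 0 ≤ E := by rw [hE]; exact (Real.exp_pos _).le
  have h11 : 50 * E * (S * w v) ≤ 50 * E * w v := by
    have : S * w v ≤ 1 * w v := mul_le_mul_of_nonneg_right hS1 hwv.le
    rw [one_mul] at this
    exact mul_le_mul_of_nonneg_left this (by positivity)
  have h12 : 150 * E * w v ≤ 1 / (2 * (d : ℝ) ^ 10) * w v := mul_le_mul_of_nonneg_right he hwv.le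
  have h13 : 2 * (δ * w v) = 1 / (4 * (d : ℝ) ^ 10) * w v := by rw [hδ]; field_simp; norm_num
  have h14 : w v / d ^ 10 = 1 / (2 * (d : ℝ) ^ 10) * w v + 1 / (2 * (d : ℝ) ^ 10) * w v := by
    field_simp; norm_num
  have h15 : 1 / (4 * (d : ℝ) ^ 10) * w v ≤ 1 / (2 * (d : ℝ) ^ 10) * w v := by
    apply mul_le_mul_of_nonneg_right _ hwv.le
    apply one_div_le_one_div_of_le (by positivity)
    linarith
  rw [h14]
  linarith

/-- location of the critical values -/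
theorem crit_vals2 (d : ℕ) (hd : 1 ≤ d) (x χ0 L : ℝ) (c : ℂ → Fin N) (w : ℂ → ℝ)
    (hw : Wgt d w) (F G : ℂ[X]) (hF : F.natDegree ≤ d) (hG : G.natDegree ≤ d) (ρ T o μ : ℝ)
    (hx : 0 < x) (hρ : 0 < ρ) (hρ1 : ρ ≤ 1 / 4) (hμρ : 2 * μ ≤ ρ / 2)
    (hT : 2 + 3 * 10 ^ 15 / (χ0 * (x ^ 4) ^ 8) ≤ T) (hχ0 : 0 < χ0) (s : Finset ℂ) (hs : Cov d s) (a : ℂ)
    (ha : ‖a‖ ≤ 1) (hμ2 : 2 * μ ≤ x * sm d / 16) (hcop : IsCoprime F G)
    (h1 : ∀ b ∈ s, chiT d L c (Metric.closedBall a ρ ∪ strips d 1 1 x (T + 1) o) b ≤ 2 * χ0 →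
      ∀ u : ℂ, ‖u‖ ≤ 1 → wr (sn d b (w b) F) (sn d b (w b) G) u = 0 →
      (sn d b (w b) F u ≠ 0 ∨ sn d b (w b) G u ≠ 0) → sn d b (w b) G u ≠ 0 ∧
        ‖sn d b (w b) F u / sn d b (w b) G u‖ ≤ ρ / 4)
    (h2 : ∀ b ∈ s, 2 * χ0 ≤ chiT d L c (Metric.closedBall a ρ ∪ strips d 1 1 x (T + 1) o) b →
      ∀ u : ℂ, ‖u‖ ≤ 1 / 2 → wr (sn d b (w b) F) (sn d b (w b) G) u = 0 →
      χ0 * (x ^ 4) ^ 8 / 10 ^ 9 ≤ ‖sn d b (w b) G u‖ ∧
      ‖sn d b (w b) F u / sn d b (w b) G u‖ ≤ 3 * 10 ^ 15 / (χ0 * (x ^ 4) ^ 8) ∧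
      ∃ k : ℤ, (k : ℝ) * sm d + x * sm d / 16 ≤
          (sn d b (w b) F u / sn d b (w b) G u).re + (a.re + o) ∧
        (sn d b (w b) F u / sn d b (w b) G u).re + (a.re + o) ≤
          k * sm d + x * sm d - x * sm d / 16)
    (z : ℂ) (hz : (Wr F G).eval z = 0) :
    G.eval z ≠ 0 ∧ ‖a + F.eval z / G.eval z‖ ≤ T ∧
      Metric.ball (a + F.eval z / G.eval z) (2 * μ) ⊆
        Metric.closedBall a ρ ∪ strips d 1 1 x (T + 1) o := by
  set Z := Metric.closedBall a ρ ∪ strips d 1 1 x (T + 1) o with hZ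
  obtain ⟨b, hb, hzb⟩ := hs z
  obtain ⟨u, hu, hm, hph⟩ := chart_pt d hd b z hzb
  have hwb := hw.pos b
  have hw0 : wr (sn d b (w b) F) (sn d b (w b) G) u = 0 := by
    rw [sn_wr d hd b (w b) hwb F G hF hG u hm, hph]
    exact hz
  have hrat := sn_ratio d b (w b) hwb F G hF hG u hm
  rw [hph] at hrat
  have hBz := sn_eq_zero d b (w b) hwb G hG u hm
  have hpz := sn_eq_zero d b (w b) hwb F hF u hm
  rw [hph] at hBz hpz
  have hκ : 0 < χ0 * (x ^ 4) ^ 8 := by positivity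
  have hT1 : 0 < 3 * 10 ^ 15 / (χ0 * (x ^ 4) ^ 8) := by positivity
  rcases le_total (chiT d L c Z b) (2 * χ0) with hle | hge
  · have h0 : sn d b (w b) F u ≠ 0 ∨ sn d b (w b) G u ≠ 0 := by
      rcases coprime_eval hcop z with h | h
      · left; intro h1; exact h (hpz.1 h1)
      · right; intro h1; exact h (hBz.1 h1)
    obtain ⟨g1, g2⟩ := h1 b hb hle u (by linarith) hw0 h0
    have h3 : ‖F.eval z / G.eval z‖ ≤ ρ / 4 := by
      rw [← hrat]; exact g2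
    refine ⟨fun h => g1 (hBz.2 h), ?_, ?_⟩
    · calc ‖a + F.eval z / G.eval z‖ ≤ ‖a‖ + ‖F.eval z / G.eval z‖ := norm_add_le _ _
        _ ≤ T := by linarith
    · intro y hy
      left
      rw [Metric.mem_ball, dist_eq_norm] at hy
      rw [Metric.mem_closedBall, dist_eq_norm]
      calc ‖y - a‖ = ‖(y - (a + F.eval z / G.eval z)) + F.eval z / G.eval z‖ := by congr 1; ring
        _ ≤ ‖y - (a + F.eval z / G.eval z)‖ + ‖F.eval z / G.eval z‖ := norm_add_le _ _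
        _ ≤ ρ := by linarith
  · obtain ⟨g1, g2, k, g3, g4⟩ := h2 b hb hge u hu hw0
    rw [hrat] at g2 g3 g4
    have hB0 : G.eval z ≠ 0 := by
      intro h
      rw [hBz.2 h, norm_zero] at g1
      have : 0 < χ0 * (x ^ 4) ^ 8 / 10 ^ 9 := by positivity
      linarith
    have h5 : ‖a + F.eval z / G.eval z‖ ≤ 1 + 3 * 10 ^ 15 / (χ0 * (x ^ 4) ^ 8) := by
      calc ‖a + F.eval z / G.eval z‖ ≤ ‖a‖ + ‖F.eval z / G.eval z‖ := norm_add_le _ _
        _ ≤ _ := by linarith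
    refine ⟨hB0, by linarith, ?_⟩
    refine (ball_strips d 1 1 x (T + 1) o (2 * μ) _ (by linarith) ⟨0, one_pos, k, ?_, ?_⟩).trans
      Set.subset_union_right
    · simp only [Nat.sub_self, pow_zero, mul_one, Complex.add_re]
      linarith
    · simp only [Nat.sub_self, pow_zero, mul_one, Complex.add_re]
      linarith

/-- the distance to the original pair -/
theorem dist_vals2 (d : ℕ) (hd : 1 ≤ d) (L : ℝ) (hL : 0 < L) (c : ℂ → Fin N) (Z V : Set ℂ)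
    (hV : MeasurableSet V) (w : ℂ → ℝ) (hw : Wgt d w) (hw2 : Integrable (fun z => w z ^ 2) mu)
    (P Q A t0 t K G : ℂ[X]) (hP : P.natDegree ≤ d) (hQ : Q.natDegree ≤ d) (hA : A.natDegree ≤ d)
    (hA2 : ∀ z, wm d A z ≤ 2 * w z) (hG : G.natDegree ≤ d) (hG2 : ∀ z, wm d G z ≤ 2 * w z)
    (hK : K.natDegree ≤ d) (ht0 : t0.natDegree ≤ d) (ht : t.natDegree ≤ d) (δ : ℝ) (hδ : 0 ≤ δ)
    (ht0w : ∀ z, wm d t0 z ≤ δ * w z) (htw : ∀ z, wm d t z ≤ δ * w z) (S : ℝ) (hS : 0 ≤ S)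
    (hKw : ∀ z, wm d K z ≤ S * w z) (e : ℝ) (he : 0 ≤ e) (a s0 : ℂ) (ha : ‖a‖ ≤ 1)
    (hs0 : ‖s0‖ ≤ 4 / √d) (hAP : ∀ z, wm d (A - (P - C a * Q)) z ≤ e * w z)
    (hBQ : ∀ z, wm d (G - Q) z ≤ e * w z)
    (h : ∀ z x, √d * sg z x < L → (c x ≠ c z ∨ x ∈ Z) → z ∈ V) (ν : ℝ)
    (hmass : ∫ z in V, w z ^ 2 ∂mu ≤ ν * ∫ z, w z ^ 2 ∂mu) :
    Nd d (P - (C (a + s0) * G + (Pj d (chiT d L c Z) A + t0 + (K + t)))) + Nd d (Q - G) ≤
      (13 * e ^ 2 + 24 * ν + 6 * (64 / d + S ^ 2 + (2 * δ) ^ 2)) *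
        ((d + 1) * ∫ z, w z ^ 2 ∂mu) := by
  have hd0 : (0 : ℝ) < d := by exact_mod_cast hd
  set I := (d + 1 : ℝ) * ∫ z, w z ^ 2 ∂mu with hI
  have hI0 : 0 ≤ I := by
    rw [hI]
    have : 0 ≤ ∫ z, w z ^ 2 ∂mu := integral_nonneg fun z => sq_nonneg _
    positivity
  have hCd : ∀ (x : ℂ) (G : ℂ[X]), G.natDegree ≤ d → (C x * G).natDegree ≤ d := fun x G hG =>
    (natDegree_C_mul_le x G).trans hG
  have hsub : ∀ F G : ℂ[X], F.natDegree ≤ d → G.natDegree ≤ d → (F - G).natDegree ≤ d :=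
    fun F G hF hG => (natDegree_sub_le F G).trans (max_le hF hG)
  have hneg : ∀ F : ℂ[X], F.natDegree ≤ d → (-F).natDegree ≤ d := fun F hF => by
    rwa [natDegree_neg]
  have hwsub : ∀ (F G : ℂ[X]) (z : ℂ), wm d (F - G) z = wm d (G - F) z := fun F G z => by
    rw [← wm_neg d (F - G) z, neg_sub]
  let F : Fin 6 → ℂ[X] := ![(P - C a * Q) - A, C a * (Q - G), -(C s0 * G),
    A - Pj d (chiT d L c Z) A, -K, -(t0 + t)]
  have hsum : P - (C (a + s0) * G + (Pj d (chiT d L c Z) A + t0 + (K + t))) = ∑ i, F i := by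
    rw [Fin.sum_univ_six]
    simp only [F, Matrix.cons_val_zero, Matrix.cons_val_one, Matrix.cons_val, C_add]
    ring
  have b0 : Nd d (F 0) ≤ e ^ 2 * I := by
    apply Nd_le d w hw2 _ (hsub _ _ (hsub _ _ hP (hCd _ _ hQ)) hA) e he
    intro z
    rw [hwsub]
    exact hAP z
  have b1 : Nd d (F 1) ≤ e ^ 2 * I := by
    apply Nd_le d w hw2 _ (hCd _ _ (hsub _ _ hQ hG)) e he
    intro z
    rw [wm_C_mul, hwsub]
    calc ‖a‖ * wm d (G - Q) z ≤ 1 * wm d (G - Q) z :=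
          mul_le_mul_of_nonneg_right ha (wm_nonneg d _ z)
      _ ≤ e * w z := by rw [one_mul]; exact hBQ z
  have b2 : Nd d (F 2) ≤ 64 / d * I := by
    have : (64 : ℝ) / d = (8 / √d) ^ 2 := by
      rw [div_pow, Real.sq_sqrt hd0.le]; norm_num
    rw [this]
    apply Nd_le d w hw2 _ (hneg _ (hCd _ _ hG)) _ (by positivity)
    intro z
    rw [wm_neg, wm_C_mul]
    have hwz := hw.pos z
    calc ‖s0‖ * wm d G z ≤ 4 / √d * (2 * w z) :=
          mul_le_mul hs0 (hG2 z) (wm_nonneg d _ z) (by positivity)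
      _ = 8 / √d * w z := by ring
  have b3 : Nd d (F 3) ≤ 4 * ν * I := by
    refine (mass d L hL c Z V hV w hw hw2 A hA hA2 h).trans ?_
    have : (d + 1 : ℝ) * ∫ z in V, w z ^ 2 ∂mu ≤ (d + 1) * (ν * ∫ z, w z ^ 2 ∂mu) :=
      mul_le_mul_of_nonneg_left hmass (by positivity)
    refine (mul_le_mul_of_nonneg_left this (by norm_num : (0 : ℝ) ≤ 4)).trans (le_of_eq ?_)
    rw [hI]; ring
  have b4 : Nd d (F 4) ≤ S ^ 2 * I := by
    apply Nd_le d w hw2 _ (hneg _ hK) _ hS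
    intro z
    rw [wm_neg]
    exact hKw z
  have b5 : Nd d (F 5) ≤ (2 * δ) ^ 2 * I := by
    apply Nd_le d w hw2 _ (hneg _ ((natDegree_add_le _ _).trans (max_le ht0 ht))) _ (by positivity)
    intro z
    rw [wm_neg]
    have h1 := wm_add_le d t0 t z
    have h2 := ht0w z
    have h3 := htw z
    linarith
  have bQ : Nd d (Q - G) ≤ e ^ 2 * I := by
    apply Nd_le d w hw2 _ (hsub _ _ hQ hG) e he
    intro z
    rw [hwsub]
    exact hBQ z
  have h6 := Nd_add6 d F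
  have h7 : ∑ i, Nd d (F i) = Nd d (F 0) + Nd d (F 1) + Nd d (F 2) + Nd d (F 3) + Nd d (F 4) +
      Nd d (F 5) := Fin.sum_univ_six _
  rw [h7] at h6
  rw [hsum]
  have : Nd d (F 0) + Nd d (F 1) + Nd d (F 2) + Nd d (F 3) + Nd d (F 4) + Nd d (F 5) ≤
      (2 * e ^ 2 + 64 / d + 4 * ν + S ^ 2 + (2 * δ) ^ 2) * I := by
    calc _ ≤ e ^ 2 * I + e ^ 2 * I + 64 / d * I + 4 * ν * I + S ^ 2 * I + (2 * δ) ^ 2 * I := by
          linarith
      _ = _ := by ring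
  calc Nd d (∑ i, F i) + Nd d (Q - G) ≤
        6 * ((2 * e ^ 2 + 64 / d + 4 * ν + S ^ 2 + (2 * δ) ^ 2) * I) + e ^ 2 * I := by linarith
    _ = _ := by ring

theorem power_core : ∃ C : ℝ, 0 < C ∧ ∀ (d : ℕ) (x χ0 L R δ S T : ℝ), Par d x χ0 L R δ S T →
    ∀ P Q : ℂ[X], P.natDegree ≤ d → Q.natDegree ≤ d → (P ≠ 0 ∨ Q ≠ 0) → ∃ P' Q' : ℂ[X],
      IsCoprime P' Q' ∧ max P'.natDegree Q'.natDegree = d ∧ Hyp1 P' Q' ∧
      Nd d (P - P') + Nd d (Q - Q') ≤ C * x * (Nd d P + Nd d Q) := by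
  obtain ⟨C0, hC0, henv⟩ := exists_env
  obtain ⟨C2, hC2, htrap⟩ := exists_trap
  obtain ⟨C3, hC3, hcells⟩ := exists_cells
  refine ⟨C0 * (10 ^ 60 + 24 * (C2 + C3)), by positivity, ?_⟩
  intro d x χ0 L R δ S T hp P Q hP hQ h0
  have hd4 := hp.hd
  have hd : 1 ≤ d := by omega
  have hd0 : (0 : ℝ) < d := by exact_mod_cast hd
  have hd1 : (1 : ℝ) ≤ d := by exact_mod_cast hd
  have hsd : 0 < √(d : ℝ) := Real.sqrt_pos.2 hd0
  have hsd1 : 1 ≤ √(d : ℝ) := by rw [Real.one_le_sqrt]; exact_mod_cast hd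
  have hsm := sm_pos d hd
  have hx := hp.hx
  have hx1 := hp.hx1
  have hx8 : x ≤ 1 / 8 := by linarith
  have hx4 : x ≤ 1 / 4 := by linarith
  have hχ0 := hp.hχ0
  have hχ1 := hp.hχ1
  have hL : 1 ≤ L := by linarith [hp.hL]
  have hL0 : 0 < L := by linarith
  have hR : 0 ≤ R := by linarith [hp.hLR]
  have hx41 : x ^ 4 ≤ 1 := pow_le_one₀ hx.le (by linarith)
  have hx40 : 0 < x ^ 4 := by positivity
  have hd10 : (1 : ℝ) ≤ (d : ℝ) ^ 10 := one_le_pow₀ hd1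
  have hδ0 : 0 < δ := by rw [hp.hδ]; positivity
  have hδd : δ ≤ 1 / (8 * d) := by
    rw [hp.hδ]
    apply one_div_le_one_div_of_le (by positivity)
    have : (d : ℝ) ^ 1 ≤ (d : ℝ) ^ 10 := pow_le_pow_right₀ hd1 (by norm_num)
    rw [pow_one] at this
    linarith
  have hδx : δ ≤ x / 500 := by
    have h1 : 1 / (8 * (d : ℝ)) = 64 / d / 512 := by field_simp; norm_num
    have := hp.kd
    linarith
  have hδ1 : δ ≤ 1 := by linarith
  have hS0 : 0 ≤ S := by rw [hp.hS]; positivity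
  have hS1 : S ≤ 1 := by linarith [hp.hS1]
  have hL' : 0 < L * χ0 / 8 := by positivity
  obtain ⟨w, hw, hwc, hPQ, hw2, hwI⟩ := henv d hd P Q hP hQ h0
  -- the net
  obtain ⟨s, hs1, hs2⟩ := exists_net (1 / (4 * √(d : ℝ))) (by positivity) (by
    rw [div_le_one (by positivity)]; linarith)
  have hsep : Sep d s := fun b hb b' hb' h => hs1 b hb b' hb' h
  have hcov : Cov d s := hs2
  -- the trap point
  obtain ⟨a, ha, haI⟩ := htrap x hx hx4 (fun z => w z ^ 2) (fun z => sq_nonneg _) hw2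
  -- the noise
  have hAd : (P - C a * Q).natDegree ≤ d :=
    (natDegree_sub_le _ _).trans (max_le hP ((natDegree_C_mul_le a Q).trans hQ))
  have hAw : ∀ z, wm d (P - C a * Q) z ≤ w z := by
    intro z
    have h1 : wm d (P - C a * Q) z ≤ wm d P z + ‖a‖ * wm d Q z := by
      rw [sub_eq_add_neg, ← wm_C_mul, ← wm_neg d (C a * Q) z]
      exact wm_add_le d _ _ z
    have h2 : ‖a‖ * wm d Q z ≤ 1 * wm d Q z := mul_le_mul_of_nonneg_right ha (wm_nonneg d Q z)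
    linarith [hPQ z]
  have hQw : ∀ z, wm d Q z ≤ w z := fun z => by linarith [hPQ z, wm_nonneg d P z]
  obtain ⟨A, B, hA, hB, hBd, hAe, hBe, hn⟩ := noise3 x hx (by linarith) d hd4 s hsep w hw
    (P - C a * Q) Q hAd hQ hAw hQw
  obtain ⟨e, he⟩ : ∃ e : ℝ, e = 10 ^ 28 * x := ⟨_, rfl⟩
  rw [← he] at hAe hBe hx1
  have he0 : 0 < e := by rw [he]; positivity
  have hA2 : ∀ z, wm d A z ≤ 2 * w z := by
    intro z
    have h1 : wm d A z ≤ wm d (A - (P - C a * Q)) z + wm d (P - C a * Q) z := by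
      have := wm_add_le d (A - (P - C a * Q)) (P - C a * Q) z
      rwa [sub_add_cancel] at this
    have h2 : e * w z ≤ 1 / 4 * w z := mul_le_mul_of_nonneg_right hx1 (hw.pos z).le
    linarith [hAw z, hAe z, hw.pos z]
  have hB54 : ∀ z, wm d B z ≤ 5 / 4 * w z := by
    intro z
    have h1 : wm d B z ≤ wm d (B - Q) z + wm d Q z := by
      have := wm_add_le d (B - Q) Q z
      rwa [sub_add_cancel] at this
    have h2 : e * w z ≤ 1 / 4 * w z := mul_le_mul_of_nonneg_right hx1 (hw.pos z).le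
    linarith [hQw z, hBe z]
  have hB2 : ∀ z, wm d B z ≤ 2 * w z := fun z => by linarith [hB54 z, hw.pos z]
  -- the cells and strips
  obtain ⟨N, c, -, hcR, V1, hV1, hV1m, hV1I⟩ := hcells d hd L R hL hp.hLR (fun z => w z ^ 2)
    (fun z => sq_nonneg _) hw2
  have hT2 : 2 ≤ T := by
    rw [hp.hT]
    have : 0 < 3 * 10 ^ 15 / (χ0 * (x ^ 4) ^ 8) := by positivity
    linarith
  obtain ⟨o, V2, hV2, hV2m, hV2I⟩ := strips2 x (T + 1) L hx hx8 (by linarith) hL d hd hp.ks1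
    hp.ks2 (fun z => w z ^ 2) (fun z => sq_nonneg _) hw2
  obtain ⟨Z, hZ⟩ : ∃ Z : Set ℂ, Z = Metric.closedBall a x ∪ strips d 1 1 x (T + 1) o := ⟨_, rfl⟩
  -- the numerator
  obtain ⟨t0, ht0, ht0w, -, hinf0⟩ := tiny d (by omega) w hw (Pj d (chiT d L c Z) A) B
    (Pj_deg d _ A) hB hBd δ hδ0
  obtain ⟨K1, K2, hK1, hK2, hK1w, hK2w, hmv⟩ := crit_moves d hd (x ^ 4) χ0 L R δ x S hx40 hx41 hχ0
    hχ1 hL hR hp.hRd hδ0.le hδ1 hx hx8 hp.hS hp.k1 hp.k2 hp.k5 hp.k6 s hsep hcov w hw A B t0 hA hA2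
    hB hB2 ht0 ht0w hn c Z hcR _ rfl hinf0 (a.re + o)
  obtain ⟨tB, htB, htBw, hGd'⟩ := tinyB d w hw (B + pK d (L * χ0 / 8) c Z K2) δ hδ0
  obtain ⟨G, hGdef⟩ : ∃ G : ℂ[X], G = B + (pK d (L * χ0 / 8) c Z K2 + tB) := ⟨_, rfl⟩
  have hG : G.natDegree ≤ d := by
    rw [hGdef]
    exact (natDegree_add_le _ _).trans (max_le hB ((natDegree_add_le _ _).trans
      (max_le (pK_deg _ _ _ _ _) htB)))
  have hGd : G.coeff d ≠ 0 := by
    rw [hGdef, ← add_assoc]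
    exact hGd'
  have hP1d : (Pj d (chiT d L c Z) A + t0 + pK d (L * χ0 / 8) c Z K1).natDegree ≤ d :=
    (natDegree_add_le _ _).trans (max_le ((natDegree_add_le _ _).trans
      (max_le (Pj_deg d _ A) ht0)) (pK_deg _ _ _ _ _))
  obtain ⟨t, ht, htw, hcop, hinf⟩ := tiny d (by omega) w hw _ G hP1d hG hGd δ hδ0
  obtain ⟨F, hFdef⟩ : ∃ F : ℂ[X], F = Pj d (chiT d L c Z) A + t0 +
      (pK d (L * χ0 / 8) c Z K1 + t) := ⟨_, rfl⟩
  have hFe : Pj d (chiT d L c Z) A + t0 + pK d (L * χ0 / 8) c Z K1 + t = F := by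
    rw [hFdef]; ring
  rw [hFe] at hcop hinf
  have hF : F.natDegree ≤ d := by
    rw [← hFe]
    exact (natDegree_add_le _ _).trans (max_le hP1d ht)
  -- bounds for the denominator
  have hGB : ∀ z, wm d (G - B) z ≤ (50 * S + δ) * w z := by
    intro z
    have h1 : G - B = pK d (L * χ0 / 8) c Z K2 + tB := by rw [hGdef]; ring
    rw [h1]
    have h2 := wm_add_le d (pK d (L * χ0 / 8) c Z K2) tB z
    have h3 := pK_wm d hd (L * χ0 / 8) hL' c Z w hw K2 hK2 S hS0 hK2w z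
    have h4 := htBw z
    linarith
  have hSδ : 50 * S + δ ≤ x := by linarith [hp.hS1]
  have hGQ : ∀ z, wm d (G - Q) z ≤ (e + x) * w z := by
    intro z
    have h1 := wm_add_le d (G - B) (B - Q) z
    rw [sub_add_sub_cancel] at h1
    have h2 : (50 * S + δ) * w z ≤ x * w z := mul_le_mul_of_nonneg_right hSδ (hw.pos z).le
    linarith [hGB z, hBe z]
  have hG2 : ∀ z, wm d G z ≤ 2 * w z := by
    intro z
    have h1 := wm_add_le d (G - B) B z
    rw [sub_add_cancel] at h1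
    have h2 : (50 * S + δ) * w z ≤ 1 / 8 * w z :=
      mul_le_mul_of_nonneg_right (by linarith) (hw.pos z).le
    linarith [hGB z, hB54 z, hw.pos z]
  have hN2 : N2 (x ^ 4 / 2) d s w G := by
    intro b hb u hu h
    rw [hGdef] at h ⊢
    exact n2_pert d hd (L * χ0 / 8) hL' c Z w hw B tB hB htB δ hδ0.le htBw K2 hK2 S hS0 hK2w
      (x ^ 4) hx40 hx41 hp.k10 b (hn b hb).n2 u hu h
  -- capture
  have hμ0 : 0 ≤ x * sm d / 32 := by positivity
  have hμρ : x * sm d / 32 ≤ x / 4 := by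
    have : x * sm d ≤ x * 1 := mul_le_mul_of_nonneg_left (by linarith [hp.kμ2]) hx.le
    linarith
  obtain ⟨s0, hs0, hcop', hHyp⟩ := capture2 (x ^ 4 / 2) x T (by positivity) (by linarith) hx hx4
    (by linarith) d hp.kbig s w G hcov hw hG hGd hG2 hN2 F hF hcop hinf a ha Z (x * sm d / 32)
    hp.kμ hμρ (by rw [hZ]; exact Set.subset_union_left)
    (fun v hv hb => by
      rw [hFdef]
      exact van_vals2 d hd L hL0 (L * χ0 / 8) hL' c Z w hw A t0 t hA hA2 δ ht0w htw K1 hK1 S hS0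
        hS1 hK1w T (x * sm d / 32) (x / (32 * (T + 3) ^ 2)) hμ0 (by linarith) (by field_simp)
        hp.kexp hp.hδ v hv hb)
    (fun z hz => by
      have := crit_vals2 d hd x χ0 L c w hw F G hF hG x T o (x * sm d / 32) hx hx hx4
        (by linarith) hp.hT.ge hχ0 s hcov a ha (by linarith) hcop
        (fun b hb hbχ u hu hwr h00 => by
          rw [← hZ] at hbχ
          rw [hFdef, hGdef] at hwr h00 ⊢
          obtain ⟨g1, g2⟩ := type_one2 d hd L hL (L * χ0 / 8) hL' c Z w hw A B t0 t tB hA hA2 hB ht0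
            ht htB δ hδ0.le ht0w htw htBw K1 K2 hK1 hK2 S hS0 hK1w hK2w (x ^ 4) (2 * χ0) hx40 hx41
            (by linarith) hp.k10 b hbχ (hn b hb) u hu hwr h00
          exact ⟨g1, g2.trans hp.k9⟩)
        (fun b hb hbχ u hu hwr => by
          rw [← hZ] at hbχ
          rw [hFdef, hGdef] at hwr ⊢
          exact hmv t tB ht htB htw htBw b hb hbχ u hu hwr) z hz
      rw [← hZ] at this
      exact this)
  refine ⟨C (a + s0) * G + F, G, hcop', ?_, hHyp, ?_⟩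
  · have h1 : G.natDegree = d := le_antisymm hG (le_natDegree_of_ne_zero hGd)
    have h2 : (C (a + s0) * G + F).natDegree ≤ d :=
      (natDegree_add_le _ _).trans (max_le ((natDegree_C_mul_le _ G).trans hG) hF)
    rw [h1]
    exact max_eq_right h2
  · -- distance
    have hVm : ∀ z y, √(d : ℝ) * sg z y < L → (c y ≠ c z ∨ y ∈ Z) →
        z ∈ Metric.closedBall a (2 * x) ∪ V1 ∪ V2 := by
      intro z y hzy h
      rw [hZ] at h
      rcases h with h | h | h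
      · exact Or.inl (Or.inr (hV1m z y hzy h))
      · exact Or.inl (Or.inl (near_disc2 L x hx hx4 d hp.kn hL0 a z y ha h hzy))
      · exact Or.inr (hV2m z y h hzy)
    have hI0 : 0 ≤ ∫ z, w z ^ 2 ∂mu := integral_nonneg fun z => sq_nonneg _
    have hmass : ∫ z in Metric.closedBall a (2 * x) ∪ V1 ∪ V2, w z ^ 2 ∂mu ≤
        ((C2 + C3 + 20) * x) * ∫ z, w z ^ 2 ∂mu := by
      have h1 := int_union (fun z => w z ^ 2) (fun z => sq_nonneg _) hw2
        (Metric.closedBall a (2 * x)) V1 V2 Metric.isClosed_closedBall.measurableSet hV1 hV2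
      have h2 : C2 * x ^ 2 * ∫ z, w z ^ 2 ∂mu ≤ C2 * x * ∫ z, w z ^ 2 ∂mu := by
        apply mul_le_mul_of_nonneg_right _ hI0
        apply mul_le_mul_of_nonneg_left _ hC2.le
        nlinarith
      have h3 : C3 * (L / R) * ∫ z, w z ^ 2 ∂mu ≤ C3 * x * ∫ z, w z ^ 2 ∂mu :=
        mul_le_mul_of_nonneg_right (mul_le_mul_of_nonneg_left hp.hLR2 hC3.le) hI0
      linarith
    have hK50 : ∀ z, wm d (pK d (L * χ0 / 8) c Z K1) z ≤ (50 * S) * w z := fun z =>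
      pK_wm d hd (L * χ0 / 8) hL' c Z w hw K1 hK1 S hS0 hK1w z
    have hdist := dist_vals2 d hd L hL0 c Z (Metric.closedBall a (2 * x) ∪ V1 ∪ V2)
      ((Metric.isClosed_closedBall.measurableSet.union hV1).union hV2) w hw hw2 P Q A t0 t
      (pK d (L * χ0 / 8) c Z K1) G hP hQ hA hA2 hG hG2 (pK_deg _ _ _ _ _) ht0 ht δ hδ0.le ht0w htw
      (50 * S) (by positivity) hK50 (e + x) (by positivity) a s0 ha hs0
      (fun z => (hAe z).trans (by
        have := hw.pos z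
        nlinarith)) hGQ hVm ((C2 + C3 + 20) * x) hmass
    rw [← hFdef] at hdist
    refine hdist.trans ?_
    have hN : 0 ≤ (d + 1 : ℝ) * ∫ z, w z ^ 2 ∂mu := by positivity
    have hN2' : 0 ≤ Nd d P + Nd d Q := by
      have h1 : 0 ≤ C0 * (Nd d P + Nd d Q) := hN.trans hwI
      exact nonneg_of_mul_nonneg_right h1 hC0
    have g1 : (e + x) ^ 2 ≤ 10 ^ 29 * x := by
      have h1 : e + x ≤ 10 ^ 29 * x := by rw [he]; linarith
      have h2 : e + x ≤ 1 := by linarith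
      have h3 : 0 ≤ e + x := by positivity
      nlinarith
    have g2 : (50 * S) ^ 2 ≤ x := by
      have h1 : 50 * S ≤ x := by linarith
      have h2 : 50 * S ≤ 1 := by linarith
      have h3 : 0 ≤ 50 * S := by positivity
      nlinarith
    have g3 : (2 * δ) ^ 2 ≤ x := by
      have h1 : 2 * δ ≤ x := by linarith
      have h2 : 2 * δ ≤ 1 := by linarith
      have h3 : 0 ≤ 2 * δ := by positivity
      nlinarith
    have g4 := hp.kd
    calc (13 * (e + x) ^ 2 + 24 * ((C2 + C3 + 20) * x) + 6 * (64 / d + (50 * S) ^ 2 +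
          (2 * δ) ^ 2)) * ((d + 1) * ∫ z, w z ^ 2 ∂mu) ≤
        ((10 ^ 60 + 24 * (C2 + C3)) * x) * ((d + 1) * ∫ z, w z ^ 2 ∂mu) := by
          apply mul_le_mul_of_nonneg_right _ hN
          nlinarith
      _ ≤ ((10 ^ 60 + 24 * (C2 + C3)) * x) * (C0 * (Nd d P + Nd d Q)) :=
          mul_le_mul_of_nonneg_left hwI (by positivity)
      _ = _ := by ring

/-- **Power rate.** -/
theorem power_rate : ∃ C : ℝ, ∀ d : ℕ, 1 ≤ d → ∀ P Q : ℂ[X], P.natDegree ≤ d → Q.natDegree ≤ d →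
    (P ≠ 0 ∨ Q ≠ 0) → ∃ P' Q' : ℂ[X], IsCoprime P' Q' ∧ max P'.natDegree Q'.natDegree = d ∧
      Hyp1 P' Q' ∧ Nd d (P - P') + Nd d (Q - Q') ≤
        C * (d : ℝ) ^ (-(1 / 5000 : ℝ)) * (Nd d P + Nd d Q) := by
  obtain ⟨C, hC, hcore⟩ := power_core
  obtain ⟨x0, hx0, hpar⟩ := exists_par
  refine ⟨max C (4 / x0), fun d hd P Q hP hQ h0 => ?_⟩
  have hd0 : (0 : ℝ) < d := by exact_mod_cast hd
  obtain ⟨x, hx⟩ : ∃ x : ℝ, x = (d : ℝ) ^ (-(1 / 5000 : ℝ)) := ⟨_, rfl⟩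
  have hxp : 0 < x := by rw [hx]; exact Real.rpow_pos_of_pos hd0 _
  have hxd : (d : ℝ) * x ^ 5000 = 1 := by
    rw [hx, ← Real.rpow_natCast, ← Real.rpow_mul hd0.le]
    norm_num
    rw [Real.rpow_neg_one]
    exact mul_inv_cancel₀ hd0.ne'
  rw [← hx]
  have hNn : 0 ≤ Nd d P + Nd d Q := by
    unfold Nd
    positivity
  rcases le_total x x0 with h | h
  · obtain ⟨χ0, L, R, δ, S, T, hp⟩ := hpar x hxp h d hxd
    obtain ⟨P', Q', h1, h2, h3, h4⟩ := hcore d x χ0 L R δ S T hp P Q hP hQ h0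
    refine ⟨P', Q', h1, h2, h3, h4.trans ?_⟩
    apply mul_le_mul_of_nonneg_right _ hNn
    exact mul_le_mul_of_nonneg_right (le_max_left _ _) hxp.le
  · obtain ⟨P', Q', h1, h2, h3, h4⟩ := small_deg d hd P Q hP hQ h0
    refine ⟨P', Q', h1, h2, h3, h4.trans ?_⟩
    apply mul_le_mul_of_nonneg_right _ hNn
    have h5 : 4 / x0 * x0 ≤ max C (4 / x0) * x :=
      mul_le_mul (le_max_right _ _) h hx0.le (by positivity)
    rwa [div_mul_cancel₀ _ hx0.ne'] at h5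

end Pool.Agent.H91.PR
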