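import Pool.Agent.H91.LD.Sn
import Pool.Agent.H91.LD.Planar
import Pool.Agent.H91.PR.PDefs

/-!
# [H91 PR DUAL] the perturbation that moves exactly one critical value

Let `z0 = ph b (u/√d)` be a critical point of `P/B`. The pair `(G1, G2)` has `G1 B - P G2 = 0` at all the other critical points and
`G1 B - P G2 = B^2` at `z0`: adding `τ (G1, G2)` to `(P, B)` moves the critical value at `z0` with speed one and all the others with
speed zero.

Proof. Let `tc = u/√d`, `P^ = Gc d b P`, `B^ = Gc d b B` (polynomials in the chart, `Gc_deg`), `f = sn d b (w b) P`, `g = sn d b (w b) B`: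
`f v = P^(v/√d)/w b`, `f' v = P^'(v/√d)/(√d w b)`, `f'' v = P^''(v/√d)/(d w b)`. `B^(tc) ≠ 0` (`h2`). Put
`m = B^'(tc)/B^(tc)`; `wr f g u = 0` gives `P^' B^ = P^ B^'` at `tc`, so `P^' - m P^` and `B^' - m B^` vanish at `tc`: there are polynomials
`H1`, `H2` of degree at most `d` with `P^' - C m P^ = (X - C tc) H1`, `B^' - C m B^ = (X - C tc) H2` (`dvd_iff_isRoot`). With
`W = P^' B^ - P^ B^'` we get `H1 B^ - P^ H2 = W/(X - tc)`: at `t ≠ tc` this is `W t/(t - tc)`, at `tc` it is `W'(tc) = P^'' B^ - P^ B^''`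
(`(X - C tc) (H1 B^ - P^ H2) = W`, derivative at `tc`), which is `d (w b)^2 wr1 f g u ≠ 0`. Put
`Gi = C (B^(tc)^2/W'(tc)) * Gc d (-b) Hi`.
* Algebra. Let `1 + conj b z ≠ 0`, `t = ph (-b) z`, so `1 - conj b t ≠ 0` and `ph b t = z` (`ph_ph`). `Gc_eval` for `b` and for `-b`
  (`conj (-b) = - conj b`): `(Gc d (-b) H).eval z = K (1 + conj b z)^d H.eval t`, `P^ t = K (1 - conj b t)^d P.eval z`, with
  `K = 1/√((1+‖b‖^2)^d)`, and `(1 - conj b t)(1 + conj b z) = 1 + ‖b‖^2`, so `K^2 ((1 - conj b t)(1 + conj b z))^d = 1`. Hence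
  `G1 z B z - P z G2 z = (B^(tc)^2/W'(tc)) * K^2 (1 + conj b z)^(2d) * (H1 B^ - P^ H2)(t)`
  and `(B z)^2 = K^2 (1 + conj b z)^(2d) (B^ t)^2`. If `(Wr P B).eval z = 0` and `z ≠ z0` then `W t = 0` (`sn_wr`, or the chain rule) and `t ≠ tc`.
  At `z = z0`: `t = tc` (`ph_ph` for `-b`), the factor is `B^(tc)^2`. (`1 + conj b z0 ≠ 0`: `(1 - conj b tc)(1 + conj b z0) = 1 + ‖b‖^2`.)
* Bound. `wm d (Gc d (-b) H) z = wm` in the chart: `wm_ph`: `wm d (Gc d (-b) H) z = ‖H t‖/√((1+‖t‖^2)^d)` type formula, `t = ph (-b) z`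
  (for `1 + conj b z ≠ 0`; the remaining point, if any, by continuity: `wm_continuous`, and `w` is continuous at it by `Wgt.lip`; or choose points
  converging to it). Let `v = √d t`, `z = ph b t`. The quotient to be bounded is `q v = (g u)^2/(wr1 f g u) * (f' v - μ f v)/(v - u)` with
  `μ = g' u/g u`, `‖μ‖ ≤ 10^6/κ` (`EB g (8 * 10^5)`, `EB.d1`), and the same with `g` in place of `f`; claim:
  `‖q v‖ w b ≤ 10^27/(l κ) w z √((1+‖v‖^2/d)^d)`.
  Let `‖v‖ ≤ 2`: `q` is entire, maximum principle on the disc of radius `2` (`Complex.norm_le_of_forall_mem_frontier_norm_le`): on the circle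
  `‖v - u‖ ≥ 3/2`, `‖f' v - μ f v‖ ≤ 10^6 (1 + 10^6/κ)`; and `w b ≤ w z exp(√d sg z b) ≤ w z exp 2` (`sg b (ph b t) ≤ ‖t‖`). 
  Let `‖v‖ ≥ 2`: `‖f x‖ w b ≤ 4 w(ph b (x/√d)) √((1+‖x‖^2/d)^d)` (`sn_norm`; where `1 - conj b (x/√d) = 0` by continuity, or use
  `en`/`Gc` bounds), so by Cauchy's inequality on the circle of radius `1/‖v‖ ≤ 1` around `v` (`Complex.norm_deriv_le_of_forall_mem_sphere_norm_le`):
  for `‖x - v‖ = 1/‖v‖`: `w(z_x) ≤ w(z) exp ‖x - v‖ ≤ w(z) exp 1` (`sg_ph`, `sg_le_dist`), `‖x‖^2 ≤ ‖v‖^2 + 3`,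
  `(1+‖x‖^2/d)^d ≤ (1+‖v‖^2/d)^d (1 + 3/d)^d ≤ (1+‖v‖^2/d)^d exp 3`. So `‖f' v‖ w b ≤ 4 exp(1 + 3/2) ‖v‖ w z √((1+‖v‖^2/d)^d)`, and
  `‖v - u‖ ≥ ‖v‖ - 1/2 ≥ (3/4) ‖v‖`.
-/

set_option autoImplicit false

open Polynomial MeasureTheory ComplexConjugate

namespace Pool.Agent.H91.PR

open Pool.Agent.H85.LD Pool.Agent.H91.LD Pool.Agent.H44.Fatou

private theorem dx_hd (p : ℂ[X]) (D v : ℂ) :
    HasDerivAt (fun v : ℂ => p.eval (v / D)) (p.derivative.eval (v / D) / D) v := by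
  have h0 : HasDerivAt (fun v : ℂ => v / D) (1 / D) v := (hasDerivAt_id v).div_const _
  have h1 := (p.hasDerivAt (v / D)).comp v h0
  rw [mul_one_div] at h1
  exact h1

private theorem dx_deriv (d : ℕ) (b : ℂ) (ω : ℝ) (F : ℂ[X]) :
    deriv (sn d b ω F) = fun v =>
      (Gc d b F).derivative.eval (v / ((√d : ℝ) : ℂ)) / ((√d : ℝ) : ℂ) / (ω : ℂ) := by
  funext v
  exact ((dx_hd (Gc d b F) _ v).div_const (ω : ℂ)).deriv

private theorem dx_deriv2 (d : ℕ) (b : ℂ) (ω : ℝ) (F : ℂ[X]) (v : ℂ) :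
    deriv (deriv (sn d b ω F)) v = (Gc d b F).derivative.derivative.eval (v / ((√d : ℝ) : ℂ)) /
      ((√d : ℝ) : ℂ) / ((√d : ℝ) : ℂ) / (ω : ℂ) := by
  rw [dx_deriv]
  exact (((dx_hd (Gc d b F).derivative _ v).div_const _).div_const (ω : ℂ)).deriv

/-- `F` from its chart polynomial -/
private theorem dx_chart (d : ℕ) (b z : ℂ) (hz : 1 + conj b * z ≠ 0) (F : ℂ[X])
    (hF : F.natDegree ≤ d) :
    F.eval z = ((1 / √((1 + ‖b‖ ^ 2) ^ d) : ℝ) : ℂ) * (1 + conj b * z) ^ d *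
      (Gc d b F).eval (ph (-b) z) := by
  obtain ⟨h1, h2⟩ := ph_ph b z hz
  rw [Gc_eval d b F hF _ h1, h2]
  have e1 : (1 + conj b * z) * (1 - conj b * ph (-b) z) = ((1 + ‖b‖ ^ 2 : ℝ) : ℂ) := by
    have e0 : ph (-b) z = (z - b) / (1 + conj b * z) := by
      unfold ph
      rw [map_neg]
      congr 1
      · ring
      · ring
    have hbb : conj b * b = ((‖b‖ ^ 2 : ℝ) : ℂ) := by
      rw [Complex.conj_mul']
      push_cast
      rfl
    rw [e0, mul_sub, mul_one, mul_left_comm, mul_div_cancel₀ _ hz]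
    push_cast
    push_cast at hbb
    linear_combination hbb
  have e2 : ((1 / √((1 + ‖b‖ ^ 2) ^ d) : ℝ) : ℂ) * ((1 / √((1 + ‖b‖ ^ 2) ^ d) : ℝ) : ℂ) *
      ((1 + ‖b‖ ^ 2 : ℝ) : ℂ) ^ d = 1 := by
    have h3 : (1 / √((1 + ‖b‖ ^ 2) ^ d) : ℝ) * (1 / √((1 + ‖b‖ ^ 2) ^ d)) *
        (1 + ‖b‖ ^ 2) ^ d = 1 := by
      have h4 : √((1 + ‖b‖ ^ 2) ^ d) * √((1 + ‖b‖ ^ 2) ^ d) = (1 + ‖b‖ ^ 2) ^ d :=
        Real.mul_self_sqrt (by positivity)
      have h5 : (0 : ℝ) < √((1 + ‖b‖ ^ 2) ^ d) := Real.sqrt_pos.2 (by positivity)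
      rw [div_mul_div_comm, mul_one, h4, one_div_mul_cancel (by positivity)]
    exact_mod_cast h3
  have e3 : ((1 / √((1 + ‖b‖ ^ 2) ^ d) : ℝ) : ℂ) * (1 + conj b * z) ^ d *
      (((1 / √((1 + ‖b‖ ^ 2) ^ d) : ℝ) : ℂ) * (1 - conj b * ph (-b) z) ^ d * F.eval z) =
      (((1 / √((1 + ‖b‖ ^ 2) ^ d) : ℝ) : ℂ) * ((1 / √((1 + ‖b‖ ^ 2) ^ d) : ℝ) : ℂ) *
      ((1 + conj b * z) * (1 - conj b * ph (-b) z)) ^ d) * F.eval z := by
    rw [mul_pow]
    ring
  rw [e3, e1, e2, one_mul]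

private theorem dx_chart2 (d : ℕ) (b z : ℂ) (hz : 1 + conj b * z ≠ 0) (H : ℂ[X])
    (hH : H.natDegree ≤ d) :
    (Gc d (-b) H).eval z = ((1 / √((1 + ‖b‖ ^ 2) ^ d) : ℝ) : ℂ) * (1 + conj b * z) ^ d *
      H.eval (ph (-b) z) := by
  have h1 : 1 - conj (-b) * z ≠ 0 := by
    rw [map_neg]
    intro h
    apply hz
    linear_combination h
  rw [Gc_eval d (-b) H hH z h1, norm_neg, map_neg]
  congr 2
  ring

private theorem dx_wm (d : ℕ) (b z : ℂ) (hz : 1 + conj b * z ≠ 0) (H : ℂ[X])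
    (hH : H.natDegree ≤ d) : wm d (Gc d (-b) H) z = wm d H (ph (-b) z) := by
  have h1 : 1 - conj (-b) * z ≠ 0 := by
    rw [map_neg]
    intro h
    apply hz
    linear_combination h
  rw [wm_ph d (-b) H hH z h1]
  rfl

/-- the set of points with an image under `ph b` is dense -/
private theorem dx_dense (a D : ℂ) : Dense {x : ℂ | 1 - a * (x / D) ≠ 0} := by
  have hs : ({x : ℂ | 1 - a * (x / D) = 0} : Set ℂ).Subsingleton := by
    intro s hs t ht
    have hs' : 1 - a * (s / D) = 0 := hs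
    have ht' : 1 - a * (t / D) = 0 := ht
    have ha : a ≠ 0 := by
      intro h
      rw [h] at hs'
      simp at hs'
    have hD : D ≠ 0 := by
      intro h
      rw [h] at hs'
      simp at hs'
    have h1 : s / D = t / D := by
      apply mul_left_cancel₀ ha
      linear_combination ht' - hs'
    exact (div_left_inj' hD).1 h1
  exact (hs.finite.countable).dense_compl ℂ

/-- growth of `sn` seen from another point -/
private theorem dx_grow (d : ℕ) (hd : 1 ≤ d) (w : ℂ → ℝ) (hw : Wgt d w) (F : ℂ[X])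
    (hF : F.natDegree ≤ d) (hF4 : ∀ z, wm d F z ≤ 4 * w z) (b v : ℂ)
    (hv : 1 - conj b * (v / ((√d : ℝ) : ℂ)) ≠ 0) (x : ℂ) :
    ‖sn d b (w b) F x‖ * w b ≤ 4 * w (ph b (v / ((√d : ℝ) : ℂ))) * Real.exp ‖v - x‖ *
      √((1 + ‖x‖ ^ 2 / d) ^ d) := by
  have hwb := hw.pos b
  have hd0 : (0 : ℝ) < √d := Real.sqrt_pos.2 (by exact_mod_cast (by omega : 0 < d))
  have hD : ((√d : ℝ) : ℂ) ≠ 0 := by exact_mod_cast hd0.ne'
  have hcl : IsClosed {x : ℂ | ‖sn d b (w b) F x‖ * w b ≤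
      4 * w (ph b (v / ((√d : ℝ) : ℂ))) * Real.exp ‖v - x‖ * √((1 + ‖x‖ ^ 2 / d) ^ d)} := by
    refine isClosed_le ?_ ?_
    · have h1 : Continuous (sn d b (w b) F) := ((sc_diff d b F).div_const _).continuous
      exact h1.norm.mul continuous_const
    · fun_prop
  have hsub : {x : ℂ | 1 - conj b * (x / ((√d : ℝ) : ℂ)) ≠ 0} ⊆ {x : ℂ | ‖sn d b (w b) F x‖ * w b ≤
      4 * w (ph b (v / ((√d : ℝ) : ℂ))) * Real.exp ‖v - x‖ * √((1 + ‖x‖ ^ 2 / d) ^ d)} := by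
    intro x hx
    have hx' : 1 - conj b * (x / ((√d : ℝ) : ℂ)) ≠ 0 := hx
    show ‖sn d b (w b) F x‖ * w b ≤
      4 * w (ph b (v / ((√d : ℝ) : ℂ))) * Real.exp ‖v - x‖ * √((1 + ‖x‖ ^ 2 / d) ^ d)
    rw [sn_norm d b (w b) hwb F hF x hx', div_mul_cancel₀ _ hwb.ne']
    refine mul_le_mul_of_nonneg_right ?_ (Real.sqrt_nonneg _)
    refine (hF4 _).trans ?_
    rw [mul_assoc]
    refine mul_le_mul_of_nonneg_left ?_ (by norm_num)
    refine (hw.lip (ph b (v / ((√d : ℝ) : ℂ))) _).trans ?_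
    refine mul_le_mul_of_nonneg_left (Real.exp_le_exp.2 ?_) (hw.pos _).le
    rw [sg_ph b _ _ hv hx']
    have h2 := sg_le_dist (v / ((√d : ℝ) : ℂ)) (x / ((√d : ℝ) : ℂ))
    rw [← sub_div, norm_div, Complex.norm_real, Real.norm_of_nonneg hd0.le, le_div_iff₀ hd0] at h2
    rw [mul_comm]
    exact h2
  have h3 := (hcl.closure_subset_iff.2 hsub)
  rw [(dx_dense (conj b) ((√d : ℝ) : ℂ)).closure_eq] at h3
  exact h3 (Set.mem_univ x)

/-- closing up a weight bound -/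
private theorem dx_close (d : ℕ) (w : ℂ → ℝ) (hw : Wgt d w) (G : ℂ[X]) (b : ℂ) (M : ℝ) (hM : 0 ≤ M)
    (h : ∀ z, 1 + conj b * z ≠ 0 → wm d G z ≤ M * w z) (z : ℂ) : wm d G z ≤ M * w z := by
  have hcl : IsClosed {x : ℂ | wm d G x ≤ M * (w z * Real.exp (√d * sg z x))} := by
    refine isClosed_le (wm_continuous d G) ?_
    have h1 : Continuous (fun x : ℂ => sg z x) :=
      sg_continuous.comp (by fun_prop : Continuous (fun x : ℂ => (z, x)))
    fun_prop
  have hsub : {x : ℂ | 1 - (-conj b) * (x / 1) ≠ 0} ⊆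
      {x : ℂ | wm d G x ≤ M * (w z * Real.exp (√d * sg z x))} := by
    intro x hx
    have hx' : 1 - (-conj b) * (x / 1) ≠ 0 := hx
    have hx2 : 1 + conj b * x ≠ 0 := by
      intro h
      apply hx'
      rw [div_one]
      linear_combination h
    exact (h x hx2).trans (mul_le_mul_of_nonneg_left (hw.lip z x) hM)
  have h3 := (hcl.closure_subset_iff.2 hsub)
  rw [(dx_dense (-conj b) 1).closure_eq] at h3
  have h4 : wm d G z ≤ M * (w z * Real.exp (√d * sg z z)) := h3 (Set.mem_univ z)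
  rwa [sg_self, mul_zero, Real.exp_zero, mul_one] at h4

private theorem dx_exp_one : Real.exp 1 ≤ 2.72 := by
  have := Real.exp_one_lt_d9
  linarith

private theorem dx_exp (n : ℕ) : Real.exp n ≤ 2.72 ^ n := by
  have h : Real.exp (n : ℝ) = Real.exp 1 ^ n := by
    rw [← Real.exp_nat_mul, mul_one]
  rw [h]
  exact pow_le_pow_left₀ (Real.exp_pos _).le dx_exp_one n

/-- growth of the derivative -/
private theorem dx_grow1 (d : ℕ) (hd : 1 ≤ d) (w : ℂ → ℝ) (hw : Wgt d w) (F : ℂ[X])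
    (hF : F.natDegree ≤ d) (hF4 : ∀ z, wm d F z ≤ 4 * w z) (b v : ℂ)
    (hv : 1 - conj b * (v / ((√d : ℝ) : ℂ)) ≠ 0) (hv2 : 2 ≤ ‖v‖) :
    ‖deriv (sn d b (w b) F) v‖ * w b ≤ 81 * ‖v‖ * w (ph b (v / ((√d : ℝ) : ℂ))) *
      √((1 + ‖v‖ ^ 2 / d) ^ d) := by
  have hwb := hw.pos b
  have hd' : (0 : ℝ) < d := by exact_mod_cast (by omega : 0 < d)
  have hwz := hw.pos (ph b (v / ((√d : ℝ) : ℂ)))
  set W : ℝ := w (ph b (v / ((√d : ℝ) : ℂ))) with hWd
  set T : ℝ := √((1 + ‖v‖ ^ 2 / d) ^ d) with hTd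
  have hT : 0 ≤ T := Real.sqrt_nonneg _
  have hv0 : 0 < ‖v‖ := by linarith
  have hR : (0 : ℝ) < 1 / ‖v‖ := by positivity
  have hR1 : 1 / ‖v‖ ≤ 1 / 2 := one_div_le_one_div_of_le (by norm_num) hv2
  have key := Complex.norm_deriv_le_of_forall_mem_sphere_norm_le (c := v) (R := 1 / ‖v‖)
    (C := 81 * W * T / w b) (f := sn d b (w b) F) hR
    (((sc_diff d b F).div_const _).diffContOnCl) (by
      intro x hx
      rw [le_div_iff₀ hwb]
      have hxv : ‖v - x‖ = 1 / ‖v‖ := by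
        rw [mem_sphere_iff_norm] at hx
        rw [norm_sub_rev, hx]
      have h1 := dx_grow d hd w hw F hF hF4 b v hv x
      rw [← hWd] at h1
      refine h1.trans ?_
      have h2 : Real.exp ‖v - x‖ ≤ Real.exp 1 := Real.exp_le_exp.2 (by rw [hxv]; linarith)
      have h3 : ‖x‖ ≤ ‖v‖ + 1 / ‖v‖ := by
        have : ‖x‖ ≤ ‖v‖ + ‖v - x‖ := by
          have h4 : x = v - (v - x) := by ring
          calc ‖x‖ = ‖v - (v - x)‖ := by rw [← h4]
            _ ≤ ‖v‖ + ‖v - x‖ := norm_sub_le _ _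
        rw [hxv] at this
        exact this
      have h4 : ‖x‖ ^ 2 ≤ ‖v‖ ^ 2 + 3 := by
        have h5 : ‖x‖ ^ 2 ≤ (‖v‖ + 1 / ‖v‖) ^ 2 := pow_le_pow_left₀ (norm_nonneg _) h3 2
        have h6 : (‖v‖ + 1 / ‖v‖) ^ 2 = ‖v‖ ^ 2 + 2 + (1 / ‖v‖) ^ 2 := by
          field_simp
          ring
        have h7 : (1 / ‖v‖) ^ 2 ≤ 1 := by nlinarith
        linarith
      have h5 : 1 + ‖x‖ ^ 2 / d ≤ (1 + ‖v‖ ^ 2 / d) * Real.exp (3 / d) := by
        have h6 : 3 / (d : ℝ) + 1 ≤ Real.exp (3 / d) := Real.add_one_le_exp _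
        have h7 : ‖x‖ ^ 2 / d ≤ ‖v‖ ^ 2 / d + 3 / d := by
          rw [← add_div]
          exact div_le_div_of_nonneg_right h4 hd'.le
        have h8 : 0 ≤ ‖v‖ ^ 2 / d := by positivity
        have h9 : 0 ≤ 3 / (d : ℝ) := by positivity
        nlinarith [mul_nonneg h8 h9]
      have h6 : √((1 + ‖x‖ ^ 2 / d) ^ d) ≤ T * Real.exp 2 := by
        rw [hTd]
        have h7 : (1 + ‖x‖ ^ 2 / d) ^ d ≤ (1 + ‖v‖ ^ 2 / d) ^ d * Real.exp 3 := by
          calc (1 + ‖x‖ ^ 2 / d) ^ d ≤ ((1 + ‖v‖ ^ 2 / d) * Real.exp (3 / d)) ^ d :=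
                pow_le_pow_left₀ (by positivity) h5 d
            _ = (1 + ‖v‖ ^ 2 / d) ^ d * Real.exp 3 := by
                rw [mul_pow, ← Real.exp_nat_mul]
                congr 2
                field_simp
        calc √((1 + ‖x‖ ^ 2 / d) ^ d) ≤ √((1 + ‖v‖ ^ 2 / d) ^ d * Real.exp 2 ^ 2) := by
              refine Real.sqrt_le_sqrt (h7.trans ?_)
              refine mul_le_mul_of_nonneg_left ?_ (by positivity)
              rw [← Real.exp_nat_mul]
              exact Real.exp_le_exp.2 (by norm_num)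
          _ = _ := by
              rw [Real.sqrt_mul (by positivity), Real.sqrt_sq (Real.exp_pos _).le]
      have h7 : Real.exp 1 * Real.exp 2 ≤ 81 / 4 := by
        rw [← Real.exp_add]
        have h8 := dx_exp 3
        have h9 : ((3 : ℕ) : ℝ) = 1 + 2 := by norm_num
        rw [h9] at h8
        refine h8.trans ?_
        norm_num
      calc 4 * W * Real.exp ‖v - x‖ * √((1 + ‖x‖ ^ 2 / d) ^ d)
          ≤ 4 * W * Real.exp 1 * (T * Real.exp 2) := by gcongr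
        _ = 4 * W * T * (Real.exp 1 * Real.exp 2) := by ring
        _ ≤ 4 * W * T * (81 / 4) := by gcongr
        _ = 81 * W * T := by ring)
  have h8 : ‖deriv (sn d b (w b) F) v‖ * w b ≤ 81 * W * T / w b / (1 / ‖v‖) * w b :=
    mul_le_mul_of_nonneg_right key hwb.le
  refine h8.trans (le_of_eq ?_)
  field_simp

/-- the bound for the quotient -/
private theorem dx_bound (d : ℕ) (hd : 1 ≤ d) (w : ℂ → ℝ) (hw : Wgt d w) (F : ℂ[X])
    (hF : F.natDegree ≤ d) (hF4 : ∀ z, wm d F z ≤ 4 * w z) (b u : ℂ) (hu : ‖u‖ ≤ 1 / 2)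
    (α μ : ℂ) (A Mu : ℝ) (hα : ‖α‖ ≤ A) (hμ : ‖μ‖ ≤ Mu) (hMu : 1 ≤ Mu)
    (Q : ℂ → ℂ) (hQ : Differentiable ℂ Q)
    (hQe : ∀ v, (v - u) * Q v = α * (deriv (sn d b (w b) F) v - μ * sn d b (w b) F v))
    (v : ℂ) (hv : 1 - conj b * (v / ((√d : ℝ) : ℂ)) ≠ 0) :
    ‖Q v‖ * w b ≤ 10 ^ 8 * A * Mu * w (ph b (v / ((√d : ℝ) : ℂ))) *
      √((1 + ‖v‖ ^ 2 / d) ^ d) := by
  have hwb := hw.pos b
  have hd' : (0 : ℝ) < d := by exact_mod_cast (by omega : 0 < d)
  have hd0 : (0 : ℝ) < √d := Real.sqrt_pos.2 hd'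
  have hwz := hw.pos (ph b (v / ((√d : ℝ) : ℂ)))
  set W : ℝ := w (ph b (v / ((√d : ℝ) : ℂ))) with hWd
  set T : ℝ := √((1 + ‖v‖ ^ 2 / d) ^ d) with hTd
  have hT1 : 1 ≤ T := by
    rw [hTd, Real.one_le_sqrt]
    exact one_le_pow₀ (by
      have : 0 ≤ ‖v‖ ^ 2 / d := by positivity
      linarith)
  have hA : 0 ≤ A := (norm_nonneg _).trans hα
  rcases le_total ‖v‖ 2 with h2 | h2
  · -- inside
    have hEB := sn_EB d hd w hw b F hF 4 (by norm_num) (fun z _ => hF4 z)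
    have hin : ∀ x ∈ frontier (Metric.ball (0 : ℂ) 2), ‖Q x‖ ≤ 4 / 3 * (8 * 10 ^ 5) * (A * Mu) := by
      intro x hx
      rw [frontier_ball (0 : ℂ) (by norm_num : (2 : ℝ) ≠ 0), mem_sphere_zero_iff_norm] at hx
      have h3 : 3 / 2 ≤ ‖x - u‖ := by
        have := norm_sub_norm_le x u
        linarith
      have h4 : ‖x - u‖ * ‖Q x‖ ≤ A * (8 * 10 ^ 5 + Mu * (8 * 10 ^ 5)) := by
        rw [← norm_mul, hQe, norm_mul]
        refine mul_le_mul hα ?_ (norm_nonneg _) hA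
        refine (norm_sub_le _ _).trans ?_
        rw [norm_mul]
        have h5 := hEB.d1 x (by rw [hx]; norm_num)
        have h6 := hEB.2 x (by rw [hx]; norm_num)
        refine add_le_add (h5.trans (by norm_num)) ?_
        exact mul_le_mul hμ (h6.trans (by norm_num)) (norm_nonneg _) (by linarith)
      have h5 : 3 / 2 * ‖Q x‖ ≤ ‖x - u‖ * ‖Q x‖ := mul_le_mul_of_nonneg_right h3 (norm_nonneg _)
      have h6 : A * (8 * 10 ^ 5 + Mu * (8 * 10 ^ 5)) ≤ 2 * (8 * 10 ^ 5) * (A * Mu) := by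
        have : A ≤ A * Mu := le_mul_of_one_le_right hA hMu
        nlinarith
      linarith
    have hmax := Complex.norm_le_of_forall_mem_frontier_norm_le Metric.isBounded_ball
      (hQ.diffContOnCl) hin (z := v) (by
        rw [closure_ball (0 : ℂ) (by norm_num : (2 : ℝ) ≠ 0), mem_closedBall_zero_iff]
        exact h2)
    have hwbz : w b ≤ W * Real.exp 2 := by
      have h3 := hw.lip (ph b (v / ((√d : ℝ) : ℂ))) b
      refine h3.trans (mul_le_mul_of_nonneg_left (Real.exp_le_exp.2 ?_) hwz.le)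
      rw [sg_comm, sg_ph_zero b _ hv]
      have h4 : ‖v / ((√d : ℝ) : ℂ)‖ / √(1 + ‖v / ((√d : ℝ) : ℂ)‖ ^ 2) ≤
          ‖v / ((√d : ℝ) : ℂ)‖ := by
        apply div_le_self (norm_nonneg _)
        rw [Real.one_le_sqrt]
        have := sq_nonneg ‖v / ((√d : ℝ) : ℂ)‖
        linarith
      have h5 : √d * ‖v / ((√d : ℝ) : ℂ)‖ = ‖v‖ := by
        rw [norm_div, Complex.norm_real, Real.norm_of_nonneg hd0.le]
        field_simp
      calc √d * (‖v / ((√d : ℝ) : ℂ)‖ / √(1 + ‖v / ((√d : ℝ) : ℂ)‖ ^ 2))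
          ≤ √d * ‖v / ((√d : ℝ) : ℂ)‖ := mul_le_mul_of_nonneg_left h4 hd0.le
        _ = ‖v‖ := h5
        _ ≤ 2 := h2
    have he2 : Real.exp 2 ≤ 8 := by
      have h8 := dx_exp 2
      have h9 : ((2 : ℕ) : ℝ) = 2 := by norm_num
      rw [h9] at h8
      refine h8.trans ?_
      norm_num
    have hAM : 0 ≤ A * Mu := mul_nonneg hA (by linarith)
    calc ‖Q v‖ * w b ≤ (4 / 3 * (8 * 10 ^ 5) * (A * Mu)) * (W * 8) := by
          refine mul_le_mul hmax (hwbz.trans ?_) hwb.le (by positivity)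
          exact mul_le_mul_of_nonneg_left he2 hwz.le
      _ ≤ 10 ^ 8 * A * Mu * W * 1 := by
          have : 0 ≤ A * Mu * W := mul_nonneg hAM hwz.le
          nlinarith
      _ ≤ 10 ^ 8 * A * Mu * W * T := by
          refine mul_le_mul_of_nonneg_left hT1 ?_
          have : 0 ≤ A * Mu * W := mul_nonneg hAM hwz.le
          nlinarith
  · -- outside
    have hv0 : 0 < ‖v‖ := by linarith
    have h3 : 3 / 4 * ‖v‖ ≤ ‖v - u‖ := by
      have := norm_sub_norm_le v u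
      linarith
    have h4 := dx_grow1 d hd w hw F hF hF4 b v hv h2
    have h5 := dx_grow d hd w hw F hF hF4 b v hv v
    rw [sub_self, norm_zero, Real.exp_zero, mul_one, ← hWd, ← hTd] at h5
    rw [← hWd, ← hTd] at h4
    have h6 : ‖v - u‖ * (‖Q v‖ * w b) ≤ A * (81 * ‖v‖ * W * T + Mu * (4 * W * T)) := by
      have e1 : ‖v - u‖ * (‖Q v‖ * w b) =
          ‖α‖ * (‖deriv (sn d b (w b) F) v - μ * sn d b (w b) F v‖ * w b) := by
        rw [← mul_assoc, ← norm_mul, hQe, norm_mul]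
        ring
      rw [e1]
      refine mul_le_mul hα ?_ (mul_nonneg (norm_nonneg _) hwb.le) hA
      have e2 : ‖deriv (sn d b (w b) F) v - μ * sn d b (w b) F v‖ ≤
          ‖deriv (sn d b (w b) F) v‖ + ‖μ‖ * ‖sn d b (w b) F v‖ := by
        refine (norm_sub_le _ _).trans ?_
        rw [norm_mul]
      calc ‖deriv (sn d b (w b) F) v - μ * sn d b (w b) F v‖ * w b
          ≤ (‖deriv (sn d b (w b) F) v‖ + ‖μ‖ * ‖sn d b (w b) F v‖) * w b :=
            mul_le_mul_of_nonneg_right e2 hwb.le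
        _ = ‖deriv (sn d b (w b) F) v‖ * w b + ‖μ‖ * (‖sn d b (w b) F v‖ * w b) := by ring
        _ ≤ 81 * ‖v‖ * W * T + Mu * (4 * W * T) := by
            refine add_le_add h4 ?_
            exact mul_le_mul hμ h5 (mul_nonneg (norm_nonneg _) hwb.le) (by linarith)
    have h7 : 3 / 4 * ‖v‖ * (‖Q v‖ * w b) ≤ ‖v - u‖ * (‖Q v‖ * w b) :=
      mul_le_mul_of_nonneg_right h3 (mul_nonneg (norm_nonneg _) hwb.le)
    have hAM : 0 ≤ A * Mu := mul_nonneg hA (by linarith)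
    have hT0 : 0 ≤ T := by linarith
    have hX : 0 ≤ A * Mu * W * T := mul_nonneg (mul_nonneg hAM hwz.le) hT0
    have h8 : A * (81 * ‖v‖ * W * T + Mu * (4 * W * T)) ≤ 3 / 4 * ‖v‖ * (10 ^ 8 * A * Mu * W * T) := by
      have h9 : A * W * T ≤ A * Mu * W * T := by
        have : A ≤ A * Mu := le_mul_of_one_le_right hA hMu
        have h10 : A * (W * T) ≤ A * Mu * (W * T) :=
          mul_le_mul_of_nonneg_right this (mul_nonneg hwz.le hT0)
        linarith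
      have h10 : A * W * T * ‖v‖ ≤ A * Mu * W * T * ‖v‖ :=
        mul_le_mul_of_nonneg_right h9 hv0.le
      have h11 : A * Mu * W * T * 2 ≤ A * Mu * W * T * ‖v‖ :=
        mul_le_mul_of_nonneg_left h2 hX
      nlinarith
    have h9 : 3 / 4 * ‖v‖ * (‖Q v‖ * w b) ≤ 3 / 4 * ‖v‖ * (10 ^ 8 * A * Mu * W * T) :=
      h7.trans (h6.trans h8)
    exact le_of_mul_le_mul_left h9 (by positivity)

/-- division by `X - C tc` -/
private theorem dx_div (d : ℕ) (p : ℂ[X]) (hp : p.natDegree ≤ d) (a : ℂ) (h : p.eval a = 0) :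
    ∃ H : ℂ[X], H.natDegree ≤ d ∧ (X - C a) * H = p := by
  refine ⟨p /ₘ (X - C a), ?_, mul_divByMonic_eq_iff_isRoot.2 h⟩
  rw [natDegree_divByMonic p (monic_X_sub_C a)]
  omega

theorem dual_elt (d : ℕ) (hd : 1 ≤ d) (w : ℂ → ℝ) (hw : Wgt d w) (P B : ℂ[X])
    (hP : P.natDegree ≤ d) (hB : B.natDegree ≤ d) (hP2 : ∀ z, wm d P z ≤ 4 * w z)
    (hB2 : ∀ z, wm d B z ≤ 4 * w z) (b u : ℂ) (hu : ‖u‖ ≤ 1 / 2)
    (hm : 1 - conj b * (u / ((√d : ℝ) : ℂ)) ≠ 0) (l κ : ℝ) (hl : 0 < l) (hl1 : l ≤ 1)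
    (hκ : 0 < κ) (hκ1 : κ ≤ 1) (h0 : wr (sn d b (w b) P) (sn d b (w b) B) u = 0)
    (h1 : l ≤ ‖wr1 (sn d b (w b) P) (sn d b (w b) B) u‖) (h2 : κ ≤ ‖sn d b (w b) B u‖) :
    ∃ G1 G2 : ℂ[X], G1.natDegree ≤ d ∧ G2.natDegree ≤ d ∧
      (∀ z, wm d G1 z ≤ 10 ^ 27 / (l * κ) * w z) ∧ (∀ z, wm d G2 z ≤ 10 ^ 27 / (l * κ) * w z) ∧
      (∀ z, 1 + conj b * z ≠ 0 → z ≠ ph b (u / ((√d : ℝ) : ℂ)) → (Wr P B).eval z = 0 →
        G1.eval z * B.eval z - P.eval z * G2.eval z = 0) ∧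
      (G1.eval (ph b (u / ((√d : ℝ) : ℂ))) * B.eval (ph b (u / ((√d : ℝ) : ℂ))) -
        P.eval (ph b (u / ((√d : ℝ) : ℂ))) * G2.eval (ph b (u / ((√d : ℝ) : ℂ))) =
        B.eval (ph b (u / ((√d : ℝ) : ℂ))) ^ 2) := by
  classical
  have hwb := hw.pos b
  have hwb' : ((w b : ℝ) : ℂ) ≠ 0 := by exact_mod_cast hwb.ne'
  have hd' : (0 : ℝ) < d := by exact_mod_cast (by omega : 0 < d)
  have hd0 : (0 : ℝ) < √d := Real.sqrt_pos.2 hd'
  have hD : ((√d : ℝ) : ℂ) ≠ 0 := by exact_mod_cast hd0.ne'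
  set D : ℂ := ((√d : ℝ) : ℂ) with hDd
  set tc : ℂ := u / D with htc
  set Ph : ℂ[X] := Gc d b P with hPh
  set Bh : ℂ[X] := Gc d b B with hBh
  have hPd : Ph.natDegree ≤ d := Gc_deg d b P
  have hBd : Bh.natDegree ≤ d := Gc_deg d b B
  obtain ⟨ω, hω⟩ : ∃ ω : ℂ, ω = ((w b : ℝ) : ℂ) := ⟨_, rfl⟩
  have hω0 : ω ≠ 0 := by rw [hω]; exact hwb'
  have hfB : ∀ v, sn d b (w b) B v = Bh.eval (v / D) / ω := fun v => by rw [hω]; rfl
  have hfP : ∀ v, sn d b (w b) P v = Ph.eval (v / D) / ω := fun v => by rw [hω]; rfl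
  have hdB : ∀ v, deriv (sn d b (w b) B) v = Bh.derivative.eval (v / D) / D / ω := fun v => by
    rw [dx_deriv, hω]
  have hdP : ∀ v, deriv (sn d b (w b) P) v = Ph.derivative.eval (v / D) / D / ω := fun v => by
    rw [dx_deriv, hω]
  have hddB : ∀ v, deriv (deriv (sn d b (w b) B)) v =
      Bh.derivative.derivative.eval (v / D) / D / D / ω := fun v => by rw [dx_deriv2, hω]
  have hddP : ∀ v, deriv (deriv (sn d b (w b) P)) v =
      Ph.derivative.derivative.eval (v / D) / D / D / ω := fun v => by rw [dx_deriv2, hω]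
  have hBt : Bh.eval tc ≠ 0 := by
    intro h
    rw [hfB, ← htc, h, zero_div, norm_zero] at h2
    linarith
  -- the Wronskian in the chart
  have hwrv : ∀ v, wr (sn d b (w b) P) (sn d b (w b) B) v =
      (Wr Ph Bh).eval (v / D) / (D * ω ^ 2) := by
    intro v
    unfold wr Wr
    rw [hfB, hfP, hdB, hdP, eval_sub, eval_mul, eval_mul]
    field_simp
  have hW0 : (Wr Ph Bh).eval tc = 0 := by
    rw [hwrv, ← htc, div_eq_zero_iff] at h0
    exact h0.resolve_right (mul_ne_zero hD (pow_ne_zero 2 hω0))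
  set W1 : ℂ := Ph.derivative.derivative.eval tc * Bh.eval tc -
    Ph.eval tc * Bh.derivative.derivative.eval tc with hW1
  have hwr1 : wr1 (sn d b (w b) P) (sn d b (w b) B) u = W1 / (D ^ 2 * ω ^ 2) := by
    unfold wr1
    rw [hfB, hfP, hddB, hddP, ← htc, hW1]
    field_simp
  have hW1' : (Wr Ph Bh).derivative.eval tc = W1 := by
    unfold Wr
    rw [hW1, derivative_sub, derivative_mul, derivative_mul]
    simp only [eval_sub, eval_add, eval_mul]
    ring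
  have hW10 : W1 ≠ 0 := by
    intro h
    rw [hwr1, h, zero_div, norm_zero] at h1
    linarith
  have hwr10 : wr1 (sn d b (w b) P) (sn d b (w b) B) u ≠ 0 := by
    intro h
    rw [h, norm_zero] at h1
    linarith
  have hgu0 : sn d b (w b) B u ≠ 0 := by
    intro h
    rw [h, norm_zero] at h2
    linarith
  set m : ℂ := Bh.derivative.eval tc / Bh.eval tc with hm'
  have hW0' : Ph.derivative.eval tc * Bh.eval tc - Ph.eval tc * Bh.derivative.eval tc = 0 := by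
    have := hW0
    unfold Wr at this
    rwa [eval_sub, eval_mul, eval_mul] at this
  have hdd : ∀ F : ℂ[X], F.natDegree ≤ d → (F.derivative - C m * F).natDegree ≤ d := by
    intro F hF
    refine (natDegree_sub_le _ _).trans (max_le ?_ ?_)
    · exact (natDegree_derivative_le F).trans (by omega)
    · exact (natDegree_C_mul_le _ _).trans hF
  obtain ⟨H1, hH1d, hH1⟩ := dx_div d (Ph.derivative - C m * Ph) (hdd Ph hPd) tc (by
    rw [eval_sub, eval_mul, eval_C, hm', div_mul_eq_mul_div, sub_eq_zero, eq_div_iff hBt]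
    linear_combination hW0')
  obtain ⟨H2, hH2d, hH2⟩ := dx_div d (Bh.derivative - C m * Bh) (hdd Bh hBd) tc (by
    rw [eval_sub, eval_mul, eval_C, hm', div_mul_cancel₀ _ hBt, sub_self])
  have hR : (X - C tc) * (H1 * Bh - Ph * H2) = Wr Ph Bh := by
    unfold Wr
    calc (X - C tc) * (H1 * Bh - Ph * H2) = ((X - C tc) * H1) * Bh - Ph * ((X - C tc) * H2) := by
          ring
      _ = _ := by
          rw [hH1, hH2]
          ring
  have hRtc : (H1 * Bh - Ph * H2).eval tc = W1 := by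
    rw [← hW1', ← hR, derivative_mul, eval_add, eval_mul, eval_mul]
    simp
  set c : ℂ := Bh.eval tc ^ 2 / W1 with hc
  set α : ℂ := sn d b (w b) B u ^ 2 / wr1 (sn d b (w b) P) (sn d b (w b) B) u with hαd
  set μ : ℂ := deriv (sn d b (w b) B) u / sn d b (w b) B u with hμd
  have hα : α = D ^ 2 * c := by
    rw [hαd, hc, hwr1, hfB, ← htc]
    field_simp
  have hμ : μ = m / D := by
    rw [hμd, hm', hfB, hdB, ← htc]
    field_simp
  have hEB := sn_EB d hd w hw b B hB 4 (by norm_num) (fun z _ => hB2 z)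
  have hαn : ‖α‖ ≤ (8 * 10 ^ 5) ^ 2 / l := by
    rw [hαd, norm_div, norm_pow]
    have h3 := hEB.2 u (by linarith)
    exact div_le_div₀ (by positivity) (pow_le_pow_left₀ (norm_nonneg _)
      (h3.trans (by norm_num)) 2) hl h1
  have hμn : ‖μ‖ ≤ 8 * 10 ^ 5 / κ := by
    rw [hμd, norm_div]
    have h3 := hEB.d1 u (by linarith)
    exact div_le_div₀ (by positivity) (h3.trans (by norm_num)) hκ h2
  have hMu : 1 ≤ 8 * 10 ^ 5 / κ := by
    rw [le_div_iff₀ hκ]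
    linarith
  -- the bound for one numerator
  have hbd : ∀ F : ℂ[X], F.natDegree ≤ d → (∀ z, wm d F z ≤ 4 * w z) → ∀ H : ℂ[X],
      H.natDegree ≤ d → (X - C tc) * H = (Gc d b F).derivative - C m * Gc d b F →
      ∀ z, wm d (C c * Gc d (-b) H) z ≤ 10 ^ 27 / (l * κ) * w z := by
    intro F hF hF4 H hHd hH
    refine dx_close d w hw _ b _ (by positivity) ?_
    intro z hz
    obtain ⟨hz1, hz2⟩ := ph_ph b z hz
    set t : ℂ := ph (-b) z with ht
    have hQd : Differentiable ℂ (fun v : ℂ => c * H.eval (v / D) / ω) := by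
      intro v
      exact (((dx_hd H D v).const_mul c).div_const ω).differentiableAt
    have hb := dx_bound d hd w hw F hF hF4 b u hu α μ _ _ hαn hμn hMu
      (fun v : ℂ => c * H.eval (v / D) / ω) hQd (by
        intro v
        have e1 : (v / D - tc) * H.eval (v / D) =
            (Gc d b F).derivative.eval (v / D) - m * (Gc d b F).eval (v / D) := by
          have := congrArg (eval (v / D)) hH
          rwa [eval_mul, eval_sub, eval_X, eval_C, eval_sub, eval_mul, eval_C] at this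
        have e2 : sn d b (w b) F v = (Gc d b F).eval (v / D) / ω := by rw [hω]; rfl
        have e3 : deriv (sn d b (w b) F) v = (Gc d b F).derivative.eval (v / D) / D / ω := by
          rw [dx_deriv, hω]
        rw [e2, e3, hα, hμ]
        have e4 : v - u = D * (v / D - tc) := by
          rw [htc]
          field_simp
        show (v - u) * (c * H.eval (v / D) / ω) = _
        rw [e4]
        have e5 : D * (v / D - tc) * (c * H.eval (v / D) / ω) =
            D * c / ω * ((v / D - tc) * H.eval (v / D)) := by ring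
        rw [e5, e1]
        field_simp) (D * t) (by
        rw [mul_div_cancel_left₀ _ hD]
        exact hz1)
    have e6 : D * t / D = t := mul_div_cancel_left₀ _ hD
    have hb' : ‖c * H.eval t / ω‖ * w b ≤ 10 ^ 8 * ((8 * 10 ^ 5) ^ 2 / l) * (8 * 10 ^ 5 / κ) *
        w z * √((1 + ‖D * t‖ ^ 2 / d) ^ d) := by
      rw [← hDd, e6, hz2] at hb
      exact hb
    have e7 : ‖D * t‖ ^ 2 / d = ‖t‖ ^ 2 := by
      rw [norm_mul, hDd, Complex.norm_real, Real.norm_of_nonneg hd0.le, mul_pow,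
        Real.sq_sqrt hd'.le]
      field_simp
    have e8 : ‖c * H.eval t / ω‖ * w b = ‖c‖ * ‖H.eval t‖ := by
      rw [norm_div, norm_mul, hω, Complex.norm_real, Real.norm_of_nonneg hwb.le,
        div_mul_cancel₀ _ hwb.ne']
    rw [e7, e8] at hb'
    have hS : 0 < √((1 + ‖t‖ ^ 2) ^ d) := Real.sqrt_pos.2 (by positivity)
    rw [wm_C_mul, dx_wm d b z hz H hHd, ← ht]
    unfold wm
    rw [← mul_div_assoc, div_le_iff₀ hS]
    refine hb'.trans ?_
    refine mul_le_mul_of_nonneg_right ?_ hS.le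
    refine mul_le_mul_of_nonneg_right ?_ (hw.pos z).le
    rw [le_div_iff₀ (by positivity)]
    have e9 : 10 ^ 8 * ((8 * 10 ^ 5) ^ 2 / l) * (8 * 10 ^ 5 / κ) * (l * κ) =
        (10 ^ 8 * (8 * 10 ^ 5) ^ 2 * (8 * 10 ^ 5) : ℝ) := by
      field_simp
    rw [e9]
    norm_num
  -- the values
  have hval : ∀ z, 1 + conj b * z ≠ 0 →
      (C c * Gc d (-b) H1).eval z * B.eval z - P.eval z * (C c * Gc d (-b) H2).eval z =
      c * (((1 / √((1 + ‖b‖ ^ 2) ^ d) : ℝ) : ℂ) * (1 + conj b * z) ^ d) ^ 2 *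
        (H1 * Bh - Ph * H2).eval (ph (-b) z) := by
    intro z hz
    rw [eval_mul, eval_mul, eval_C, dx_chart2 d b z hz H1 hH1d, dx_chart2 d b z hz H2 hH2d,
      dx_chart d b z hz B hB, dx_chart d b z hz P hP, eval_sub, eval_mul, eval_mul]
    ring
  refine ⟨C c * Gc d (-b) H1, C c * Gc d (-b) H2,
    (natDegree_C_mul_le _ _).trans (Gc_deg _ _ _), (natDegree_C_mul_le _ _).trans (Gc_deg _ _ _),
    hbd P hP hP2 H1 hH1d hH1, hbd B hB hB2 H2 hH2d hH2, ?_, ?_⟩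
  · intro z hz hz0 hWz
    rw [hval z hz]
    obtain ⟨hz1, hz2⟩ := ph_ph b z hz
    have e6 : D * ph (-b) z / D = ph (-b) z := mul_div_cancel_left₀ _ hD
    have h3 := (sn_wr d hd b (w b) hwb P B hP hB (D * ph (-b) z) (by
      rw [← hDd, e6]
      exact hz1)).2 (by
      rw [← hDd, e6, hz2]
      exact hWz)
    rw [hwrv, e6, div_eq_zero_iff] at h3
    have h4 := h3.resolve_right (mul_ne_zero hD (pow_ne_zero 2 hω0))
    rw [← hR, eval_mul, eval_sub, eval_X, eval_C, mul_eq_zero] at h4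
    rcases h4 with h4 | h4
    · exfalso
      apply hz0
      rw [← hz2, sub_eq_zero.1 h4]
    · rw [h4, mul_zero]
  · have hm2 : 1 + conj (-b) * tc ≠ 0 := by
      rw [map_neg]
      intro h
      apply hm
      linear_combination h
    obtain ⟨h3, h4⟩ := ph_ph (-b) tc hm2
    rw [neg_neg] at h3 h4
    have h5 : 1 + conj b * ph b tc ≠ 0 := by
      rw [map_neg] at h3
      intro h
      apply h3
      linear_combination h
    rw [hval _ h5, h4, hRtc, hc, dx_chart d b _ h5 B hB, h4, mul_right_comm,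
      div_mul_cancel₀ _ hW10, ← hBh]
    ring

end Pool.Agent.H91.PR
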