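import Pool.Agent.H91.LD.Sn
import Pool.Agent.H91.PR.PDefs

/-!
# [H91 PR DUALINF] infinity is not a critical point in any chart

If `1 - conj b tc = 0` (`tc = u/√d`), then `b ≠ 0`, and in the chart polynomial `Gc d b G = K ∑ a_k (b + t)^k (1 - conj b t)^(d-k)` only `k = d`
contributes to the value at `tc`, and only `k = d - 1, d` to the derivative: with `s = b + tc`
(`s ≠ 0`: `conj b s = ‖b‖^2 + 1`):
`G^(tc) = K a_d s^d`, `G^'(tc) = K (d a_d s^(d-1) - conj b a_(d-1) s^(d-1))`. Hence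
`P^' B^ - P^ B^' = K^2 s^(2d-1) (- conj b) (p_(d-1) b_d - p_d b_(d-1))` at `tc`, which is not zero by `hinf`. And
`wr (sn P) (sn B) u = (P^' B^ - P^ B^')(tc)/(√d (w b)^2)` (here `ω` instead of `w b`).
-/

set_option autoImplicit false

open Polynomial MeasureTheory ComplexConjugate

namespace Pool.Agent.H91.PR

open Pool.Agent.H85.LD Pool.Agent.H91.LD

private theorem DualInf_dec (e : ℕ) (b : ℂ) (G : ℂ[X]) :
    ∃ R : ℂ[X], Gc (e + 1) b G = C ((1 / √((1 + ‖b‖ ^ 2) ^ (e + 1)) : ℝ) : ℂ) *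
      ((1 - C (conj b) * X) ^ 2 * R + C (G.coeff e) * (C b + X) ^ e * (1 - C (conj b) * X) +
        C (G.coeff (e + 1)) * (C b + X) ^ (e + 1)) := by
  refine ⟨∑ k ∈ Finset.range e, C (G.coeff k) * (C b + X) ^ k *
    (1 - C (conj b) * X) ^ (e - 1 - k), ?_⟩
  unfold Gc
  rw [Finset.sum_range_succ, Finset.sum_range_succ, Finset.mul_sum]
  have h1 : ∑ k ∈ Finset.range e, C (G.coeff k) * (C b + X) ^ k *
      (1 - C (conj b) * X) ^ (e + 1 - k) = ∑ k ∈ Finset.range e, (1 - C (conj b) * X) ^ 2 *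
        (C (G.coeff k) * (C b + X) ^ k * (1 - C (conj b) * X) ^ (e - 1 - k)) := by
    refine Finset.sum_congr rfl fun k hk => ?_
    have hk' := Finset.mem_range.1 hk
    have h1 : e + 1 - k = 2 + (e - 1 - k) := by omega
    rw [h1, pow_add]
    ring
  have h2 : e + 1 - e = 1 := by omega
  rw [h1, h2, pow_one, Nat.sub_self, pow_zero, mul_one]

private theorem DualInf_eval (e : ℕ) (b : ℂ) (G : ℂ[X]) (t : ℂ) (ht : 1 - conj b * t = 0) :
    (Gc (e + 1) b G).eval t = ((1 / √((1 + ‖b‖ ^ 2) ^ (e + 1)) : ℝ) : ℂ) *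
      (G.coeff (e + 1) * (b + t) ^ (e + 1)) ∧
    (derivative (Gc (e + 1) b G)).eval t = ((1 / √((1 + ‖b‖ ^ 2) ^ (e + 1)) : ℝ) : ℂ) *
      (-(conj b) * G.coeff e * (b + t) ^ e + (e + 1) * G.coeff (e + 1) * (b + t) ^ e) := by
  obtain ⟨R, hR⟩ := DualInf_dec e b G
  have h0 : eval t (1 - C (conj b) * X : ℂ[X]) = 0 := by
    rw [eval_sub, eval_mul, eval_C, eval_X, eval_one, ht]
  have h1 : eval t (C b + X : ℂ[X]) = b + t := by
    rw [eval_add, eval_C, eval_X]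
  constructor
  · rw [hR, eval_mul, eval_C, eval_add, eval_add, eval_mul, eval_mul, eval_mul, eval_mul, eval_pow,
      eval_pow, eval_pow, eval_C, eval_C, h0, h1]
    ring
  · rw [hR]
    generalize (1 / √((1 + ‖b‖ ^ 2) ^ (e + 1)) : ℝ) = K
    have h2 : derivative (1 - C (conj b) * X : ℂ[X]) = -C (conj b) := by
      simp
    have h3 : derivative (C b + X : ℂ[X]) = 1 := by
      simp
    have h4 : derivative ((C b + X : ℂ[X]) ^ (e + 1)) = C ((e : ℂ) + 1) * (C b + X) ^ e := by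
      rw [derivative_pow, h3]
      simp
    rw [derivative_mul, derivative_C, zero_mul, zero_add, eval_mul, eval_C, derivative_add,
      derivative_add, derivative_mul, derivative_mul, derivative_mul, derivative_mul, h4,
      derivative_C, derivative_C, h2, derivative_pow, h2]
    simp only [eval_add, eval_mul, eval_C, eval_neg, h0, h1, eval_pow, mul_zero, zero_mul,
      zero_add, add_zero, ne_eq, OfNat.ofNat_ne_zero, not_false_eq_true, zero_pow, Nat.cast_ofNat,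
      pow_one, Nat.add_one_sub_one]
    ring

theorem dual_inf (d : ℕ) (hd : 1 ≤ d) (b : ℂ) (ω : ℝ) (hω : 0 < ω) (P B : ℂ[X])
    (hP : P.natDegree ≤ d) (hB : B.natDegree ≤ d)
    (hinf : P.coeff d * B.coeff (d - 1) ≠ P.coeff (d - 1) * B.coeff d) (u : ℂ)
    (h0 : wr (sn d b ω P) (sn d b ω B) u = 0) : 1 - conj b * (u / ((√d : ℝ) : ℂ)) ≠ 0 := by
  intro hz
  obtain ⟨e, rfl⟩ : ∃ e, d = e + 1 := ⟨d - 1, by omega⟩
  obtain ⟨t, ht⟩ : ∃ t : ℂ, t = u / ((√((e + 1 : ℕ) : ℝ) : ℝ) : ℂ) := ⟨_, rfl⟩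
  rw [← ht] at hz
  have hsd : ((√((e + 1 : ℕ) : ℝ) : ℝ) : ℂ) ≠ 0 := by
    rw [Complex.ofReal_ne_zero]
    have : (0 : ℝ) < ((e + 1 : ℕ) : ℝ) := by positivity
    positivity
  have hωc : (ω : ℂ) ≠ 0 := by
    rw [Complex.ofReal_ne_zero]
    exact hω.ne'
  have hder : ∀ G : ℂ[X], deriv (sn (e + 1) b ω G) u =
      (derivative (Gc (e + 1) b G)).eval t / ((√((e + 1 : ℕ) : ℝ) : ℝ) : ℂ) / (ω : ℂ) := by
    intro G
    have h1 : HasDerivAt (fun x : ℂ => x / ((√((e + 1 : ℕ) : ℝ) : ℝ) : ℂ))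
        (1 / ((√((e + 1 : ℕ) : ℝ) : ℝ) : ℂ)) u := (hasDerivAt_id u).div_const _
    have h2 := ((Gc (e + 1) b G).hasDerivAt (u / ((√((e + 1 : ℕ) : ℝ) : ℝ) : ℂ))).comp u h1
    have h3 := h2.div_const (ω : ℂ)
    have h4 : HasDerivAt (sn (e + 1) b ω G) (eval (u / ((√((e + 1 : ℕ) : ℝ) : ℝ) : ℂ))
        (derivative (Gc (e + 1) b G)) * (1 / ((√((e + 1 : ℕ) : ℝ) : ℝ) : ℂ)) / (ω : ℂ)) u := h3
    rw [h4.deriv, ← ht]
    ring
  have hval : ∀ G : ℂ[X], sn (e + 1) b ω G u = (Gc (e + 1) b G).eval t / (ω : ℂ) := by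
    intro G
    unfold sn sc
    rw [← ht]
  unfold wr at h0
  rw [hder, hder, hval, hval] at h0
  obtain ⟨p1, p2⟩ := DualInf_eval e b P t hz
  obtain ⟨q1, q2⟩ := DualInf_eval e b B t hz
  rw [p1, p2, q1, q2] at h0
  have hK : ((1 / √((1 + ‖b‖ ^ 2) ^ (e + 1)) : ℝ) : ℂ) ≠ 0 := by
    rw [Complex.ofReal_ne_zero]
    positivity
  generalize ((1 / √((1 + ‖b‖ ^ 2) ^ (e + 1)) : ℝ) : ℂ) = K at h0 hK
  have hcb : conj b ≠ 0 := by
    intro h
    rw [h, zero_mul, sub_zero] at hz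
    exact one_ne_zero hz
  have hs : b + t ≠ 0 := by
    intro h
    have h1 : conj b * (b + t) = conj b * b + 1 := by
      linear_combination -hz
    rw [h, mul_zero, mul_comm, Complex.mul_conj] at h1
    have h2 : ((Complex.normSq b : ℝ) : ℂ) + 1 = ((Complex.normSq b + 1 : ℝ) : ℂ) := by
      push_cast
      rfl
    rw [h2] at h1
    have h3 : Complex.normSq b + 1 = 0 := by
      exact_mod_cast h1.symm
    have h4 := Complex.normSq_nonneg b
    linarith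
  rw [Nat.add_sub_cancel] at hinf
  obtain ⟨x, hx⟩ : ∃ x : ℂ, x = b + t := ⟨_, rfl⟩
  rw [← hx] at h0 hs
  have h5 : K ^ 2 * x ^ e * x ^ (e + 1) * (conj b) *
      (P.coeff (e + 1) * B.coeff e - P.coeff e * B.coeff (e + 1)) = 0 := by
    generalize ((√((e + 1 : ℕ) : ℝ) : ℝ) : ℂ) = S at h0 hsd
    generalize conj b = cb at h0
    generalize P.coeff (e + 1) = p1 at h0 ⊢
    generalize P.coeff e = p0 at h0 ⊢
    generalize B.coeff (e + 1) = q1 at h0 ⊢
    generalize B.coeff e = q0 at h0 ⊢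
    generalize (ω : ℂ) = w at h0 hωc
    rw [pow_succ x e] at h0 ⊢
    generalize x ^ e = y at h0 ⊢
    have h6 : K ^ 2 * y * (y * x) * cb * (p1 * q0 - p0 * q1) = S * w ^ 2 *
        (K * (-cb * p0 * y + (↑e + 1) * p1 * y) / S / w * (K * (q1 * (y * x)) / w) -
          K * (p1 * (y * x)) / w * (K * (-cb * q0 * y + (↑e + 1) * q1 * y) / S / w)) := by
      field_simp
      ring
    rw [h6, h0, mul_zero]
  have hxe : x ^ e ≠ 0 := pow_ne_zero _ hs
  have hxe1 : x ^ (e + 1) ≠ 0 := pow_ne_zero _ hs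
  have hK2 : K ^ 2 ≠ 0 := pow_ne_zero _ hK
  have h6 : K ^ 2 * x ^ e * x ^ (e + 1) * (conj b) ≠ 0 :=
    mul_ne_zero (mul_ne_zero (mul_ne_zero hK2 hxe) hxe1) hcb
  rcases mul_eq_zero.1 h5 with h7 | h7
  · exact h6 h7
  · exact hinf (sub_eq_zero.1 h7)

end Pool.Agent.H91.PR
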