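import Pool.Agent.H91.LD.ELoc2
import Pool.Agent.H91.PR.PDefs

/-!
# [H91 PR LOCM] local analysis at a critical point, both functions perturbed, explicit constants

Adapt the proof of `loc_two` in `H91/LD/ELoc2` (read it first). `M = 10^6`, `F = P + D1`, `G = B + D2`, `l = χ0 r^4/2`,
`η = χ0^2 r^12/10^30` (much smaller than everything below), `η2 ≤ η ≤ 1`.
* At `u`: `wr F G = wr P B + wr P D2 + wr D1 B + wr D1 D2 = 0`, so `‖wr P B u‖ ≤ 2 M η2 + 2 M η2 + 2 η2 η2 ≤ 6 M η2` (`wr_bound`), and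
  `‖χ wr A B u‖ ≤ ‖wr P B u‖ + 2 η M ≤ 8 M η`, so `‖wr A B u‖ ≤ 8 M η/χ0 < r^8`, (n3): `‖wr1 A B u‖ ≥ r^4`, `‖wr1 P B u‖ ≥ χ0 r^4 - 2 η M ≥ l`.
* `newton` for `wr P B` at `u` (`K = 4 M^2`, `e = 6 M η2`; `8 K e ≤ l^2` and `2 e/l ≤ 1/2` hold): `u1`, `wr P B u1 = 0`,
  `h = u - u1`, `‖h‖ ≤ 12 M η2/l ≤ 1/2`, so `‖u1‖ ≤ 1`.
* Lower bounds: if `‖B u‖ ≥ r^8` fine. Otherwise `‖B' u‖ ≥ r^4` (n2), `‖A u‖ ≥ r - r^8 ≥ ..`; if `r = 1` or in general: (n1) gives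
  `‖A u‖ + ‖B u‖ ≥ r`, so either `‖B u‖ ≥ r/2` (fine) or `‖A u‖ ≥ r/2`, `‖F u‖ ≥ χ0 r/2 - 2 η ≥ χ0 r/4`, `‖G' u‖ ≥ r^4/2`, `‖F' u‖ ≤ 2 M`, and
  `F' G = F G'` at `u` gives `‖G u‖ ≥ χ0 r^5/(16 M)`. So `‖G u‖ ≥ χ0 r^8/(16 M) - η` in all cases, `‖B u1‖ ≥ ‖G u‖ - η2 - M ‖h‖ ≥ χ0 r^8/10^9 =: κ`.
* Taylor (`EB.tay` at `u1`, `wr P B u1 = 0`): `‖P u B u1 - P u1 B u‖ ≤ 2 M^2 ‖h‖^2`;
  `F u B u1 - P u1 G u = (P u B u1 - P u1 B u) + (D1 u B u1 - P u1 D2 u)`, and `D1 u B u1 - P u1 D2 u = N + O(2 M η2 ‖h‖)` with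
  `N = D1 u1 B u1 - P u1 D2 u1`, `‖N‖ ≤ 2 M η2` (`EB.lip`). Hence
  `F u/G u - P u1/B u1 = (N + E)/(G u B u1)`, `‖E‖ ≤ 2 M^2 ‖h‖^2 + 2 M η2 ‖h‖`, and `N/(G u B u1) - N/(B u1)^2 = N (B u1 - G u)/(G u (B u1)^2)`,
  `‖B u1 - G u‖ ≤ M ‖h‖ + η2`. With `‖h‖ ≤ 12 M η2/l` the total is at most
  `(288 M^4/l^2 + 24 M^2/l)/κ^2 η2^2 + 2 M (12 M^2/l + 1)/κ^3 η2^2 ≤ 10^60/(χ0^5 r^32) η2^2` (use `l ≤ 1`, `κ ≤ 1`: at most `400 M^4/(l^2 κ^3)`).
* `loc_low`: the same lower bounds at a zero of `wr P B` in the unit disc (`D1 = D2 = 0`).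
* `loc_cnt`: proof of `loc_three` (`H91/LD/ELoc`) with `δ = l/(4 M^2)`, `n = ⌈2/δ⌉ ≤ 3/δ`: the number is at most `(2n+1)^2 ≤ (7/δ)^2 ≤ 10^30/(χ0^2 r^8)`.
-/

set_option autoImplicit false

open Polynomial MeasureTheory ComplexConjugate

namespace Pool.Agent.H91.PR

open Pool.Agent.H85.LD Pool.Agent.H91.LD

private theorem LocM_dd {f : ℂ → ℂ} (hf : Differentiable ℂ f) : Differentiable ℂ (deriv f) :=
  differentiableOn_univ.1 (hf.differentiableOn.deriv isOpen_univ)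

private theorem LocM_lin {P A B : ℂ → ℂ} (hP : Differentiable ℂ P) (hA : Differentiable ℂ A)
    (c : ℂ) (u : ℂ) :
    wr (fun u => P u - c * A u) B u = wr P B u - c * wr A B u ∧
    wr1 (fun u => P u - c * A u) B u = wr1 P B u - c * wr1 A B u := by
  have hP' : Differentiable ℂ (deriv P) := LocM_dd hP
  have hA' : Differentiable ℂ (deriv A) := LocM_dd hA
  have h1 : deriv (fun u => P u - c * A u) = fun u => deriv P u - c * deriv A u := by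
    funext x
    exact ((hP x).hasDerivAt.sub ((hA x).hasDerivAt.const_mul c)).deriv
  have h2 : deriv (fun u => deriv P u - c * deriv A u) =
      fun u => deriv (deriv P) u - c * deriv (deriv A) u := by
    funext x
    exact ((hP' x).hasDerivAt.sub ((hA' x).hasDerivAt.const_mul c)).deriv
  constructor
  · unfold wr
    rw [h1]
    ring
  · unfold wr1
    rw [h1, h2]
    ring

/-- lower bound for the derivative of the Wronskian where the Wronskian is small -/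
private theorem LocM_low1 {r χ0 χ η : ℝ} (hr : 0 < r) (hr1 : r ≤ 1) (hχ0 : 0 < χ0) (hχ : χ0 ≤ χ)
    {A B P : ℂ → ℂ} (hA : EB A 1000000) (hB : EB B 1000000)
    (hP : EB P 1000000) (hPA : EB (fun u => P u - (χ : ℂ) * A u) η)
    (hη : η * 10 ^ 30 ≤ χ0 * r ^ 8) (hn : NDf r A B)
    (u : ℂ) (hu : ‖u‖ ≤ 1) (hw : ‖wr P B u‖ ≤ 6000000 * η) :
    χ0 * r ^ 4 / 2 ≤ ‖wr1 P B u‖ := by
  have hη0 : 0 ≤ η := hPA.nonneg
  have hχp : 0 ≤ χ := by linarith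
  have hr4 : 0 < r ^ 4 := pow_pos hr 4
  have hr8 : 0 < r ^ 8 := pow_pos hr 8
  have hr84 : χ0 * r ^ 8 ≤ χ0 * r ^ 4 :=
    mul_le_mul_of_nonneg_left (pow_le_pow_of_le_one hr.le hr1 (by norm_num)) hχ0.le
  have hpos : 0 < χ0 * r ^ 8 := by positivity
  have hb := wr_bound hPA hB u (by linarith)
  obtain ⟨h2, h3⟩ := LocM_lin (B := B) hP.1 hA.1 (χ : ℂ) u
  rw [h2, h3] at hb
  obtain ⟨hb1, hb2⟩ := hb
  have h7 : ‖wr A B u‖ < r ^ 8 := by
    have h8 : ‖(χ : ℂ) * wr A B u‖ ≤ ‖wr P B u‖ + ‖wr P B u - (χ : ℂ) * wr A B u‖ := by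
      have := norm_sub_le (wr P B u) (wr P B u - (χ : ℂ) * wr A B u)
      rwa [sub_sub_cancel] at this
    rw [norm_mul, Complex.norm_real, Real.norm_of_nonneg hχp] at h8
    have h9 : χ0 * ‖wr A B u‖ ≤ χ * ‖wr A B u‖ :=
      mul_le_mul_of_nonneg_right hχ (norm_nonneg _)
    have h11 : χ0 * ‖wr A B u‖ ≤ χ0 * (r ^ 8 / 2) := by
      norm_num at hη
      linarith
    have h12 := le_of_mul_le_mul_left h11 hχ0
    linarith
  have h8 := hn.n3 u hu h7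
  have h9 : ‖(χ : ℂ) * wr1 A B u‖ ≤ ‖wr1 P B u‖ + ‖wr1 P B u - (χ : ℂ) * wr1 A B u‖ := by
    have := norm_sub_le (wr1 P B u) (wr1 P B u - (χ : ℂ) * wr1 A B u)
    rwa [sub_sub_cancel] at this
  rw [norm_mul, Complex.norm_real, Real.norm_of_nonneg hχp] at h9
  have h10 : χ0 * r ^ 4 ≤ χ * ‖wr1 A B u‖ := mul_le_mul hχ h8 hr4.le hχp
  norm_num at hη
  linarith

/-- lower bound for the denominator at a zero of the Wronskian of the perturbed pair -/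
private theorem LocM_low2 {r χ0 χ η : ℝ} (hr : 0 < r) (hr1 : r ≤ 1) (hχ0 : 0 < χ0) (hχ : χ0 ≤ χ)
    (hχ1 : χ ≤ 1) {A B P D1 D2 : ℂ → ℂ} (hA : EB A 1000000) (hB : EB B 1000000)
    (hP : EB P 1000000) (hPA : EB (fun u => P u - (χ : ℂ) * A u) η)
    (hη : η * 10 ^ 30 ≤ χ0 * r ^ 8) (hn : NDf r A B) (hD1 : EB D1 η) (hD2 : EB D2 η)
    (u : ℂ) (hu : ‖u‖ ≤ 1)
    (hwr : wr (fun u => P u + D1 u) (fun u => B u + D2 u) u = 0) :
    χ0 * r ^ 8 / 16000000 ≤ ‖B u + D2 u‖ := by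
  have hη0 : 0 ≤ η := hPA.nonneg
  have hχp : 0 ≤ χ := by linarith
  have hχ01 : χ0 ≤ 1 := by linarith
  have hr4 : 0 < r ^ 4 := pow_pos hr 4
  have hr8 : 0 < r ^ 8 := pow_pos hr 8
  have hr81 : r ^ 8 ≤ r := by
    have := pow_le_pow_of_le_one hr.le hr1 (show 1 ≤ 8 by norm_num)
    simpa using this
  have hr84 : r ^ 8 ≤ r ^ 4 := pow_le_pow_of_le_one hr.le hr1 (by norm_num)
  have hr85 : r ^ 8 ≤ r ^ 5 := pow_le_pow_of_le_one hr.le hr1 (by norm_num)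
  have hc8 : χ0 * r ^ 8 ≤ r ^ 8 := by nlinarith
  have hc1 : χ0 * r ^ 8 ≤ χ0 * r := mul_le_mul_of_nonneg_left hr81 hχ0.le
  have hpos : 0 < χ0 * r ^ 8 := by positivity
  have h1 : ‖B u‖ ≤ ‖B u + D2 u‖ + ‖D2 u‖ := by
    have := norm_sub_le (B u + D2 u) (D2 u)
    rwa [add_sub_cancel_right] at this
  have h2 := hD2.2 u (by linarith)
  norm_num at hη
  by_cases hB8 : ‖B u‖ < r ^ 8
  · by_cases hBr : r / 2 ≤ ‖B u‖
    · linarith
    · push Not at hBr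
      have hA1 : r / 2 ≤ ‖A u‖ := by
        have := hn.n1 u hu
        linarith
      have hB1 : r ^ 4 ≤ ‖deriv B u‖ := hn.n2 u hu hB8
      have hFu : χ0 * r / 4 ≤ ‖P u + D1 u‖ := by
        have h3 : ‖(χ : ℂ) * A u‖ ≤ ‖P u + D1 u‖ + (‖D1 u‖ + ‖P u - (χ : ℂ) * A u‖) := by
          have h4 : (χ : ℂ) * A u = (P u + D1 u) - (D1 u + (P u - (χ : ℂ) * A u)) := by
            ring
          have h5 := norm_sub_le (P u + D1 u) (D1 u + (P u - (χ : ℂ) * A u))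
          rw [← h4] at h5
          exact h5.trans (add_le_add le_rfl (norm_add_le _ _))
        rw [norm_mul, Complex.norm_real, Real.norm_of_nonneg hχp] at h3
        have h4 := hD1.2 u (by linarith)
        have h5 := hPA.2 u (by linarith)
        have h6 : χ0 * (r / 2) ≤ χ * ‖A u‖ := mul_le_mul hχ hA1 (by positivity) hχp
        simp only at h5
        linarith
      have hdF : deriv (fun u => P u + D1 u) u = deriv P u + deriv D1 u :=
        ((hP.1 u).hasDerivAt.add (hD1.1 u).hasDerivAt).deriv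
      have hdG : deriv (fun u => B u + D2 u) u = deriv B u + deriv D2 u :=
        ((hB.1 u).hasDerivAt.add (hD2.1 u).hasDerivAt).deriv
      have hF'u : ‖deriv P u + deriv D1 u‖ ≤ 2000000 := by
        have h3 := norm_add_le (deriv P u) (deriv D1 u)
        have h4 := hP.d1 u (by linarith)
        have h5 := hD1.d1 u (by linarith)
        have h6 : χ0 * r ^ 8 ≤ 1 := by
          have : r ^ 8 ≤ 1 := pow_le_one₀ hr.le hr1
          linarith
        linarith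
      have hG'u : r ^ 4 / 2 ≤ ‖deriv B u + deriv D2 u‖ := by
        have h3 : ‖deriv B u‖ ≤ ‖deriv B u + deriv D2 u‖ + ‖deriv D2 u‖ := by
          have := norm_sub_le (deriv B u + deriv D2 u) (deriv D2 u)
          rwa [add_sub_cancel_right] at this
        have h4 := hD2.d1 u (by linarith)
        linarith
      have h5 : (deriv P u + deriv D1 u) * (B u + D2 u) =
          (P u + D1 u) * (deriv B u + deriv D2 u) := by
        unfold wr at hwr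
        rw [hdF, hdG] at hwr
        linear_combination hwr
      have h6 : ‖deriv P u + deriv D1 u‖ * ‖B u + D2 u‖ =
          ‖P u + D1 u‖ * ‖deriv B u + deriv D2 u‖ := by
        rw [← norm_mul, ← norm_mul, h5]
      have h7 : χ0 * r / 4 * (r ^ 4 / 2) ≤ ‖P u + D1 u‖ * ‖deriv B u + deriv D2 u‖ :=
        mul_le_mul hFu hG'u (by positivity) (norm_nonneg _)
      have h8 : ‖deriv P u + deriv D1 u‖ * ‖B u + D2 u‖ ≤ 2000000 * ‖B u + D2 u‖ :=
        mul_le_mul_of_nonneg_right hF'u (norm_nonneg _)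
      have h9 : χ0 * r / 4 * (r ^ 4 / 2) = χ0 * r ^ 5 / 8 := by ring
      have h10 : χ0 * r ^ 8 ≤ χ0 * r ^ 5 := mul_le_mul_of_nonneg_left hr85 hχ0.le
      rw [h9] at h7
      linarith
  · push Not at hB8
    linarith

private theorem LocM_num {r χ0 : ℝ} (hr : 0 < r) (hr1 : r ≤ 1) (hχ0 : 0 < χ0) (hχ1 : χ0 ≤ 1) :
    χ0 ^ 2 * r ^ 12 / 10 ^ 30 * 10 ^ 30 ≤ χ0 * r ^ 8 := by
  have h1 : χ0 * r ^ 4 ≤ 1 := by
    have : r ^ 4 ≤ 1 := pow_le_one₀ hr.le hr1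
    have h0 : 0 < r ^ 4 := pow_pos hr 4
    nlinarith
  have h2 : 0 < χ0 * r ^ 8 := by positivity
  have h3 : χ0 ^ 2 * r ^ 12 / 10 ^ 30 * 10 ^ 30 = (χ0 * r ^ 8) * (χ0 * r ^ 4) := by
    rw [div_mul_cancel₀ _ (by positivity)]
    ring
  rw [h3]
  nlinarith

private theorem LocM_id (p d b e p1 d1 b1 e1 : ℂ) (hG : b + e ≠ 0) (hB : b1 ≠ 0) :
    (p + d) / (b + e) - p1 / b1 - (d1 * b1 - p1 * e1) / b1 ^ 2 =
      ((p * b1 - p1 * b) + ((d - d1) * b1 - p1 * (e - e1))) / ((b + e) * b1) +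
      (d1 * b1 - p1 * e1) * (b1 - (b + e)) / ((b + e) * b1 ^ 2) := by
  field_simp
  ring

theorem loc_move {r χ0 χ η2 : ℝ} (hr : 0 < r) (hr1 : r ≤ 1) (hχ0 : 0 < χ0) (hχ : χ0 ≤ χ)
    (hχ1 : χ ≤ 1) {A B P D1 D2 : ℂ → ℂ} (hA : EB A (10 ^ 6)) (hB : EB B (10 ^ 6))
    (hP : EB P (10 ^ 6)) (hPA : EB (fun u => P u - (χ : ℂ) * A u) (χ0 ^ 2 * r ^ 12 / 10 ^ 30))
    (hn : NDf r A B) (hη : η2 ≤ χ0 ^ 2 * r ^ 12 / 10 ^ 30) (hD1 : EB D1 η2) (hD2 : EB D2 η2)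
    (u : ℂ) (hu : ‖u‖ ≤ 1 / 2)
    (hwr : wr (fun u => P u + D1 u) (fun u => B u + D2 u) u = 0) :
    ∃ u1 : ℂ, ‖u1‖ ≤ 1 ∧ wr P B u1 = 0 ∧ χ0 * r ^ 8 / 10 ^ 9 ≤ ‖B u1‖ ∧
      χ0 * r ^ 8 / 10 ^ 9 ≤ ‖B u + D2 u‖ ∧
      ‖(P u + D1 u) / (B u + D2 u) - P u1 / B u1 -
        (D1 u1 * B u1 - P u1 * D2 u1) / (B u1) ^ 2‖ ≤ 10 ^ 60 / (χ0 ^ 5 * r ^ 32) * η2 ^ 2 := by
  have h106 : (10 : ℝ) ^ 6 = 1000000 := by norm_num
  rw [h106] at hA hB hP
  have hχ01 : χ0 ≤ 1 := by linarith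
  have hnum := LocM_num hr hr1 hχ0 hχ01
  obtain ⟨η, hηd⟩ : ∃ η : ℝ, η = χ0 ^ 2 * r ^ 12 / 10 ^ 30 := ⟨_, rfl⟩
  rw [← hηd] at hPA hη hnum
  obtain ⟨q, hq⟩ : ∃ q : ℝ, q = χ0 * r ^ 4 := ⟨_, rfl⟩
  obtain ⟨a, ha⟩ : ∃ a : ℝ, a = χ0 * r ^ 8 := ⟨_, rfl⟩
  have hr4 : 0 < r ^ 4 := pow_pos hr 4
  have hr8 : 0 < r ^ 8 := pow_pos hr 8
  have hr41 : r ^ 4 ≤ 1 := pow_le_one₀ hr.le hr1
  have hq0 : 0 < q := by rw [hq]; positivity
  have hq1 : q ≤ 1 := by rw [hq]; nlinarith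
  have ha0 : 0 < a := by rw [ha]; positivity
  have haq : a ≤ q := by
    rw [ha, hq]
    exact mul_le_mul_of_nonneg_left (pow_le_pow_of_le_one hr.le hr1 (by norm_num)) hχ0.le
  have hηqa : η * 10 ^ 30 = q * a := by
    rw [hηd, div_mul_cancel₀ _ (by positivity), hq, ha]
    ring
  have hη20 : 0 ≤ η2 := hD1.nonneg
  have hη0 : 0 ≤ η := hPA.nonneg
  have hη2a : η2 * 10 ^ 30 ≤ q * a := by
    rw [← hηqa]
    exact mul_le_mul_of_nonneg_right hη (by positivity)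
  have hη2s : η2 ≤ 1 := by
    have h1 : q * a ≤ 1 := by nlinarith
    norm_num at hη2a
    linarith
  have hu1 : ‖u‖ ≤ 1 := by linarith
  -- the unperturbed Wronskian at u
  have hP' : Differentiable ℂ (deriv P) := LocM_dd hP.1
  have hdF : deriv (fun u => P u + D1 u) u = deriv P u + deriv D1 u :=
    ((hP.1 u).hasDerivAt.add (hD1.1 u).hasDerivAt).deriv
  have hdG : deriv (fun u => B u + D2 u) u = deriv B u + deriv D2 u :=
    ((hB.1 u).hasDerivAt.add (hD2.1 u).hasDerivAt).deriv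
  have hwP : wr P B u = -(wr P D2 u + wr D1 B u + wr D1 D2 u) := by
    unfold wr at hwr ⊢
    rw [hdF, hdG] at hwr
    linear_combination hwr
  have hwPn : ‖wr P B u‖ ≤ 6000000 * η2 := by
    rw [hwP, norm_neg]
    have h1 := norm_add_le (wr P D2 u + wr D1 B u) (wr D1 D2 u)
    have h2 := norm_add_le (wr P D2 u) (wr D1 B u)
    have h3 := (wr_bound hP hD2 u (by linarith)).1
    have h4 := (wr_bound hD1 hB u (by linarith)).1
    have h5 := (wr_bound hD1 hD2 u (by linarith)).1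
    have h6 : η2 * η2 ≤ 1 * η2 := mul_le_mul_of_nonneg_right hη2s hη20
    linarith
  have hwPη : ‖wr P B u‖ ≤ 6000000 * η := by linarith
  have hlow := LocM_low1 hr hr1 hχ0 hχ hA hB hP hPA hnum hn u hu1 hwPη
  rw [← hq] at hlow
  rw [← ha] at hnum ⊢
  -- Newton
  have hwd : ∀ x, HasDerivAt (wr P B) (wr1 P B x) x := wr_hasDeriv hP.1 hB.1
  have hdw : deriv (wr P B) = wr1 P B := by
    funext x
    exact (hwd x).deriv
  obtain ⟨u1, hu1n, hw1⟩ := newton (wr P B) (fun x => (hwd x).differentiableAt) u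
    (4 * 1000000 * 1000000) (q / 2) (6000000 * η2) (by positivity) (by positivity)
    (by positivity) (by
      intro v hv
      rw [hdw]
      refine (wr_lip hP hB u v (by linarith) ?_).2
      have := norm_add_le (v - u) u
      rw [sub_add_cancel] at this
      linarith) (by rwa [hdw]) hwPn (by
      have h1 : q * a ≤ q * q := mul_le_mul_of_nonneg_left haq hq0.le
      norm_num at hη2a
      nlinarith) (by
      rw [div_le_iff₀ (by positivity)]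
      have h1 : q * a ≤ q * 1 := mul_le_mul_of_nonneg_left (by linarith) hq0.le
      norm_num at hη2a
      linarith)
  obtain ⟨t, ht⟩ : ∃ t : ℝ, t = ‖u1 - u‖ := ⟨_, rfl⟩
  have ht0 : 0 ≤ t := by rw [ht]; exact norm_nonneg _
  have htq : t * q ≤ 24000000 * η2 := by
    rw [← ht] at hu1n
    have h1 := mul_le_mul_of_nonneg_right hu1n hq0.le
    have h2 : 2 * (6000000 * η2) / (q / 2) * q = 24000000 * η2 := by
      field_simp
      ring
    linarith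
  have hta : t * 10 ^ 22 ≤ a := by
    have h1 : t * 10 ^ 22 * q ≤ a * q := by
      norm_num at hη2a ⊢
      linarith
    exact le_of_mul_le_mul_right h1 hq0
  have hu1' : ‖u1‖ ≤ 1 := by
    have := norm_add_le (u1 - u) u
    rw [sub_add_cancel, ← ht] at this
    norm_num at hta
    linarith
  -- lower bounds
  have hD1' : EB D1 η := hD1.mono hη
  have hD2' : EB D2 η := hD2.mono hη
  have hG := LocM_low2 hr hr1 hχ0 hχ hχ1 hA hB hP hPA (by rw [← ha]; exact hnum) hn hD1' hD2' u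
    hu1 hwr
  rw [← ha] at hG
  obtain ⟨κ, hκ⟩ : ∃ κ : ℝ, κ = a / 10 ^ 9 := ⟨_, rfl⟩
  have hκ0 : 0 < κ := by rw [hκ]; positivity
  have hGκ : κ ≤ ‖B u + D2 u‖ := by
    rw [hκ]
    norm_num
    linarith
  have hBG : ‖B u1 - (B u + D2 u)‖ ≤ 1000000 * t + η2 := by
    have h1 := hB.lip u u1 (by linarith) (by linarith)
    rw [← ht] at h1
    have h2 := hD2.2 u (by linarith)
    have h3 : B u1 - (B u + D2 u) = (B u1 - B u) - D2 u := by ring
    rw [h3]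
    exact (norm_sub_le _ _).trans (add_le_add h1 h2)
  have hBκ : κ ≤ ‖B u1‖ := by
    have h1 : ‖B u + D2 u‖ ≤ ‖B u1‖ + ‖B u1 - (B u + D2 u)‖ := by
      have := norm_sub_le (B u1) (B u1 - (B u + D2 u))
      rwa [sub_sub_cancel] at this
    have h2 : η2 * 10 ^ 30 ≤ a := by
      have : q * a ≤ 1 * a := mul_le_mul_of_nonneg_right hq1 ha0.le
      linarith
    rw [hκ]
    norm_num at hta h2 ⊢
    linarith
  refine ⟨u1, hu1', hw1, by rw [← hκ]; exact hBκ, by rw [← hκ]; exact hGκ, ?_⟩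
  -- Taylor
  have hGne : B u + D2 u ≠ 0 := by
    intro h
    rw [h, norm_zero] at hGκ
    linarith
  have hBne : B u1 ≠ 0 := by
    intro h
    rw [h, norm_zero] at hBκ
    linarith
  have hT1 := hP.tay u1 u hu1' hu1
  have hT2 := hB.tay u1 u hu1' hu1
  rw [norm_sub_rev u u1, ← ht] at hT1 hT2
  have hPB : ‖P u * B u1 - P u1 * B u‖ ≤ 2 * 1000000 ^ 2 * t ^ 2 := by
    have h1 : P u * B u1 - P u1 * B u =
        (P u - P u1 - deriv P u1 * (u - u1)) * B u1 -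
          P u1 * (B u - B u1 - deriv B u1 * (u - u1)) := by
      unfold wr at hw1
      linear_combination (u - u1) * hw1
    rw [h1]
    refine (norm_sub_le _ _).trans ?_
    rw [norm_mul, norm_mul]
    have h2 := mul_le_mul hT1 (hB.2 u1 (by linarith)) (norm_nonneg _) (by positivity)
    have h3 := mul_le_mul (hP.2 u1 (by linarith)) hT2 (norm_nonneg _) (by positivity)
    linarith
  have hDl1 := hD1.lip u1 u (by linarith) (by linarith)
  have hDl2 := hD2.lip u1 u (by linarith) (by linarith)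
  rw [norm_sub_rev u u1, ← ht] at hDl1 hDl2
  have hE : ‖(P u * B u1 - P u1 * B u) + ((D1 u - D1 u1) * B u1 - P u1 * (D2 u - D2 u1))‖ ≤
      2 * 1000000 ^ 2 * t ^ 2 + 2 * 1000000 * (η2 * t) := by
    refine (norm_add_le _ _).trans (add_le_add hPB ?_)
    refine (norm_sub_le _ _).trans ?_
    rw [norm_mul, norm_mul]
    have h2 := mul_le_mul hDl1 (hB.2 u1 (by linarith)) (norm_nonneg _) (by positivity)
    have h3 := mul_le_mul (hP.2 u1 (by linarith)) hDl2 (norm_nonneg _) (by positivity)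
    linarith
  have hN : ‖D1 u1 * B u1 - P u1 * D2 u1‖ ≤ 2 * 1000000 * η2 := by
    refine (norm_sub_le _ _).trans ?_
    rw [norm_mul, norm_mul]
    have h2 := mul_le_mul (hD1.2 u1 (by linarith)) (hB.2 u1 (by linarith)) (norm_nonneg _) hη20
    have h3 := mul_le_mul (hP.2 u1 (by linarith)) (hD2.2 u1 (by linarith)) (norm_nonneg _)
      (by positivity)
    linarith
  have hid : (P u + D1 u) / (B u + D2 u) - P u1 / B u1 -
        (D1 u1 * B u1 - P u1 * D2 u1) / (B u1) ^ 2 =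
      ((P u * B u1 - P u1 * B u) + ((D1 u - D1 u1) * B u1 - P u1 * (D2 u - D2 u1))) /
        ((B u + D2 u) * B u1) +
      (D1 u1 * B u1 - P u1 * D2 u1) * (B u1 - (B u + D2 u)) / ((B u + D2 u) * (B u1) ^ 2) := by
    exact LocM_id (P u) (D1 u) (B u) (D2 u) (P u1) (D1 u1) (B u1) (D2 u1) hGne hBne
  rw [hid]
  refine (norm_add_le _ _).trans ?_
  rw [norm_div, norm_div, norm_mul, norm_mul, norm_mul, norm_pow]
  have hG2 : κ ^ 2 ≤ ‖B u + D2 u‖ * ‖B u1‖ := by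
    rw [pow_two]
    exact mul_le_mul hGκ hBκ hκ0.le (norm_nonneg _)
  have hG3 : κ ^ 3 ≤ ‖B u + D2 u‖ * ‖B u1‖ ^ 2 := by
    have h1 : κ ^ 3 = κ * κ ^ 2 := by ring
    rw [h1]
    exact mul_le_mul hGκ (pow_le_pow_left₀ hκ0.le hBκ 2) (by positivity) (norm_nonneg _)
  have hNB : ‖D1 u1 * B u1 - P u1 * D2 u1‖ * ‖B u1 - (B u + D2 u)‖ ≤
      2 * 1000000 * η2 * (1000000 * t + η2) :=
    mul_le_mul hN hBG (norm_nonneg _) (by positivity)
  have hfin1 := div_le_div₀ (by positivity) hE (by positivity : (0 : ℝ) < κ ^ 2) hG2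
  have hfin2 := div_le_div₀ (by positivity) hNB (by positivity : (0 : ℝ) < κ ^ 3) hG3
  refine (add_le_add hfin1 hfin2).trans ?_
  have hκ1 : κ ≤ 1 := by
    rw [hκ, div_le_one (by positivity)]
    have : a ≤ 1 := haq.trans hq1
    norm_num
    linarith
  have hqκ : χ0 ^ 5 * r ^ 32 = 10 ^ 27 * (q ^ 2 * κ ^ 3) := by
    rw [hκ, ha, hq]
    field_simp
  have h60 : 10 ^ 60 / (χ0 ^ 5 * r ^ 32) * η2 ^ 2 = 10 ^ 33 * η2 ^ 2 / (q ^ 2 * κ ^ 3) := by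
    rw [hqκ]
    field_simp
  rw [h60, le_div_iff₀ (by positivity)]
  have hsplit : ((2 * 1000000 ^ 2 * t ^ 2 + 2 * 1000000 * (η2 * t)) / κ ^ 2 +
      2 * 1000000 * η2 * (1000000 * t + η2) / κ ^ 3) * (q ^ 2 * κ ^ 3) =
      (2 * 1000000 ^ 2 * (t * q) ^ 2 + 2 * 1000000 * (η2 * (t * q)) * q) * κ +
      2 * 1000000 * η2 * (1000000 * (t * q) * q + η2 * q ^ 2) := by
    field_simp
  rw [hsplit]
  have htq0 : 0 ≤ t * q := mul_nonneg ht0 hq0.le
  have b1 : (t * q) ^ 2 ≤ (24000000 * η2) ^ 2 := pow_le_pow_left₀ htq0 htq 2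
  have b2 : η2 * (t * q) ≤ η2 * (24000000 * η2) := mul_le_mul_of_nonneg_left htq hη20
  have b3 : η2 * (t * q) * q ≤ η2 * (24000000 * η2) := by
    calc η2 * (t * q) * q ≤ η2 * (t * q) * 1 :=
          mul_le_mul_of_nonneg_left hq1 (mul_nonneg hη20 htq0)
      _ ≤ _ := by linarith
  have b4 : (t * q) * q ≤ 24000000 * η2 := by
    calc (t * q) * q ≤ (t * q) * 1 := mul_le_mul_of_nonneg_left hq1 htq0
      _ ≤ _ := by linarith
  have b5 : η2 * q ^ 2 ≤ η2 := by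
    have : q ^ 2 ≤ 1 := pow_le_one₀ hq0.le hq1
    nlinarith
  have c1 : (2 * 1000000 ^ 2 * (t * q) ^ 2 + 2 * 1000000 * (η2 * (t * q)) * q) * κ ≤
      (2 * 1000000 ^ 2 * (24000000 * η2) ^ 2 + 2 * 1000000 * (η2 * (24000000 * η2))) * 1 := by
    refine mul_le_mul ?_ hκ1 hκ0.le (by positivity)
    linarith
  have c2 : 2 * 1000000 * η2 * (1000000 * (t * q) * q + η2 * q ^ 2) ≤
      2 * 1000000 * η2 * (1000000 * (24000000 * η2) + η2) := by
    refine mul_le_mul_of_nonneg_left ?_ (by positivity)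
    linarith
  refine (add_le_add c1 c2).trans ?_
  have h3 : 0 ≤ η2 ^ 2 := sq_nonneg _
  norm_num
  nlinarith

theorem loc_low {r χ0 χ : ℝ} (hr : 0 < r) (hr1 : r ≤ 1) (hχ0 : 0 < χ0) (hχ : χ0 ≤ χ)
    (hχ1 : χ ≤ 1) {A B P : ℂ → ℂ} (hA : EB A (10 ^ 6)) (hB : EB B (10 ^ 6))
    (hP : EB P (10 ^ 6)) (hPA : EB (fun u => P u - (χ : ℂ) * A u) (χ0 ^ 2 * r ^ 12 / 10 ^ 30))
    (hn : NDf r A B) (u : ℂ) (hu : ‖u‖ ≤ 1) (hwr : wr P B u = 0) :
    χ0 * r ^ 4 / 4 ≤ ‖wr1 P B u‖ ∧ χ0 * r ^ 8 / 10 ^ 9 ≤ ‖B u‖ := by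
  have h106 : (10 : ℝ) ^ 6 = 1000000 := by norm_num
  rw [h106] at hA hB hP
  have hnum := LocM_num hr hr1 hχ0 (by linarith)
  have hη0 := hPA.nonneg
  have hpos4 : 0 < χ0 * r ^ 4 := by positivity
  have hpos8 : 0 < χ0 * r ^ 8 := by positivity
  constructor
  · have h1 := LocM_low1 hr hr1 hχ0 hχ hA hB hP hPA hnum hn u hu (by
      rw [hwr, norm_zero]
      positivity)
    linarith
  · have hz : EB (fun _ : ℂ => (0 : ℂ)) (χ0 ^ 2 * r ^ 12 / 10 ^ 30) :=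
      ⟨differentiable_const 0, fun u _ => by simpa using hη0⟩
    have h1 := LocM_low2 hr hr1 hχ0 hχ hχ1 hA hB hP hPA hnum hn hz hz u hu (by
      simpa using hwr)
    simp only [add_zero] at h1
    norm_num
    linarith

theorem loc_cnt {r χ0 χ : ℝ} (hr : 0 < r) (hr1 : r ≤ 1) (hχ0 : 0 < χ0) (hχ : χ0 ≤ χ)
    (hχ1 : χ ≤ 1) {A B P : ℂ → ℂ} (hA : EB A (10 ^ 6)) (hB : EB B (10 ^ 6))
    (hP : EB P (10 ^ 6)) (hPA : EB (fun u => P u - (χ : ℂ) * A u) (χ0 ^ 2 * r ^ 12 / 10 ^ 30))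
    (hn : NDf r A B) : {u : ℂ | ‖u‖ ≤ 1 ∧ wr P B u = 0}.Finite ∧
      (({u : ℂ | ‖u‖ ≤ 1 ∧ wr P B u = 0}.ncard : ℕ) : ℝ) ≤ 10 ^ 30 / (χ0 ^ 2 * r ^ 8) := by
  have h106 : (10 : ℝ) ^ 6 = 1000000 := by norm_num
  rw [h106] at hA hB hP
  have hχ01 : χ0 ≤ 1 := by linarith
  have hnum := LocM_num hr hr1 hχ0 hχ01
  have hη0 := hPA.nonneg
  set l : ℝ := χ0 * r ^ 4 / 2 with hl
  have hr4 : 0 < r ^ 4 := pow_pos hr 4
  have hr41 : r ^ 4 ≤ 1 := pow_le_one₀ hr.le hr1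
  have hl0 : 0 < l := by positivity
  have hl1 : l ≤ 1 := by
    rw [hl]
    nlinarith
  set δ : ℝ := l / (4 * 1000000 * 1000000) with hδ
  have hδ0 : 0 < δ := by positivity
  have hδ1 : δ ≤ 1 := by
    rw [hδ, div_le_one (by positivity)]
    linarith
  set n : ℤ := ⌈2 / δ⌉ with hn'
  set S : Set ℂ := {u : ℂ | ‖u‖ ≤ 1 ∧ wr P B u = 0} with hS
  have hlow : ∀ u ∈ S, l ≤ ‖wr1 P B u‖ := by
    rintro u ⟨hu, hw⟩
    exact LocM_low1 hr hr1 hχ0 hχ hA hB hP hPA hnum hn u hu (by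
      rw [hw, norm_zero]
      positivity)
  have hsep : ∀ u ∈ S, ∀ v ∈ S, u ≠ v → δ ≤ ‖v - u‖ := by
    intro u hu v hv huv
    have h1 := wr_tay hP hB u v hu.1 hv.1
    rw [hu.2, hv.2, sub_zero, zero_sub, norm_neg, norm_mul] at h1
    have h2 : 0 < ‖v - u‖ := norm_pos_iff.2 (sub_ne_zero.2 (Ne.symm huv))
    have h3 : l * ‖v - u‖ ≤ (4 * 1000000 * 1000000 * ‖v - u‖) * ‖v - u‖ := by
      have h4 := mul_le_mul_of_nonneg_right (hlow u hu) h2.le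
      calc l * ‖v - u‖ ≤ ‖wr1 P B u‖ * ‖v - u‖ := h4
        _ ≤ 4 * 1000000 * 1000000 * ‖v - u‖ ^ 2 := h1
        _ = (4 * 1000000 * 1000000 * ‖v - u‖) * ‖v - u‖ := by ring
    have h5 := le_of_mul_le_mul_right h3 h2
    rw [hδ, div_le_iff₀ (by positivity)]
    linarith
  let G : ℂ → ℤ × ℤ := fun u => (⌊2 * u.re / δ⌋, ⌊2 * u.im / δ⌋)
  have hinj : Set.InjOn G S := by
    intro u hu v hv huv
    by_contra hne
    have h1 := hsep u hu v hv hne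
    have h2 : ⌊2 * u.re / δ⌋ = ⌊2 * v.re / δ⌋ := congrArg Prod.fst huv
    have h3 : ⌊2 * u.im / δ⌋ = ⌊2 * v.im / δ⌋ := congrArg Prod.snd huv
    have key : ∀ a c : ℝ, ⌊2 * a / δ⌋ = ⌊2 * c / δ⌋ → |c - a| < δ / 2 := by
      intro a c h
      have h4 := Int.abs_sub_lt_one_of_floor_eq_floor h
      have h5 : 2 * a / δ - 2 * c / δ = 2 / δ * (a - c) := by ring
      rw [h5, abs_mul, abs_of_pos (by positivity), abs_sub_comm] at h4
      have h6 : 2 / δ * |c - a| * (δ / 2) = |c - a| := by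
        field_simp
      have h7 := mul_lt_mul_of_pos_right h4 (half_pos hδ0)
      rw [h6, one_mul] at h7
      exact h7
    have h4 := key _ _ h2
    have h5 := key _ _ h3
    have h6 := Complex.norm_le_abs_re_add_abs_im (v - u)
    rw [Complex.sub_re, Complex.sub_im] at h6
    linarith
  have hbox : ∀ u ∈ S, G u ∈ ((Finset.Icc (-n) n ×ˢ Finset.Icc (-n) n : Finset (ℤ × ℤ)) :
      Set (ℤ × ℤ)) := by
    intro u hu
    have key : ∀ a : ℝ, |a| ≤ 1 → ⌊2 * a / δ⌋ ∈ Finset.Icc (-n) n := by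
      intro a ha
      rw [abs_le] at ha
      have h1 : 2 / δ ≤ (n : ℝ) := Int.le_ceil _
      rw [Finset.mem_Icc]
      constructor
      · rw [Int.le_floor]
        push_cast
        have h2 : -(2 / δ) ≤ 2 * a / δ := by
          rw [← neg_div]
          exact div_le_div_of_nonneg_right (by linarith) hδ0.le
        linarith
      · have h2 : 2 * a / δ ≤ 2 / δ := div_le_div_of_nonneg_right (by linarith) hδ0.le
        have h3 : ((⌊2 * a / δ⌋ : ℤ) : ℝ) ≤ n := (Int.floor_le _).trans (h2.trans h1)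
        exact_mod_cast h3
    have hu1 : ‖u‖ ≤ 1 := hu.1
    rw [Finset.mem_coe, Finset.mem_product]
    exact ⟨key _ ((Complex.abs_re_le_norm u).trans hu1),
      key _ ((Complex.abs_im_le_norm u).trans hu1)⟩
  refine ⟨Set.Finite.of_injOn hbox hinj (Finset.finite_toSet _), ?_⟩
  have h1 := Set.ncard_le_ncard_of_injOn G hbox hinj (Finset.finite_toSet _)
  rw [Set.ncard_coe_finset, Finset.card_product, Int.card_Icc] at h1
  have hn1 : (n : ℝ) < 2 / δ + 1 := Int.ceil_lt_add_one _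
  have hn0 : (0 : ℤ) ≤ n := Int.ceil_nonneg (by positivity)
  have h2 : ((n + 1 - -n).toNat : ℝ) = 2 * n + 1 := by
    have h3 : ((n + 1 - -n).toNat : ℤ) = 2 * n + 1 := by
      rw [Int.toNat_of_nonneg (by omega)]
      ring
    exact_mod_cast h3
  have h3 : ((S.ncard : ℕ) : ℝ) ≤ (2 * n + 1) * (2 * n + 1) := by
    rw [← h2]
    exact_mod_cast h1
  have h4 : (1 : ℝ) ≤ 1 / δ := by
    rw [le_div_iff₀ hδ0]
    linarith
  have h5 : (2 * n + 1 : ℝ) ≤ 7 / δ := by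
    have h6 : 7 / δ = 7 * (1 / δ) := by ring
    have h7 : 2 / δ = 2 * (1 / δ) := by ring
    rw [h6]
    rw [h7] at hn1
    linarith
  have hn0' : (0 : ℝ) ≤ (n : ℝ) := by exact_mod_cast hn0
  have h6 : (2 * n + 1 : ℝ) * (2 * n + 1) ≤ 7 / δ * (7 / δ) :=
    mul_le_mul h5 h5 (by positivity) (by positivity)
  refine h3.trans (h6.trans ?_)
  have h7 : 7 / δ * (7 / δ) = 3136000000000000000000000000 / (χ0 ^ 2 * r ^ 8) := by
    rw [hδ, hl]
    field_simp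
    norm_num
  rw [h7]
  refine div_le_div_of_nonneg_right (by norm_num) (by positivity)

end Pool.Agent.H91.PR
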