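import Pool.Agent.H91.LD.Localize
import Pool.Agent.H91.LD.Near
import Pool.Agent.H91.PR.LocM

/-!
# [H91 PR ITEMA] bounds for the cut off numerator; number of critical points in a cell

`P = Pj chiT A + t0`.
* `p0_EB`: `EB (sn P - chiT b sn A) (5*10^7/L + 2*10^5*δ)` in every chart (`lc_zero`, `sn_EB` for `t0`, `sn_add`; as at the beginning of the
  proof of `crit_strips`, `H91/LD/Crit`), so `EB` with `χ0^2 r^12/10^30` by `k1`; `EB (sn A) (4*10^5)`, `0 ≤ chiT ≤ 1`, so `EB (sn P) (10^6)`.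
* `p0_wm`: `schur` (`H85/LD/Schur`, weight `2 w`) gives `wm (Pj χ A - C (χ z) A) z ≤ (100/L) * 2 w z`, `0 ≤ χ z ≤ 1`, `wm A ≤ 2 w`, `200/L ≤ 1`, `δ ≤ 1`.
* `cell_count`: at most `64 (R+1)^2` centres (`hcR`, `net_card`), for each centre at most `10^30/(χ0^2 r^8)` items (`loc_cnt`): for
  `z ∈ I` with `bz z = b` `chart_pt` gives `u` with `‖u‖ ≤ 1/2`, `z = ph b (u/√d)`, `wr (sn P) (sn B) u = 0` (`sn_wr`); `z ↦ u` is injective on the items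
  with centre `b`. As in the proof of `hcell` in `crit_strips` (`Finset.card_le_mul_card_image`).
-/

set_option autoImplicit false

open Polynomial MeasureTheory ComplexConjugate

namespace Pool.Agent.H91.PR

open Pool.Agent.H85.LD Pool.Agent.H91.LD Pool.Agent.H44.Fatou

variable {N : ℕ}

theorem p0_EB (d : ℕ) (hd : 1 ≤ d) (r χ0 L δ : ℝ) (hr : 0 < r) (hr1 : r ≤ 1)
    (hχ0 : 0 < χ0) (hχ1 : χ0 ≤ 1) (hL : 1 ≤ L) (hδ : 0 ≤ δ)
    (k1 : 5 * 10 ^ 7 / L + 2 * 10 ^ 5 * δ ≤ χ0 ^ 2 * r ^ 12 / 10 ^ 30) (w : ℂ → ℝ)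
    (hw : Wgt d w) (A t0 : ℂ[X]) (hA : A.natDegree ≤ d) (hA2 : ∀ z, wm d A z ≤ 2 * w z)
    (ht0 : t0.natDegree ≤ d) (ht0w : ∀ z, wm d t0 z ≤ δ * w z) (c : ℂ → Fin N) (Z : Set ℂ)
    (P : ℂ[X]) (hP : P = Pj d (chiT d L c Z) A + t0) (b : ℂ) :
    EB (fun u => sn d b (w b) P u - ((chiT d L c Z b : ℝ) : ℂ) * sn d b (w b) A u)
      (χ0 ^ 2 * r ^ 12 / 10 ^ 30) ∧ EB (sn d b (w b) P) (10 ^ 6) := by
  have hL0 : 0 < L := by linarith
  have h1 := (lc_zero d hd L hL c Z w hw A hA hA2 b).add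
    (sn_EB d hd w hw b t0 ht0 δ hδ (fun z _ => ht0w z))
  have h2 : (fun u => sn d b (w b) (Pj d (chiT d L c Z) A) u -
      ((chiT d L c Z b : ℝ) : ℂ) * sn d b (w b) A u + sn d b (w b) t0 u) =
      (fun u => sn d b (w b) P u - ((chiT d L c Z b : ℝ) : ℂ) * sn d b (w b) A u) := by
    funext v
    rw [hP, sn_add]
    ring
  rw [h2] at h1
  have h3 := h1.mono k1
  refine ⟨h3, ?_⟩
  have hA' : EB (sn d b (w b) A) (2 * 10 ^ 5 * 2) :=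
    sn_EB d hd w hw b A hA 2 (by norm_num) (fun z _ => hA2 z)
  have hn1 : ‖((chiT d L c Z b : ℝ) : ℂ)‖ ≤ 1 := by
    rw [Complex.norm_real, Real.norm_of_nonneg (chiT_nonneg d L hL0 c Z b)]
    exact chiT_le_one d L hL0 c Z b
  have h4 := h3.add (hA'.const_mul ((chiT d L c Z b : ℝ) : ℂ))
  have h5 : (fun u => sn d b (w b) P u - ((chiT d L c Z b : ℝ) : ℂ) * sn d b (w b) A u +
      ((chiT d L c Z b : ℝ) : ℂ) * sn d b (w b) A u) = sn d b (w b) P := by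
    funext v
    ring
  rw [h5] at h4
  refine h4.mono ?_
  have h6 := mul_le_mul_of_nonneg_right hn1 (by norm_num : (0 : ℝ) ≤ 2 * 10 ^ 5 * 2)
  have h7 : χ0 ^ 2 * r ^ 12 ≤ 1 := by
    have e1 : χ0 ^ 2 ≤ 1 := pow_le_one₀ hχ0.le hχ1
    have e2 : r ^ 12 ≤ 1 := pow_le_one₀ hr.le hr1
    calc χ0 ^ 2 * r ^ 12 ≤ 1 * 1 := mul_le_mul e1 e2 (by positivity) (by norm_num)
      _ = 1 := by norm_num
  have h8 : χ0 ^ 2 * r ^ 12 / 10 ^ 30 ≤ 1 := by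
    rw [div_le_one (by positivity)]
    exact h7.trans (by norm_num)
  linarith

theorem p0_wm (d : ℕ) (hd : 1 ≤ d) (L δ : ℝ) (hL : 200 ≤ L) (hδ : 0 ≤ δ) (hδ1 : δ ≤ 1)
    (w : ℂ → ℝ) (hw : Wgt d w) (A t0 : ℂ[X]) (hA : A.natDegree ≤ d)
    (hA2 : ∀ z, wm d A z ≤ 2 * w z) (ht0 : t0.natDegree ≤ d) (ht0w : ∀ z, wm d t0 z ≤ δ * w z)
    (c : ℂ → Fin N) (Z : Set ℂ) (z : ℂ) : wm d (Pj d (chiT d L c Z) A + t0) z ≤ 4 * w z := by
  have hL0 : 0 < L := by linarith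
  have hwz := hw.pos z
  have hw1 : ∀ z, 0 < 2 * w z := fun z => by have := hw.pos z; linarith
  have hw2 : ∀ z x, 2 * w x ≤ 2 * w z * Real.exp (√d * sg z x) := fun z x => by
    have := hw.lip z x
    linarith
  have h1 := schur d hd L hL0 (chiT d L c Z) (chiT_continuous d L hL0 c Z).measurable
    (chiT_nonneg d L hL0 c Z) (chiT_le_one d L hL0 c Z) (chiT_lip d L hL0 c Z)
    (fun z => 2 * w z) hw1 hw2 A hA hA2 z
  have e : Pj d (chiT d L c Z) A =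
      (Pj d (chiT d L c Z) A - C ((chiT d L c Z z : ℝ) : ℂ) * A) +
        C ((chiT d L c Z z : ℝ) : ℂ) * A := by ring
  have h2 : wm d (Pj d (chiT d L c Z) A) z ≤ 100 / L * (2 * w z) + 2 * w z := by
    rw [e]
    refine (wm_add_le d _ _ z).trans ?_
    rw [wm_C_mul, Complex.norm_real, Real.norm_of_nonneg (chiT_nonneg d L hL0 c Z z)]
    have h3 : chiT d L c Z z * wm d A z ≤ 1 * (2 * w z) :=
      mul_le_mul (chiT_le_one d L hL0 c Z z) (hA2 z) (wm_nonneg _ _ _) (by norm_num)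
    linarith
  have h4 : 100 / L ≤ 1 / 2 := by
    rw [div_le_div_iff₀ hL0 (by norm_num)]
    linarith
  have h5 : 100 / L * (2 * w z) ≤ 1 / 2 * (2 * w z) :=
    mul_le_mul_of_nonneg_right h4 (by linarith)
  have h6 : δ * w z ≤ 1 * w z := mul_le_mul_of_nonneg_right hδ1 hwz.le
  have h7 := ht0w z
  refine (wm_add_le d _ _ z).trans ?_
  linarith

theorem cell_count (d : ℕ) (hd : 1 ≤ d) (r χ0 L R : ℝ) (hr : 0 < r) (hr1 : r ≤ 1)
    (hχ0 : 0 < χ0) (hχ1 : χ0 ≤ 1) (hL : 1 ≤ L) (hR : 0 ≤ R) (s : Finset ℂ) (hs : Sep d s)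
    (w : ℂ → ℝ) (hw : Wgt d w) (A B P : ℂ[X]) (hB : B.natDegree ≤ d) (hP : P.natDegree ≤ d)
    (hAb : ∀ b ∈ s, EB (sn d b (w b) A) (10 ^ 6)) (hBb : ∀ b ∈ s, EB (sn d b (w b) B) (10 ^ 6))
    (hPb : ∀ b ∈ s, EB (sn d b (w b) P) (10 ^ 6)) (c : ℂ → Fin N) (Z : Set ℂ)
    (hPA : ∀ b ∈ s, EB (fun u => sn d b (w b) P u - ((chiT d L c Z b : ℝ) : ℂ) * sn d b (w b) A u)
      (χ0 ^ 2 * r ^ 12 / 10 ^ 30)) (hn : ∀ b ∈ s, NDf r (sn d b (w b) A) (sn d b (w b) B))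
    (hcR : ∀ z x, c z = c x → √d * sg z x ≤ R) (bz : ℂ → ℂ)
    (hbz : ∀ z, bz z ∈ s ∧ sg z (bz z) < 1 / (4 * √d)) (I : Finset ℂ)
    (hI : ∀ z ∈ I, (Wr P B).eval z = 0 ∧ χ0 ≤ chiT d L c Z (bz z)) (j : Fin N) :
    ((I.filter (fun z => c (bz z) = j)).card : ℝ) ≤
      64 * (R + 1) ^ 2 * (10 ^ 30 / (χ0 ^ 2 * r ^ 8)) := by
  classical
  have hL0 : 0 < L := by linarith
  obtain ⟨X0, hX0⟩ : ∃ X0 : ℝ, X0 = 10 ^ 30 / (χ0 ^ 2 * r ^ 8) := ⟨_, rfl⟩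
  have hX00 : 0 ≤ X0 := by rw [hX0]; positivity
  rw [← hX0]
  obtain ⟨U, hU⟩ : ∃ U : Finset ℂ, U = I.filter (fun z => c (bz z) = j) := ⟨_, rfl⟩
  rw [← hU]
  have hUm : ∀ z, z ∈ U ↔ z ∈ I ∧ c (bz z) = j := by
    intro z
    rw [hU, Finset.mem_filter]
  rcases U.eq_empty_or_nonempty with hemp | ⟨z0, hz0⟩
  · rw [hemp, Finset.card_empty]
    push_cast
    positivity
  have hch : ∀ z : ℂ, ∃ u : ℂ, ‖u‖ ≤ 1 / 2 ∧ 1 - conj (bz z) * (u / ((√d : ℝ) : ℂ)) ≠ 0 ∧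
      ph (bz z) (u / ((√d : ℝ) : ℂ)) = z := fun z => chart_pt d hd (bz z) z (hbz z).2
  choose uu hu1 hu2 hu3 using hch
  have h1 : U.card ≤ ⌊X0⌋₊ * (U.image bz).card := by
    apply Finset.card_le_mul_card_image
    intro b hb
    obtain ⟨z1, hz1, hz1b⟩ := Finset.mem_image.1 hb
    have hbs : b ∈ s := by rw [← hz1b]; exact (hbz z1).1
    have hbχ : χ0 ≤ chiT d L c Z b := by rw [← hz1b]; exact (hI z1 ((hUm z1).1 hz1).1).2
    obtain ⟨hf, hnc⟩ := loc_cnt hr hr1 hχ0 hbχ (chiT_le_one d L hL0 c Z b) (hAb b hbs)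
      (hBb b hbs) (hPb b hbs) (hPA b hbs) (hn b hbs)
    rw [← hX0] at hnc
    have hnc2 := Nat.le_floor hnc
    rw [Set.ncard_eq_toFinset_card _ hf] at hnc2
    refine le_trans ?_ hnc2
    apply Finset.card_le_card_of_injOn uu
    · intro z hz
      rw [Finset.mem_coe, Finset.mem_filter] at hz
      rw [Finset.mem_coe, Set.Finite.mem_toFinset]
      have hm := hu2 z
      have hp := hu3 z
      rw [hz.2] at hm hp
      refine ⟨by have := hu1 z; linarith, ?_⟩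
      rw [sn_wr d hd b (w b) (hw.pos b) P B hP hB (uu z) hm, hp]
      exact (hI z ((hUm z).1 hz.1).1).1
    · intro z hz z' hz' h
      rw [Finset.mem_coe, Finset.mem_filter] at hz hz'
      have hp := hu3 z
      have hp' := hu3 z'
      rw [hz.2] at hp
      rw [hz'.2] at hp'
      rw [← hp, ← hp', h]
  have h2 : U.image bz ⊆ s.filter (fun b => √d * sg (bz z0) b ≤ R) := by
    intro b hb
    obtain ⟨z1, hz1, hz1b⟩ := Finset.mem_image.1 hb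
    rw [Finset.mem_filter, ← hz1b]
    refine ⟨(hbz z1).1, hcR _ _ ?_⟩
    rw [((hUm z0).1 hz0).2, ((hUm z1).1 hz1).2]
  have h3 := net_card d hd s hs (bz z0) R hR
  have h4 : ((U.image bz).card : ℝ) ≤ 64 * (R + 1) ^ 2 :=
    le_trans (by exact_mod_cast Finset.card_le_card h2) h3
  calc (U.card : ℝ) ≤ (⌊X0⌋₊ : ℝ) * ((U.image bz).card : ℝ) := by exact_mod_cast h1
    _ ≤ X0 * (64 * (R + 1) ^ 2) :=
        mul_le_mul (Nat.floor_le hX00) h4 (Nat.cast_nonneg _) hX00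
    _ = 64 * (R + 1) ^ 2 * X0 := by ring

end Pool.Agent.H91.PR
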