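import Pool.Agent.H91.LD.Localize
import Pool.Agent.H91.LD.Near
import Pool.Agent.H91.PR.Dual
import Pool.Agent.H91.PR.DualInf
import Pool.Agent.H91.PR.ItemA

/-!
# [H91 PR ITEMS] polynomials that move the critical values of a cell by prescribed amounts

`P = Pj chiT A + t0`. `p0_EB`, `p0_wm` (`200 ≤ L` by `k1`) of `ItemA` bound `P`; `EB (sn A) (4*10^5)`, `EB (sn B) (4*10^5)` by `sn_EB`.
Items: `I = (Wr P B).roots.toFinset`; `Wr P B ≠ 0`: its coefficient of `X^(2d-2)` is `P_d B_(d-1) - P_(d-1) B_d ≠ 0` (or: if the chart condition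
`2 χ0 ≤ chiT b` holds for some `b ∈ s`, `wr (sn P) (sn B)` is not identically zero near a zero by `loc_low`, `wr_hasDeriv`; if it holds for no `b ∈ s`
the last claim is empty, `K1 = K2 = 0`). For `z : ℂ` choose `bz z ∈ s` with `sg z (bz z) < 1/(4√d)` (`Cov`), `uz z` with `chart_pt`.
`I' = {z ∈ I | χ0 ≤ chiT (bz z)}`. For `z ∈ I'` `loc_low` and `dual_elt` (`l = χ0 r^4/4`, `κ = χ0 r^8/10^9`) give `G1 z`, `G2 z`. Put
`Ki j = ∑ z ∈ I' with c (bz z) = j, C (τ z) * Gi z`.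
* Bound: `cell_count`: at most `64 (R+1)^2 * 10^30/(χ0^2 r^8)` terms, each `≤ sh * 10^27 * 4 * 10^9/(χ0^2 r^12) w z` (`wm_add_le`, `wm_C_mul`).
* Let `b ∈ s`, `2 χ0 ≤ chiT b`, `‖u‖ ≤ 1`, `wr (sn P) (sn B) u = 0`. By `dual_inf` `1 - conj b (u/√d) ≠ 0`; `z1 = ph b (u/√d) ∈ I` (`sn_wr`). `b1 = bz z1`:
  `√d sg b b1 ≤ ‖u‖ + 1/4 ≤ 5/4` (`sg_tri`, `sg_ph_zero`). `chiT b1 ≥ 2 χ0 - 5/(4L) ≥ χ0` (`chiT_lip`) and `c b1 = c b`: otherwise
  `b1` is not in the set `{c x = c b, x ∉ Z}` and `cut_le` gives `2 χ0 ≤ (5/4)/L`, impossible by `k1`. So `z1 ∈ I'`, in the cell `c b`.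
  For `z ∈ I'` in the same cell `√d sg (bz z) z1 ≤ R + 1/4 < √d`, so `1 + conj (bz z) z1 ≠ 0` (`one_sub_sg_sq`). So by `dual_elt`
  (`z1 ≠ z = ph (bz z) (uz z/√d)` for the other items) `K1 z1 B z1 - P z1 K2 z1 = τ z1 (B z1)^2` (`Ki = Ki (c b)`). Multiply by the square of the
  factor in `sn_eval`.
-/

set_option autoImplicit false

open Polynomial MeasureTheory ComplexConjugate

namespace Pool.Agent.H91.PR

open Pool.Agent.H85.LD Pool.Agent.H91.LD Pool.Agent.H44.Fatou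

variable {N : ℕ}

private theorem it_wm_sum (d : ℕ) {ι : Type} (s : Finset ι) (F : ι → ℂ[X]) (z : ℂ) :
    wm d (∑ i ∈ s, F i) z ≤ ∑ i ∈ s, wm d (F i) z := by
  classical
  induction s using Finset.induction_on with
  | empty => simp [wm]
  | insert a s ha ih =>
    rw [Finset.sum_insert ha, Finset.sum_insert ha]
    exact (wm_add_le d _ _ z).trans (by linarith)

private theorem it_sg (d : ℕ) (hd : 1 ≤ d) (b u : ℂ)
    (hm : 1 - conj b * (u / ((√d : ℝ) : ℂ)) ≠ 0) :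
    √d * sg b (ph b (u / ((√d : ℝ) : ℂ))) ≤ ‖u‖ := by
  have hd0 : (0 : ℝ) < √d := Real.sqrt_pos.2 (by exact_mod_cast (by omega : 0 < d))
  rw [sg_ph_zero b _ hm]
  have h1 : ‖u / ((√d : ℝ) : ℂ)‖ = ‖u‖ / √d := by
    rw [norm_div, Complex.norm_real, Real.norm_of_nonneg hd0.le]
  have h2 : (1 : ℝ) ≤ √(1 + ‖u / ((√d : ℝ) : ℂ)‖ ^ 2) := by
    rw [Real.one_le_sqrt]
    have := sq_nonneg ‖u / ((√d : ℝ) : ℂ)‖
    linarith
  have h3 : ‖u / ((√d : ℝ) : ℂ)‖ / √(1 + ‖u / ((√d : ℝ) : ℂ)‖ ^ 2) ≤ ‖u / ((√d : ℝ) : ℂ)‖ :=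
    div_le_self (norm_nonneg _) h2
  calc √d * (‖u / ((√d : ℝ) : ℂ)‖ / √(1 + ‖u / ((√d : ℝ) : ℂ)‖ ^ 2))
      ≤ √d * ‖u / ((√d : ℝ) : ℂ)‖ := mul_le_mul_of_nonneg_left h3 hd0.le
    _ = ‖u‖ := by
      rw [h1]
      field_simp

private theorem it_ne (b z : ℂ) (h : sg b z < 1) : 1 + conj b * z ≠ 0 := by
  intro h0
  have h1 : 1 + b * conj z = 0 := by
    have h2 := congrArg conj h0
    simpa using h2
  have h2 := one_sub_sg_sq b z
  rw [h1, norm_zero] at h2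
  have h3 := sg_nonneg b z
  have h4 : (0 : ℝ) ^ 2 / ((1 + ‖b‖ ^ 2) * (1 + ‖z‖ ^ 2)) = 0 := by
    rw [zero_pow two_ne_zero, zero_div]
  rw [h4] at h2
  nlinarith

private theorem it_sum_bound (d : ℕ) (w : ℂ → ℝ) (hw : Wgt d w) (J : Finset ℂ) (τ : ℂ → ℝ)
    (sh KK M : ℝ) (hsh : 0 ≤ sh) (hKK : 0 ≤ KK) (hτ : ∀ z, |τ z| ≤ sh) (hJ : (J.card : ℝ) ≤ M)
    (G : ℂ → ℂ[X]) (hG : ∀ z ∈ J, ∀ x, wm d (G z) x ≤ KK * w x) (x : ℂ) :
    wm d (∑ z ∈ J, C ((τ z : ℝ) : ℂ) * G z) x ≤ M * (sh * KK) * w x := by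
  have hwx := hw.pos x
  refine (it_wm_sum d J _ x).trans ?_
  have h1 : ∀ z ∈ J, wm d (C ((τ z : ℝ) : ℂ) * G z) x ≤ sh * KK * w x := by
    intro z hz
    rw [wm_C_mul, Complex.norm_real, Real.norm_eq_abs]
    have h2 := hG z hz x
    have h3 := wm_nonneg d (G z) x
    calc |τ z| * wm d (G z) x ≤ sh * (KK * w x) := mul_le_mul (hτ z) h2 h3 hsh
      _ = sh * KK * w x := by ring
  refine (Finset.sum_le_card_nsmul J _ _ h1).trans ?_
  rw [nsmul_eq_mul]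
  have h4 : 0 ≤ sh * KK * w x := by positivity
  calc (J.card : ℝ) * (sh * KK * w x) ≤ M * (sh * KK * w x) := mul_le_mul_of_nonneg_right hJ h4
    _ = M * (sh * KK) * w x := by ring

theorem exists_moves (d : ℕ) (hd : 1 ≤ d) (r χ0 L R δ : ℝ) (hr : 0 < r) (hr1 : r ≤ 1)
    (hχ0 : 0 < χ0) (hχ1 : χ0 ≤ 1) (hL : 1 ≤ L) (hR : 0 ≤ R) (hRd : R + 4 ≤ √(d : ℝ)) (hδ : 0 ≤ δ)
    (hδ1 : δ ≤ 1) (k1 : 5 * 10 ^ 7 / L + 2 * 10 ^ 5 * δ ≤ χ0 ^ 2 * r ^ 12 / 10 ^ 30)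
    (s : Finset ℂ) (hs : Sep d s) (hcov : Cov d s) (w : ℂ → ℝ) (hw : Wgt d w) (A B t0 : ℂ[X])
    (hA : A.natDegree ≤ d) (hA2 : ∀ z, wm d A z ≤ 2 * w z) (hB : B.natDegree ≤ d)
    (hB2 : ∀ z, wm d B z ≤ 2 * w z) (ht0 : t0.natDegree ≤ d) (ht0w : ∀ z, wm d t0 z ≤ δ * w z)
    (hn : ∀ b ∈ s, NDf r (sn d b (w b) A) (sn d b (w b) B)) (c : ℂ → Fin N) (Z : Set ℂ)
    (hcR : ∀ z x, c z = c x → √d * sg z x ≤ R) (P : ℂ[X]) (hP : P = Pj d (chiT d L c Z) A + t0)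
    (hinf : P.coeff d * B.coeff (d - 1) ≠ P.coeff (d - 1) * B.coeff d) (sh : ℝ) (hsh : 0 ≤ sh)
    (τ : ℂ → ℝ) (hτ : ∀ z, |τ z| ≤ sh) :
    ∃ K1 K2 : Fin N → ℂ[X], (∀ j, (K1 j).natDegree ≤ d) ∧ (∀ j, (K2 j).natDegree ≤ d) ∧
      (∀ j z, wm d (K1 j) z ≤ 10 ^ 69 * (R + 1) ^ 2 / (χ0 ^ 4 * r ^ 20) * sh * w z) ∧
      (∀ j z, wm d (K2 j) z ≤ 10 ^ 69 * (R + 1) ^ 2 / (χ0 ^ 4 * r ^ 20) * sh * w z) ∧
      ∀ b ∈ s, 2 * χ0 ≤ chiT d L c Z b → ∀ u : ℂ, ‖u‖ ≤ 1 →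
        wr (sn d b (w b) P) (sn d b (w b) B) u = 0 →
        1 - conj b * (u / ((√d : ℝ) : ℂ)) ≠ 0 ∧
        sn d b (w b) (K1 (c b)) u * sn d b (w b) B u - sn d b (w b) P u * sn d b (w b) (K2 (c b)) u =
          ((τ (ph b (u / ((√d : ℝ) : ℂ))) : ℝ) : ℂ) * (sn d b (w b) B u) ^ 2 := by
  classical
  have hL0 : 0 < L := by linarith
  have hd0 : (0 : ℝ) < √d := Real.sqrt_pos.2 (by exact_mod_cast (by omega : 0 < d))
  have hr12 : r ^ 12 ≤ 1 := pow_le_one₀ hr.le hr1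
  have hr12' : 0 < r ^ 12 := by positivity
  have hη0 : 0 < χ0 ^ 2 * r ^ 12 := by positivity
  have hη1 : χ0 ^ 2 * r ^ 12 ≤ χ0 := by
    calc χ0 ^ 2 * r ^ 12 ≤ χ0 ^ 2 * 1 := mul_le_mul_of_nonneg_left hr12 (by positivity)
      _ = χ0 * χ0 := by ring
      _ ≤ χ0 * 1 := mul_le_mul_of_nonneg_left hχ1 hχ0.le
      _ = χ0 := by ring
  have hLi : 5 * 10 ^ 7 / L ≤ χ0 / 10 ^ 30 := by
    have h1 : χ0 ^ 2 * r ^ 12 / 10 ^ 30 ≤ χ0 / 10 ^ 30 :=
      div_le_div_of_nonneg_right hη1 (by norm_num)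
    have h2 : 0 ≤ 2 * 10 ^ 5 * δ := by positivity
    linarith
  have hLi2 : 1 / L ≤ χ0 / 10 ^ 30 := by
    refine le_trans ?_ hLi
    exact div_le_div_of_nonneg_right (by norm_num) hL0.le
  have hLi3 : 5 / 4 / L ≤ χ0 / 2 := by
    have h1 : 5 / 4 / L = 5 / 4 * (1 / L) := by ring
    rw [h1]
    have h2 : χ0 / 10 ^ 30 ≤ χ0 / 4 := by
      apply div_le_div_of_nonneg_left hχ0.le (by norm_num) (by norm_num)
    linarith
  have hL200 : 200 ≤ L := by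
    have h1 : 1 / L ≤ 1 / 200 := by
      refine hLi2.trans ?_
      rw [div_le_div_iff₀ (by norm_num) (by norm_num)]
      linarith
    rw [div_le_div_iff₀ hL0 (by norm_num)] at h1
    linarith
  have hPd : P.natDegree ≤ d := by
    rw [hP]
    exact Polynomial.natDegree_add_le_of_degree_le (Pj_deg _ _ _) ht0
  have hPE := fun b => p0_EB d hd r χ0 L δ hr hr1 hχ0 hχ1 hL hδ k1 w hw A t0 hA hA2 ht0 ht0w c Z P
    hP b
  have hPw : ∀ z, wm d P z ≤ 4 * w z := by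
    intro z
    rw [hP]
    exact p0_wm d hd L δ hL200 hδ hδ1 w hw A t0 hA hA2 ht0 ht0w c Z z
  have hAE : ∀ b, EB (sn d b (w b) A) (10 ^ 6) := fun b =>
    (sn_EB d hd w hw b A hA 2 (by norm_num) (fun z _ => hA2 z)).mono (by norm_num)
  have hBE : ∀ b, EB (sn d b (w b) B) (10 ^ 6) := fun b =>
    (sn_EB d hd w hw b B hB 2 (by norm_num) (fun z _ => hB2 z)).mono (by norm_num)
  have hBw : ∀ z, wm d B z ≤ 4 * w z := by
    intro z
    have h1 := hB2 z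
    have h2 := hw.pos z
    linarith
  have hcov' : ∀ z : ℂ, ∃ b, b ∈ s ∧ sg z b < 1 / (4 * √d) := hcov
  choose bz hbz using hcov'
  have hch : ∀ z, ∃ u : ℂ, ‖u‖ ≤ 1 / 2 ∧ 1 - conj (bz z) * (u / ((√d : ℝ) : ℂ)) ≠ 0 ∧
      ph (bz z) (u / ((√d : ℝ) : ℂ)) = z := fun z => chart_pt d hd (bz z) z (hbz z).2
  choose uz huz1 huz2 huz3 using hch
  have hlow : ∀ b ∈ s, χ0 ≤ chiT d L c Z b → ∀ u : ℂ, ‖u‖ ≤ 1 →
      wr (sn d b (w b) P) (sn d b (w b) B) u = 0 →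
      χ0 * r ^ 4 / 4 ≤ ‖wr1 (sn d b (w b) P) (sn d b (w b) B) u‖ ∧
        χ0 * r ^ 8 / 10 ^ 9 ≤ ‖sn d b (w b) B u‖ := by
    intro b hb hχb u hu h0
    exact loc_low hr hr1 hχ0 hχb (chiT_le_one d L hL0 c Z b) (hAE b) (hBE b) (hPE b).2 (hPE b).1
      (hn b hb) u hu h0
  obtain ⟨KK, hKK⟩ : ∃ KK : ℝ, KK = 10 ^ 27 / (χ0 * r ^ 4 / 4 * (χ0 * r ^ 8 / 10 ^ 9)) := ⟨_, rfl⟩
  have hKK0 : 0 ≤ KK := by
    rw [hKK]
    positivity
  have hl1 : χ0 * r ^ 4 / 4 ≤ 1 := by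
    have h1 : r ^ 4 ≤ 1 := pow_le_one₀ hr.le hr1
    have h2 : χ0 * r ^ 4 ≤ 1 * 1 := mul_le_mul hχ1 h1 (by positivity) (by norm_num)
    linarith
  have hκ1 : χ0 * r ^ 8 / 10 ^ 9 ≤ 1 := by
    have h1 : r ^ 8 ≤ 1 := pow_le_one₀ hr.le hr1
    have h2 : χ0 * r ^ 8 ≤ 1 * 1 := mul_le_mul hχ1 h1 (by positivity) (by norm_num)
    rw [div_le_one (by norm_num)]
    linarith
  have hex : ∀ z, ∃ G1 G2 : ℂ[X], ((Wr P B).eval z = 0 ∧ χ0 ≤ chiT d L c Z (bz z)) →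
      (G1.natDegree ≤ d ∧ G2.natDegree ≤ d ∧ (∀ x, wm d G1 x ≤ KK * w x) ∧
        (∀ x, wm d G2 x ≤ KK * w x) ∧
        (∀ x, 1 + conj (bz z) * x ≠ 0 → x ≠ z → (Wr P B).eval x = 0 →
          G1.eval x * B.eval x - P.eval x * G2.eval x = 0) ∧
        (G1.eval z * B.eval z - P.eval z * G2.eval z = B.eval z ^ 2)) := by
    intro z
    by_cases hz : (Wr P B).eval z = 0 ∧ χ0 ≤ chiT d L c Z (bz z)
    · obtain ⟨hz1, hz2⟩ := hz
      have h0 : wr (sn d (bz z) (w (bz z)) P) (sn d (bz z) (w (bz z)) B) (uz z) = 0 := by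
        rw [sn_wr d hd (bz z) (w (bz z)) (hw.pos _) P B hPd hB (uz z) (huz2 z), huz3 z]
        exact hz1
      have hu1 : ‖uz z‖ ≤ 1 := (huz1 z).trans (by norm_num)
      obtain ⟨hl, hκ⟩ := hlow (bz z) (hbz z).1 hz2 (uz z) hu1 h0
      have h := dual_elt d hd w hw P B hPd hB hPw hBw (bz z) (uz z) (huz1 z) (huz2 z)
        (χ0 * r ^ 4 / 4) (χ0 * r ^ 8 / 10 ^ 9) (by positivity) hl1 (by positivity) hκ1 h0 hl hκ
      rw [huz3 z, ← hKK] at h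
      obtain ⟨G1, G2, h1, h2, h3, h4, h5, h6⟩ := h
      exact ⟨G1, G2, fun _ => ⟨h1, h2, h3, h4, h5, h6⟩⟩
    · exact ⟨0, 0, fun h => absurd h hz⟩
  choose G1 G2 hG using hex
  obtain ⟨I, hI⟩ : ∃ I : Finset ℂ, I = (Wr P B).roots.toFinset.filter
      (fun z => χ0 ≤ chiT d L c Z (bz z)) := ⟨_, rfl⟩
  have hImem : ∀ z ∈ I, (Wr P B).eval z = 0 ∧ χ0 ≤ chiT d L c Z (bz z) := by
    intro z hz
    rw [hI, Finset.mem_filter, Multiset.mem_toFinset] at hz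
    exact ⟨Polynomial.IsRoot.def.1 (Polynomial.isRoot_of_mem_roots hz.1), hz.2⟩
  have hcard : ∀ j : Fin N, ((I.filter (fun z => c (bz z) = j)).card : ℝ) ≤
      64 * (R + 1) ^ 2 * (10 ^ 30 / (χ0 ^ 2 * r ^ 8)) := fun j =>
    cell_count d hd r χ0 L R hr hr1 hχ0 hχ1 hL hR s hs w hw A B P hB hPd (fun b _ => hAE b)
      (fun b _ => hBE b) (fun b _ => (hPE b).2) c Z (fun b _ => (hPE b).1) hn hcR bz hbz I hImem j
  have hconst : 64 * (R + 1) ^ 2 * (10 ^ 30 / (χ0 ^ 2 * r ^ 8)) * (sh * KK) ≤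
      10 ^ 69 * (R + 1) ^ 2 / (χ0 ^ 4 * r ^ 20) * sh := by
    have e1 : 64 * (R + 1) ^ 2 * (10 ^ 30 / (χ0 ^ 2 * r ^ 8)) * (sh * KK) =
        256 * 10 ^ 66 * (R + 1) ^ 2 / (χ0 ^ 4 * r ^ 20) * sh := by
      rw [hKK]
      field_simp
      ring
    rw [e1]
    have h1 : 256 * 10 ^ 66 * (R + 1) ^ 2 ≤ 10 ^ 69 * (R + 1) ^ 2 :=
      mul_le_mul_of_nonneg_right (by norm_num) (by positivity)
    exact mul_le_mul_of_nonneg_right (div_le_div_of_nonneg_right h1 (by positivity)) hsh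
  refine ⟨fun j => ∑ z ∈ I.filter (fun z => c (bz z) = j), C ((τ z : ℝ) : ℂ) * G1 z,
    fun j => ∑ z ∈ I.filter (fun z => c (bz z) = j), C ((τ z : ℝ) : ℂ) * G2 z, ?_, ?_, ?_, ?_, ?_⟩
  · intro j
    apply Polynomial.natDegree_sum_le_of_forall_le
    intro z hz
    exact (Polynomial.natDegree_C_mul_le _ _).trans
      (hG z (hImem z (Finset.mem_filter.1 hz).1)).1
  · intro j
    apply Polynomial.natDegree_sum_le_of_forall_le
    intro z hz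
    exact (Polynomial.natDegree_C_mul_le _ _).trans
      (hG z (hImem z (Finset.mem_filter.1 hz).1)).2.1
  · intro j x
    have h1 := it_sum_bound d w hw (I.filter (fun z => c (bz z) = j)) τ sh KK _ hsh hKK0 hτ
      (hcard j) G1 (fun z hz => (hG z (hImem z (Finset.mem_filter.1 hz).1)).2.2.1) x
    exact h1.trans (mul_le_mul_of_nonneg_right hconst (hw.pos x).le)
  · intro j x
    have h1 := it_sum_bound d w hw (I.filter (fun z => c (bz z) = j)) τ sh KK _ hsh hKK0 hτ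
      (hcard j) G2 (fun z hz => (hG z (hImem z (Finset.mem_filter.1 hz).1)).2.2.2.1) x
    exact h1.trans (mul_le_mul_of_nonneg_right hconst (hw.pos x).le)
  · intro b hb hχb u hu h0
    have hm : 1 - conj b * (u / ((√d : ℝ) : ℂ)) ≠ 0 :=
      dual_inf d hd b (w b) (hw.pos b) P B hPd hB hinf u h0
    refine ⟨hm, ?_⟩
    have hχb' : χ0 ≤ chiT d L c Z b := by linarith
    obtain ⟨z1, hz1⟩ : ∃ z1 : ℂ, z1 = ph b (u / ((√d : ℝ) : ℂ)) := ⟨_, rfl⟩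
    have hz1e : (Wr P B).eval z1 = 0 := by
      rw [hz1]
      exact (sn_wr d hd b (w b) (hw.pos b) P B hPd hB u hm).1 h0
    have hW0 : Wr P B ≠ 0 := by
      intro hW
      have hnb : {v : ℂ | 1 - conj b * (v / ((√d : ℝ) : ℂ)) ≠ 0} ∈ nhds u := by
        apply IsOpen.mem_nhds _ hm
        exact isOpen_ne_fun (by fun_prop) continuous_const
      have hev : wr (sn d b (w b) P) (sn d b (w b) B) =ᶠ[nhds u] fun _ => 0 := by
        filter_upwards [hnb] with v hv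
        rw [sn_wr d hd b (w b) (hw.pos b) P B hPd hB v hv, hW, eval_zero]
      have h1 : HasDerivAt (wr (sn d b (w b) P) (sn d b (w b) B)) 0 u :=
        (hasDerivAt_const u (0 : ℂ)).congr_of_eventuallyEq hev
      have h2 := (wr_hasDeriv (hPE b).2.1 (hBE b).1 u).unique h1
      have h3 := (hlow b hb hχb' u hu h0).1
      rw [h2, norm_zero] at h3
      have h4 : 0 < χ0 * r ^ 4 / 4 := by positivity
      linarith
    have hd1 : √d * sg b z1 ≤ 1 := by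
      rw [hz1]
      exact (it_sg d hd b u hm).trans hu
    have hd2 : √d * sg z1 (bz z1) ≤ 1 / 4 := by
      have h1 := (hbz z1).2
      have h2 : √d * sg z1 (bz z1) ≤ √d * (1 / (4 * √d)) := mul_le_mul_of_nonneg_left h1.le hd0.le
      refine h2.trans (le_of_eq ?_)
      field_simp
    have hd3 : √d * sg b (bz z1) ≤ 5 / 4 := by
      have h1 := mul_le_mul_of_nonneg_left (sg_tri b z1 (bz z1)) hd0.le
      rw [mul_add] at h1
      linarith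
    have hd4 : √d / L * sg b (bz z1) ≤ χ0 / 2 := by
      have h1 : √d / L * sg b (bz z1) = √d * sg b (bz z1) / L := by ring
      rw [h1]
      exact (div_le_div_of_nonneg_right hd3 hL0.le).trans hLi3
    have hχ1b : χ0 ≤ chiT d L c Z (bz z1) := by
      have h1 := chiT_lip d L hL0 c Z b (bz z1)
      have h2 := abs_le.1 (h1.trans hd4)
      linarith [h2.1]
    have hcc : c (bz z1) = c b := by
      by_contra hcc
      have h1 := cut_le d L hL0 {x | c x = c b ∧ x ∉ Z} b (bz z1) (fun h => hcc h.1)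
      have h2 : chiT d L c Z b ≤ √d * sg b (bz z1) / L := h1
      have h3 : √d * sg b (bz z1) / L ≤ χ0 / 2 :=
        (div_le_div_of_nonneg_right hd3 hL0.le).trans hLi3
      linarith
    have hz1I : z1 ∈ I.filter (fun z => c (bz z) = c b) := by
      rw [Finset.mem_filter, hI, Finset.mem_filter, Multiset.mem_toFinset]
      exact ⟨⟨(Polynomial.mem_roots hW0).2 hz1e, hχ1b⟩, hcc⟩
    have hkey : (∑ z ∈ I.filter (fun z => c (bz z) = c b), C ((τ z : ℝ) : ℂ) * G1 z).eval z1 *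
        B.eval z1 - P.eval z1 *
          (∑ z ∈ I.filter (fun z => c (bz z) = c b), C ((τ z : ℝ) : ℂ) * G2 z).eval z1 =
        ((τ z1 : ℝ) : ℂ) * (B.eval z1) ^ 2 := by
      rw [eval_finsetSum, eval_finsetSum, Finset.sum_mul, Finset.mul_sum,
        ← Finset.sum_sub_distrib]
      have hterm : ∀ z, (C ((τ z : ℝ) : ℂ) * G1 z).eval z1 * B.eval z1 -
          P.eval z1 * (C ((τ z : ℝ) : ℂ) * G2 z).eval z1 =
          ((τ z : ℝ) : ℂ) * ((G1 z).eval z1 * B.eval z1 - P.eval z1 * (G2 z).eval z1) := by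
        intro z
        rw [eval_mul, eval_mul, eval_C]
        ring
      simp only [hterm]
      rw [Finset.sum_eq_single z1]
      · rw [(hG z1 ⟨hz1e, hχ1b⟩).2.2.2.2.2]
      · intro z hz hzne
        rw [Finset.mem_filter] at hz
        have h1 := (hG z (hImem z hz.1)).2.2.2.2.1 z1 ?_ (Ne.symm hzne) hz1e
        · rw [h1, mul_zero]
        · apply it_ne
          have h2 := hcR (bz z) (bz z1) (by rw [hz.2, hcc])
          have h3 := mul_le_mul_of_nonneg_left (sg_tri (bz z) (bz z1) z1) hd0.le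
          rw [mul_add, sg_comm (bz z1) z1] at h3
          have h4 : √d * sg (bz z) z1 < √d * 1 := by linarith
          exact lt_of_mul_lt_mul_left h4 hd0.le
      · intro h
        exact absurd hz1I h
    rw [sn_eval d b (w b) _ ?_ u hm, sn_eval d b (w b) B hB u hm, sn_eval d b (w b) P hPd u hm,
      sn_eval d b (w b) _ ?_ u hm, ← hz1]
    · linear_combination (((1 / √((1 + ‖b‖ ^ 2) ^ d) : ℝ) : ℂ) *
        (1 - conj b * (u / ((√d : ℝ) : ℂ))) ^ d / ((w b : ℝ) : ℂ)) ^ 2 * hkey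
    · apply Polynomial.natDegree_sum_le_of_forall_le
      intro z hz
      exact (Polynomial.natDegree_C_mul_le _ _).trans
        (hG z (hImem z (Finset.mem_filter.1 hz).1)).2.1
    · apply Polynomial.natDegree_sum_le_of_forall_le
      intro z hz
      exact (Polynomial.natDegree_C_mul_le _ _).trans
        (hG z (hImem z (Finset.mem_filter.1 hz).1)).1

end Pool.Agent.H91.PR
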